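import Pool.Agent.H917.A9
import Pool.Graph.R_seed8.W602.GT.Defs
import Pool.Graph.R_seed8.Y174.T2

/-!
# PROJECT LOG: algebraic definitions
-/

set_option autoImplicit false
set_option linter.overlappingInstances false
set_option linter.unusedSectionVars false

open FF MvPolynomial Pool.Agent.W603.LV Pool.Agent.W619.PQ Pool.Agent.Y174.BR
  Pool.Agent.W619.TW Pool.Agent.TH143.HE Pool.Agent.W619.Y

namespace Pool.Agent.H917.Lg

section

variable {k C L : Type} [Field k] [Field C] [Field L] [Algebra C L] [Algebra k L]

/-- the derivatives of the chart coordinates, logarithmic derivatives for the indices in `B j` -/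
noncomputable def lch {n : ℕ} (D : Derivation k L L) (B : Fin n → Finset (Fin n)) (y : Fin n → L)
    (j : Fin n) : Fin n → L :=
  fun i => if i ∈ B j then D (y i / y j) / (y i / y j) else D (y i / y j)

/-- the chart coordinates and their (logarithmic) derivatives -/
noncomputable def lch2 {n : ℕ} (D : Derivation k L L) (B : Fin n → Finset (Fin n)) (y : Fin n → L)
    (j : Fin n) : Fin n ⊕ Fin n → L := Sum.elim (ch y j) (lch D B y j)

variable (C) in
/-- The values of generating logarithmic symmetric differentials of degree `m` are constants. -/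
structure SDL (D : Derivation k L L) {n : ℕ} (B : Fin n → Finset (Fin n)) (y : Fin n → L) (m : ℕ) :
    Prop where
  rel : ∀ j, y j ≠ 0 → ∃ (N : ℕ) (q : Fin N → MvPolynomial (Fin n ⊕ Fin n) k),
    (∀ l (u v : Fin n → L) (c : L), aeval (Sum.elim u fun i => c * v i) (q l) =
      c ^ m * aeval (Sum.elim u v) (q l)) ∧
    (∀ l, ∃ c : C, aeval (lch2 D B y j) (q l) = algebraMap C L c) ∧
    ∀ I : Fin m → Fin n, ∃ b : Fin N → MvPolynomial (Fin n) k,
      ∏ i, lch D B y j (I i) = ∑ l, aeval (ch y j) (b l) * aeval (lch2 D B y j) (q l)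

/-- The form `Q` has the same zeros as the products of the chart coordinates with indices in
`B j`. -/
structure BdK {n : ℕ} (B : Fin n → Finset (Fin n)) (Q : MvPolynomial (Fin n) k) (y : Fin n → L) :
    Prop where
  off : aeval y Q ≠ 0
  b1 : ∀ j, y j ≠ 0 → ∀ b ∈ B j, ∃ (N : ℕ) (c : MvPolynomial (Fin n) k),
    aeval (ch y j) Q ^ N = y b / y j * aeval (ch y j) c
  b2 : ∀ j, y j ≠ 0 → ∃ (N : ℕ) (c : MvPolynomial (Fin n) k),
    (∏ b ∈ B j, y b / y j) ^ N = aeval (ch y j) Q * aeval (ch y j) c

variable (C) in
/-- The point `y` of the complement of `Q = 0` moves by linear maps with coefficients in `C` under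
the derivation `D`. -/
def LinSysA (D : Derivation k L L) {n : ℕ} (Q : MvPolynomial (Fin n) k) (q : ℕ) (y : Fin n → L) :
    Prop :=
  ∃ (r : ℕ) (h : Fin r → L) (A : Fin r → Fin r → C),
    (∀ i, D (h i) = ∑ j, algebraMap C L (A i j) * h j) ∧
    ∀ α : Fin n →₀ ℕ, ∑ i, α i = q → ∃ b : Fin r → C,
      (∏ i, y i ^ α i) / aeval y Q = ∑ j, algebraMap C L (b j) * h j

/-- The functions with at most simple poles along `Q = 0` at the places in `V`. -/
def WQ [Algebra k C] [IsScalarTower k C L] (V : Set (Place C L)) {n : ℕ}
    (Q : MvPolynomial (Fin n) k) (y : Fin n → L) : Submodule C L where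
  carrier := {g | ∀ P ∈ V, ∀ j, y j ≠ 0 → (∀ i, P.Reg (y i / y j)) →
    P.Reg (g * aeval (ch y j) Q)}
  add_mem' := by
    intro a b ha hb P hP j hj hr
    rw [add_mul]
    exact P.reg_add (ha P hP j hj hr) (hb P hP j hj hr)
  zero_mem' := by
    intro P _ j _ _
    rw [zero_mul]
    exact P.reg_zero
  smul_mem' := by
    intro c a ha P hP j hj hr
    rw [Algebra.smul_def, mul_assoc]
    exact P.reg_mul (P.reg_const c) (ha P hP j hj hr)

end

section

variable {k F : Type} [Field k] [CharZero k] [Field F] [Algebra k F]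

/-- The derivation `D` is regular at `P`, and logarithmic if `P` is in the boundary. -/
def PresB (Bd : Place k F → Prop) (P : Place k F) (D : Derivation k F F) : Prop :=
  Pres P D ∧ (Bd P → ∀ f, P.Reg (D f / f))

/-- The functions `g` such that the form `g (dt)^N` is regular at all places in `V`, with
logarithmic poles at the places in the boundary. -/
def WL (Bd : Place k F → Prop) (V : Set (Place k F)) {e : ℕ} (t : Fin e → F) (N : ℕ) :
    Submodule k F where
  carrier := {g | ∀ P ∈ V, ∀ G : Fin e → Derivation k F F, (∀ i, PresB Bd P (G i)) →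
    P.Reg ((Matrix.of fun i j => G i (t j)).det ^ N * g)}
  add_mem' := by
    intro a b ha hb P hP G hG
    rw [mul_add]
    exact P.reg_add (ha P hP G hG) (hb P hP G hG)
  zero_mem' := by
    intro P _ G _
    rw [mul_zero]
    exact P.reg_zero
  smul_mem' := by
    intro c a ha P hP G hG
    rw [mul_smul_comm, Algebra.smul_def]
    exact P.reg_mul (P.reg_const c) (ha P hP G hG)

/-- the polynomial `q` gives a symmetric differential along the foliation `t = const` which is
regular at the places in `V`, with logarithmic poles at the places in the boundary -/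
def RegSymL (Bd : Place k F → Prop) (V : Set (Place k F)) {κ r : ℕ} (t : Fin κ → F)
    (η : Fin r → F) (q : MvPolynomial (Fin r) F) : Prop :=
  ∀ P ∈ V, ∀ D : Derivation k F F, PresB Bd P D → (∀ i, D (t i) = 0) →
    P.Reg (eval (fun c => D (η c)) q)

end

end Pool.Agent.H917.Lg
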