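import Pool.Agent.H917.C6
import Pool.Agent.H917.L.P0

/-!
# PROJECT LOG (helper917), task C0: pluricanonical forms with logarithmic poles

## Paper proof
This is the port of the parts of `A2` (`WN_mul`, `WN_pow`, `WN_int`), `A8` (`WN_one`, `WN_prod`, `WN_hom`, `exists_mul`), `C1` (`RegSym.mul`, `RegSym.prod`, `form_of_sym`), `C2` (`WN_change`, `gt_of_forms`,
`iitaka_core`, `exists_iitaka`), `C4` (`coeff_alg`) of `Pool/Agent/H917` from `WN V`, `RegSym V`, `Pres P` to `WL Bd V`, `RegSymL Bd V`, `PresB Bd P` (definitions in `L/P0.lean`). The proofs are word for word the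
same; the only facts which are needed about `PresB` are: it implies `Pres`, and it is closed under sums, differences and multiples with coefficients regular at `P`
(`D f / f` is additive in `D`); everywhere else replace `hG _ f hf` by `(hG _).1 f hf`. Use `sed` on copies of the old proofs, in your own namespace for the auxiliary lemmas.
For `exists_iitakaL`: in `lgt_of_forms` (the port of `gt_of_forms`) one has to show for the forms `ω_j(D) = det (D i (z l))^N g j`: `LogAt P (ω j)` for all divisorial `P`: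
a family with `DerLog P (D i)` (`∀ f, P.Reg (D i f / f)`) satisfies `PresB Bd P (D i)`; and `RegAt P (ω j)` for divisorial `P` with `¬ Bd P`: `DerReg P D` is `Pres P D`, and the second condition in `PresB` is void.
-/

set_option autoImplicit false
set_option linter.overlappingInstances false
set_option linter.unusedSectionVars false

open FF MvPolynomial Pool.Agent.W603.LV Pool.Agent.W619.PQ Pool.Agent.W602.GT
  Pool.Agent.W619.TW Pool.Agent.W619.Y Pool.Agent.Y174 Pool.Agent.Y174.T

namespace Pool.Agent.H917.Lg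

variable {k F : Type} [Field k] [CharZero k] [Field F] [Algebra k F]

namespace C0aux

theorem presB_comb {Bd : Place k F → Prop} {P : Place k F} {ι : Type} (s : Finset ι) (c : ι → F)
    (D : ι → Derivation k F F) (hc : ∀ i ∈ s, P.Reg (c i)) (hD : ∀ i ∈ s, PresB Bd P (D i)) :
    PresB Bd P (∑ i ∈ s, c i • D i) := by
  refine ⟨pres_comb s c D hc fun i hi => (hD i hi).1, fun hP f => ?_⟩
  rw [der_sum, Finset.sum_div]
  refine Ge.sum _ _ fun i hi => ?_
  rw [mul_div_assoc]
  exact P.reg_mul (hc i hi) ((hD i hi).2 hP f)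

theorem presB_sub {Bd : Place k F → Prop} {P : Place k F} {D D' : Derivation k F F}
    (h : PresB Bd P D) (h' : PresB Bd P D') : PresB Bd P (D - D') := by
  refine ⟨fun f hf => ?_, fun hP f => ?_⟩
  · rw [Derivation.sub_apply]
    exact reg_sub' (h.1 f hf) (h'.1 f hf)
  · rw [Derivation.sub_apply, sub_div]
    exact reg_sub' (h.2 hP f) (h'.2 hP f)

section

variable {Bd : Place k F → Prop} {V : Set (Place k F)} {e : ℕ} {t : Fin e → F} {N : ℕ}

theorem WL_mul {N' : ℕ} {g g' : F} (hg : g ∈ WL Bd V t N) (hg' : g' ∈ WL Bd V t N') :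
    g * g' ∈ WL Bd V t (N + N') := by
  intro P hP G hG
  have h := P.reg_mul (hg P hP G hG) (hg' P hP G hG)
  rw [show (Matrix.of fun i j => G i (t j)).det ^ (N + N') * (g * g') =
    (Matrix.of fun i j => G i (t j)).det ^ N * g *
      ((Matrix.of fun i j => G i (t j)).det ^ N' * g') by ring]
  exact h

theorem WL_pow {g : F} (hg : g ∈ WL Bd V t N) : ∀ n : ℕ, g ^ n ∈ WL Bd V t (n * N)
  | 0 => by
    intro P _ _ _
    rw [Nat.zero_mul, pow_zero, pow_zero, one_mul]
    exact P.reg_one
  | (n + 1) => by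
    rw [pow_succ, Nat.succ_mul]
    exact WL_mul (WL_pow hg n) hg

/-- **Integrality.** -/
theorem WL_int {d : ℕ} {a : ℕ → F} (ha : ∀ i ≤ d, a i ∈ WL Bd V t N) {b : F} (had : a d ≠ 0)
    (h : ∑ i ∈ Finset.range (d + 1), a i * b ^ i = 0) : a d * b ∈ WL Bd V t N := by
  intro P hP G hG
  obtain ⟨J, hJ⟩ : ∃ J, J = (Matrix.of fun i j => G i (t j)).det ^ N := ⟨_, rfl⟩
  have hJa : ∀ i ≤ d, P.Reg (J * a i) := fun i hi => by
    rw [hJ]
    exact ha i hi P hP G hG
  rw [← hJ]
  have hd : 0 < d := by
    rcases Nat.eq_zero_or_pos d with h0 | h0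
    · subst h0
      simp at h
      exact absurd h had
    · exact h0
  -- `c = J a_d b` is a root of the monic polynomial with the coefficients `J a_i (J a_d)^(d-1-i)`
  refine reg_of_monic (d := d) (a := fun i => J * a i * (J * a d) ^ (d - 1 - i)) ?_ ?_
  · intro i hi
    exact P.reg_mul (hJa i hi.le) (reg_pow' (hJa d le_rfl) _)
  · have h1 : (J * (a d * b)) ^ d + ∑ i ∈ Finset.range d,
        J * a i * (J * a d) ^ (d - 1 - i) * (J * (a d * b)) ^ i =
        J * (J * a d) ^ (d - 1) * ∑ i ∈ Finset.range (d + 1), a i * b ^ i := by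
      rw [Finset.sum_range_succ, mul_add, Finset.mul_sum, add_comm]
      congr 1
      · refine Finset.sum_congr rfl fun i hi => ?_
        have hi' := Finset.mem_range.1 hi
        have h2 : (J * a d) ^ (d - 1) = (J * a d) ^ (d - 1 - i) * (J * a d) ^ i := by
          rw [← pow_add]
          congr 1
          omega
        rw [h2, ← mul_assoc J (a d) b, mul_pow (J * a d) b i]
        ring
      · obtain ⟨d', rfl⟩ := Nat.exists_eq_succ_of_ne_zero hd.ne'
        rw [Nat.succ_sub_one, ← mul_assoc J (a _) b, mul_pow, pow_succ (J * a _)]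
        ring
    rw [h1, h, mul_zero]

theorem WL_one : (1 : F) ∈ WL Bd V t 0 := by
  intro P _ _ _
  rw [pow_zero, one_mul]
  exact P.reg_one

theorem WL_prod {ι : Type} (s : Finset ι) (g : ι → F) (n : ι → ℕ)
    (h : ∀ i ∈ s, g i ∈ WL Bd V t (n i)) : ∏ i ∈ s, g i ∈ WL Bd V t (∑ i ∈ s, n i) := by
  classical
  induction s using Finset.induction_on with
  | empty =>
    rw [Finset.prod_empty, Finset.sum_empty]
    exact WL_one
  | insert i s hi ih =>
    rw [Finset.prod_insert hi, Finset.sum_insert hi]
    exact WL_mul (h i (Finset.mem_insert_self i s))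
      (ih fun j hj => h j (Finset.mem_insert_of_mem hj))

end

/-- **The pluricanonical forms given by symmetric differentials along a foliation.** -/
theorem form_of_symL {Bd : Place k F → Prop} {V : Set (Place k F)} {κ r q' N w : ℕ} {t : Fin κ → F} {η : Fin r → F}
    (hw : ∀ A : Matrix (Fin r) (Fin r) F, chi q' A = A.det ^ w) (hw1 : 1 ≤ w)
    {z : Fin (κ + r) → F} (hz : z = Fin.append t η) {g0 : F}
    (hg0 : g0 ∈ WL Bd V z N) (hg : ∀ i, t i * g0 ∈ WL Bd V z N)
    (J : Ex r q' → homogeneousSubmodule (Fin r) F q')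
    (hJ : ∀ j, RegSymL Bd V t η (J j : MvPolynomial (Fin r) F)) :
    haveI : DecidableEq (Ex r q') := Classical.decEq _
    (cf J).det * g0 ^ (2 * κ * w) ∈ WL Bd V z (w + 2 * κ * w * N) := by
  classical
  intro P hP G hG
  obtain ⟨Δ, hΔ⟩ : ∃ Δ, Δ = (cf J).det := ⟨_, rfl⟩
  have hcf : @Matrix.det _ (Classical.decEq _) _ _ _ (cf J) = Δ := by
    rw [hΔ]
    exact congrArg (fun i => @Matrix.det _ i _ _ _ (cf J)) (Subsingleton.elim _ _)
  rw [hcf]
  obtain ⟨M, hM⟩ : ∃ M : Matrix (Fin (κ + r)) (Fin (κ + r)) F, M = Matrix.of fun i j => G i (z j) :=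
    ⟨_, rfl⟩
  rw [← hM]
  by_cases hcase : ∃ a : Fin κ → Fin (κ + r), (Matrix.of fun i j => G (a i) (t j)).det ≠ 0
  swap
  · -- all minors vanish
    have hdet : M.det = 0 := by
      by_contra hne
      apply hcase
      -- the columns are independent
      have h1 : LinearIndependent F (fun j => M.transpose j) := by
        have h2 : M.transpose.det ≠ 0 := by rwa [Matrix.det_transpose]
        exact Matrix.linearIndependent_rows_iff_isUnit.2
          ((Matrix.isUnit_iff_isUnit_det _).2 (isUnit_iff_ne_zero.2 h2))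
      have h2 : LinearIndependent F fun (j : Fin κ) (i : Fin (κ + r)) => G i (t j) := by
        have h3 := h1.comp (Fin.castAdd r) (Fin.castAdd_injective κ r)
        have h4 : (fun (j : Fin κ) (i : Fin (κ + r)) => G i (t j)) =
            (fun j => M.transpose j) ∘ Fin.castAdd r := by
          funext j i
          simp only [Function.comp_apply, Matrix.transpose_apply, hM, Matrix.of_apply, hz,
            Fin.append_left]
        rw [h4]
        exact h3
      -- the row space is everything
      have h4 : Submodule.span F (Set.range fun (i : Fin (κ + r)) (j : Fin κ) => G i (t j)) = ⊤ := by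
        by_contra hcon
        obtain ⟨φ, hφ0, hφ⟩ := Submodule.exists_le_ker_of_lt_top _ (lt_top_iff_ne_top.2 hcon)
        apply hφ0
        let c : Fin κ → F := fun j => φ (Pi.single j 1)
        have hφc : ∀ x : Fin κ → F, φ x = ∑ j, x j * c j := by
          intro x
          have h5 : x = ∑ j, x j • (Pi.single j (1 : F) : Fin κ → F) := by
            funext i
            rw [Finset.sum_apply]
            simp [Pi.single_apply]
          conv_lhs => rw [h5]
          rw [map_sum]
          refine Finset.sum_congr rfl fun j _ => ?_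
          rw [map_smul, smul_eq_mul]
        have h5 : ∑ j, c j • (fun i : Fin (κ + r) => G i (t j)) = 0 := by
          funext i
          rw [Finset.sum_apply, Pi.zero_apply]
          have h6 := hφ (Submodule.subset_span ⟨i, rfl⟩)
          change φ _ = 0 at h6
          rw [hφc] at h6
          rw [← h6]
          refine Finset.sum_congr rfl fun j _ => ?_
          rw [Pi.smul_apply, smul_eq_mul, mul_comm]
        have h6 := Fintype.linearIndependent_iff.1 h2 c h5
        apply LinearMap.ext
        intro x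
        rw [hφc, LinearMap.zero_apply]
        exact Finset.sum_eq_zero fun j _ => by rw [h6 j, mul_zero]
      obtain ⟨β, hβ⟩ := exists_det (I := Fin κ)
        (fun (i : Fin (κ + r)) (j : Fin κ) => G i (t j)) h4
      exact ⟨β, hβ⟩
    rw [hdet, zero_pow (by omega), zero_mul]
    exact P.reg_zero
  obtain ⟨e, lam, hδ, hlam, hrel⟩ := exists_minor P (fun i j => G i (t j)) hcase
  -- the adapted vector fields
  let T : Fin r → Derivation k F F := fun c => G (e (Sum.inr c)) -
    ∑ i, lam c i • G (e (Sum.inl i))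
  have hTp : ∀ c, PresB Bd P (T c) := by
    intro c
    exact presB_sub (hG _) (presB_comb (P := P) Finset.univ (lam c) (fun i => G (e (Sum.inl i)))
      (fun i _ => hlam c i) (fun i _ => hG _))
  have hTa : ∀ c f, T c f = G (e (Sum.inr c)) f - ∑ i, lam c i * G (e (Sum.inl i)) f := by
    intro c f
    change (G (e (Sum.inr c)) - ∑ i, lam c i • G (e (Sum.inl i))) f = _
    rw [Derivation.sub_apply, der_sum]
  have hTt : ∀ c j, T c (t j) = 0 := by
    intro c j
    rw [hTa, hrel c j, sub_self]
  obtain ⟨δ, hδd⟩ : ∃ δ, δ = (Matrix.of fun i j => G (e (Sum.inl i)) (t j)).det := ⟨_, rfl⟩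
  obtain ⟨A, hA⟩ : ∃ A : Matrix (Fin r) (Fin r) F, A = Matrix.of fun c j => T c (η j) := ⟨_, rfl⟩
  -- the determinant
  obtain ⟨ε, hε, hdet⟩ := det_perm M e (finSumFinEquiv (m := κ) (n := r))
  have hblock : M.submatrix e (finSumFinEquiv (m := κ) (n := r)) = Matrix.fromBlocks
      (Matrix.of fun i j => G (e (Sum.inl i)) (t j)) (Matrix.of fun i j => G (e (Sum.inl i)) (η j))
      (Matrix.of fun i j => G (e (Sum.inr i)) (t j))
      (Matrix.of fun i j => G (e (Sum.inr i)) (η j)) := by
    ext i j
    rcases i with i | i <;> rcases j with j | j <;>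
      simp [hM, hz]
  have hschur : (Matrix.fromBlocks
      (Matrix.of fun i j => G (e (Sum.inl i)) (t j)) (Matrix.of fun i j => G (e (Sum.inl i)) (η j))
      (Matrix.of fun i j => G (e (Sum.inr i)) (t j))
      (Matrix.of fun i j => G (e (Sum.inr i)) (η j))).det = δ * A.det := by
    have h1 : Matrix.fromBlocks (1 : Matrix (Fin κ) (Fin κ) F) 0 (-(Matrix.of lam))
        (1 : Matrix (Fin r) (Fin r) F) * (Matrix.fromBlocks
      (Matrix.of fun i j => G (e (Sum.inl i)) (t j)) (Matrix.of fun i j => G (e (Sum.inl i)) (η j))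
      (Matrix.of fun i j => G (e (Sum.inr i)) (t j))
      (Matrix.of fun i j => G (e (Sum.inr i)) (η j))) = Matrix.fromBlocks
        (Matrix.of fun i j => G (e (Sum.inl i)) (t j))
        (Matrix.of fun i j => G (e (Sum.inl i)) (η j)) 0 A := by
      rw [Matrix.fromBlocks_multiply]
      congr 1
      · simp
      · simp
      · ext c j
        rw [Matrix.add_apply, Matrix.mul_apply, Matrix.one_mul, Matrix.of_apply, Matrix.zero_apply,
          hrel c j]
        simp
      · ext c j
        rw [Matrix.add_apply, Matrix.mul_apply, Matrix.one_mul, Matrix.of_apply, hA,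
          Matrix.of_apply, hTa]
        simp only [Matrix.neg_apply, Matrix.of_apply, neg_mul, Finset.sum_neg_distrib]
        ring
    have h2 := congrArg Matrix.det h1
    rw [Matrix.det_mul, Matrix.det_fromBlocks_zero₁₂, Matrix.det_one, Matrix.det_one, one_mul,
      one_mul, Matrix.det_fromBlocks_zero₂₁, ← hδd] at h2
    exact h2
  have hMdet : M.det = ε * (δ * A.det) := by rw [hdet, hblock, hschur]
  -- the base form
  obtain ⟨b0, hb0⟩ : ∃ b0, b0 = M.det ^ N * g0 := ⟨_, rfl⟩
  have hb0r : P.Reg b0 := by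
    rw [hb0, hM]
    exact hg0 P hP G hG
  have hb1r : ∀ i, P.Reg (t i * b0) := by
    intro i
    have h1 := hg i P hP G hG
    rw [← hM] at h1
    rw [hb0, show t i * (M.det ^ N * g0) = M.det ^ N * (t i * g0) by ring]
    exact h1
  have hpart1 : P.Reg (δ * b0 ^ (2 * κ)) := by
    have h1 : δ * b0 ^ (2 * κ) =
        (Matrix.of fun i j => b0 ^ 2 * G (e (Sum.inl i)) (t j)).det := by
      have h2 : (Matrix.of fun i j => b0 ^ 2 * G (e (Sum.inl i)) (t j)) =
          b0 ^ 2 • (Matrix.of fun i j => G (e (Sum.inl i)) (t j)) := by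
        ext i j
        simp
      rw [h2, Matrix.det_smul, Fintype.card_fin, ← hδd, ← pow_mul, mul_comm]
    rw [h1]
    refine Pool.Agent.W619.PQ.ge_det P _ fun i j => ?_
    have h2 : b0 ^ 2 * G (e (Sum.inl i)) (t j) = b0 * G (e (Sum.inl i)) (t j * b0) -
        (t j * b0) * G (e (Sum.inl i)) b0 := by
      rw [Derivation.leibniz]
      simp only [smul_eq_mul]
      ring
    rw [Matrix.of_apply, h2]
    exact reg_sub' (P.reg_mul hb0r ((hG _).1 _ (hb1r j))) (P.reg_mul (hb1r j) ((hG _).1 _ hb0r))
  -- the symmetric differentials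
  obtain ⟨β, hβ⟩ := exists_points k F r q'
  have hpart2 : P.Reg (A.det ^ w * Δ) := by
    have h1 := det_sub (fun l i => algebraMap k F (β l i)) A J
    rw [hw A, ← hΔ] at h1
    obtain ⟨c, hc⟩ : ∃ c : k, algebraMap k F c = (Matrix.of fun (l d : Ex r q') =>
        eval (fun i => algebraMap k F (β l i)) (mono F r q' d : MvPolynomial (Fin r) F)).det := by
      refine ⟨(Matrix.of fun (l d : Ex r q') =>
        eval (β l) (mono k r q' d : MvPolynomial (Fin r) k)).det, ?_⟩
      rw [RingHom.map_det]
      congr 1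
      ext l d
      rw [RingHom.mapMatrix_apply, Matrix.map_apply, Matrix.of_apply, Matrix.of_apply]
      change algebraMap k F (eval (β l) (monomial d.1 1)) =
        eval (fun i => algebraMap k F (β l i)) (monomial d.1 1)
      rw [eval_monomial, eval_monomial, one_mul, one_mul, Finsupp.prod, Finsupp.prod, map_prod]
      refine Finset.prod_congr rfl fun i _ => ?_
      rw [map_pow]
    have hc0 : c ≠ 0 := by
      rintro rfl
      rw [map_zero] at hc
      exact hβ hc.symm
    have h2 : P.Reg (Matrix.of fun l j : Ex r q' => eval (fun i => algebraMap k F (β l i))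
        (sub A (J j : MvPolynomial (Fin r) F))).det := by
      refine Pool.Agent.W619.PQ.ge_det P _ fun l j => ?_
      rw [Matrix.of_apply, Pool.Agent.Y174.T.eval_sub]
      have h3 := hJ j P hP (∑ i, algebraMap k F (β l i) • T i)
        (presB_comb Finset.univ _ T (fun i _ => P.reg_const _) fun i _ => hTp i) (fun i => by
          rw [der_sum]
          exact Finset.sum_eq_zero fun c _ => by rw [hTt, mul_zero])
      have h4 : (fun c => (∑ i, algebraMap k F (β l i) • T i) (η c)) =
          fun c => ∑ i, algebraMap k F (β l i) * A i c := by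
        funext c
        rw [der_sum, hA]
        rfl
      rw [h4] at h3
      exact h3
    rw [h1, ← hc, mul_assoc] at h2
    have h3 := P.reg_mul (P.reg_const c⁻¹) h2
    rw [← mul_assoc, ← map_mul, inv_mul_cancel₀ hc0, map_one, one_mul] at h3
    exact h3
  have hfin : M.det ^ (w + 2 * κ * w * N) * (Δ * g0 ^ (2 * κ * w)) =
      ε ^ w * ((δ * b0 ^ (2 * κ)) ^ w * (A.det ^ w * Δ)) := by
    have h1 : M.det ^ (w + 2 * κ * w * N) * (Δ * g0 ^ (2 * κ * w)) =
        M.det ^ w * (M.det ^ N * g0) ^ (2 * κ * w) * Δ := by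
      rw [mul_pow, pow_add, show 2 * κ * w * N = N * (2 * κ * w) by ring, pow_mul]
      ring
    rw [h1, ← hb0, hMdet, mul_pow, mul_pow, mul_pow, pow_mul]
    ring
  rw [hfin]
  refine P.reg_mul ?_ (P.reg_mul (reg_pow' hpart1 w) hpart2)
  refine reg_pow' ?_ w
  rcases hε with rfl | rfl
  · exact P.reg_one
  · exact P.reg_neg P.reg_one

/-- change of the frame -/
theorem WL_change {Bd : Place k F → Prop} {V : Set (Place k F)} {d N : ℕ} {z z' : Fin d → F}
    {E' : Fin d → Derivation k F F} (hz' : Frm z' E') {g : F} (hg : g ∈ WL Bd V z N) :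
    (Matrix.of fun i j => E' i (z j)).det ^ N * g ∈ WL Bd V z' N := by
  intro P hP G hG
  have h1 := hg P hP G hG
  rw [hz'.det_chain G z, mul_pow, mul_assoc] at h1
  exact h1

/-- There are `κ + 1` pluricanonical forms with algebraically independent ratios. -/
def HasFormsL (Bd : Place k F → Prop) (V : Set (Place k F)) (d κ : ℕ) : Prop :=
  ∃ (z : Fin d → F) (E : Fin d → Derivation k F F) (N : ℕ) (g : Fin (κ + 1) → F), Frm z E ∧
    1 ≤ N ∧ (∀ j, g j ∈ WL Bd V z N) ∧ g 0 ≠ 0 ∧
    AlgebraicIndependent k fun i : Fin κ => g i.succ / g 0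

theorem lgt_of_forms {Bd : Place k F → Prop} {d : ℕ} (htr : Algebra.trdeg k F = d)
    (h : HasFormsL Bd {P : Place k F | Divisorial d P} d d) : LogGeneralType k F d Bd := by
  obtain ⟨z, E, N, g, hz, hN, hg, hg0, hind⟩ := h
  have hE : (Matrix.of fun i j => E i (z j)).det = 1 := by
    have h2 : (Matrix.of fun i j => E i (z j)) = 1 := by
      ext i j
      rw [Matrix.of_apply, hz.dual, Matrix.one_apply]
    rw [h2, Matrix.det_one]
  refine ⟨htr, N, hN, fun j D => (Matrix.of fun i l => D i (z l)).det ^ N * g j,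
    fun j A D => ?_, fun P hP j D hD => hg j P hP D fun i => ⟨fun f hf => ?_, fun _ => hD i⟩,
    fun P hP hB j D hD => hg j P hP D fun i => ⟨hD i, fun h => absurd h hB⟩, E, ?_, ?_⟩
  · have h1 : (Matrix.of fun i l => (∑ j, A i j • D j) (z l)) =
        A * Matrix.of fun i l => D i (z l) := by
      ext i l
      rw [Matrix.of_apply, der_sum, Matrix.mul_apply]
      rfl
    change (Matrix.of fun i l => (∑ j, A i j • D j) (z l)).det ^ N * g j =
      A.det ^ N * ((Matrix.of fun i l => D i (z l)).det ^ N * g j)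
    rw [h1, Matrix.det_mul, mul_pow, mul_assoc]
  · by_cases hf0 : f = 0
    · rw [hf0, map_zero]
      exact P.reg_zero
    · have h1 := P.reg_mul (hD i f) hf
      rwa [div_mul_cancel₀ _ hf0] at h1
  · change (Matrix.of fun i l => E i (z l)).det ^ N * g 0 ≠ 0
    rw [hE, one_pow, one_mul]
    exact hg0
  · have h1 : (fun i : Fin d => (Matrix.of fun i l => E i (z l)).det ^ N * g i.succ /
        ((Matrix.of fun i l => E i (z l)).det ^ N * g 0)) = fun i : Fin d => g i.succ / g 0 := by
      funext i
      rw [hE, one_pow, one_mul, one_mul]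
    change AlgebraicIndependent k (fun i : Fin d => (Matrix.of fun i l => E i (z l)).det ^ N *
      g i.succ / ((Matrix.of fun i l => E i (z l)).det ^ N * g 0))
    rw [h1]
    exact hind

theorem iitaka_coreL {Bd : Place k F → Prop} {d κ : ℕ} (htr : Algebra.trdeg k F = d) (hκ : κ < d) {V : Set (Place k F)}
    {t : Fin κ → F} (ht : AlgebraicIndependent k t)
    (h1 : ∀ (z : Fin d → F) (E : Fin d → Derivation k F F), Frm z E →
      ∃ (N : ℕ) (g0 : F), g0 ≠ 0 ∧ g0 ∈ WL Bd V z N ∧ ∀ i : Fin κ, t i * g0 ∈ WL Bd V z N)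
    (h2 : ∀ (z : Fin d → F) (E : Fin d → Derivation k F F), Frm z E →
      ∀ N' : ℕ, 1 ≤ N' → ∀ a ∈ WL Bd V z N', ∀ b ∈ WL Bd V z N', a ≠ 0 →
        IsAlgebraic (IntermediateField.adjoin k (Set.range t)) (b / a)) :
    ∃ (κ r : ℕ) (_ : d = κ + r) (t : Fin κ → F) (η : Fin r → F)
      (E : Fin (κ + r) → Derivation k F F), 1 ≤ r ∧ Frm (Fin.append t η) E ∧
      (∃ (N : ℕ) (g0 : F), g0 ≠ 0 ∧
        g0 ∈ WL Bd V (Fin.append t η) N ∧
        ∀ i : Fin κ, t i * g0 ∈ WL Bd V (Fin.append t η) N) ∧
      ∀ N' : ℕ, 1 ≤ N' → ∀ a ∈ WL Bd V (Fin.append t η) N',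
        ∀ b ∈ WL Bd V (Fin.append t η) N', a ≠ 0 →
        IsAlgebraic (IntermediateField.adjoin k (Set.range t)) (b / a) := by
  obtain ⟨r, hr, η, hη⟩ := extend_basis htr ht
  subst hr
  obtain ⟨E, hE⟩ := exists_frm hη
  exact ⟨κ, r, rfl, t, η, E, by omega, hE, h1 _ E hE, h2 _ E hE⟩

end C0aux

open C0aux

theorem RegSymL.mul {Bd : Place k F → Prop} {V : Set (Place k F)} {κ r : ℕ} {t : Fin κ → F}
    {η : Fin r → F} {q q' : MvPolynomial (Fin r) F} (h : RegSymL Bd V t η q)
    (h' : RegSymL Bd V t η q') : RegSymL Bd V t η (q * q') := by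
  intro P hP D hD hDt
  rw [map_mul]
  exact P.reg_mul (h P hP D hD hDt) (h' P hP D hD hDt)

theorem RegSymL.prod {Bd : Place k F → Prop} {V : Set (Place k F)} {κ r : ℕ} {t : Fin κ → F}
    {η : Fin r → F} {ι : Type} (s : Finset ι) {q : ι → MvPolynomial (Fin r) F}
    (h : ∀ i ∈ s, RegSymL Bd V t η (q i)) : RegSymL Bd V t η (∏ i ∈ s, q i) := by
  classical
  induction s using Finset.induction_on with
  | empty =>
    intro P hP D hD hDt
    rw [Finset.prod_empty, map_one]
    exact P.reg_one
  | insert a s ha ih =>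
    rw [Finset.prod_insert ha]
    exact (h a (Finset.mem_insert_self a s)).mul (ih fun i hi => h i (Finset.mem_insert_of_mem hi))

/-- **The Iitaka fibration.** -/
theorem exists_iitakaL {Bd : Place k F → Prop} {d : ℕ} (hd1 : 1 ≤ d) (htr : Algebra.trdeg k F = d)
    (hngt : ¬ LogGeneralType k F d Bd) :
    ∃ (κ r : ℕ) (_ : d = κ + r) (t : Fin κ → F) (η : Fin r → F)
      (E : Fin (κ + r) → Derivation k F F), 1 ≤ r ∧ Frm (Fin.append t η) E ∧
      (∃ (N : ℕ) (g0 : F), g0 ≠ 0 ∧
        g0 ∈ WL Bd {P : Place k F | Divisorial d P} (Fin.append t η) N ∧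
        ∀ i : Fin κ, t i * g0 ∈ WL Bd {P : Place k F | Divisorial d P} (Fin.append t η) N) ∧
      ∀ N' : ℕ, 1 ≤ N' → ∀ a ∈ WL Bd {P : Place k F | Divisorial d P} (Fin.append t η) N',
        ∀ b ∈ WL Bd {P : Place k F | Divisorial d P} (Fin.append t η) N', a ≠ 0 →
        IsAlgebraic (IntermediateField.adjoin k (Set.range t)) (b / a) := by
  classical
  obtain ⟨V, hV⟩ : ∃ V : Set (Place k F), V = {P : Place k F | Divisorial d P} := ⟨_, rfl⟩
  have hd : ¬ HasFormsL Bd V d d := fun h => hngt (lgt_of_forms htr (by rw [← hV]; exact h))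
  rw [← hV]
  -- the smallest number
  have hex : ∃ κ, ¬ HasFormsL Bd V d κ := ⟨d, hd⟩
  obtain ⟨κ0, hκ0⟩ : ∃ κ0, κ0 = Nat.find hex := ⟨_, rfl⟩
  have h0 : ¬ HasFormsL Bd V d κ0 := by
    rw [hκ0]
    exact Nat.find_spec hex
  have hle : κ0 ≤ d := by
    rw [hκ0]
    exact Nat.find_min' hex hd
  have hmin : ∀ κ, κ < κ0 → HasFormsL Bd V d κ := by
    intro κ hκ
    rw [hκ0] at hκ
    exact not_not.1 (Nat.find_min hex hκ)
  rcases κ0 with _ | κ
  · refine iitaka_coreL (κ := 0) htr (by omega) (t := Fin.elim0) ?_ (fun z E hE => ?_)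
      fun z E hE N' hN' a ha b hb ha0 => ?_
    · rw [algebraicIndependent_empty_type_iff]
      exact (algebraMap k F).injective
    · exact ⟨0, 1, one_ne_zero, WL_one, fun i => i.elim0⟩
    · exfalso
      apply h0
      refine ⟨z, E, N', fun _ => a, hE, hN', fun _ => ha, ha0, ?_⟩
      rw [algebraicIndependent_empty_type_iff]
      exact (algebraMap k F).injective
  · obtain ⟨z0, E0, N, g, hz0, hN, hg, hg0, hind⟩ := hmin κ (by omega)
    -- the forms in another frame
    have hch : ∀ (z : Fin d → F) (E : Fin d → Derivation k F F), Frm z E →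
        ∃ c : F, c ≠ 0 ∧ ∀ j, c * g j ∈ WL Bd V z N := by
      intro z E hE
      exact ⟨_, pow_ne_zero N (hz0.det_ne hE), fun j => WL_change hE (hg j)⟩
    refine iitaka_coreL (κ := κ) htr (by omega) hind (fun z E hE => ?_)
      fun z E hE N' hN' a ha b hb ha0 => ?_
    · obtain ⟨c, hc, hcg⟩ := hch z E hE
      refine ⟨N, c * g 0, mul_ne_zero hc hg0, hcg 0, fun i => ?_⟩
      rw [show g i.succ / g 0 * (c * g 0) = c * g i.succ by field_simp]
      exact hcg _
    · obtain ⟨c, hc, hcg⟩ := hch z E hE
      by_contra hna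
      apply h0
      refine ⟨z, E, N + N', Fin.cons (c * g 0 * a) (Fin.cons (c * g 0 * b)
        fun i => c * g i.succ * a), hE, by omega, fun j => ?_, ?_, ?_⟩
      · refine Fin.cases ?_ (fun j => ?_) j
        · rw [Fin.cons_zero]
          exact WL_mul (hcg 0) ha
        · rw [Fin.cons_succ]
          refine Fin.cases ?_ (fun j => ?_) j
          · rw [Fin.cons_zero]
            exact WL_mul (hcg 0) hb
          · rw [Fin.cons_succ]
            exact WL_mul (hcg _) ha
      · rw [Fin.cons_zero]
        exact mul_ne_zero (mul_ne_zero hc hg0) ha0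
      · have h1 := indep_cons hind hna
        have h2 : (fun i : Fin (κ + 1) => (Fin.cons (c * g 0 * a) (Fin.cons (c * g 0 * b)
            fun i => c * g i.succ * a) : Fin (κ + 1 + 1) → F) i.succ /
            (Fin.cons (c * g 0 * a) (Fin.cons (c * g 0 * b)
            fun i => c * g i.succ * a) : Fin (κ + 1 + 1) → F) 0) =
            Fin.cons (b / a) fun i : Fin κ => g i.succ / g 0 := by
          funext i
          refine Fin.cases ?_ (fun j => ?_) i
          · simp only [Fin.cons_succ, Fin.cons_zero]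
            field_simp
          · simp only [Fin.cons_succ, Fin.cons_zero]
            field_simp
        rw [h2]
        exact h1

/-- **The coefficients of the relations are algebraic over the base of the Iitaka fibration.** -/
theorem coeff_algL {Bd : Place k F → Prop} {V : Set (Place k F)} {κ r q' N : ℕ} {t : Fin κ → F}
    {η : Fin r → F}
    (hr : 1 ≤ r) (hq : 1 ≤ q') {g0 : F} (hg00 : g0 ≠ 0)
    (hg0 : g0 ∈ WL Bd V (Fin.append t η) N) (hg : ∀ i, t i * g0 ∈ WL Bd V (Fin.append t η) N)
    (halg : ∀ N' : ℕ, 1 ≤ N' → ∀ a ∈ WL Bd V (Fin.append t η) N',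
        ∀ b ∈ WL Bd V (Fin.append t η) N', a ≠ 0 →
        IsAlgebraic (IntermediateField.adjoin k (Set.range t)) (b / a))
    [DecidableEq (Ex r q')]
    (J : Ex r q' → homogeneousSubmodule (Fin r) F q')
    (hJ : ∀ j, RegSymL Bd V t η (J j : MvPolynomial (Fin r) F)) (hJ0 : (cf J).det ≠ 0)
    (s : homogeneousSubmodule (Fin r) F q') (hs : RegSymL Bd V t η (s : MvPolynomial (Fin r) F)) :
    ∃ x : Ex r q' → F, (∀ j, IsAlgebraic (IntermediateField.adjoin k (Set.range t)) (x j)) ∧
      s = ∑ j, x j • J j := by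
  have hF0 : CharZero F := charZero_of_injective_algebraMap (algebraMap k F).injective
  obtain ⟨w, hw1, hw⟩ := chi_eq (K := F) r q'
  have hw1 := hw1 hr hq
  have hinst : (Classical.decEq (Ex r q') : DecidableEq (Ex r q')) = ‹DecidableEq (Ex r q')› :=
    Subsingleton.elim _ _
  have hform : ∀ J' : Ex r q' → homogeneousSubmodule (Fin r) F q',
      (∀ j, RegSymL Bd V t η (J' j : MvPolynomial (Fin r) F)) →
      (cf J').det * g0 ^ (2 * κ * w) ∈ WL Bd V (Fin.append t η) (w + 2 * κ * w * N) := by
    intro J' hJ'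
    have h1 := form_of_symL hw hw1 rfl hg0 hg J' hJ'
    rw [hinst] at h1
    exact h1
  -- the coefficients
  let x : Ex r q' → F := (cf J)⁻¹.mulVec fun d => (T.basis F r q').repr s d
  have hu : IsUnit (cf J).det := isUnit_iff_ne_zero.2 hJ0
  have hx : (cf J).mulVec x = fun d => (T.basis F r q').repr s d := by
    rw [Matrix.mulVec_mulVec, Matrix.mul_nonsing_inv _ hu, Matrix.one_mulVec]
  have hsx : s = ∑ j, x j • J j := by
    apply (T.basis F r q').repr.injective
    ext d
    rw [← congrFun hx d, map_sum, Finsupp.finsetSum_apply]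
    refine Finset.sum_congr rfl fun j _ => ?_
    rw [map_smul, Finsupp.smul_apply, smul_eq_mul, mul_comm]
    rfl
  refine ⟨x, fun j => ?_, hsx⟩
  let J' : Ex r q' → homogeneousSubmodule (Fin r) F q' := Function.update J j s
  have hdet' : (cf J').det = x j * (cf J).det := by
    have h1 : cf J' = (cf J).updateCol j ((cf J).mulVec x) := by
      ext d i
      rw [Matrix.updateCol_apply]
      by_cases hi : i = j
      · subst hi
        rw [if_pos rfl, hx]
        change (T.basis F r q').repr (Function.update J i s i) d = _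
        rw [Function.update_self]
      · rw [if_neg hi]
        change (T.basis F r q').repr (Function.update J j s i) d = _
        rw [Function.update_of_ne hi]
        rfl
    rw [h1]
    have h2 : (cf J).mulVec x = fun d => ∑ i, x i • cf J d i := by
      funext d
      refine Finset.sum_congr rfl fun i _ => ?_
      rw [smul_eq_mul, mul_comm]
    rw [h2, Matrix.det_updateCol_sum]
    rfl
  have hJ'r : ∀ i, RegSymL Bd V t η (J' i : MvPolynomial (Fin r) F) := by
    intro i
    by_cases hi : i = j
    · subst hi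
      have : J' i = s := Function.update_self ..
      rw [this]
      exact hs
    · have : J' i = J i := Function.update_of_ne hi ..
      rw [this]
      exact hJ i
  have h1 := halg (w + 2 * κ * w * N) (by omega) _ (hform J hJ) _ (hform J' hJ'r)
    (mul_ne_zero hJ0 (pow_ne_zero _ hg00))
  rw [hdet'] at h1
  have h2 : x j * (cf J).det * g0 ^ (2 * κ * w) / ((cf J).det * g0 ^ (2 * κ * w)) = x j := by
    have h3 : g0 ^ (2 * κ * w) ≠ 0 := pow_ne_zero _ hg00
    field_simp
  rw [h2] at h1
  exact h1

end Pool.Agent.H917.Lg
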