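import Pool.Agent.H917.L.L1a

/-!
# PROJECT LOG (helper917), task L1 (second half, from compatR on): transfer of logarithmic symmetric differentials to fields

## Paper proof (all of this is a variant of `Pool/Agent/H917/B1.lean` and of `sd_of_gens`, `loc_der` in `B2.lean`; copy the proofs)
* `lloc_div`: `(x i / x j) / (x k / x j) = x i / x k` and the same computation as in `loc_loc` (B1); for the logarithmic entries the
  factor `1 / x_j` in `(x'_i x_j - x_i x'_j) / x_j^2` drops out. `lloc_der`: `D (y i / y j) = (D y_i y_j - y_i D y_j) / y_j^2`.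
* `lclear_den`: induction on the polynomial `q`, as in `clear_den` (B1); the denominators of the entries of `lloc B i u v` are
  `u_i`, `u_i^2` and `u_b u_i` for `b ∈ B i`, which divide `(u_i ∏_{b ∈ B i} u_b)^2`.
* `ltransfer`: apply `transfer` (B1) to `F * rename Sum.inl Q`: it vanishes at all complex `(u, v)` with `TanVec p u v`, `u_j = 1`, `v_j = 0`
  (if `Q u = 0` because of the second factor). So `F * Q = 0` at the point over `R`, and `Q ≠ 0` there.
* `Bdry.b1`: Nullstellensatz for the ideal `J = p + (X j - 1) + (X b)`: by `Bdry`, `Q` vanishes at all complex zeros of `J` (such a zero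
  `u` has `u_j = 1`, so `u ∈ Pts p`), so `Q^N ∈ J` (`MvPolynomial.vanishingIdeal_zeroLocus_eq_radical`, see the proof of `transfer` in B1), i.e.
  `Q^N = h + (X j - 1) a + X b c` with `h ∈ p`. Evaluate at `u`.
* `Bdry.b2`: the same with `J = p + (X j - 1) + (Q)` and the polynomial `∏_{b ∈ B j} X b`.
* `Bdry.ne`: evaluate `Bdry.b1` at `u = x / x_j`: `Q (x / x_j) = Q x / x_j^q ≠ 0`, so `x_b / x_j ≠ 0`. (`p` is homogeneous, so `x / x_j` is a
  zero of `p` as well; see the proofs in B1, e.g. `TanVec.loc`.)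
* `LSymDiff.compatR`: as `SymDiff.compatR` (B1): let `M_i = u_i ∏_{b ∈ B i} u_b`, `M_j` similarly, `P_i`, `P_j` from `lclear_den` with exponents `K_i`, `K_j`.
  The polynomial `M_i M_j (M_j^{K_j} P_i - M_i^{K_i} P_j)` vanishes at all complex `(u, v)` with `u_j = 1`, `v_j = 0`, `Q u ≠ 0`: if `M_i M_j = 0` trivially,
  otherwise by `compat`. So by `ltransfer` it vanishes at `(x / x_j, (x'_i x_j - x_i x'_j) / x_j^2)`, where `M_i, M_j ≠ 0` by `Bdry.ne`.
* `val_eq`, `genR`, `sdl_of_gens`: as `SymDiff.val_eq`, `Gens.genR` (B1; multiply by powers of `M_j`), `sd_of_gens` (B2). `bdk_of_bdry`: `Bdry.b1`, `Bdry.b2` for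
  `u = ch y j`.
-/

set_option autoImplicit false
set_option linter.overlappingInstances false
set_option linter.unusedSectionVars false

open MvPolynomial Metric Set

namespace Pool.Agent.H917.Lg

variable {n : ℕ} {p : Ideal (MvPolynomial (Fin (n + 1)) ℂ)} {Q : MvPolynomial (Fin (n + 1)) ℂ}
  {B : Fin (n + 1) → Finset (Fin (n + 1))}

namespace L1aux

/-- the product of the denominators in the chart `i` -/
noncomputable def MM (B : Fin (n + 1) → Finset (Fin (n + 1))) (i : Fin (n + 1)) :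
    MvPolynomial (Fin (n + 1) ⊕ Fin (n + 1)) ℂ := X (Sum.inl i) * ∏ b ∈ B i, X (Sum.inl b)

theorem aeval_MM {R : Type} [Field R] [Algebra ℂ R] (i : Fin (n + 1)) (u v : Fin (n + 1) → R) :
    aeval (Sum.elim u v) (MM B i) = u i * ∏ b ∈ B i, u b := by
  unfold MM
  rw [map_mul, map_prod, aeval_X, Sum.elim_inl]
  congr 1
  exact Finset.prod_congr rfl fun b _ => by rw [aeval_X, Sum.elim_inl]

theorem eval_MM (i : Fin (n + 1)) (u v : Fin (n + 1) → ℂ) :
    eval (Sum.elim u v) (MM B i) = u i * ∏ b ∈ B i, u b := by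
  rw [← ae, aeval_MM]

theorem ne_of_MM {R : Type} [Field R] {i : Fin (n + 1)} {u : Fin (n + 1) → R}
    (h : u i * ∏ b ∈ B i, u b ≠ 0) : u i ≠ 0 ∧ ∀ b ∈ B i, u b ≠ 0 := by
  refine ⟨left_ne_zero_of_mul h, fun b hb h0 => ?_⟩
  exact right_ne_zero_of_mul h (Finset.prod_eq_zero hb h0)

theorem MM_ne {R : Type} [Field R] {i : Fin (n + 1)} {u : Fin (n + 1) → R}
    (hi : u i ≠ 0) (hb : ∀ b ∈ B i, u b ≠ 0) : u i * ∏ b ∈ B i, u b ≠ 0 :=
  mul_ne_zero hi (Finset.prod_ne_zero_iff.2 hb)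

theorem Q_div {q : ℕ} (hQ : Q.IsHomogeneous q) {R : Type} [Field R] [Algebra ℂ R]
    {x : Fin (n + 1) → R} (hQx : aeval x Q ≠ 0) {j : Fin (n + 1)} (hj : x j ≠ 0) :
    aeval (fun i => x i / x j) Q ≠ 0 := by
  have h3 := Pool.Agent.W603.PV.aeval_scale hQ x (x j)⁻¹
  have h4 : (fun k => x k / x j) = fun k => (x j)⁻¹ * x k := by
    funext k
    rw [div_eq_inv_mul]
  rw [h4, h3]
  exact mul_ne_zero (pow_ne_zero _ (inv_ne_zero hj)) hQx

/-- a polynomial in the logarithmic chart coordinates which vanishes at the complex tangent vectors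
off the boundary vanishes over fields -/
theorem ltransfer2 (hp : Pool.Agent.W603.PV.IsHomog p) {q : ℕ} (hQ : Q.IsHomogeneous q)
    (hB : Bdry p Q B) {j : Fin (n + 1)} {G : MvPolynomial (Fin (n + 1) ⊕ Fin (n + 1)) ℂ}
    (hG : ∀ u v : Fin (n + 1) → ℂ, TanVec p u v → eval u Q ≠ 0 → u j ≠ 0 →
      eval (lloc B j u v) G = 0)
    {R : Type} [Field R] [Algebra ℂ R] {x x' : Fin (n + 1) → R} (h : TanVec p x x')
    (hQx : aeval x Q ≠ 0) (hj : x j ≠ 0) : aeval (lloc B j x x') G = 0 := by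
  obtain ⟨K, P, hP⟩ := lclear_den (B := B) j G
  have h1 := ltransfer (p := p) (Q := Q) (j := j) (F := MM B j * P) (fun u v huv hu hv hQu => by
      rw [map_mul, eval_MM]
      by_cases h0 : u j * ∏ b ∈ B j, u b = 0
      · rw [h0, zero_mul]
      · obtain ⟨h2, h3⟩ := ne_of_MM h0
        have h4 := hP ℂ u v h2 h3
        rw [ae, ae, hG u v huv hQu h2, mul_zero] at h4
        rw [h4, mul_zero]) (h.loc hp hj) (div_self hj) (by rw [mul_comm (x' j), sub_self, zero_div])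
      (Q_div hQ hQx hj)
  have hne : ∀ b ∈ B j, x b / x j ≠ 0 := fun b hb =>
    div_ne_zero (hB.ne hp hQ h.mem hQx hj hb) hj
  have hjj : x j / x j ≠ 0 := div_ne_zero hj hj
  have h2 := hP R (fun k => x k / x j) (fun k => (x' k * x j - x k * x' j) / x j ^ 2) hjj hne
  rw [lloc_div hj hj] at h2
  rw [map_mul, aeval_MM, h2] at h1
  have h3 := MM_ne (B := B) (i := j) (u := fun k => x k / x j) hjj hne
  exact (mul_eq_zero.1 ((mul_eq_zero.1 h1).resolve_left h3)).resolve_left (pow_ne_zero _ h3)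

end L1aux

theorem LSymDiff.compatR (hp : Pool.Agent.W603.PV.IsHomog p) {q : ℕ} (hQ : Q.IsHomogeneous q)
    (hB : Bdry p Q B) {m : ℕ} (s : LSymDiff p Q B m) {R : Type} [Field R] [Algebra ℂ R]
    {x x' : Fin (n + 1) → R} (h : TanVec p x x') (hQx : aeval x Q ≠ 0) {i j : Fin (n + 1)}
    (hi : x i ≠ 0) (hj : x j ≠ 0) :
    aeval (lloc B i x x') (s.pol i) = aeval (lloc B j x x') (s.pol j) := by
  obtain ⟨Ki, Pi, hPi⟩ := lclear_den (B := B) i (s.pol i)
  obtain ⟨Kj, Pj, hPj⟩ := lclear_den (B := B) j (s.pol j)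
  have h1 := ltransfer (p := p) (Q := Q) (j := j) (F := L1aux.MM B i * (L1aux.MM B j *
    (L1aux.MM B j ^ Kj * Pi - L1aux.MM B i ^ Ki * Pj))) (fun u v huv hu hv hQu => by
      rw [map_mul, map_mul, map_sub, map_mul, map_mul, map_pow, map_pow, L1aux.eval_MM,
        L1aux.eval_MM]
      by_cases h0 : u i * ∏ b ∈ B i, u b = 0
      · rw [h0, zero_mul]
      by_cases h0' : u j * ∏ b ∈ B j, u b = 0
      · rw [h0', zero_mul, mul_zero]
      obtain ⟨h2, h3⟩ := L1aux.ne_of_MM h0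
      obtain ⟨h2', h3'⟩ := L1aux.ne_of_MM h0'
      have h4 := hPi ℂ u v h2 h3
      have h4' := hPj ℂ u v h2' h3'
      rw [ae, ae] at h4 h4'
      rw [h4, h4', s.compat i j u v huv hQu h2 h2']
      ring) (h.loc hp hj) (div_self hj) (by rw [mul_comm (x' j), sub_self, zero_div])
      (L1aux.Q_div hQ hQx hj)
  have hnei : ∀ b ∈ B i, x b / x j ≠ 0 := fun b hb =>
    div_ne_zero (hB.ne hp hQ h.mem hQx hi hb) hj
  have hnej : ∀ b ∈ B j, x b / x j ≠ 0 := fun b hb =>
    div_ne_zero (hB.ne hp hQ h.mem hQx hj hb) hj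
  have hij : x i / x j ≠ 0 := div_ne_zero hi hj
  have hjj : x j / x j ≠ 0 := div_ne_zero hj hj
  have h2 := hPi R (fun k => x k / x j) (fun k => (x' k * x j - x k * x' j) / x j ^ 2) hij hnei
  have h2' := hPj R (fun k => x k / x j) (fun k => (x' k * x j - x k * x' j) / x j ^ 2) hjj hnej
  rw [lloc_div hi hj] at h2
  rw [lloc_div hj hj] at h2'
  rw [map_mul, map_mul, map_sub, map_mul, map_mul, map_pow, map_pow, L1aux.aeval_MM,
    L1aux.aeval_MM, h2, h2'] at h1
  have h3 := L1aux.MM_ne (B := B) (i := i) (u := fun k => x k / x j) hij hnei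
  have h3' := L1aux.MM_ne (B := B) (i := j) (u := fun k => x k / x j) hjj hnej
  have h4 := (mul_eq_zero.1 ((mul_eq_zero.1 h1).resolve_left h3)).resolve_left h3'
  have h5 : (x j / x j * ∏ b ∈ B j, x b / x j) ^ Kj * (x i / x j * ∏ b ∈ B i, x b / x j) ^ Ki *
      (aeval (lloc B i x x') (s.pol i) - aeval (lloc B j x x') (s.pol j)) = 0 := by
    linear_combination h4
  have h6 := (mul_eq_zero.1 h5).resolve_left
    (mul_ne_zero (pow_ne_zero _ h3') (pow_ne_zero _ h3))
  exact sub_eq_zero.1 h6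

theorem LSymDiff.val_eq (hp : Pool.Agent.W603.PV.IsHomog p) {q : ℕ} (hQ : Q.IsHomogeneous q)
    (hB : Bdry p Q B) {m : ℕ} (s : LSymDiff p Q B m) {R : Type} [Field R] [Algebra ℂ R]
    {x x' : Fin (n + 1) → R} (h : TanVec p x x') (hQx : aeval x Q ≠ 0) {j : Fin (n + 1)}
    (hj : x j ≠ 0) : s.val x x' = aeval (lloc B j x x') (s.pol j) := by
  unfold LSymDiff.val
  have h0 : ∃ j, x j ≠ 0 := ⟨j, hj⟩
  rw [dif_pos h0]
  exact s.compatR hp hQ hB h hQx h0.choose_spec hj

theorem LGens.genR (hp : Pool.Agent.W603.PV.IsHomog p) {q : ℕ} (hQ : Q.IsHomogeneous q)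
    (hB : Bdry p Q B) {m N : ℕ} {s : Fin N → LSymDiff p Q B m} (hs : LGens p Q B m s)
    (j : Fin (n + 1)) (I : Fin m → Fin (n + 1)) :
    ∃ b : Fin N → MvPolynomial (Fin (n + 1)) ℂ, ∀ (R : Type) [Field R] [Algebra ℂ R]
      (x x' : Fin (n + 1) → R), TanVec p x x' → aeval x Q ≠ 0 → x j ≠ 0 →
      ∏ k, lloc B j x x' (Sum.inr (I k)) =
        ∑ l, aeval (fun i => x i / x j) (b l) * aeval (lloc B j x x') ((s l).pol j) := by
  obtain ⟨b, hb⟩ := hs j I
  refine ⟨b, fun R _ _ x x' h hQx hj => ?_⟩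
  have h1 := L1aux.ltransfer2 (p := p) (Q := Q) (B := B) (j := j) hp hQ hB
    (G := ∏ k, X (Sum.inr (I k)) - ∑ l, rename Sum.inl (b l) * (s l).pol j)
    (fun u v huv hQu hj => by
      have h2 := hb u v huv hQu hj
      rw [map_sub, map_prod, map_sum, sub_eq_zero]
      simp only [eval_X, map_mul, eval_rename]
      exact h2) h hQx hj
  rw [map_sub, map_prod, map_sum, sub_eq_zero] at h1
  simp only [aeval_X, map_mul, aeval_rename] at h1
  exact h1

theorem sdl_of_gens (hp : Pool.Agent.W603.PV.IsHomog p) {q : ℕ} (hQ : Q.IsHomogeneous q)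
    (hB : Bdry p Q B) {m N : ℕ} {s : Fin N → LSymDiff p Q B m} (hs : LGens p Q B m s)
    {C L : Type} [Field C] [Field L] [Algebra C L] [Algebra ℂ C] [Algebra ℂ L]
    [IsScalarTower ℂ C L] (D : Derivation ℂ L L) {y : Fin (n + 1) → L}
    (hy : y ≠ 0) (hm : ∀ H ∈ p, aeval y H = 0) (hQy : aeval y Q ≠ 0)
    (hc : ∀ l, ∃ c : C, (s l).val y (fun i => D (y i)) = algebraMap C L c) : SDL C D B y m := by
  have ht := tanVec_der (p := p) D hy hm
  refine ⟨fun j hj => ⟨N, fun l => (s l).pol j, fun l u v c => aeval_scale_inr ((s l).hom j) u v c,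
    fun l => ?_, fun I => ?_⟩⟩
  · obtain ⟨c, hc⟩ := hc l
    refine ⟨c, ?_⟩
    rw [← hc, (s l).val_eq hp hQ hB ht hQy hj, lloc_der D y hj]
  · obtain ⟨b, hb⟩ := hs.genR hp hQ hB j I
    refine ⟨b, ?_⟩
    have h1 := hb L y _ ht hQy hj
    rw [lloc_der D y hj] at h1
    exact h1

theorem bdk_of_bdry (hp : Pool.Agent.W603.PV.IsHomog p) {q : ℕ} (hQ : Q.IsHomogeneous q)
    (hB : Bdry p Q B) {L : Type} [Field L] [Algebra ℂ L] {y : Fin (n + 1) → L}
    (hy : y ≠ 0) (hm : ∀ H ∈ p, aeval y H = 0) (hQy : aeval y Q ≠ 0) : BdK B Q y := by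
  have ht : TanVec p y (fun _ => 0) := ⟨hy, hm, fun H _ => by simp⟩
  refine ⟨hQy, fun j hj b hb => ?_, fun j hj => ?_⟩
  · obtain ⟨N, c, hc⟩ := hB.b1 j hb
    exact ⟨N, c, hc L (fun i => y i / y j) (ht.loc hp hj).mem (div_self hj)⟩
  · obtain ⟨N, c, hc⟩ := hB.b2 j
    exact ⟨N, c, hc L (fun i => y i / y j) (ht.loc hp hj).mem (div_self hj)⟩

end Pool.Agent.H917.Lg
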