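import Pool.Agent.H917.L.P0

/-!
# PROJECT LOG (helper917), task L3: the space of functions with simple poles on the boundary is finite-dimensional

## Paper proof (a variant of `fin_WN` in `Pool/Agent/H917/A4.lean`; copy that proof)
`Z = Zc T` (`Z_i = T_{i+1} / T_0`) is a transcendence basis and `L` is finite over `C(Z)`. `fin_WN` applies the library theorem
`Pool.Agent.TH756.PN.numLe_pairs` and uses its conclusion `hnu` (a `NumLeP`) for the finite set `{1}` of functions, with forms of degree `N`.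
Here use it for `N = 1`, for the forms `ω_g(G) = det (G_i (Z_j)) * g`, `g ∈ WQ V Q y`, `V = VP y (e + 1)`, and for the finite set `S` of the functions
`a_c = (T_c ^ q / Q(y)) * (T_c / T_0) ^ (2 (e + 1))`, `c : Fin (e + 2)`. (Read the definition of `NumLeP` in `Pool/Graph/R_seed8/TH756/PN`: for every `P ∈ V` and all
`G_i` regular at `P` one needs `a ∈ S`, `a ≠ 0`, with `N * P.ord a - ... ≤ P.ord (ω G)`.)
Let `P ∈ V`. Choose `c` such that `P.ord (T_c)` is minimal (all `T_i ≠ 0` by `HI.ne`), so all `T_i / T_c` are regular; by `PNorm.chart` or `PNorm.reg` all `y_i / T_c` are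
regular; let `j` be an index with `y_j ≠ 0` and all `y_i / y_j` regular (in the definition of `VP`); as the `T_i` are combinations of the `y_i` (`PNorm.mem`), all
`T_i / y_j` are regular, so `T_c / y_j` is a unit (`T_c/y_j` and `y_j/T_c` are regular). For `g ∈ WQ`: `g Q(y) / y_j^q` is regular, so `P.ord g ≥ P.ord (T_c^q / Q(y))`. For `G_i` regular at `P`:
`Z_l = (T_{l+1} / T_c) / (T_0 / T_c)`, so `P.ord (G_i Z_l) ≥ -2 P.ord (T_0 / T_c) = 2 P.ord (T_c / T_0)` (quotient rule, regular numerators), and the determinant of size `e + 1` has order at least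
`2 (e + 1) P.ord (T_c / T_0)`. So `P.ord (ω_g G) ≥ P.ord a_c`.
The hypotheses `H1`, `H0` of `numLe_pairs` are proved in `fin_WN` (word for word the same). Linear independence over `C` of the `g` gives that of the `ω_g` (evaluate at the
dual frame `E` of `Z`, `det = 1`). If `e + 1 = trdeg` this is all; conclude with `rank_le` as in `fin_WN`. `hQ` is used for `aeval (ch y j) Q = Q(y) / y_j^q`.
-/

set_option autoImplicit false
set_option linter.overlappingInstances false
set_option linter.unusedSectionVars false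

open FF MvPolynomial Pool.Agent.W603.LV Pool.Agent.W619.PQ Pool.Agent.Y174.BR
  Pool.Agent.W619.TW Pool.Agent.TH143.HE Pool.Agent.W619.Y

namespace Pool.Agent.H917.Lg

namespace L3aux

theorem ge_quot {C L : Type} [Field C] [Field L] [Algebra C L] {P : Place C L}
    {G : Derivation C L L} (hG : Pres P G) {u v : L} (hv : v ≠ 0) (hu : P.Reg u) (hvr : P.Reg v) :
    Ge P (-2 * P.ord v) (G (u / v)) := by
  have hv0 : 0 ≤ P.ord v := hvr.resolve_left hv
  have h1 : G u = v * G (u / v) + (u / v) * G v := by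
    have h2 := G.leibniz v (u / v)
    rw [smul_eq_mul, smul_eq_mul, mul_div_cancel₀ _ hv] at h2
    exact h2
  have h2 : v * G (u / v) = G u - (u / v) * G v := by rw [h1]; ring
  have h3 : Ge P (- P.ord v) (u / v) := by
    rw [div_eq_mul_inv]
    have h4 : Ge P (0 + - P.ord v) (u * v⁻¹) :=
      Ge.mul (hu : Ge P 0 u) (Or.inr (by rw [P.ord_inv]))
    rwa [zero_add] at h4
  have h5 : Ge P (- P.ord v) (G u - (u / v) * G v) := by
    refine Ge.sub ?_ ?_
    · exact Ge.mono (by omega) (hG u hu : Ge P 0 (G u))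
    · have h6 := h3.mul (hG v hvr : Ge P 0 (G v))
      rwa [add_zero] at h6
  rw [← h2] at h5
  exact (Ge.of_mul hv h5).mono (by omega)

theorem aeval_scale {k L : Type} [Field k] [Field L] [Algebra k L] {n d : ℕ}
    {G : MvPolynomial (Fin n) k} (hd : G.IsHomogeneous d) (c : L) (y : Fin n → L) :
    aeval (fun i => c * y i) G = c ^ d * aeval y G := by
  rw [aeval_def, aeval_def, eval₂_eq, eval₂_eq, Finset.mul_sum]
  refine Finset.sum_congr rfl fun m hm => ?_
  have h1 : ∑ i ∈ m.support, m i = d := by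
    have h2 := hd (mem_support_iff.1 hm)
    rw [Finsupp.weight_apply, Finsupp.sum] at h2
    rw [← h2]
    refine Finset.sum_congr rfl fun i _ => ?_
    simp
  have h3 : ∏ i ∈ m.support, (c * y i) ^ m i = c ^ d * ∏ i ∈ m.support, y i ^ m i := by
    rw [← h1, ← Finset.prod_pow_eq_pow_sum, ← Finset.prod_mul_distrib]
    refine Finset.prod_congr rfl fun i _ => ?_
    rw [mul_pow]
  rw [h3]
  ring

/-- the local estimate -/
theorem local_ge {k C L : Type} [Field k] [Field C] [Field L] [Algebra k C] [Algebra C L]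
    [Algebra k L] [IsScalarTower k C L] {n e : ℕ} {y : Fin n → L}
    {T : Fin (e + 2) → L} (hT : PNorm (C := C) y T) (hne : ∀ i, T i ≠ 0)
    {Q : MvPolynomial (Fin n) k} {q : ℕ} (hQ : Q.IsHomogeneous q) (hoff : aeval y Q ≠ 0)
    {g : L} (hg : g ∈ WQ (C := C) (VP y (e + 1)) Q y) {P : Place C L} (hP : P ∈ VP y (e + 1))
    {G : Fin (e + 1) → Derivation C L L} (hG : ∀ i, Pres P (G i)) :
    ∃ c : Fin (e + 2), Ge P (P.ord ((T c ^ q / aeval y Q) * (T c / T 0) ^ (2 * (e + 1))))
      ((Matrix.of fun i j => G i (Zc T j)).det * g) := by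
  obtain ⟨c, hc⟩ := Finite.exists_min fun i => P.ord (T i)
  refine ⟨c, ?_⟩
  obtain ⟨j, hj0, hjr, -⟩ := id hP
  have hyj : P.ord (T c) ≤ P.ord (y j) :=
    (hT.reg P (P.ord (T c)) (fun i => Or.inr (hc i)) j).resolve_left hj0
  -- the function `g`
  have hsc : aeval y Q = y j ^ q * aeval (ch y j) Q := by
    rw [← aeval_scale hQ (y j) (ch y j)]
    congr 2
    funext i
    rw [ch, mul_div_cancel₀ _ hj0]
  have h1 : Ge P 0 (g * aeval (ch y j) Q) := hg P hP j hj0 hjr
  have h2 : Ge P ((q : ℤ) * P.ord (y j)) (y j ^ q) := Or.inr (by rw [P.ord_pow])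
  have h3 : Ge P ((q : ℤ) * P.ord (y j)) (aeval y Q * g) := by
    have h4 := h2.mul h1
    rw [add_zero] at h4
    rw [hsc]
    have h5 : y j ^ q * (aeval (ch y j)) Q * g = y j ^ q * (g * (aeval (ch y j)) Q) := by ring
    rw [h5]
    exact h4
  have h4 : Ge P ((q : ℤ) * P.ord (T c) - P.ord (aeval y Q)) g := by
    refine (Ge.of_mul hoff h3).mono ?_
    have : (q : ℤ) * P.ord (T c) ≤ (q : ℤ) * P.ord (y j) :=
      mul_le_mul_of_nonneg_left hyj (Int.natCast_nonneg q)
    omega
  -- the determinant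
  have hreg : ∀ i, P.Reg (T i / T c) := fun i => Or.inr (by
    rw [P.ord_div (hne i) (hne c)]
    have := hc i
    omega)
  have h5 : ∀ i l, Ge P (-2 * P.ord (T 0 / T c)) (G i (Zc T l)) := by
    intro i l
    have h6 : Zc T l = (T l.succ / T c) / (T 0 / T c) := by
      unfold Zc
      rw [div_div_div_cancel_right₀ (hne c)]
    rw [h6]
    exact ge_quot (hG i) (div_ne_zero (hne 0) (hne c)) (hreg _) (hreg _)
  have h6 : Ge P (((e + 1 : ℕ) : ℤ) * (-2 * P.ord (T 0 / T c)))
      (Matrix.of fun i j => G i (Zc T j)).det := by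
    refine Pool.Agent.W603.LV.ge_det P _ _ (fun _ _ => -2 * P.ord (T 0 / T c))
      (fun i j => h5 i j) fun σ => ?_
    rw [Finset.sum_const, Finset.card_univ, Fintype.card_fin, nsmul_eq_mul]
  refine (h6.mul h4).mono (le_of_eq ?_)
  rw [P.ord_mul (div_ne_zero (pow_ne_zero _ (hne c)) hoff)
    (pow_ne_zero _ (div_ne_zero (hne c) (hne 0))), P.ord_div (pow_ne_zero _ (hne c)) hoff,
    P.ord_pow, P.ord_pow, P.ord_div (hne c) (hne 0), P.ord_div (hne 0) (hne c)]
  push_cast
  ring

end L3aux

theorem fin_WQ {k C L : Type} [Field k] [Field C] [Field L] [Algebra k C] [Algebra C L]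
    [Algebra k L] [IsScalarTower k C L] [CharZero C] {n e : ℕ} {y : Fin n → L}
    {T : Fin (e + 2) → L} (hT : PNorm (C := C) y T)
    (hI : HI (C := C) T) (hZ : IsTranscendenceBasis C (Zc T))
    (hfd : FiniteDimensional (IntermediateField.adjoin C (Set.range (Zc T))) L)
    {Q : MvPolynomial (Fin n) k} {q : ℕ} (hQ : Q.IsHomogeneous q) (hoff : aeval y Q ≠ 0) :
    Module.Finite C (WQ (C := C) (VP y (e + 1)) Q y) := by
  classical
  obtain ⟨E, hE0⟩ := Pool.Agent.W602.GT.exists_dual hZ
  have hE : ∀ i j, E i (Zc T j) = if i = j then 1 else 0 := by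
    intro i j
    have h1 := congrFun (congrFun hE0 i) j
    rw [Matrix.of_apply, Matrix.one_apply] at h1
    exact h1
  have hclr : ∀ b, ∃ Q : MvPolynomial (Fin (e + 1)) C, Q ≠ 0 ∧ ∀ p : MvPolynomial (Fin (e + 1)) C,
      Irreducible p → ∀ P : Place C L, Pool.Agent.Y173.QA.Adic (Zc T) p P →
      Pres P (aeval (Zc T) Q • E b) := fun b => Pool.Agent.Y173.QA.exists_clear hZ hfd (E b)
  choose R hR0 hR using hclr
  have hder : ∀ b (f : MvPolynomial (Fin (e + 1)) C), E b (aeval (Zc T) f) =
      aeval (Zc T) (pderiv b f) := by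
    intro b f
    exact Pool.Agent.TH122.AB.der_aeval (hE b) f
  have hnu := Pool.Agent.TH756.PN.numLe_pairs (κ := Unit) (α := Fin (e + 1)) hZ hfd
    (fun _ => Finset.univ) (fun _ => 0) (fun _ => Finset.mem_univ _) (fun _ => e)
    (fun _ => by simp) (fun _ => ()) (fun _ => Finset.mem_univ _) (fun _ => True)
    R hR0 (fun _ => ()) (fun t a h => absurd rfl h) (fun _ h => absurd trivial h)
    (VP y (e + 1)) (fun _ => 0) ?_ ?_
  · obtain ⟨c, hc⟩ := hnu (Finset.univ.image fun c : Fin (e + 2) =>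
      (T c ^ q / aeval y Q) * (T c / T 0) ^ (2 * (e + 1)))
    rw [← Module.rank_lt_aleph0_iff]
    refine lt_of_le_of_lt (rank_le (n := c * 1 ^ (Finset.univ.filter fun _ : Fin (e + 1) =>
      True).card) fun s hs => ?_) (Cardinal.natCast_lt_aleph0)
    refine hc 1 s.card le_rfl ⟨fun l G => (Matrix.of fun i j => G i (Zc T j)).det ^ 1 *
      ((s.equivFin.symm l).1 : L), ?_, fun l => ⟨?_, ?_⟩⟩
    · rw [Fintype.linearIndependent_iff]
      intro a ha
      have h1 := congrFun ha E
      rw [Finset.sum_apply, Pi.zero_apply] at h1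
      simp only [Pi.smul_apply, hE0, Matrix.det_one, one_pow, one_mul] at h1
      have h2 := Fintype.linearIndependent_iff.1 hs (fun i => a (s.equivFin i)) (by
        apply Subtype.ext
        rw [Submodule.coe_sum, Submodule.coe_zero, ← h1, ← s.equivFin.symm.sum_comp]
        refine Finset.sum_congr rfl fun l _ => ?_
        rw [Equiv.apply_symm_apply]
        rfl)
      intro l
      have h3 := h2 (s.equivFin.symm l)
      rwa [Equiv.apply_symm_apply] at h3
    · intro A G
      have h1 : (Matrix.of fun i j => (∑ l, A i l • G l) (Zc T j)) =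
          A * (Matrix.of fun i j => G i (Zc T j)) := by
        ext i j
        rw [Matrix.of_apply, der_sum, Matrix.mul_apply]
        rfl
      change (Matrix.of fun i j => (∑ l, A i l • G l) (Zc T j)).det ^ 1 * _ = _ * (_ * _)
      rw [h1, Matrix.det_mul, mul_pow, mul_assoc]
    · intro P hP _ G hG
      obtain ⟨i, hi⟩ := L3aux.local_ge hT hI.ne hQ hoff (s.equivFin.symm l).1.2 hP hG
      rcases hi with h1 | h1
      · left
        change _ ^ 1 * _ = _
        rw [pow_one]
        exact h1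
      · right
        refine ⟨_, Finset.mem_image_of_mem _ (Finset.mem_univ i), ?_, ?_⟩
        · exact mul_ne_zero (div_ne_zero (pow_ne_zero _ (hI.ne i)) hoff)
            (pow_ne_zero _ (div_ne_zero (hI.ne i) (hI.ne 0)))
        · change _ ≤ ((P.ord (_ ^ 1 * _) : ℤ) : ℝ)
          rw [pow_one, mul_zero, sub_zero]
          exact_mod_cast h1
  · intro p hp P hP
    have hA : Pool.Agent.Y173.QA.Adic (Zc T) p P := hP
    refine ⟨VP_adic hT hI hp hA, ?_⟩
    by_cases hdvd : ∃ a, p ∣ R a
    · obtain ⟨a, ha⟩ := hdvd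
      exact Or.inr ⟨a, ha, by norm_num, fun h => absurd trivial h⟩
    · left
      push Not at hdvd
      refine ⟨?_, le_rfl⟩
      obtain ⟨b, hb0, hb⟩ := Pool.Agent.TH122.AB.exists_pderiv hp
      have h1 := hP p hp.ne_zero
      have h2 : P.ord (aeval (Zc T) p) ≠ 0 := fun h0 => (h1.2.1 h0) dvd_rfl
      have h3 : P.ord (aeval (Zc T) (R b)) = 0 := (hP (R b) (hR0 b)).2.2 (hdvd b)
      have h4 : P.ord (aeval (Zc T) (pderiv b p)) = 0 := (hP _ hb0).2.2 hb
      have hne : aeval (Zc T) (R b) ≠ 0 := fun h0 =>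
        hR0 b ((injective_iff_map_eq_zero _).1 hZ.1 _ h0)
      have hne' : aeval (Zc T) (pderiv b p) ≠ 0 := fun h0 =>
        hb0 ((injective_iff_map_eq_zero _).1 hZ.1 _ h0)
      have h5 := pres_ge (hR b p hp P hA) (f := aeval (Zc T) p)
        (N := P.ord (aeval (Zc T) p)) (Or.inr le_rfl)
      rw [Derivation.smul_apply, smul_eq_mul, hder] at h5
      have h6 := h5.resolve_left (mul_ne_zero hne hne')
      rw [P.ord_mul hne hne', h3, h4] at h6
      omega
  · intro _ P e0 _ hP
    exact ⟨VP_deg hT hI hP, by norm_num, fun h => absurd trivial h⟩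

end Pool.Agent.H917.Lg
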