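import Pool.Agent.H917.L.L2
import Pool.Agent.H917.L.L3

/-!
# PROJECT LOG (helper917), task L4: the derivation is a linear vector field
-/

set_option autoImplicit false
set_option linter.overlappingInstances false
set_option linter.unusedSectionVars false

open FF MvPolynomial Pool.Agent.W603.LV Pool.Agent.W619.PQ Pool.Agent.Y174.BR
  Pool.Agent.W619.TW Pool.Agent.TH143.HE Pool.Agent.W619.Y

namespace Pool.Agent.H917.Lg

namespace L4aux

/-- a finite-dimensional space with an operator -/
theorem linSysA_of_fin {k C L : Type} [Field k] [Field C] [Field L] [Algebra C L] [Algebra k L]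
    {D : Derivation k L L} (W : Submodule C L) (hfin : Module.Finite C W)
    (hW : ∀ g ∈ W, D g ∈ W) {n : ℕ} {y : Fin n → L} {Q : MvPolynomial (Fin n) k} {q : ℕ}
    (hmon : ∀ α : Fin n →₀ ℕ, ∑ i, α i = q → (∏ i, y i ^ α i) / aeval y Q ∈ W) :
    LinSysA C D Q q y := by
  classical
  obtain ⟨h, hh⟩ : ∃ h : Module.Basis (Fin (Module.finrank C W)) C W, h = Module.finBasis C W :=
    ⟨_, rfl⟩
  have hexp : ∀ g ∈ W, ∃ c : Fin (Module.finrank C W) → C,
      g = ∑ j, algebraMap C L (c j) * (h j : L) := by
    intro g hg
    refine ⟨h.repr ⟨g, hg⟩, ?_⟩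
    have h1 := congrArg Subtype.val (h.sum_repr ⟨g, hg⟩)
    rw [Submodule.coe_sum] at h1
    refine h1.symm.trans (Finset.sum_congr rfl fun j _ => ?_)
    rw [Submodule.coe_smul, Algebra.smul_def]
  choose A hA using fun i => hexp _ (hW (h i) (h i).2)
  exact ⟨Module.finrank C W, fun i => (h i : L), A, hA, fun α hα => hexp _ (hmon α hα)⟩

variable {k C L : Type} [Field k] [CharZero k] [Field C] [CharZero C] [Field L]
  [Algebra k C] [Algebra C L] [Algebra k L] [IsScalarTower k C L]

/-- the field is algebraic over the field of the ratios -/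
theorem SDL_alg {D : Derivation k L L} {n m : ℕ} {y : Fin n → L} {B : Fin n → Finset (Fin n)}
    (h : SDL C D B y m) (hm : 1 ≤ m) (hgen : GenBy C D y) (z : L) :
    IsAlgebraic (IntermediateField.adjoin C {z | ∃ i j, z = y i / y j}) z := by
  obtain ⟨E, hE⟩ : ∃ E, E = IntermediateField.adjoin C {z | ∃ i j, z = y i / y j} := ⟨_, rfl⟩
  rw [← hE]
  have hr : ∀ i j, y i / y j ∈ E := fun i j => by
    rw [hE]
    exact IntermediateField.subset_adjoin C _ ⟨i, j, rfl⟩
  have h1 := hgen (algebraicClosure E L).toSubfield (fun c => ?_) (fun i j => ?_) fun i j => ?_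
  · have h2 : z ∈ (algebraicClosure E L).toSubfield := by
      rw [h1]
      trivial
    exact (mem_algebraicClosure_iff (F := E) (E := L)).1 h2
  · refine (mem_algebraicClosure_iff (F := E) (E := L)).2 ?_
    exact isAlgebraic_algebraMap (algebraMap C E c)
  · refine (mem_algebraicClosure_iff (F := E) (E := L)).2 ?_
    exact isAlgebraic_algebraMap (⟨_, hr i j⟩ : E)
  · refine (mem_algebraicClosure_iff (F := E) (E := L)).2 ?_
    by_cases hj : y j = 0
    · rw [hj, div_zero, map_zero]
      exact isAlgebraic_zero
    · have hl : IsAlgebraic E (lch D B y j i) := by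
        obtain ⟨N, q, -, hc, hb⟩ := h.rel j hj
        obtain ⟨b, hb⟩ := hb fun _ => i
        rw [Finset.prod_const, Finset.card_univ, Fintype.card_fin] at hb
        refine alg_of_pow hm ?_
        rw [hb]
        have h2 : ∑ l, aeval (ch y j) (b l) * aeval (lch2 D B y j) (q l) ∈ E := by
          refine sum_mem fun l _ => ?_
          obtain ⟨c, hc⟩ := hc l
          rw [hc]
          refine mul_mem ?_ (E.algebraMap_mem c)
          have h3 : ∀ f : MvPolynomial (Fin n) k, aeval (ch y j) f ∈ E := by
            intro f
            induction f using MvPolynomial.induction_on with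
            | C a =>
              rw [aeval_C, IsScalarTower.algebraMap_apply k C L]
              exact E.algebraMap_mem _
            | add p q hp hq => rw [map_add]; exact add_mem hp hq
            | mul_X p i hp => rw [map_mul, aeval_X]; exact mul_mem hp (hr i j)
          exact h3 (b l)
        exact isAlgebraic_algebraMap (⟨_, h2⟩ : E)
      by_cases hi : i ∈ B j
      · by_cases hi0 : y i / y j = 0
        · rw [hi0, map_zero]
          exact isAlgebraic_zero
        · have h3 : lch D B y j i = D (y i / y j) / (y i / y j) := if_pos hi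
          rw [h3] at hl
          have h4 : D (y i / y j) = D (y i / y j) / (y i / y j) * (y i / y j) :=
            (div_mul_cancel₀ _ hi0).symm
          rw [h4]
          exact hl.mul (isAlgebraic_algebraMap (⟨_, hr i j⟩ : E))
      · have h3 : lch D B y j i = D (y i / y j) := if_neg hi
        rwa [h3] at hl

end L4aux

theorem linSysA_of_SDL {k C L : Type} [Field k] [CharZero k] [Field C] [CharZero C] [Field L]
    [Algebra k C] [Algebra C L] [Algebra k L] [IsScalarTower k C L] {D : Derivation k L L}
    {n m : ℕ} {y : Fin n → L} {B : Fin n → Finset (Fin n)} {Q : MvPolynomial (Fin n) k} {q : ℕ}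
    (h : SDL C D B y m) (hm : 1 ≤ m) (hB : BdK B Q y) (hQ : Q.IsHomogeneous q)
    (hDC : ∀ c : C, ∃ c' : C, D (algebraMap C L c) = algebraMap C L c')
    (hess : Algebra.EssFiniteType C L) (hD : ∃ i j, D (y i / y j) ≠ 0) (hgen : GenBy C D y) :
    LinSysA C D Q q y := by
  classical
  have hL0 : CharZero L := charZero_of_injective_algebraMap (algebraMap k L).injective
  obtain ⟨e, he⟩ : ∃ e : ℕ, Algebra.trdeg C L = e := by
    obtain ⟨S, hS⟩ := IntermediateField.fg_top C L
    have h1 : Algebra.IsAlgebraic (Algebra.adjoin C (S : Set L)) L :=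
      Pool.Agent.W619.PQ.alg_adjoin fun z => by
        rw [hS]
        exact isAlgebraic_algebraMap (⟨z, trivial⟩ : (⊤ : IntermediateField C L))
    obtain ⟨T, hT, hTb⟩ := exists_isTranscendenceBasis_subset (R := C) (S : Set L)
    have hfin : Finite T := (S.finite_toSet.subset hT)
    refine ⟨Nat.card T, ?_⟩
    rw [← hTb.cardinalMk_eq_trdeg, Nat.card]
    exact (Cardinal.cast_toNat_of_lt_aleph0 (Cardinal.lt_aleph0_of_finite T)).symm
  have halg := L4aux.SDL_alg h hm hgen
  rcases Nat.eq_zero_or_pos e with he0 | he0
  · -- an algebraic extension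
    subst he0
    have halgL : Algebra.IsAlgebraic C L := by
      rw [← trdeg_eq_zero_iff]
      exact_mod_cast he
    have hfin : FiniteDimensional C L := by
      obtain ⟨S, hS⟩ := IntermediateField.fg_top C L
      have h1 : FiniteDimensional C (IntermediateField.adjoin C (S : Set L)) :=
        IntermediateField.finiteDimensional_adjoin fun x _ => (halgL.isAlgebraic x).isIntegral
      rw [hS] at h1
      exact Module.Finite.equiv (IntermediateField.topEquiv (F := C) (E := L)).toLinearEquiv
    exact L4aux.linSysA_of_fin (⊤ : Submodule C L) (by infer_instance) (fun g _ => trivial)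
      fun α _ => trivial
  · obtain ⟨e, rfl⟩ := Nat.exists_eq_succ_of_ne_zero he0.ne'
    -- the projection
    have hinf : Infinite C := inferInstance
    obtain ⟨r, T, hT, hI⟩ := exists_pnorm (C := C) y
    obtain ⟨r, rfl⟩ : ∃ r', r = r' + 1 := by
      rcases Nat.eq_zero_or_pos r with h0 | h0
      · exfalso
        subst h0
        have h1 : Algebra.IsAlgebraic C L := by
          constructor
          intro z
          have h2 : ∀ i j, IsAlgebraic (IntermediateField.adjoin C (∅ : Set L)) (y i / y j) := by
            intro i j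
            have h3 := hT.alg i j
            have h4 : {z : L | ∃ k l, z = T k / T l} = ∅ := by
              ext z
              simp only [Set.mem_ofPred_eq, Set.mem_empty_iff_false, iff_false]
              rintro ⟨k, -⟩
              exact k.elim0
            rwa [h4] at h3
          have h3 : IsAlgebraic (IntermediateField.adjoin C (∅ : Set L)) z :=
            alg_trans (S := {z | ∃ i j, z = y i / y j}) (by
              rintro _ ⟨i, j, rfl⟩
              exact h2 i j) (halg z)
          refine alg_of_range ?_ h3
          rintro ⟨a, ha⟩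
          rw [IntermediateField.adjoin_empty, IntermediateField.mem_bot] at ha
          exact ha
        have h2 : Algebra.trdeg C L = 0 := trdeg_eq_zero_iff.2 h1
        rw [he] at h2
        norm_cast at h2
      · exact ⟨r - 1, by omega⟩
    have hZ := basis_Zc hT hI ⟨halg⟩
    obtain rfl : r = e + 1 := by
      have h1 := hZ.cardinalMk_eq_trdeg
      rw [he, Cardinal.mk_fin] at h1
      exact_mod_cast h1
    have hfd := Pool.Agent.W824.PG.fin_adj hess _ hZ
    exact L4aux.linSysA_of_fin (WQ (C := C) (VP y (e + 1)) Q y)
      (fin_WQ hT hI hZ hfd hQ hB.off)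
      (fun g hg => WQ_der h hm hB hQ hDC hess he hD hgen hg)
      fun α hα => WQ_mon hQ hB.off _ α hα

end Pool.Agent.H917.Lg
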