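import Pool.Agent.H917.B3
import Pool.Agent.H917.L.L1
import Pool.Agent.H917.L.L4

/-!
# PROJECT LOG (helper917), task L5: linear systems for points over a differential field

## Paper proof (a variant of `linSys_amb` in `Pool/Agent/H917/B3.lean`; copy that proof)
Let `L = C(x_i / x_j, D (x_i / x_j))` (as in `linSys_amb`; here no function field `K` is needed). As in B3, `L` is stable under `D`: all elements of `L` are algebraic over
`C(x_i / x_j)` etc. (in B3 this is done for the `SD` structure; copy and adapt). Replace `x` by `y_i = x_i / x_{j0} ∈ L`; both sides are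
homogeneous of degree zero: `(∏ x_i^{α_i}) / Q(x) = (∏ y_i^{α_i}) / Q(y)` for `∑ α_i = q`, and the value of a logarithmic symmetric differential at `(y, D y)` is the one at `(x, D x)`
(`lloc_div`, `val_eq`). Apply `sdl_of_gens`, `bdk_of_bdry` and `linSysA_of_SDL` with `k = ℂ`, `C = C`, `L = L`, the restriction `resDer` of `D` to `L`.
-/

set_option autoImplicit false
set_option linter.overlappingInstances false
set_option linter.unusedSectionVars false

open MvPolynomial Pool.Agent.W602.GT

namespace Pool.Agent.H917.Lg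

variable {n : ℕ} {p : Ideal (MvPolynomial (Fin (n + 1)) ℂ)} {Q : MvPolynomial (Fin (n + 1)) ℂ}
  {B : Fin (n + 1) → Finset (Fin (n + 1))}

/-- values of logarithmic symmetric differentials and homomorphisms -/
theorem L5aux.lval_map (hp : Pool.Agent.W603.PV.IsHomog p) {q : ℕ} (hQ : Q.IsHomogeneous q)
    (hB : Bdry p Q B) {m : ℕ} (s : LSymDiff p Q B m) {R R' : Type}
    [Field R] [Algebra ℂ R] [Field R'] [Algebra ℂ R'] (ψ : R →ₐ[ℂ] R')
    {x x' : Fin (n + 1) → R} {y y' : Fin (n + 1) → R'} (hx : TanVec p x x') (hy : TanVec p y y')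
    (hQx : aeval x Q ≠ 0) (hQy : aeval y Q ≠ 0)
    {j : Fin (n + 1)} (hxj : x j ≠ 0) (hyj : y j ≠ 0)
    (h : ∀ k, ψ (lloc B j x x' k) = lloc B j y y' k) : ψ (s.val x x') = s.val y y' := by
  rw [s.val_eq hp hQ hB hx hQx hxj, s.val_eq hp hQ hB hy hQy hyj, comp_aeval_apply]
  have h1 : (fun k => ψ (lloc B j x x' k)) = lloc B j y y' := funext h
  rw [h1]

/-- the derivative of `v` is in `L` if the derivative of `v ^ m` is -/
theorem L5aux.der_mem_of_pow {M : Type} [Field M] [Algebra ℂ M] (D : Derivation ℂ M M)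
    {C : IntermediateField ℂ M} (L : IntermediateField C M) {m : ℕ} (hm : 1 ≤ m) {v : M}
    (hv : v ∈ L) (hv0 : v ≠ 0) (h1 : D (v ^ m) ∈ L) : D v ∈ L := by
  have hM0 : CharZero M := charZero_of_injective_algebraMap (algebraMap ℂ M).injective
  rw [D.leibniz_pow] at h1
  simp only [smul_eq_mul, nsmul_eq_mul] at h1
  have h2 : D v = ((m : M) * (v ^ (m - 1) * D v)) / ((m : M) * v ^ (m - 1)) := by
    have h3 : (m : M) ≠ 0 := by exact_mod_cast (by omega : m ≠ 0)
    have h4 : v ^ (m - 1) ≠ 0 := pow_ne_zero _ hv0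
    field_simp
  rw [h2]
  exact div_mem h1 (mul_mem (natCast_mem L m) (pow_mem hv _))

theorem linSysA_amb {M : Type} [Field M] [Algebra ℂ M] (D : Derivation ℂ M M)
    (C : IntermediateField ℂ M) (hC : ∀ c ∈ C, D c ∈ C) (hp : Pool.Agent.W603.PV.IsHomog p)
    {q : ℕ} (hQ : Q.IsHomogeneous q) (hB : Bdry p Q B)
    {m N : ℕ} {s : Fin N → LSymDiff p Q B m} (hs : LGens p Q B m s) (hm : 1 ≤ m)
    {x : Fin (n + 1) → M} {j0 : Fin (n + 1)} (hx : x j0 ≠ 0) (hX : ∀ H ∈ p, aeval x H = 0)
    (hQx : aeval x Q ≠ 0) (hval : ∀ l, (s l).val x (fun i => D (x i)) ∈ C)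
    (hnc : ∃ i j, D (x i / x j) ≠ 0) :
    ∃ (r : ℕ) (h : Fin r → M) (A : Fin r → Fin r → M),
      (∀ i j, A i j ∈ C) ∧ (∀ i, D (h i) = ∑ j, A i j * h j) ∧
      ∀ α : Fin (n + 1) →₀ ℕ, ∑ i, α i = q → ∃ b : Fin r → M, (∀ j, b j ∈ C) ∧
        (∏ i, x i ^ α i) / aeval x Q = ∑ j, b j * h j := by
  classical
  have hM0 : CharZero M := charZero_of_injective_algebraMap (algebraMap ℂ M).injective
  have hxne : x ≠ 0 := fun h0 => hx (congrFun h0 j0)
  have hC0 : ∀ c : C, ∃ c' : C, D (algebraMap C M c) = algebraMap C M c' := fun c =>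
    ⟨⟨D c, hC c c.2⟩, rfl⟩
  have hSD : SDL C D B x m := sdl_of_gens hp hQ hB hs D hxne hX hQx fun l => ⟨⟨_, hval l⟩, rfl⟩
  -- the field `L`
  let S : Set M := {z | ∃ i j, z = x i / x j} ∪ {z | ∃ i j, z = D (x i / x j)}
  let L : IntermediateField C M := IntermediateField.adjoin C S
  have hSL : ∀ z ∈ S, z ∈ L := fun z hz => IntermediateField.subset_adjoin C S hz
  have hq : ∀ i j, x i / x j ∈ L := fun i j => hSL _ (Or.inl ⟨i, j, rfl⟩)
  have hdq : ∀ i j, D (x i / x j) ∈ L := fun i j => hSL _ (Or.inr ⟨i, j, rfl⟩)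
  have hCL : ∀ c ∈ C, c ∈ L := fun c hc => L.algebraMap_mem ⟨c, hc⟩
  have hkL : ∀ c : ℂ, algebraMap ℂ M c ∈ L := fun c => hCL _ (C.algebraMap_mem c)
  have haev : ∀ (j : Fin (n + 1)) (f : MvPolynomial (Fin (n + 1)) ℂ), aeval (ch x j) f ∈ L := by
    intro j f
    induction f using MvPolynomial.induction_on with
    | C a =>
      rw [aeval_C]
      exact hkL a
    | add p q hp hq => rw [map_add]; exact add_mem hp hq
    | mul_X p i hp =>
      rw [map_mul, aeval_X]
      exact mul_mem hp (hq i j)
  have hLD : ∀ z ∈ L, D z ∈ L := by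
    intro z hz
    induction hz using IntermediateField.adjoin_induction with
    | mem z hz =>
      rcases hz with ⟨i, j, rfl⟩ | ⟨i, j, rfl⟩
      · exact hdq i j
      · by_cases hj : x j = 0
        · rw [hj, div_zero, map_zero, map_zero]
          exact L.zero_mem
        by_cases ha : D (x i / x j) = 0
        · rw [ha, map_zero]
          exact L.zero_mem
        have hu : x i / x j ≠ 0 := fun h0 => ha (by rw [h0, map_zero])
        obtain ⟨N', q', -, hc, hb⟩ := hSD.rel j hj
        obtain ⟨b, hb⟩ := hb fun _ => i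
        rw [Finset.prod_const, Finset.card_univ, Fintype.card_fin] at hb
        have h1 : D (lch D B x j i ^ m) ∈ L := by
          rw [hb, map_sum]
          refine sum_mem fun l _ => ?_
          obtain ⟨c, hc⟩ := hc l
          rw [hc, D.leibniz, smul_eq_mul, smul_eq_mul, der_aeval' D]
          refine add_mem (mul_mem (haev j _) (hCL _ (hC c c.2))) (mul_mem (hCL c c.2) ?_)
          exact sum_mem fun k _ => mul_mem (haev j _) (hdq k j)
        by_cases hiB : i ∈ B j
        · have hv : lch D B x j i = D (x i / x j) / (x i / x j) := by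
            unfold lch
            rw [if_pos hiB]
          rw [hv] at h1
          have h2 := L5aux.der_mem_of_pow D L hm (div_mem (hdq i j) (hq i j))
            (div_ne_zero ha hu) h1
          have h3 : D (x i / x j) = D (x i / x j) / (x i / x j) * (x i / x j) := by
            rw [div_mul_cancel₀ _ hu]
          rw [h3, D.leibniz]
          simp only [smul_eq_mul]
          exact add_mem (mul_mem (div_mem (hdq i j) (hq i j)) (hdq i j))
            (mul_mem (hq i j) h2)
        · have hv : lch D B x j i = D (x i / x j) := by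
            unfold lch
            rw [if_neg hiB]
          rw [hv] at h1
          exact L5aux.der_mem_of_pow D L hm (hdq i j) ha h1
    | algebraMap c =>
      obtain ⟨c', hc'⟩ := hC0 c
      rw [hc']
      exact L.algebraMap_mem c'
    | add a b ha hb iha ihb => rw [map_add]; exact add_mem iha ihb
    | inv a ha iha =>
      rw [D.leibniz_inv]
      simp only [smul_eq_mul]
      exact mul_mem (neg_mem (pow_mem (inv_mem ha) 2)) iha
    | mul a b ha hb iha ihb =>
      rw [D.leibniz]
      simp only [smul_eq_mul]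
      exact add_mem (mul_mem ha ihb) (mul_mem hb iha)
  let D' : Derivation ℂ L L := resDer D L hLD
  have hD' : ∀ z : L, ((D' z : L) : M) = D z := fun z => rfl
  let ι : L →ₐ[ℂ] M := AlgHom.mk (algebraMap L M) fun c => rfl
  have hι : ∀ z : L, ι z = (z : M) := fun z => rfl
  have hιi : ∀ a b : L, ι a = ι b → a = b := fun a b h => Subtype.ext h
  let yL : Fin (n + 1) → L := fun i => ⟨x i / x j0, hq i j0⟩
  have hyL : ∀ i, ι (yL i) = x i / x j0 := fun i => rfl
  have hιaev : ∀ f : MvPolynomial (Fin (n + 1)) ℂ,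
      ι (aeval yL f) = aeval (fun i => x i / x j0) f := by
    intro f
    rw [comp_aeval_apply]
    rfl
  have hyLj0 : yL j0 ≠ 0 := by
    intro h0
    have h1 := congrArg ι h0
    rw [map_zero, hyL, div_self hx] at h1
    exact one_ne_zero h1
  have hrat : ∀ i j, ι (yL i / yL j) = x i / x j := by
    intro i j
    rw [map_div₀, hyL, hyL, div_div_div_cancel_right₀ hx]
  have hscale : ∀ {G : MvPolynomial (Fin (n + 1)) ℂ} {d : ℕ}, G.IsHomogeneous d →
      aeval (fun i => x i / x j0) G = (x j0 ^ d)⁻¹ * aeval x G := by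
    intro G d hG
    have h4 : (fun k => x k / x j0) = fun k => (x j0)⁻¹ * x k := by
      funext k
      rw [div_eq_inv_mul]
    rw [h4, Pool.Agent.W603.PV.aeval_scale hG x (x j0)⁻¹, inv_pow]
  have htx := tanVec_der (p := p) D hxne hX
  have hyL0 : ∀ H ∈ p, aeval yL H = 0 := by
    intro H hH
    apply hιi
    rw [hιaev, map_zero]
    exact (htx.loc hp hx).mem H hH
  have hyLne : yL ≠ 0 := fun h0 => hyLj0 (congrFun h0 j0)
  have hty := tanVec_der (p := p) D' hyLne hyL0
  have hQyM : aeval (fun i => x i / x j0) Q ≠ 0 := by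
    rw [hscale hQ]
    exact mul_ne_zero (inv_ne_zero (pow_ne_zero _ hx)) hQx
  have hQy : aeval yL Q ≠ 0 := by
    intro h0
    apply hQyM
    rw [← hιaev, h0, map_zero]
  have hlin := linSysA_of_SDL (k := ℂ) (C := C) (L := L) (D := D') (m := m) (y := yL) (B := B)
    (Q := Q) (q := q)
    (sdl_of_gens hp hQ hB hs D' hyLne hyL0 hQy fun l => ?_) hm
    (bdk_of_bdry hp hQ hB hyLne hyL0 hQy) hQ (fun c => ?_) ?_ ?_ ?_
  · obtain ⟨r, h, A, h1, h2⟩ := hlin
    refine ⟨r, fun i => (h i : M), fun i j => (A i j : M), fun i j => (A i j).2, fun i => ?_,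
      fun α hα => ?_⟩
    · have e1 := congrArg ι (h1 i)
      rw [map_sum] at e1
      simp only [map_mul] at e1
      exact e1
    · obtain ⟨b, hb⟩ := h2 α hα
      refine ⟨fun j => (b j : M), fun j => (b j).2, ?_⟩
      have e1 := congrArg ι hb
      rw [map_sum, map_div₀, map_prod, hιaev, hscale hQ] at e1
      simp only [map_mul, map_pow, hyL, div_pow] at e1
      rw [Finset.prod_div_distrib, Finset.prod_pow_eq_pow_sum, hα] at e1
      have e2 : (∏ i, x i ^ α i) / aeval x Q =
          (∏ i, x i ^ α i) / x j0 ^ q / ((x j0 ^ q)⁻¹ * aeval x Q) := by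
        have h3 : x j0 ^ q ≠ 0 := pow_ne_zero _ hx
        field_simp
      rw [e2]
      exact e1
  · refine ⟨⟨_, hval l⟩, ?_⟩
    apply hιi
    refine L5aux.lval_map hp hQ hB (s l) ι hty htx hQy hQx hyLj0 hx fun k => ?_
    rw [lloc_der D' yL hyLj0, lloc_der D x hx]
    rcases k with k | k
    · exact hrat k j0
    · have h1 : ι (D' (yL k / yL j0)) = D (x k / x j0) := by
        change D (ι (yL k / yL j0)) = D (x k / x j0)
        rw [hrat]
      change ι (lch D' B yL j0 k) = lch D B x j0 k
      unfold lch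
      by_cases hk : k ∈ B j0
      · rw [if_pos hk, if_pos hk, map_div₀, h1, hrat]
      · rw [if_neg hk, if_neg hk, h1]
  · exact ⟨⟨D c, hC c c.2⟩, Subtype.ext rfl⟩
  · rw [IntermediateField.essFiniteType_iff]
    have hfin : S.Finite := by
      apply Set.Finite.union
      · have : {z | ∃ i j, z = x i / x j} = Set.range fun a : Fin (n + 1) × Fin (n + 1) =>
          x a.1 / x a.2 := by
          ext z
          constructor
          · rintro ⟨i, j, rfl⟩
            exact ⟨(i, j), rfl⟩
          · rintro ⟨a, rfl⟩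
            exact ⟨a.1, a.2, rfl⟩
        rw [this]
        exact Set.finite_range _
      · have : {z | ∃ i j, z = D (x i / x j)} = Set.range fun a : Fin (n + 1) × Fin (n + 1) =>
          D (x a.1 / x a.2) := by
          ext z
          constructor
          · rintro ⟨i, j, rfl⟩
            exact ⟨(i, j), rfl⟩
          · rintro ⟨a, rfl⟩
            exact ⟨a.1, a.2, rfl⟩
        rw [this]
        exact Set.finite_range _
    exact ⟨hfin.toFinset, by rw [Set.Finite.coe_toFinset]⟩
  · obtain ⟨i, j, hij⟩ := hnc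
    refine ⟨i, j, fun h0 => hij ?_⟩
    have h1 := congrArg ι h0
    rw [map_zero] at h1
    rw [← hrat]
    exact h1
  · intro T hT1 hT2 hT3
    have key : ∀ z (hz : z ∈ L), (⟨z, hz⟩ : L) ∈ T := by
      intro z hz
      induction hz using IntermediateField.adjoin_induction with
      | mem z hz =>
        rcases hz with ⟨i, j, rfl⟩ | ⟨i, j, rfl⟩
        · have h1 : (⟨x i / x j, hq i j⟩ : L) = yL i / yL j := by
            apply hιi
            rw [hrat]
            rfl
          have h2 := hT2 i j
          rw [← h1] at h2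
          exact h2
        · have h1 : (⟨D (x i / x j), hdq i j⟩ : L) = D' (yL i / yL j) := by
            apply hιi
            change D (x i / x j) = D (ι (yL i / yL j))
            rw [hrat]
          have h2 := hT3 i j
          rw [← h1] at h2
          exact h2
      | algebraMap c => exact hT1 c
      | add a b ha hb iha ihb =>
        exact T.add_mem iha ihb
      | inv a ha iha =>
        exact T.inv_mem iha
      | mul a b ha hb iha ihb =>
        exact T.mul_mem iha ihb
    rw [eq_top_iff]
    rintro ⟨z, hz⟩ -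
    exact key z hz

end Pool.Agent.H917.Lg
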