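import Pool.Agent.H917.B4
import Pool.Agent.H917.L.L5
import Pool.Agent.H917.L.L6

/-!
# PROJECT LOG (helper917), task L7: curves with small logarithmic symmetric differentials in varieties of log general type

## Paper proof (a variant of `alg_of_gt`, `pcurve_ext` in `Pool/Agent/H917/B4.lean`; copy those proofs, they become simpler)
`alg_of_lgt`: as `alg_of_gt`: `M` is the fraction field of `Hol Ω`, `D` its derivation, `x = i F`, `C = frac A0` the fractions of elements of `B'` (the ring called `B` in B4). The constant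
case is word for word the same. The values of the logarithmic symmetric differentials (`hvalx`): with `lclear_den`, `lalong_eq` (multiply by
`(f_{j0} ∏_{b ∈ B j0} f_b)^K`). Apply `linSysA_amb` (instead of `linSys_amb`): `D h = A h`, `(∏ x_i^{α_i}) / Q(x) = ∑ b_j h_j` for the finitely many `α` with `∑ α_i = q`
(`Finset.univ.finsuppAntidiag q`, see the proof of `log_mainOn` in `Helper4K9/IP/Log.lean`). Common denominators as in B4: `q0 ∈ B'` for all the `A` and `b`, and `Q'` for the
`h`. There is no term `δ h`, so no exponential factor is needed: on a small disc `U ⊆ Ω` where `q0` and `Q'` have no zeros the functions `g_a = P_a / Q'` satisfy `g_a' = ∑ (α_ac / q0) g_c`, so they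
are in `IterOn U B'`, and `regV Q α f = ∑ (β_αj / q0) g_j` on `U` is in `IterOn U B'`. So `IterCurve U B' Q q f` (`q ≠ 0`), and
`log_mainOn` (library) gives: either all ratios are algebraic over `B'` on `U`, hence on `Ω` as in B4; or a family `P` of punctured lines, and `not_lgt` (library, with
this `Q`, `q`) contradicts `hLG`.
`pcurve_lext`: as `pcurve_ext`, with `lalong_small`.
-/

set_option autoImplicit false
set_option linter.overlappingInstances false
set_option linter.unusedSectionVars false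

open MvPolynomial Metric Set Filter Topology FF Pool.Agent.W602.GT Pool.Agent.W603.BP
  Pool.Agent.Helper4K9.IP Pool.Agent.Helper4K9.AP Pool.Agent.Helper4K9.MP Pool.Agent.TH143
  Pool.Agent.TH143.GT Pool.Agent.Y377.EL Pool.Agent.Y377.IL Pool.Agent.W603.GR

namespace Pool.Agent.H917.Lg

variable {n : ℕ} {p : Ideal (MvPolynomial (Fin (n + 1)) ℂ)} {Q : MvPolynomial (Fin (n + 1)) ℂ}
  {B : Fin (n + 1) → Finset (Fin (n + 1))} {f : ℂ → Fin (n + 1) → ℂ} {Ω : Set ℂ}

/-- functions whose derivative is in the class -/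
theorem L7aux.iter_prim {U : Set ℂ} {B' : Subalgebra ℂ (ℂ → ℂ)} {g dg : ℂ → ℂ} (hdg : IterOn U B' dg)
    (hg : ∀ z ∈ U, HasDerivAt g (dg z) z) (han : ∀ z ∈ U, AnalyticAt ℂ g z) : IterOn U B' g := by
  have h1 := IterOn.ode (Ω := U) (B := B') (fun a c => if a = (0 : Fin 2) then
      (if c = (1 : Fin 2) then dg else fun _ => 0) else fun _ => 0)
    (fun a => if a = (0 : Fin 2) then g else fun _ => 1) (fun a c => ?_) (fun a => ?_) ?_ 0
  · simpa using h1
  · split_ifs
    · exact hdg
    · exact iter_zero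
    · exact iter_zero
  · split_ifs
    · exact fun z hz => (han z hz).meromorphicAt
    · exact fun z _ => analyticAt_const.meromorphicAt
  · filter_upwards [cd_self (Ω := U)] with z hz a
    fin_cases a
    · simpa using hg z hz
    · simpa using hasDerivAt_const z (1 : ℂ)

/-- **The generic part**: curves whose logarithmic symmetric differentials lie in a ring of
functions. -/
theorem alg_of_lgt (hΩ : IsOpen Ω) (hΩc : IsPreconnected Ω) (hΩn : Ω.Nonempty)
    (B' : Subalgebra ℂ (ℂ → ℂ)) (hBan : ∀ b ∈ B', AnalyticOnNhd ℂ b Ω)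
    (hBd : ∀ b ∈ B', deriv b ∈ B')
    (hp : Pool.Agent.W603.PV.IsHomog p) {q : ℕ} (hq : 1 ≤ q) (hQ : Q.IsHomogeneous q)
    (hB : Bdry p Q B) {m N : ℕ} {s : Fin N → LSymDiff p Q B m} (hs : LGens p Q B m s)
    (hm : 1 ≤ m) (han : ∀ j, AnalyticOnNhd ℂ (fun w => f w j) Ω) (hne : ∀ z ∈ Ω, f z ≠ 0)
    (hX : ∀ z ∈ Ω, ∀ H ∈ p, eval (f z) H = 0) (hoff : ∀ z ∈ Ω, eval (f z) Q ≠ 0)
    (hS : ∀ l, (s l).along f ∈ B')
    {K : Type} [Field K] [Algebra ℂ K] {w : ℕ} {y : Fin (n + 1) → K} (hy : GenPt f Ω K w y)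
    (hLG : LogGeneralType ℂ K w (OffQ Q q y)) :
    (∃ j0, ∀ j, ∃ c : ℂ, ∀ z ∈ Ω, f z j = c * f z j0) ∨
      ∀ i j, AlgRatioOn Ω B' (fun z => f z i) fun z => f z j := by
  classical
  have hdom : IsDomain (Hol Ω) := hol_domain hΩc hΩn
  obtain ⟨d, hd⟩ := exists_holDer hΩ
  obtain ⟨D, hD⟩ := exists_derFrac d
  let M := FractionRing (Hol Ω)
  let i : Hol Ω →ₐ[ℂ] M := IsScalarTower.toAlgHom ℂ (Hol Ω) M
  have hi : Function.Injective i := IsFractionRing.injective (Hol Ω) M
  have hDi : ∀ (g : ℂ → ℂ) (hg : AnalyticOnNhd ℂ g Ω), D (i (toHol g hg)) =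
      i (toHol (deriv g) hg.deriv) := by
    intro g hg
    have h1 : D (i (toHol g hg)) = i (d (toHol g hg)) := hD _
    rw [h1]
    congr 1
    apply hol_ext
    intro z
    rw [hd (toHol g hg) g hg (fun z => rfl) z, evz_toHol]
  have hi0 : ∀ (g : ℂ → ℂ) (hg : AnalyticOnNhd ℂ g Ω), i (toHol g hg) = 0 ↔ ∀ z ∈ Ω, g z = 0 :=
    fun g hg => (map_eq_zero_iff i hi).trans (hol_zero hg)
  have hieq : ∀ (g g' : ℂ → ℂ) (hg : AnalyticOnNhd ℂ g Ω) (hg' : AnalyticOnNhd ℂ g' Ω),
      i (toHol g hg) = i (toHol g' hg') → ∀ z ∈ Ω, g z = g' z := by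
    intro g g' hg hg' h z hz
    have h1 := congrArg (evz (⟨z, hz⟩ : Ω)) (hi h)
    rwa [evz_toHol, evz_toHol] at h1
  let F : Fin (n + 1) → Hol Ω := fun j => toHol (fun w => f w j) (han j)
  let x : Fin (n + 1) → M := fun j => i (F j)
  have hxa : ∀ G : MvPolynomial (Fin (n + 1)) ℂ, aeval x G = i (aeval F G) := fun G =>
    (comp_aeval_apply F i G).symm
  have hev : ∀ (G : MvPolynomial (Fin (n + 1)) ℂ) (z : Ω), evz z (aeval F G) = eval (f z) G := by
    intro G z
    rw [comp_aeval_apply F (evz z) G, ← ae]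
    rfl
  have hx0 : ∀ G : MvPolynomial (Fin (n + 1)) ℂ, aeval x G = 0 ↔ ∀ z ∈ Ω, eval (f z) G = 0 := by
    intro G
    rw [hxa, map_eq_zero_iff i hi]
    constructor
    · intro h z hz
      rw [← hev G ⟨z, hz⟩, h, map_zero]
    · intro h
      apply hol_ext
      intro z
      rw [hev, h z z.2, map_zero]
  obtain ⟨z0, hz0⟩ := hΩn
  obtain ⟨j0, hj0⟩ := Function.ne_iff.1 (hne z0 hz0)
  have hj0' : f z0 j0 ≠ 0 := hj0
  have hxj0 : x j0 ≠ 0 := fun h0 => hj0' ((hi0 _ (han j0)).1 h0 z0 hz0)
  -- the constant case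
  by_cases hnc : ∃ a b, D (x a / x b) ≠ 0
  swap
  · left
    push Not at hnc
    refine ⟨j0, fun j => ⟨f z0 j / f z0 j0, ?_⟩⟩
    have h1 := hnc j j0
    have h2 : D (x j) * x j0 - x j * D (x j0) = 0 := by
      have h3 : x j = x j / x j0 * x j0 := (div_mul_cancel₀ _ hxj0).symm
      have h4 : D (x j) = x j / x j0 * D (x j0) := by
        conv_lhs => rw [h3]
        rw [D.leibniz, h1]
        simp
      rw [h4]
      field_simp
      ring
    have h3 : ∀ z ∈ Ω, deriv (fun w => f w j) z * f z j0 - f z j * deriv (fun w => f w j0) z = 0 := by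
      have h4 : D (x j) * x j0 - x j * D (x j0) = i (toHol (fun z => deriv (fun w => f w j) z * f z j0 -
          f z j * deriv (fun w => f w j0) z)
          (((han j).deriv.mul (han j0)).sub ((han j).mul (han j0).deriv))) := by
        change D (i (toHol _ (han j))) * i (toHol _ (han j0)) - i (toHol _ (han j)) *
          D (i (toHol _ (han j0))) = _
        rw [hDi, hDi, ← map_mul, ← map_mul, ← map_sub]
        rfl
      rw [h4, hi0] at h2
      exact h2
    have h5 : AnalyticOnNhd ℂ (fun z => f z j - f z0 j / f z0 j0 * f z j0) Ω :=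
      (han j).sub (analyticOnNhd_const.mul (han j0))
    have h6 : ∀ᶠ z in 𝓝 z0, f z j - f z0 j / f z0 j0 * f z j0 = 0 := by
      obtain ⟨r, hr, hrs⟩ := Metric.mem_nhds_iff.1 (Filter.inter_mem (hΩ.mem_nhds hz0)
        ((han j0 z0 hz0).continuousAt.eventually_ne hj0'))
      filter_upwards [ball_mem_nhds z0 hr] with z hz
      have h7 : f z j / f z j0 = f z0 j / f z0 j0 := by
        have h8 : ∀ w ∈ ball z0 r, HasDerivWithinAt (fun w => f w j / f w j0) 0 (ball z0 r) w := by
          intro w hw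
          have h9 := ((han j w (hrs hw).1).differentiableAt.hasDerivAt.div
            (han j0 w (hrs hw).1).differentiableAt.hasDerivAt (hrs hw).2)
          rw [h3 w (hrs hw).1, zero_div] at h9
          exact h9.hasDerivWithinAt
        have h9 := (convex_ball z0 r).norm_image_sub_le_of_norm_hasDerivWithin_le
          (f := fun w => f w j / f w j0) (f' := fun _ => 0) (C := 0) h8 (fun w _ => by simp)
          (mem_ball_self hr) hz
        rw [zero_mul] at h9
        exact sub_eq_zero.1 (norm_le_zero_iff.1 h9)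
      rw [← h7, div_mul_cancel₀ _ (hrs hz).2, sub_self]
    intro z hz
    have h7 := h5.eqOn_zero_of_preconnected_of_eventuallyEq_zero hΩc hz0 h6 hz
    exact sub_eq_zero.1 h7
  right
  -- the constants
  let A0 : Subalgebra ℂ M :=
    { carrier := {z | ∃ (g : ℂ → ℂ) (hg : g ∈ B'), z = i (toHol g (hBan g hg))}
      mul_mem' := by
        rintro _ _ ⟨g, hg, rfl⟩ ⟨h, hh, rfl⟩
        exact ⟨g * h, B'.mul_mem hg hh, (map_mul i _ _).symm⟩
      add_mem' := by
        rintro _ _ ⟨g, hg, rfl⟩ ⟨h, hh, rfl⟩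
        exact ⟨g + h, B'.add_mem hg hh, (map_add i _ _).symm⟩
      algebraMap_mem' := by
        intro c
        exact ⟨algebraMap ℂ (ℂ → ℂ) c, B'.algebraMap_mem c, (i.commutes c).symm⟩ }
  have hA0D : Stab D A0 := by
    rintro _ ⟨g, hg, rfl⟩
    exact ⟨deriv g, hBd g hg, hDi g (hBan g hg)⟩
  -- the values of the symmetric differentials
  have hxm : ∀ H ∈ p, aeval x H = 0 := fun H hH => (hx0 H).2 fun z hz => hX z hz H hH
  have hxne : x ≠ 0 := fun h0 => hxj0 (congrFun h0 j0)
  have hQx : aeval x Q ≠ 0 := fun h0 => hoff z0 hz0 ((hx0 Q).1 h0 z0 hz0)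
  have htx := tanVec_der (p := p) D hxne hxm
  have hSan : ∀ l, AnalyticOnNhd ℂ ((s l).along f) Ω := fun l =>
    lalong_an hp hQ hB (s l) hΩ han hne hX hoff
  have hvalx : ∀ l, (s l).val x (fun j => D (x j)) = i (toHol _ (hSan l)) := by
    intro l
    obtain ⟨k, P, hP⟩ := lclear_den (B := B) j0 ((s l).pol j0)
    have h1 := hP M x (fun j => D (x j)) hxj0 fun b hb => hB.ne hp hQ hxm hQx hxj0 hb
    rw [← (s l).val_eq hp hQ hB htx hQx hxj0] at h1
    -- the polynomial as a function
    let G : Fin (n + 1) ⊕ Fin (n + 1) → Hol Ω := Sum.elim F fun j =>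
      toHol (deriv fun w => f w j) (han j).deriv
    have hG : (fun a => i (G a)) = Sum.elim x fun j => D (x j) := by
      funext a
      rcases a with a | a
      · rfl
      · exact (hDi _ (han a)).symm
    have h2 : aeval (Sum.elim x fun j => D (x j)) P = i (aeval G P) := by
      rw [comp_aeval_apply G i P, hG]
    have h3 : ∀ z : Ω, evz z (aeval G P) = eval (Sum.elim (f z) (dv f z)) P := by
      intro z
      rw [comp_aeval_apply G (evz z) P, ← ae]
      congr 2
      funext a
      rcases a with a | a <;> rfl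
    have h4 : aeval G P = (F j0 * ∏ b ∈ B j0, F b) ^ k * toHol _ (hSan l) := by
      have h5 : F j0 * (aeval G P - (F j0 * ∏ b ∈ B j0, F b) ^ k * toHol _ (hSan l)) = 0 := by
        apply hol_ext
        intro z
        rw [map_mul, map_sub, map_mul, map_pow, map_mul, map_prod, map_zero, h3]
        change f z j0 * (_ - (f z j0 * ∏ b ∈ B j0, f z b) ^ k * (s l).along f z) = 0
        by_cases hz : f z j0 = 0
        · rw [hz, zero_mul]
        · have hPt : f z ∈ Pts p := ⟨hne z z.2, hX z z.2⟩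
          have h6 := hP ℂ (f z) (dv f z) hz fun b hb h0 =>
            hoff z z.2 ((hB (f z) hPt j0 hz).2 ⟨b, hb, h0⟩)
          have h7 : (s l).along f z = aeval (lloc B j0 (f z) (dv f z)) ((s l).pol j0) :=
            (s l).val_eq hp hQ hB (tanVec_curve hΩ han hne hX z.2)
              (by rw [ae]; exact hoff z z.2) hz
          rw [← h7, ae] at h6
          rw [h6, sub_self, mul_zero]
      have h6 : F j0 ≠ 0 := fun h0 => hxj0 (by
        change i (F j0) = 0
        rw [h0, map_zero])
      exact sub_eq_zero.1 ((mul_eq_zero.1 h5).resolve_left h6)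
    rw [h2, h4, map_mul, map_pow, map_mul, map_prod] at h1
    have h8 : i (F j0) * ∏ b ∈ B j0, i (F b) ≠ 0 := mul_ne_zero hxj0
      (Finset.prod_ne_zero_iff.2 fun b hb => hB.ne hp hQ hxm hQx hxj0 hb)
    exact (mul_left_cancel₀ (pow_ne_zero k h8) h1).symm
  have hrel : ∀ G : MvPolynomial (Fin (n + 1)) ℂ, IsForm G →
      (W602.GT.val y G = 0 ↔ W602.GT.val x G = 0) := fun G hG =>
    (hy.rel G hG).trans (hx0 G).symm
  obtain ⟨r, h, A, hA, h1, h3⟩ := linSysA_amb D (frac A0)
    (fun c hc => stab_frac hA0D hc) hp hQ hB hs hm hxj0 hxm hQx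
    (fun l => le_frac _ ⟨(s l).along f, hS l, hvalx l⟩) hnc
  -- the exponents
  let S : Finset (Fin (n + 1) →₀ ℕ) := Finset.univ.finsuppAntidiag q
  have hSm : ∀ e : Fin (n + 1) →₀ ℕ, e ∈ S ↔ ∑ j, e j = q := by
    intro e
    rw [Finset.mem_finsuppAntidiag]
    exact ⟨fun h1 => h1.1, fun h1 => ⟨h1, Finset.subset_univ _⟩⟩
  choose b hb h4 using fun e : S => h3 e.1 ((hSm e.1).1 e.2)
  -- denominators
  obtain ⟨q', hq', hq0, hqc⟩ := common_frac A0 (fun a : (Fin r × Fin r) ⊕ (S × Fin r) =>
    Sum.elim (fun a => A a.1 a.2) (fun a => b a.1 a.2) a) (by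
      rintro (a | a)
      · exact hA _ _
      · exact hb _ _)
  obtain ⟨u, hu, rfl⟩ := hq'
  have hqA : ∀ a c, ∃ (g : ℂ → ℂ) (hg : g ∈ B'), i (toHol u (hBan u hu)) * A a c =
      i (toHol g (hBan g hg)) := fun a c => hqc (Sum.inl (a, c))
  have hqb : ∀ a c, ∃ (g : ℂ → ℂ) (hg : g ∈ B'), i (toHol u (hBan u hu)) * b a c =
      i (toHol g (hBan g hg)) := fun a c => hqc (Sum.inr (a, c))
  choose α hα hαe using hqA
  choose β hβ hβe using hqb
  obtain ⟨Q', ⟨Q0, hQ0⟩, hQne, hQc⟩ := common_frac i.range h (by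
      intro a
      obtain ⟨u, v, hv, huv⟩ := IsFractionRing.div_surjective (A := Hol Ω) (h a)
      refine ⟨i v, ⟨v, rfl⟩, ?_, ⟨u, ?_⟩⟩
      · rw [Ne, map_eq_zero_iff i hi]
        exact nonZeroDivisors.ne_zero hv
      · rw [← huv]
        change i u = i v * (i u / i v)
        have hv0 : i v ≠ 0 := by
          rw [Ne, map_eq_zero_iff i hi]
          exact nonZeroDivisors.ne_zero hv
        rw [mul_div_assoc', mul_div_cancel_left₀ _ hv0])
  have hho : ∀ H : Hol Ω, ∃ (g : ℂ → ℂ) (hg : AnalyticOnNhd ℂ g Ω), H = toHol g hg := by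
    intro H
    obtain ⟨g, hg, hgH⟩ := hol_an H
    exact ⟨g, hg, hol_ext fun z => by rw [hgH z, evz_toHol]⟩
  obtain ⟨V, hVan, rfl⟩ := hho Q0
  have hV0' : i (toHol V hVan) = Q' := hQ0
  subst hV0'
  have hPa : ∀ a, ∃ (g : ℂ → ℂ) (hg : AnalyticOnNhd ℂ g Ω), i (toHol V hVan) * h a =
      i (toHol g hg) := by
    intro a
    obtain ⟨H, hH⟩ := hQc a
    obtain ⟨g, hg, rfl⟩ := hho H
    exact ⟨g, hg, hH.symm⟩
  choose P hPan hPe using hPa
  -- the identities between functions
  have hid1 : ∀ a, ∀ z ∈ Ω, u z * (deriv (P a) z * V z - P a z * deriv V z) =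
      V z * ∑ c, α a c z * P c z := by
    intro a
    have e1 : D (i (toHol V hVan) * h a) = i (toHol (deriv (P a)) (hPan a).deriv) := by
      rw [hPe, hDi]
    rw [D.leibniz, hDi] at e1
    simp only [smul_eq_mul] at e1
    have e2 : i (toHol u (hBan u hu)) * (i (toHol (deriv (P a)) (hPan a).deriv) * i (toHol V hVan) -
        i (toHol _ (hPan a)) * i (toHol (deriv V) hVan.deriv)) =
          i (toHol V hVan) * ∑ c, i (toHol (α a c) (hBan _ (hα a c))) * i (toHol _ (hPan c)) := by
      rw [← e1, ← hPe a]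
      have e3 : ∀ c, i (toHol (α a c) (hBan _ (hα a c))) * i (toHol _ (hPan c)) =
          i (toHol u (hBan u hu)) * i (toHol V hVan) * (A a c * h c) := by
        intro c
        rw [← hαe, ← hPe]
        ring
      rw [Finset.sum_congr rfl fun c _ => e3 c, ← Finset.mul_sum, h1 a]
      ring
    have e4 := hieq (fun z => u z * (deriv (P a) z * V z - P a z * deriv V z))
      (fun z => V z * ∑ c, α a c z * P c z)
      ((hBan u hu).mul (((hPan a).deriv.mul hVan).sub ((hPan a).mul hVan.deriv)))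
      (fun z hz => (hVan z hz).fun_mul (Finset.analyticAt_fun_sum _ fun c _ =>
          (hBan _ (hα a c) z hz).fun_mul (hPan c z hz))) ?_
    · exact e4
    · have e5 : toHol (fun z => u z * (deriv (P a) z * V z - P a z * deriv V z))
          ((hBan u hu).mul (((hPan a).deriv.mul hVan).sub ((hPan a).mul hVan.deriv))) =
          toHol u (hBan u hu) * (toHol (deriv (P a)) (hPan a).deriv * toHol V hVan -
            toHol _ (hPan a) * toHol (deriv V) hVan.deriv) := rfl
      have e6 : toHol (fun z => V z * ∑ c, α a c z * P c z)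
          (fun z hz => (hVan z hz).fun_mul (Finset.analyticAt_fun_sum _ fun c _ =>
          (hBan _ (hα a c) z hz).fun_mul (hPan c z hz))) =
          toHol V hVan * ∑ c, toHol (α a c) (hBan _ (hα a c)) * toHol _ (hPan c) := by
        apply hol_ext
        intro z
        simp only [map_mul, map_sum, evz_toHol]
      rw [e5, e6]
      simp only [map_mul, map_sub, map_sum]
      exact e2
  have hid2 : ∀ e : S, ∀ z ∈ Ω, u z * V z * ∏ j, f z j ^ e.1 j =
      eval (f z) Q * ∑ c, β e c z * P c z := by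
    intro e
    have a1 : AnalyticOnNhd ℂ (fun z => u z * V z * ∏ j, f z j ^ e.1 j) Ω := fun z hz =>
      ((hBan u hu z hz).fun_mul (hVan z hz)).fun_mul
        (Finset.analyticAt_fun_prod _ fun j _ => (han j z hz).fun_pow _)
    have a2 : AnalyticOnNhd ℂ (fun z => eval (f z) Q * ∑ c, β e c z * P c z) Ω := fun z hz =>
      (eval_an' han Q z hz).fun_mul (Finset.analyticAt_fun_sum _ fun c _ =>
        (hBan _ (hβ e c) z hz).fun_mul (hPan c z hz))
    refine hieq _ _ a1 a2 ?_
    have e1 : toHol _ a1 = toHol u (hBan u hu) * toHol V hVan * ∏ j, F j ^ e.1 j := by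
      apply hol_ext
      intro z
      simp only [map_mul, map_prod, map_pow, evz_toHol]
      rfl
    have e2 : toHol _ a2 = aeval F Q * ∑ c, toHol (β e c) (hBan _ (hβ e c)) * toHol _ (hPan c) := by
      apply hol_ext
      intro z
      simp only [map_mul, map_sum, evz_toHol, hev]
    rw [e1, e2]
    simp only [map_mul, map_sum, map_prod, map_pow]
    have e3 : ∀ c, i (toHol (β e c) (hBan _ (hβ e c))) * i (toHol _ (hPan c)) =
        i (toHol u (hBan u hu)) * i (toHol V hVan) * (b e c * h c) := by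
      intro c
      rw [← hβe, ← hPe]
      ring
    rw [Finset.sum_congr rfl fun c _ => e3 c, ← Finset.mul_sum, ← h4 e, ← hxa Q]
    change _ * ∏ j, x j ^ e.1 j = _
    rw [mul_left_comm (aeval x Q), mul_div_cancel₀ _ hQx]
  -- a good point
  have hgood : ∃ z ∈ Ω, u z ≠ 0 ∧ V z ≠ 0 := by
    have hcdne : ∀ g : ℂ → ℂ, AnalyticOnNhd ℂ g Ω → (∃ z ∈ Ω, g z ≠ 0) →
        ∀ᶠ z in codiscreteWithin Ω, g z ≠ 0 := by
      intro g hg h0
      apply mer_ne hΩc fun z hz => (hg z hz).meromorphicAt
      intro h5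
      obtain ⟨z, hz, hz2⟩ := h0
      exact hz2 (near_zero hΩ hz (hg z hz) h5).self_of_nhds
    have c1 := hcdne u (hBan u hu) (by
      by_contra hcon
      push Not at hcon
      exact hq0 ((hi0 _ _).2 hcon))
    have c2 := hcdne V hVan (by
      by_contra hcon
      push Not at hcon
      exact hQne ((hi0 _ _).2 hcon))
    exact cd_exists hΩ ⟨z0, hz0⟩ (c1.and c2)
  obtain ⟨z1, hz1, g1, g2⟩ := hgood
  obtain ⟨ρ, hρ, hρs⟩ := Metric.mem_nhds_iff.1 (Filter.inter_mem (hΩ.mem_nhds hz1)
    (((hBan u hu z1 hz1).continuousAt.eventually_ne g1).and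
      ((hVan z1 hz1).continuousAt.eventually_ne g2)))
  let U : Set ℂ := ball z1 ρ
  have hUΩ : U ⊆ Ω := fun z hz => (hρs hz).1
  have hUq : ∀ z ∈ U, u z ≠ 0 := fun z hz => (hρs hz).2.1
  have hUQ : ∀ z ∈ U, V z ≠ 0 := fun z hz => (hρs hz).2.2
  have hUo : IsOpen U := isOpen_ball
  have hUc : IsPreconnected U := (convex_ball z1 ρ).isPreconnected
  have hUn : U.Nonempty := ⟨z1, mem_ball_self hρ⟩
  let g : Fin r → ℂ → ℂ := fun a z => P a z / V z
  have hgder : ∀ a, ∀ z ∈ U, HasDerivAt (g a) (∑ c, α a c z / u z * g c z) z := by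
    intro a z hz
    have e2 := ((hPan a z (hUΩ hz)).differentiableAt.hasDerivAt).div
      ((hVan z (hUΩ hz)).differentiableAt.hasDerivAt) (hUQ z hz)
    refine e2.congr_deriv ?_
    have e3 := hid1 a z (hUΩ hz)
    have q0 := hUq z hz
    have Q0 := hUQ z hz
    have e4 : ∑ c, α a c z / u z * g c z = 1 / (u z * V z) * ∑ c, α a c z * P c z := by
      rw [Finset.mul_sum]
      refine Finset.sum_congr rfl fun c _ => ?_
      change α a c z / u z * (P c z / V z) = _
      field_simp
    rw [e4]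
    have e5 : ∑ c, α a c z * P c z = (u z * (deriv (P a) z * V z - P a z * deriv V z)) / V z := by
      rw [eq_div_iff Q0, e3]
      ring
    rw [e5]
    field_simp
  have hBU : DBOn U B' := ⟨fun b hb z hz => (hBan b hb z (hUΩ hz)).meromorphicAt, hBd⟩
  have hgan : ∀ a, ∀ z ∈ U, AnalyticAt ℂ (g a) z := by
    intro a z hz
    have h5 : DifferentiableOn ℂ (g a) U := fun z hz =>
      (hgder a z hz).differentiableAt.differentiableWithinAt
    exact h5.analyticAt (hUo.mem_nhds hz)
  have hgI : ∀ a, IterOn U B' (g a) := by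
    refine IterOn.ode (fun a c z => α a c z / u z) g (fun a c => IterOn.quot (hα a c) hu)
      (fun a z hz => (hgan a z hz).meromorphicAt) ?_
    filter_upwards [cd_self (Ω := U)] with z hz a
    exact hgder a z hz
  have hcurve : IterCurve U B' Q q f := by
    refine ⟨fun h0 => absurd h0 (by omega), fun _ e he => ?_⟩
    let e' : S := ⟨e, (hSm e).2 he⟩
    have hreg : ∀ z ∈ U, regV Q e f z = ∑ c, β e' c z / u z * g c z := by
      intro z hz
      have k1 := hid2 e' z (hUΩ hz)
      have q0 := hUq z hz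
      have Q0 := hUQ z hz
      have k2 := hoff z (hUΩ hz)
      have k3 : ∑ c, β e' c z / u z * g c z = 1 / (u z * V z) * ∑ c, β e' c z * P c z := by
        rw [Finset.mul_sum]
        refine Finset.sum_congr rfl fun c _ => ?_
        change β e' c z / u z * (P c z / V z) = _
        field_simp
      rw [k3]
      change (∏ j, f z j ^ e j) / eval (f z) Q = _
      rw [div_eq_iff k2, one_div, mul_assoc, mul_comm (∑ c, β e' c z * P c z), ← k1]
      change _ = (u z * V z)⁻¹ * (u z * V z * ∏ j, f z j ^ e j)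
      rw [inv_mul_cancel_left₀ (mul_ne_zero q0 Q0)]
    refine L7aux.iter_prim (dg := fun z => ∑ c, ((fun w => deriv (β e' c) w * u w -
        β e' c w * deriv u w) z / (fun w => u w * u w) z * g c z +
        β e' c z / u z * ∑ d, α c d z / u z * g d z)) ?_ (fun z hz => ?_) (fun z hz => ?_)
    · refine iter_sum Finset.univ _ fun c _ => ?_
      refine IterOn.add (IterOn.mul (IterOn.quot ?_ ?_) (hgI c)) (IterOn.mul
        (IterOn.quot (hβ e' c) hu) (iter_sum Finset.univ _ fun d _ =>
          IterOn.mul (IterOn.quot (hα c d) hu) (hgI d)))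
      · exact B'.sub_mem (B'.mul_mem (hBd _ (hβ e' c)) hu) (B'.mul_mem (hβ e' c) (hBd _ hu))
      · exact B'.mul_mem hu hu
    · have k1 : HasDerivAt (fun z => ∑ c, β e' c z / u z * g c z)
          (∑ c, ((deriv (β e' c) z * u z - β e' c z * deriv u z) / (u z * u z) * g c z +
            β e' c z / u z * ∑ d, α c d z / u z * g d z)) z := by
        refine HasDerivAt.fun_sum fun c _ => ?_
        have k2 := ((hBan _ (hβ e' c) z (hUΩ hz)).differentiableAt.hasDerivAt.div
          (hBan u hu z (hUΩ hz)).differentiableAt.hasDerivAt (hUq z hz)).mul (hgder c z hz)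
        refine k2.congr_deriv ?_
        rw [pow_two]
        rfl
      refine k1.congr_of_eventuallyEq ?_
      filter_upwards [hUo.mem_nhds hz] with w hw
      exact hreg w hw
    · have k1 : DifferentiableOn ℂ (regV Q e f) U := by
        intro w hw
        have k2 : AnalyticAt ℂ (regV Q e f) w :=
          (Finset.analyticAt_fun_prod _ fun j _ => (han j w (hUΩ hw)).fun_pow _).fun_div
            (eval_an' han Q w (hUΩ hw)) (hoff w (hUΩ hw))
        exact k2.differentiableAt.differentiableWithinAt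
      exact k1.analyticAt (hUo.mem_nhds hz)
  have hext : ∀ g' : ℂ → ℂ, AnalyticOnNhd ℂ g' Ω → (∀ᶠ z in codiscreteWithin U, g' z = 0) →
      ∀ z ∈ Ω, g' z = 0 := by
    intro g' hg' h5
    have h6 := near_zero hUo (mem_ball_self hρ) (hg' z1 hz1) h5
    exact fun z hz => hg'.eqOn_zero_of_preconnected_of_eventuallyEq_zero hΩc hz1 h6 hz
  rcases log_mainOn hUo hUc hUn hQ hBU (fun j => (han j).mono hUΩ) (fun z hz => hne z (hUΩ hz))
    (fun z hz => hoff z (hUΩ hz)) hcurve with halg | ⟨M', i1, i2, P', k1, k2, k3⟩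
  · intro a c
    obtain ⟨k, bb, hbb, ⟨e, he, hbe⟩, hsum⟩ := halg a c
    refine ⟨k, bb, hbb, ⟨e, he, fun h0 => hbe ?_⟩, ?_⟩
    · have h5 : ∀ z ∈ Ω, bb e z = 0 := fun z hz =>
        (near_zero hΩ hz (hBan _ (hbb e) z hz) h0).self_of_nhds
      filter_upwards [cd_self (Ω := U)] with z hz
      exact h5 z (hUΩ hz)
    · have h5 := hext (fun z => ∑ l ∈ Finset.range (k + 1), bb l z * f z a ^ l * f z c ^ (k - l))
        (fun z hz => Finset.analyticAt_fun_sum _ fun l _ =>
          ((hBan _ (hbb l) z hz).fun_mul ((han a z hz).fun_pow l)).fun_mul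
            ((han c z hz).fun_pow _)) hsum
      filter_upwards [cd_self (Ω := Ω)] with z hz
      exact h5 z hz
  · exfalso
    refine not_lgt hQ hy.ne hy.gen hy.dim P' (fun G hG => ?_) k2 k3 hLG
    rw [k1 G hG, hy.rel G hG]
    constructor
    · intro h5 z hz
      exact h5 z (hUΩ hz)
    · intro h5
      refine hext (fun z => eval (f z) G) (eval_an' han G) ?_
      filter_upwards [cd_self (Ω := U)] with z hz
      exact h5 z hz

/-- **P-curves**: maps from the punctured disc to the complement of the boundary whose Zariski closure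
is of log general type extend. -/
theorem pcurve_lext (hp : Pool.Agent.W603.PV.IsHomog p) {q : ℕ} (hq : 1 ≤ q)
    (hQ : Q.IsHomogeneous q) (hB : Bdry p Q B) {m N : ℕ} {s : Fin N → LSymDiff p Q B m}
    (hs : LGens p Q B m s) (hm : 1 ≤ m) (han : ∀ j, AnalyticOnNhd ℂ (fun w => f w j) (PB 1))
    (hne : ∀ z ∈ PB 1, f z ≠ 0) (hX : ∀ z ∈ PB 1, ∀ H ∈ p, eval (f z) H = 0)
    (hoff : ∀ z ∈ PB 1, eval (f z) Q ≠ 0)
    {K : Type} [Field K] [Algebra ℂ K] {w : ℕ} {y : Fin (n + 1) → K} (hy : GenPt f (PB 1) K w y)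
    (hLG : LogGeneralType ℂ K w (OffQ Q q y)) : Extends f := by
  rcases alg_of_lgt (PB_open 1) (PB_preconn one_pos) (PB_nonempty one_pos) (smallRing one_pos f)
    (fun b hb => by
      have h1 := hb.1
      rwa [pb_eq] at h1) (fun b hb => (db_small one_pos le_rfl f).der b hb) hp hq hQ hB hs hm han
    hne hX hoff (fun l => lalong_small hp hQ hB (s l) han hne hX hoff) hy hLG with ⟨j0, h⟩ | h
  · exact extends_of_const han hne h
  · obtain ⟨C, -, hC⟩ := Pool.Agent.Helper4K9.AP.growth_of_alg one_pos le_rfl han hne h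
    exact extends_of_growth han hne hC

end Pool.Agent.H917.Lg
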