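import Pool.Agent.H917.B5
import Pool.Agent.H917.L.L7

/-!
# PROJECT LOG (helper917), task L8: entire curves

## Paper proof (a variant of `Pool/Agent/H917/B5.lean`: `const_of_along`, `along_inv`, `entire_not_gt`; copy those proofs)
`const_of_lalong`: if all `s l` are zero along `f`, then (the generation relation for `I = fun _ => i`) the `m`-th powers of the entries `deriv (f_i / f_j0)`, resp. the logarithmic derivatives, vanish where
`f_j0 ≠ 0`, so `f_i / f_j0` is constant.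
`entire_not_lgt`: suppose `LogGeneralType`. As in `entire_not_gt` the curve `w ↦ f (1 / w)` on the punctured disc extends (`pcurve_lext`) to a vector `g` of homogeneous coordinates on the disc, so for
`|z| > 1`: `s.along f z = (- z^{-2})^m s.along g z⁻¹` (the quotient rule holds for the logarithmic entries as well: they are multiplied by the same factor). Let `j` be an index with
`g 0 j ≠ 0`. For `w ≠ 0` near `0` the point `g w` is outside `Q = 0` (it is a point `f w⁻¹` of the curve), and by `lalong_eq` `s.along g w` is a polynomial, homogeneous of degree `m` in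
the entries `g_i' ..`; the entries for `i ∈ B j` are `logDeriv (g_i / g_j) w`, where `g_i / g_j` is meromorphic, analytic at `0` and not identically zero: `w * logDeriv (g_i / g_j) w` is bounded near `0`
(it is `w u' / u` for `u = w^k u_0`, `u_0 0 ≠ 0`). So `w^m s.along g w` is bounded near `0` (`aeval_scale_inr` in B1 with the factor `w`), and
`|s.along f z| ≤ C |z|^{-2m} |z|^m = C |z|^{-m}` for large `z`. So the entire function `s.along f` (`lalong_an`) tends to `0` at infinity and is zero (Liouville). Then `f` is constant by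
`const_of_lalong`, a contradiction.
-/

set_option autoImplicit false
set_option linter.overlappingInstances false
set_option linter.unusedSectionVars false

open MvPolynomial Metric Set Filter Topology FF Pool.Agent.W602.GT Pool.Agent.W603.BP
  Pool.Agent.TH143.GT Pool.Agent.W603.GR

namespace Pool.Agent.H917.Lg

variable {n : ℕ} {p : Ideal (MvPolynomial (Fin (n + 1)) ℂ)} {Q : MvPolynomial (Fin (n + 1)) ℂ}
  {B : Fin (n + 1) → Finset (Fin (n + 1))} {f : ℂ → Fin (n + 1) → ℂ} {Ω : Set ℂ}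

namespace L8aux

/-- `w` times the logarithmic derivative of an analytic function is bounded near the origin -/
theorem tend_log {u : ℂ → ℂ} (hu : AnalyticAt ℂ u 0) (hne : ∀ᶠ w in 𝓝[≠] (0 : ℂ), u w ≠ 0) :
    ∃ L : ℂ, Tendsto (fun w => w * (deriv u w / u w)) (𝓝[≠] (0 : ℂ)) (𝓝 L) := by
  have h0 : ¬ ∀ᶠ z in 𝓝 (0 : ℂ), u z = 0 := by
    intro h
    have h1 : ∀ᶠ z in 𝓝[≠] (0 : ℂ), u z = 0 := h.filter_mono nhdsWithin_le_nhds
    obtain ⟨z, hz1, hz2⟩ := (h1.and hne).exists
    exact hz2 hz1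
  obtain ⟨k, v, hv, hv0, hk⟩ := hu.exists_eventuallyEq_pow_smul_nonzero_iff.2 h0
  refine ⟨k, ?_⟩
  have h1 : Tendsto (fun w : ℂ => (k : ℂ) + w * (deriv v w / v w)) (𝓝[≠] (0 : ℂ))
      (𝓝 ((k : ℂ) + 0 * (deriv v 0 / v 0))) := by
    have h2 : ContinuousAt (fun w : ℂ => (k : ℂ) + w * (deriv v w / v w)) 0 :=
      continuousAt_const.add (continuousAt_id.mul (hv.deriv.continuousAt.div hv.continuousAt hv0))
    exact h2.tendsto.mono_left nhdsWithin_le_nhds
  rw [zero_mul, add_zero] at h1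
  refine h1.congr' ?_
  have h3 : ∀ᶠ w in 𝓝 (0 : ℂ), v w ≠ 0 := hv.continuousAt.eventually_ne hv0
  have h4 : ∀ᶠ w in 𝓝 (0 : ℂ), AnalyticAt ℂ v w := hv.eventually_analyticAt
  filter_upwards [nhdsWithin_le_nhds h3, nhdsWithin_le_nhds h4,
    nhdsWithin_le_nhds hk.eventually_nhds, self_mem_nhdsWithin] with w hw3 hw4 hw5 hw0
  have hw0' : w ≠ 0 := hw0
  have h5 : HasDerivAt (fun z : ℂ => (z - 0) ^ k • v z)
      ((k : ℂ) * (w - 0) ^ (k - 1) * 1 * v w + (w - 0) ^ k * deriv v w) w := by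
    have h6 : HasDerivAt (fun z : ℂ => z - 0) 1 w := (hasDerivAt_id w).sub_const 0
    exact (h6.pow k).mul hw4.differentiableAt.hasDerivAt
  have h7 : deriv u w = (k : ℂ) * (w - 0) ^ (k - 1) * 1 * v w + (w - 0) ^ k * deriv v w := by
    have h8 : u =ᶠ[𝓝 w] fun z : ℂ => (z - 0) ^ k • v z := hw5
    rw [h8.deriv_eq, h5.deriv]
  rw [h7, hw5.self_of_nhds, smul_eq_mul, sub_zero]
  rcases k with _ | k
  · simp only [Nat.cast_zero, pow_zero]
    ring
  · have h9 : w ^ k ≠ 0 := pow_ne_zero _ hw0'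
    rw [Nat.add_sub_cancel, pow_succ]
    field_simp

theorem lloc_curve {z : ℂ} (hd : ∀ j, DifferentiableAt ℂ (fun w => f w j) z) {j : Fin (n + 1)}
    (hj : f z j ≠ 0) : lloc B j (f z) (dv f z) =
      Sum.elim (fun i => f z i / f z j) fun i =>
        if i ∈ B j then deriv (fun w => f w i / f w j) z / (f z i / f z j)
        else deriv (fun w => f w i / f w j) z := by
  funext k
  rcases k with k | k
  · rfl
  · change (if k ∈ B j then (dv f z k * f z j - f z k * dv f z j) / (f z k * f z j)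
      else (dv f z k * f z j - f z k * dv f z j) / f z j ^ 2) =
      if k ∈ B j then deriv (fun w => f w k / f w j) z / (f z k / f z j)
        else deriv (fun w => f w k / f w j) z
    rw [deriv_fun_div (hd k) (hd j) hj]
    split_ifs with h
    · change (deriv (fun w => f w k) z * f z j - f z k * deriv (fun w => f w j) z) /
        (f z k * f z j) = _
      by_cases hk : f z k = 0
      · rw [hk, zero_mul, zero_mul, zero_div, div_zero, div_zero]
      · field_simp
    · rfl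

/-- the values along a curve near infinity -/
theorem lalong_inv (hp : Pool.Agent.W603.PV.IsHomog p) {q : ℕ} (hQ : Q.IsHomogeneous q)
    (hB : Bdry p Q B) {m : ℕ} (s : LSymDiff p Q B m)
    (hf : ∀ j, Differentiable ℂ fun z => f z j) (hne : ∀ z, f z ≠ 0)
    (hX : ∀ z, ∀ H ∈ p, eval (f z) H = 0) (hoff : ∀ z, eval (f z) Q ≠ 0)
    {g : ℂ → Fin (n + 1) → ℂ}
    (hg : ∀ j, AnalyticOnNhd ℂ (fun w => g w j) (ball 0 1))
    (hfg : ∀ w ∈ PB 1, ∃ c : ℂ, f w⁻¹ = c • g w) {z : ℂ} (hz : 1 < ‖z‖)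
    {j : Fin (n + 1)} (hgj : g z⁻¹ j ≠ 0) :
    s.along f z = (-z⁻¹) ^ m * eval (Sum.elim (fun i => g z⁻¹ i / g z⁻¹ j) fun i =>
      if i ∈ B j then z⁻¹ * (deriv (fun w => g w i / g w j) z⁻¹ / (g z⁻¹ i / g z⁻¹ j))
      else z⁻¹ * deriv (fun w => g w i / g w j) z⁻¹) (s.pol j) := by
  have hfan : ∀ j, AnalyticOnNhd ℂ (fun w => f w j) univ := fun j z _ => (hf j).analyticAt z
  have hz0 : z ≠ 0 := by
    intro h0
    rw [h0, norm_zero] at hz
    linarith
  have hzi : z⁻¹ ∈ PB 1 := ⟨inv_ne_zero hz0, by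
    rw [norm_inv]
    exact inv_lt_one_of_one_lt₀ hz⟩
  have hzb : z⁻¹ ∈ ball (0 : ℂ) 1 := by
    rw [mem_ball_zero_iff]
    exact hzi.2
  obtain ⟨c, hc⟩ := hfg _ hzi
  rw [inv_inv] at hc
  have hc0 : c ≠ 0 := by
    rintro rfl
    apply hne z
    rw [hc, zero_smul]
  have hj' : f z j ≠ 0 := by
    rw [hc, Pi.smul_apply, smul_eq_mul]
    exact mul_ne_zero hc0 hgj
  rw [lalong_eq hp hQ hB s isOpen_univ hfan (fun z _ => hne z) (fun z _ => hX z)
    (fun z _ => hoff z) (mem_univ z) hj', ← ae, ← ae, ← aeval_scale_inr (s.hom j)]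
  have hU : {w : ℂ | 1 < ‖w‖ ∧ f w j ≠ 0} ∈ 𝓝 z := by
    refine Filter.inter_mem ((isOpen_lt continuous_const continuous_norm).mem_nhds hz) ?_
    exact (hf j).continuous.continuousAt.eventually_ne hj'
  have hq : ∀ i, (fun w => f w i / f w j) =ᶠ[𝓝 z] fun w => g w⁻¹ i / g w⁻¹ j := by
    intro i
    filter_upwards [hU] with w hw
    have hw0 : w ≠ 0 := by
      intro h0
      have := hw.1
      rw [h0, norm_zero] at this
      linarith
    obtain ⟨c, hc⟩ := hfg w⁻¹ ⟨inv_ne_zero hw0, by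
      rw [norm_inv]
      exact inv_lt_one_of_one_lt₀ hw.1⟩
    rw [inv_inv] at hc
    have hc0 : c ≠ 0 := by
      rintro rfl
      apply hw.2
      rw [hc, Pi.smul_apply, zero_smul]
    rw [hc, Pi.smul_apply, Pi.smul_apply, smul_eq_mul, smul_eq_mul, mul_div_mul_left _ _ hc0]
  have hd : ∀ k, deriv (fun w => f w k / f w j) z =
      -(z ^ 2)⁻¹ * deriv (fun w => g w k / g w j) z⁻¹ := by
    intro k
    rw [(hq k).deriv_eq]
    have h1 : HasDerivAt (fun w => g w k / g w j) (deriv (fun w => g w k / g w j) z⁻¹) z⁻¹ :=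
      ((hg k _ hzb).differentiableAt.fun_div (hg j _ hzb).differentiableAt hgj).hasDerivAt
    have h2 := h1.comp z (hasDerivAt_inv hz0)
    refine h2.deriv.trans ?_
    ring
  have hi2 : (z ^ 2)⁻¹ = z⁻¹ * z⁻¹ := by
    rw [pow_two, mul_inv]
  congr 2
  funext k
  rcases k with k | k
  · exact (hq k).self_of_nhds
  · have h3 : f z k / f z j = g z⁻¹ k / g z⁻¹ j := (hq k).self_of_nhds
    change (if k ∈ B j then deriv (fun w => f w k / f w j) z / (f z k / f z j)
        else deriv (fun w => f w k / f w j) z) = -z⁻¹ *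
      (if k ∈ B j then z⁻¹ * (deriv (fun w => g w k / g w j) z⁻¹ / (g z⁻¹ k / g z⁻¹ j))
      else z⁻¹ * deriv (fun w => g w k / g w j) z⁻¹)
    rw [hd k, h3, hi2]
    split_ifs with h
    · ring
    · ring

end L8aux

open L8aux

theorem const_of_lalong (hp : Pool.Agent.W603.PV.IsHomog p) {q : ℕ} (hQ : Q.IsHomogeneous q)
    (hB : Bdry p Q B) {m N : ℕ} {s : Fin N → LSymDiff p Q B m}
    (hs : LGens p Q B m s) (hΩ : IsOpen Ω) (hΩc : IsPreconnected Ω)
    (han : ∀ j, AnalyticOnNhd ℂ (fun w => f w j) Ω) (hne : ∀ z ∈ Ω, f z ≠ 0)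
    (hX : ∀ z ∈ Ω, ∀ H ∈ p, eval (f z) H = 0) (hoff : ∀ z ∈ Ω, eval (f z) Q ≠ 0)
    (h : ∀ l, ∀ z ∈ Ω, (s l).along f z = 0)
    {z0 : ℂ} (hz0 : z0 ∈ Ω) {j0 : Fin (n + 1)} (hj0 : f z0 j0 ≠ 0) (i : Fin (n + 1)) :
    ∃ c : ℂ, ∀ z ∈ Ω, f z i = c * f z j0 := by
  refine const_of_deriv hΩ hΩc (han i) (han j0) hz0 hj0 fun z hz hz' => ?_
  obtain ⟨b, hb⟩ := hs j0 fun _ => i
  have h1 := hb (f z) (dv f z) (tanVec_curve hΩ han hne hX hz) (hoff z hz) hz'
  rw [lloc_curve (fun j => (han j z hz).differentiableAt) hz', Finset.prod_const,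
    Finset.card_univ, Fintype.card_fin] at h1
  rw [Finset.sum_eq_zero fun l _ => by
    rw [← lalong_eq hp hQ hB (s l) hΩ han hne hX hoff hz hz', h l z hz, mul_zero]] at h1
  have h2 : (if i ∈ B j0 then deriv (fun w => f w i / f w j0) z / (f z i / f z j0)
        else deriv (fun w => f w i / f w j0) z) = 0 := by
    by_contra h0
    exact pow_ne_zero m h0 h1
  by_cases hi : i ∈ B j0
  · rw [if_pos hi] at h2
    have h3 : f z i ≠ 0 := fun h0 =>
      hoff z hz ((hB (f z) ⟨hne z hz, hX z hz⟩ j0 hz').2 ⟨i, hi, h0⟩)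
    exact (div_eq_zero_iff.1 h2).resolve_right (div_ne_zero h3 hz')
  · rw [if_neg hi] at h2
    exact h2

theorem entire_not_lgt (hp : Pool.Agent.W603.PV.IsHomog p) {q : ℕ} (hq : 1 ≤ q)
    (hQ : Q.IsHomogeneous q) (hB : Bdry p Q B) {m N : ℕ} {s : Fin N → LSymDiff p Q B m}
    (hs : LGens p Q B m s) (hm : 1 ≤ m) (hf : ∀ j, Differentiable ℂ fun z => f z j)
    (hne : ∀ z, f z ≠ 0) (hX : ∀ z, ∀ H ∈ p, eval (f z) H = 0) (hoff : ∀ z, eval (f z) Q ≠ 0)
    (hnc : ∃ z w, ∀ c : ℂ, f z ≠ c • f w)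
    {K : Type} [Field K] [Algebra ℂ K] {w : ℕ} {y : Fin (n + 1) → K} (hy : GenPt f univ K w y) :
    ¬ LogGeneralType ℂ K w (OffQ Q q y) := by
  intro hLG
  have hfan : ∀ j, AnalyticOnNhd ℂ (fun w => f w j) univ := fun j z _ => (hf j).analyticAt z
  have hinv : ∀ w ∈ PB 1, w ≠ 0 := fun w hw => hw.1
  have han : ∀ j, AnalyticOnNhd ℂ (fun w => f w⁻¹ j) (PB 1) := fun j w hw =>
    ((hf j).analyticAt w⁻¹).fun_comp (analyticAt_inv (hinv w hw))
  have hy' : GenPt (fun w => f w⁻¹) (PB 1) K w y := by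
    refine ⟨hy.ne, hy.gen, hy.dim, fun G hG => (hy.rel G hG).trans
      ⟨fun h z _ => h _ (mem_univ _), fun h z _ => ?_⟩⟩
    have h1 : AnalyticOnNhd ℂ (fun z => eval (f z) G) univ := eval_an' hfan G
    refine h1.eqOn_zero_of_preconnected_of_eventuallyEq_zero isPreconnected_univ
      (z₀ := 2) (mem_univ _) ?_ (mem_univ z)
    have h2 : {w : ℂ | 1 < ‖w‖} ∈ 𝓝 (2 : ℂ) :=
      (isOpen_lt continuous_const continuous_norm).mem_nhds (by simp)
    filter_upwards [h2] with w hw
    have hw0 : w ≠ 0 := by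
      intro h0
      have : 1 < ‖w‖ := hw
      rw [h0, norm_zero] at this
      linarith
    have h3 := h w⁻¹ ⟨inv_ne_zero hw0, by
      rw [norm_inv]
      exact inv_lt_one_of_one_lt₀ hw⟩
    rw [inv_inv] at h3
    exact h3
  obtain ⟨g, hgd, hgne, hgf⟩ := pcurve_lext hp hq hQ hB hs hm han (fun z _ => hne _)
    (fun z _ => hX _) (fun z _ => hoff _) hy' hLG
  have hgf' : ∀ w ∈ PB 1, ∃ c : ℂ, f w⁻¹ = c • g w := by
    intro w hw
    exact hgf w (by rw [Pool.Agent.Helper4K9.IP.pb_eq]; exact hw)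
  have hgan : ∀ j, AnalyticOnNhd ℂ (fun w => g w j) (ball 0 1) := fun j =>
    (differentiableOn_pi.1 hgd j).analyticOnNhd isOpen_ball
  -- the values of the symmetric differentials vanish
  have hzero : ∀ l, ∀ z ∈ univ, (s l).along f z = 0 := by
    intro l
    have h1 : AnalyticOnNhd ℂ ((s l).along f) univ :=
      lalong_an hp hQ hB (s l) isOpen_univ hfan (fun z _ => hne z) (fun z _ => hX z)
        (fun z _ => hoff z)
    have h2 : Differentiable ℂ ((s l).along f) := fun z => (h1 z (mem_univ z)).differentiableAt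
    have h0b : (0 : ℂ) ∈ ball (0 : ℂ) 1 := mem_ball_self one_pos
    obtain ⟨j, hj⟩ := Function.ne_iff.1 (hgne 0 h0b)
    have hj' : g 0 j ≠ 0 := hj
    have hjn : ∀ᶠ w in 𝓝 (0 : ℂ), g w j ≠ 0 := (hgan j 0 h0b).continuousAt.eventually_ne hj'
    have hu : ∀ i, AnalyticAt ℂ (fun w => g w i / g w j) 0 := fun i =>
      (hgan i 0 h0b).fun_div (hgan j 0 h0b) hj'
    have hPB : ∀ᶠ w in 𝓝[≠] (0 : ℂ), w ∈ PB 1 := by
      filter_upwards [nhdsWithin_le_nhds (ball_mem_nhds (0 : ℂ) one_pos),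
        self_mem_nhdsWithin] with w hw hw0
      exact ⟨hw0, by rwa [mem_ball_zero_iff] at hw⟩
    have hun : ∀ i ∈ B j, ∀ᶠ w in 𝓝[≠] (0 : ℂ), g w i / g w j ≠ 0 := by
      intro i hi
      filter_upwards [hPB, nhdsWithin_le_nhds hjn] with w hw hwj
      obtain ⟨c, hc⟩ := hgf' w hw
      have hc0 : c ≠ 0 := by
        rintro rfl
        apply hne w⁻¹
        rw [hc, zero_smul]
      refine div_ne_zero (fun h0 => ?_) hwj
      have hfj : f w⁻¹ j ≠ 0 := by
        rw [hc, Pi.smul_apply, smul_eq_mul]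
        exact mul_ne_zero hc0 hwj
      refine hoff w⁻¹ ((hB (f w⁻¹) ⟨hne _, hX _⟩ j hfj).2 ⟨i, hi, ?_⟩)
      rw [hc, Pi.smul_apply, smul_eq_mul, h0, mul_zero]
    have hL : ∀ i, ∃ L : ℂ, Tendsto (fun v : ℂ =>
        if i ∈ B j then v * (deriv (fun w => g w i / g w j) v / (g v i / g v j))
        else v * deriv (fun w => g w i / g w j) v) (𝓝[≠] (0 : ℂ)) (𝓝 L) := by
      intro i
      by_cases hi : i ∈ B j
      · simp only [if_pos hi]
        exact tend_log (hu i) (hun i hi)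
      · simp only [if_neg hi]
        refine ⟨0 * deriv (fun w => g w i / g w j) 0, ?_⟩
        exact (continuousAt_id.mul (hu i).deriv.continuousAt).tendsto.mono_left
          nhdsWithin_le_nhds
    choose L hL using hL
    have hE : Tendsto (fun v : ℂ => eval (Sum.elim (fun i => g v i / g v j) fun i =>
        if i ∈ B j then v * (deriv (fun w => g w i / g w j) v / (g v i / g v j))
        else v * deriv (fun w => g w i / g w j) v) ((s l).pol j)) (𝓝[≠] (0 : ℂ))
        (𝓝 (eval (Sum.elim (fun i => g 0 i / g 0 j) L) ((s l).pol j))) := by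
      refine ((MvPolynomial.continuous_eval ((s l).pol j)).tendsto _).comp ?_
      rw [tendsto_pi_nhds]
      intro k
      rcases k with k | k
      · exact (hu k).continuousAt.tendsto.mono_left nhdsWithin_le_nhds
      · exact hL k
    have h4 : Tendsto ((s l).along f) (cocompact ℂ) (𝓝 0) := by
      have h5 : Tendsto (fun z : ℂ => z⁻¹) (cocompact ℂ) (𝓝[≠] 0) := by
        rw [← Metric.cobounded_eq_cocompact]
        exact tendsto_inv₀_cobounded'
      have h5' : Tendsto (fun z : ℂ => z⁻¹) (cocompact ℂ) (𝓝 0) :=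
        h5.mono_right nhdsWithin_le_nhds
      have h6 := ((h5'.neg).pow m).mul (hE.comp h5)
      have h7 : (-(0 : ℂ)) ^ m * eval (Sum.elim (fun i => g 0 i / g 0 j) L) ((s l).pol j) = 0 := by
        rw [neg_zero, zero_pow (by omega), zero_mul]
      rw [h7] at h6
      refine h6.congr' ?_
      have h8 : ∀ᶠ z : ℂ in cocompact ℂ, 1 < ‖z‖ :=
        tendsto_norm_cocompact_atTop.eventually_gt_atTop 1
      filter_upwards [h8, h5'.eventually hjn] with z hz hzj
      exact (lalong_inv hp hQ hB (s l) hf hne hX hoff hgan hgf' hz hzj).symm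
    intro z _
    rw [h2.eq_const_of_tendsto_cocompact h4]
    rfl
  obtain ⟨z1, w1, hzw⟩ := hnc
  obtain ⟨j0, hj0⟩ := Function.ne_iff.1 (hne w1)
  have hj0' : f w1 j0 ≠ 0 := hj0
  choose c hc using const_of_lalong hp hQ hB hs isOpen_univ isPreconnected_univ hfan
    (fun z _ => hne z) (fun z _ => hX z) (fun z _ => hoff z) hzero (mem_univ w1) hj0'
  apply hzw (f z1 j0 / f w1 j0)
  funext i
  rw [Pi.smul_apply, smul_eq_mul, hc i z1 (mem_univ _), hc i w1 (mem_univ _)]
  field_simp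

end Pool.Agent.H917.Lg
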