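import Pool.Agent.H917.L.P1
import Pool.Agent.H917.G.V0
import Pool.Graph.R_pool_sql_team_seeded_2aa45f1a.Q139.EG.Hyp

/-!
# PROJECT LOG: the special subsets of the complement of a hypersurface section
-/

set_option autoImplicit false
set_option linter.overlappingInstances false
set_option linter.unusedSectionVars false

open MvPolynomial Metric Set MeasureTheory

namespace Pool.Agent.H917.Lg

open Pool.Agent.W602.GT (IsForm LogGeneralType coords)
open Pool.Agent.W603.GR (OffQ)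
open Pool.Agent.H917.G (HolMap PE)

variable {n : ℕ}

/-- The homogeneous coordinates of the points of the complement of `Q = 0` in the projective
variety with the ideal `p`. -/
def PtsQ (p : Ideal (MvPolynomial (Fin (n + 1)) ℂ)) (Q : MvPolynomial (Fin (n + 1)) ℂ) :
    Set (Fin (n + 1) → ℂ) := {x | x ∈ Pts p ∧ eval x Q ≠ 0}

/-- `K` is the function field and `y` the generic point, in homogeneous coordinates, of a closed
subvariety, of dimension `w`, of the complement of `Q = 0` in the projective variety with the ideal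
`p`. -/
structure SubVarQ (p : Ideal (MvPolynomial (Fin (n + 1)) ℂ)) (Q : MvPolynomial (Fin (n + 1)) ℂ)
    (K : Type) [Field K] [Algebra ℂ K] (w : ℕ) (y : Fin (n + 1) → K) : Prop where
  sub : SubVar p K w y
  off : aeval y Q ≠ 0

/-- `Sp_alg`: the Zariski closure of the union of the closed subvarieties of positive dimension
which are not of log general type. -/
def SpAlgQ (p : Ideal (MvPolynomial (Fin (n + 1)) ℂ)) (Q : MvPolynomial (Fin (n + 1)) ℂ)
    (q : ℕ) : Set (Fin (n + 1) → ℂ) :=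
  {x | x ∈ PtsQ p Q ∧ ∀ G : MvPolynomial (Fin (n + 1)) ℂ, (∃ d, G.IsHomogeneous d) →
    (∀ (K : Type) [Field K] [Algebra ℂ K] (w : ℕ) (y : Fin (n + 1) → K), 1 ≤ w →
      SubVarQ p Q K w y → ¬ LogGeneralType ℂ K w (OffQ Q q y) → aeval y G = 0) → eval x G = 0}

/-- `Sp_p`: the Zariski closure of the union of the images of the holomorphic maps from the
punctured disc to the complement of `Q = 0` with an essential singularity at the origin. -/
def SpPQ (p : Ideal (MvPolynomial (Fin (n + 1)) ℂ)) (Q : MvPolynomial (Fin (n + 1)) ℂ) :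
    Set (Fin (n + 1) → ℂ) :=
  {x | x ∈ PtsQ p Q ∧ ∀ G : MvPolynomial (Fin (n + 1)) ℂ, (∃ d, G.IsHomogeneous d) →
    (∀ f, PuncCurve p f → (∀ z ∈ ball (0 : ℂ) 1 \ {0}, eval (f z) Q ≠ 0) → ¬ Extends f →
      ∀ z ∈ ball (0 : ℂ) 1 \ {0}, eval (f z) G = 0) → eval x G = 0}

/-- `Sp_h`: the Zariski closure of the union of the images of the nonconstant entire curves in the
complement of `Q = 0`. -/
def SpHQ (p : Ideal (MvPolynomial (Fin (n + 1)) ℂ)) (Q : MvPolynomial (Fin (n + 1)) ℂ) :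
    Set (Fin (n + 1) → ℂ) :=
  {x | x ∈ PtsQ p Q ∧ ∀ G : MvPolynomial (Fin (n + 1)) ℂ, (∃ d, G.IsHomogeneous d) →
    (∀ f, EntCurve p f → (∀ z, eval (f z) Q ≠ 0) → ∀ z, eval (f z) G = 0) → eval x G = 0}

/-- The vector `P` of polynomials in one variable gives a nonconstant morphism from the punctured
line to the complement of `Q = 0` in the projective variety with the ideal `p`. -/
structure GmCurve (p : Ideal (MvPolynomial (Fin (n + 1)) ℂ)) (Q : MvPolynomial (Fin (n + 1)) ℂ)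
    (P : Fin (n + 1) → Polynomial ℂ) : Prop where
  mem : ∀ H ∈ p, aeval P H = 0
  off : ∃ (c : ℂ) (k : ℕ), c ≠ 0 ∧ aeval P Q = Polynomial.C c * Polynomial.X ^ k
  nc : ∃ s t : ℂ, s ≠ 0 ∧ t ≠ 0 ∧ ∃ i j,
    (P i).eval s * (P j).eval t ≠ (P j).eval s * (P i).eval t

/-- The Zariski closure of the union of the images of the nonconstant morphisms from the punctured
line to the complement of `Q = 0`. -/
def SpGmQ (p : Ideal (MvPolynomial (Fin (n + 1)) ℂ)) (Q : MvPolynomial (Fin (n + 1)) ℂ) :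
    Set (Fin (n + 1) → ℂ) :=
  {x | x ∈ PtsQ p Q ∧ ∀ G : MvPolynomial (Fin (n + 1)) ℂ, (∃ d, G.IsHomogeneous d) →
    (∀ P, GmCurve p Q P → ∀ t : ℂ, t ≠ 0 → eval (fun i => (P i).eval t) G = 0) → eval x G = 0}

/-- The Zariski closure of the union of the images of the nonconstant holomorphic maps to the
complement of `Q = 0` which are defined on the complement of a closed subset of `ℂ^g` whose
`(2g-2)`-dimensional Hausdorff measure is zero (for example of an analytic subset of codimension at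
least two). -/
def SpMerQ (p : Ideal (MvPolynomial (Fin (n + 1)) ℂ)) (Q : MvPolynomial (Fin (n + 1)) ℂ) :
    Set (Fin (n + 1) → ℂ) :=
  {x | x ∈ PtsQ p Q ∧ ∀ G : MvPolynomial (Fin (n + 1)) ℂ, (∃ d, G.IsHomogeneous d) →
    (∀ (g : ℕ) (Z : Set (Fin g → ℂ)) (f : (Fin g → ℂ) → Fin (n + 1) → ℂ), IsClosed Z →
      μH[2 * (g : ℝ) - 2] Z = 0 → HolMap Zᶜ f → (∀ z ∉ Z, f z ∈ PtsQ p Q) →
      (∃ z ∉ Z, ∃ w ∉ Z, ¬ PE (f z) (f w)) → ∀ z ∉ Z, eval (f z) G = 0) → eval x G = 0}

/-! ## Affine coordinates -/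

/-- `α` enumerates the exponents of degree `q`. -/
def Enum (q : ℕ) {ν : ℕ} (α : Fin ν → (Fin (n + 1) →₀ ℕ)) : Prop :=
  (∀ t, ∑ i, α t i = q) ∧ ∀ β : Fin (n + 1) →₀ ℕ, ∑ i, β i = q → ∃ t, α t = β

/-- the affine coordinates `x ^ α / Q(x)` of the point `x` of the complement of `Q = 0` -/
noncomputable def vr {R : Type} [Field R] [Algebra ℂ R] {ν : ℕ} (α : Fin ν → (Fin (n + 1) →₀ ℕ))
    (Q : MvPolynomial (Fin (n + 1)) ℂ) (x : Fin (n + 1) → R) : Fin ν → R :=
  fun t => (∏ i, x i ^ α t i) / aeval x Q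

theorem exists_enum (n q : ℕ) : ∃ (ν : ℕ) (α : Fin ν → (Fin (n + 1) →₀ ℕ)), Enum q α := by
  let A : Finset (Fin (n + 1) →₀ ℕ) := Finset.univ.finsuppAntidiag q
  have hA : ∀ β : Fin (n + 1) →₀ ℕ, β ∈ A ↔ ∑ j, β j = q := by
    intro β
    rw [Finset.mem_finsuppAntidiag]
    exact ⟨fun h1 => h1.1, fun h1 => ⟨h1, Finset.subset_univ _⟩⟩
  refine ⟨A.card, fun t => (A.equivFin.symm t).1, fun t => (hA _).1 (A.equivFin.symm t).2,
    fun β hβ => ⟨A.equivFin ⟨β, (hA β).2 hβ⟩, by simp⟩⟩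

end Pool.Agent.H917.Lg
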