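import Pool.Agent.H917.G.V2
import Pool.Agent.H917.L.L8
import Pool.Agent.H917.L.P2

/-!
# PROJECT LOG (helper917), task F1 (spPQ_sub, spHQ_sub): the special sets

## Paper proof (ports of `spP_sub`, `spH_sub` in `Pool/Agent/H917/F1.lean`, of F3.lean and of `spMer_sub_spH` in `G/V2.lean`; copy those proofs)
* `spPQ_sub`, `spHQ_sub`: as in F1.lean, with `pcurve_lext`, `entire_not_lgt`; the generic point `y` of the curve (`GenPt`) has `aeval y Q ≠ 0` because `Q` is not zero on the curve.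
* `spAlgQ_sub_spHQ`: let `x ∈ SpAlgQ`, `G` a form vanishing on all entire curves, suppose `aeval y G ≠ 0` for some `K, w, y` as in the definition. Let `α` be from `exists_enum n q`, choose `l` with `y l ≠ 0` and `c` with
  `α (c i) = e_i + (q-1) e_l`, `G' = rename c G * X (c l)`; by `aeval_vr`, `aeval (vr α Q y) G' ≠ 0`. `curve_of_nlgt` gives `f`, `exists_homog` gives `F` (`hrel`: `mem_ker_vr` for `R = K`, `x = y`), an entire curve in `PtsQ p Q`; it is not constant because
  `vr α Q (F z) = f z` is not constant; and `eval (F 0) G ≠ 0` by `aeval_vr` (if `F 0 l = 0` then `f 0 (c l) = F_l^q / Q = 0`, which is excluded by the factor `X (c l)`). A contradiction.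
* `spAlgQ_sub_spGmQ`: the same with `gm_of_curve`.
* `spAlgQ_sub_spPQ`: with the curve `F` of `spAlgQ_sub_spHQ`: `w ↦ F (exp (1 / w))`, which is not extendable: compare `Sl.puncCurve`, `Sl.not_extends`, `exists_off` in E9.lean. Here the curve `F` is only known to be entire, nonconstant, in
  `PtsQ p Q`. Not extendable: if `w ↦ F (exp w⁻¹)` extends to `g` on the disc, then along `w_k = 1 / (ζ + 2 π i k)`, `k → ∞`, the points are all the point `F (exp ζ)`, so `g 0` is (proportional to) `F (exp ζ)` for all `ζ`: so `F` is constant on `ℂ \ {0}`, a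
  contradiction. `G ≠ 0` at some point of the curve: `eval (F z) G` is not zero near `z = 0`, take `z = exp (1 / w)` with `|w| < 1`, `z` near `0`: `1 / w = log z + 2 π i k`, `|.| > 1` (`exists_off`).
* `spGmQ_sub_spHQ`: for a `GmCurve P` the curve `z ↦ (P i (exp z))_i` is an entire curve in the complement of `Q = 0`, not constant. (`q ≥ 1`: `Q(P(t)) ≠ 0` implies `P(t) ≠ 0`.)
* `spHQ_sub_spMerQ` (`g = 1`, `Z = ∅`) and `spMerQ_sub_spHQ` (port of `spMer_sub_spH`).
* `tfae_lgt`: port of `tfae_gt` in F3.lean: `LogGeneralType` implies `SpAlgQ ≠ PtsQ` by `exists_formL` and a point of `PtsQ p Q` outside `G = 0` (`exists_pt` in F2 for the form `G * Q`); if not `LogGeneralType` and `1 ≤ w`, then `y` itself shows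
  `SpAlgQ = PtsQ`; if `w = 0` then `LogGeneralType` holds (`gt_zero` in F2 and `log_of_gt'` in B4).
-/

set_option autoImplicit false
set_option linter.overlappingInstances false
set_option linter.unusedSectionVars false

open MvPolynomial Metric Set MeasureTheory

namespace Pool.Agent.H917.Lg

open Pool.Agent.W602.GT (IsForm LogGeneralType coords)
open Pool.Agent.W603.GR (OffQ)
open Pool.Agent.H917.G (HolMap PE)
open Pool.Agent.W603.BP (PB PB_preconn PB_nonempty mem_disc disc_open)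

variable {n : ℕ} {p : Ideal (MvPolynomial (Fin (n + 1)) ℂ)} {Q : MvPolynomial (Fin (n + 1)) ℂ}
  {B : Fin (n + 1) → Finset (Fin (n + 1))}

theorem spPQ_sub (hp : Pool.Agent.W603.PV.IsHomog p) {q : ℕ} (hq : 1 ≤ q)
    (hQ : Q.IsHomogeneous q) (hB : Bdry p Q B) {m N : ℕ} {s : Fin N → LSymDiff p Q B m}
    (hs : LGens p Q B m s) (hm : 1 ≤ m) : SpPQ p Q ⊆ SpAlgQ p Q q := by
  intro x hx
  refine ⟨hx.1, fun G hG hGT => hx.2 G hG fun f hf hoff hext => ?_⟩
  have han : ∀ j, AnalyticOnNhd ℂ (fun w => f w j) (PB 1) := by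
    intro j w hw
    have h1 : DifferentiableOn ℂ (fun w => f w j) (ball 0 1 \ {0}) := by
      intro z hz
      exact (differentiableWithinAt_pi.mp (hf.1 z hz)) j
    exact h1.analyticAt (disc_open.mem_nhds (mem_disc.mpr hw))
  have hne : ∀ w ∈ PB 1, f w ≠ 0 := fun w hw => (hf.2 w (mem_disc.2 hw)).1
  have hX : ∀ z ∈ PB 1, ∀ H ∈ p, eval (f z) H = 0 := fun z hz => (hf.2 z (mem_disc.2 hz)).2
  have hoff' : ∀ z ∈ PB 1, eval (f z) Q ≠ 0 := fun z hz => hoff z (mem_disc.2 hz)
  obtain ⟨z0, hz0⟩ := PB_nonempty one_pos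
  obtain ⟨j0, hj0⟩ := Function.ne_iff.1 (hne z0 hz0)
  obtain ⟨K, i1, i2, w, y, h1, h2, h3, h4, h5⟩ := Pool.Agent.TH143.GT.exists_closure f
    (PB_preconn one_pos) han ⟨z0, hz0, hj0⟩
  have hy : Pool.Agent.TH143.GT.GenPt f (PB 1) K w y := ⟨h1, h2, h3, h4⟩
  rcases Nat.eq_zero_or_pos w with hw | hw
  · exact absurd (Pool.Agent.TH143.GT.extends_of_const han hne (h5 hw)) hext
  · have h6 := hGT K w y hw
      ⟨subVar_of_gen hp hy hX, fun h0 => hoff' z0 hz0 ((hy.rel Q ⟨q, hQ⟩).1 h0 z0 hz0)⟩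
      fun hgt => hext (pcurve_lext hp hq hQ hB hs hm han hne hX hoff' hy hgt)
    intro z hz
    exact (hy.rel G hG).1 h6 z (mem_disc.1 hz)

theorem spHQ_sub (hp : Pool.Agent.W603.PV.IsHomog p) {q : ℕ} (hq : 1 ≤ q)
    (hQ : Q.IsHomogeneous q) (hB : Bdry p Q B) {m N : ℕ} {s : Fin N → LSymDiff p Q B m}
    (hs : LGens p Q B m s) (hm : 1 ≤ m) : SpHQ p Q ⊆ SpAlgQ p Q q := by
  intro x hx
  refine ⟨hx.1, fun G hG hGT => hx.2 G hG fun f hf hoff => ?_⟩
  have hd : ∀ j, Differentiable ℂ fun z => f z j := fun j z => (differentiableAt_pi.1 (hf.1 z)) j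
  have han : ∀ j, AnalyticOnNhd ℂ (fun w => f w j) univ := fun j z _ => (hd j).analyticAt z
  have hX : ∀ z ∈ (univ : Set ℂ), ∀ H ∈ p, eval (f z) H = 0 := fun z _ => (hf.2.1 z).2
  obtain ⟨j0, hj0⟩ := Function.ne_iff.1 (hf.2.1 0).1
  obtain ⟨K, i1, i2, w, y, h1, h2, h3, h4, h5⟩ := Pool.Agent.TH143.GT.exists_closure f
    isPreconnected_univ han ⟨0, mem_univ _, hj0⟩
  have hy : Pool.Agent.TH143.GT.GenPt f univ K w y := ⟨h1, h2, h3, h4⟩
  rcases Nat.eq_zero_or_pos w with hw | hw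
  · exfalso
    obtain ⟨z, w', hzw⟩ := hf.2.2
    have h6 := h5 hw
    choose c hc using h6
    have hw0 : f w' j0 ≠ 0 := by
      intro h0
      apply (hf.2.1 w').1
      funext j
      rw [hc j w' (mem_univ _), h0, mul_zero]
      rfl
    apply hzw (f z j0 / f w' j0)
    funext j
    rw [Pi.smul_apply, smul_eq_mul, hc j z (mem_univ _), hc j w' (mem_univ _)]
    field_simp
  · have h6 := hGT K w y hw
      ⟨subVar_of_gen hp hy hX, fun h0 => hoff 0 ((hy.rel Q ⟨q, hQ⟩).1 h0 0 (mem_univ _))⟩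
      fun hgt => entire_not_lgt hp hq hQ hB hs hm hd (fun z => (hf.2.1 z).1)
        (fun z => (hf.2.1 z).2) hoff hf.2.2 hy hgt
    intro z
    exact (hy.rel G hG).1 h6 z (mem_univ _)

end Pool.Agent.H917.Lg
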