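import Pool.Agent.H917.L.P2

/-!
# PROJECT LOG (helper917), task G1a (the statements aeval_vr, mem_ker_vr, exists_vr): varieties of log general type are not covered by images of the punctured line

## Paper proof
`aeval_vr`: for a form `G` of degree `d` and `l` with `x l ≠ 0`, `1 ≤ q`: let `a i` be an index with `α (a i) = e_i + (q - 1) e_l`; then `aeval (fun i => vr α Q x (a i)) G = (x l ^ (q - 1) / Q(x))^d * aeval x G`
(`vr α Q x (a i) = x i x l ^ (q - 1) / Q(x)`).
`gen_of_lgt`: by `genA_tfae` (library, `Pool.Agent.Q139.EG`, the file `MainA.lean`) it is enough to show `¬ GmUniruled I`, `I = ker (aeval (vr α Q y))` (a prime ideal). Let `L, m, P` be as in `GmUniruled I` (library,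
`Q1/SL/GmUni.lean`): `lpt m P t` (`t ≠ 0`) are zeros of `I`, no `G ∉ I` vanishes at `lpt m P 1`, and `lpt m P` is not constant. Choose `l` with `y l ≠ 0`, `a i` as above, `a l` is the index of `q e_l`.
`vr α Q y (a l) = y l ^ q / Q(y) ≠ 0`, so the variable `X (a l)` is not in `I` and `φ t = P t / X^m ∈ RatFunc L` (`t : Fin ν`) satisfies `φ (a l) ≠ 0`. All polynomials in `I` vanish at `φ` (they vanish at
all `t ≠ 0`, `L` is infinite). Let `v i = φ (a i) / φ (a l)`, `w = φ (a l)`. Then `v l = 1`; `aeval v Q * w = 1` and `(∏ v i ^ β i) * w = φ (index of β)` for `∑ β i = q` follow from the corresponding polynomial relations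
for `vr α Q y`: `Q (X (a i)) * X (a l) = X (a l)^q` (both sides are equal to `(y l^(q-1)/Q(y))^q Q(y) * y l^q/Q(y)`), `∏ X (a i)^β i = X (a l)^(q-1) X (index of β)`, which are in `I`. So the hypotheses
of `Pool.Agent.Y988.IL.t_LOGP` (statement `Pool.Agent.Y377.IL.S_LOGP`; `q ≥ 1`) hold over the field `L`, with `(index of β)`-components `P (..) / X^m`: it gives `P' : Fin (n + 1) → Polynomial L` and `g ≠ 0` with
`P' j = g v j` and `aeval P' Q = c X^k`, `c ≠ 0`. For a form `G` of degree `d`: `aeval y G = 0` iff `G (X (a i)) ∈ I` (`aeval_vr`) iff `aeval P' G = 0` (if `G (X (a i)) ∈ I` it vanishes at `φ`, so `aeval v G = 0`; conversely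
if `aeval P' G = 0` then `G (φ (a i)) = 0`, which vanishes at `t = 1`, so `G (X (a i)) ∈ I` by genericity). The curve `P'` is not constant: otherwise `v` is constant, by the relations above
`w = φ (a l) = 1 / aeval v Q` and all `φ t` are constant, a contradiction; so a Wronskian is not zero (`prop_of_wronskian`, used in `Helper4K9/IP/Log.lean`). By `Pool.Agent.Helper4K9.IP.not_lgt` (or
`Pool.Agent.Y405.IL.t_LGT`) the variety is not of log general type.
`mem_ker_vr`, `exists_vr`: see the statements; `exists_vr` is the surjectivity onto the zeros of the relations: let `a` be a complex vector satisfying all polynomial relations which hold on the affine coordinates of all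
points of `PtsQ p Q`. The relations `∑ Q_β X_β = 1` (`Q_β` the coefficients of `Q`) and `X_β^q = ∏_i X_{q e_i}^{β_i}` show that some `a_{q e_l} ≠ 0`. Let `x i = a_{e_i + (q-1) e_l}`. The relations
`Q (X_{e_i + (q-1) e_l}) = X_{q e_l}^{q-1}`, `∏_i X_{e_i + (q-1) e_l}^{β_i} = X_{q e_l}^{q-1} X_β` and `H (X_{e_i + (q-1) e_l}) = 0` for the forms `H ∈ p` (`p` is homogeneous) show `x ∈ PtsQ p Q` and `vr α Q x = a`.
-/

set_option autoImplicit false
set_option linter.overlappingInstances false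
set_option linter.unusedSectionVars false

open MvPolynomial Metric Set

namespace Pool.Agent.H917.Lg

open Pool.Agent.W602.GT (IsForm LogGeneralType coords)
open Pool.Agent.W603.GR (OffQ)
open Pool.Agent.Q139.EG

variable {n : ℕ} {p : Ideal (MvPolynomial (Fin (n + 1)) ℂ)} {Q : MvPolynomial (Fin (n + 1)) ℂ}

namespace G1aaux

theorem scale {L : Type} [Field L] [Algebra ℂ L] {G : MvPolynomial (Fin (n + 1)) ℂ} {d : ℕ}
    (hG : G.IsHomogeneous d) (f : Fin (n + 1) → L) (c : L) :
    aeval (fun j => f j * c) G = c ^ d * aeval f G := by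
  rw [aeval_def, aeval_def, eval₂_eq', eval₂_eq', Finset.mul_sum]
  refine Finset.sum_congr rfl fun α hα => ?_
  have h2 : ∑ a, α a = d := by
    have h3 := hG (mem_support_iff.1 hα)
    rw [← h3, Finsupp.weight_apply, Finsupp.sum_fintype _ _ (by simp)]
    simp
  simp only [mul_pow, Finset.prod_mul_distrib]
  rw [Finset.prod_pow_eq_pow_sum, h2]
  ring

/-- a coordinate of `vr` -/
theorem vr_c {q : ℕ} {ν : ℕ} {α : Fin ν → (Fin (n + 1) →₀ ℕ)} {R : Type} [Field R]
    [Algebra ℂ R] {x : Fin (n + 1) → R} {l : Fin (n + 1)} {t : Fin ν} {i : Fin (n + 1)}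
    (hc : α t = Finsupp.single i 1 + Finsupp.single l (q - 1)) :
    vr α Q x t = x i * (x l ^ (q - 1) / aeval x Q) := by
  unfold vr
  rw [hc]
  simp only [Finsupp.add_apply, pow_add, Finset.prod_mul_distrib]
  have e1 : ∏ j, x j ^ (Finsupp.single i 1 : Fin (n + 1) →₀ ℕ) j = x i := by
    rw [Finset.prod_eq_single i]
    · simp
    · intro b _ hb
      rw [Finsupp.single_eq_of_ne hb, pow_zero]
    · intro h
      exact absurd (Finset.mem_univ _) h
  have e2 : ∏ j, x j ^ (Finsupp.single l (q - 1) : Fin (n + 1) →₀ ℕ) j = x l ^ (q - 1) := by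
    rw [Finset.prod_eq_single l]
    · simp
    · intro b _ hb
      rw [Finsupp.single_eq_of_ne hb, pow_zero]
    · intro h
      exact absurd (Finset.mem_univ _) h
  rw [e1, e2]
  ring

/-- clearing denominators -/
theorem clear {ν : ℕ} (α : Fin ν → (Fin (n + 1) →₀ ℕ)) (Q : MvPolynomial (Fin (n + 1)) ℂ)
    (H : MvPolynomial (Fin ν) ℂ) : ∃ (D : ℕ) (G : MvPolynomial (Fin (n + 1)) ℂ),
    ∀ (R : Type) [Field R] [Algebra ℂ R] (x : Fin (n + 1) → R), aeval x Q ≠ 0 →
      aeval x G = aeval x Q ^ D * aeval (vr α Q x) H := by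
  induction H using MvPolynomial.induction_on with
  | C a =>
    refine ⟨0, C a, fun R _ _ x _ => ?_⟩
    rw [pow_zero, one_mul, algHom_C, algHom_C]
  | add H₁ H₂ h₁ h₂ =>
    obtain ⟨D₁, G₁, h₁⟩ := h₁
    obtain ⟨D₂, G₂, h₂⟩ := h₂
    refine ⟨D₁ + D₂, G₁ * Q ^ D₂ + G₂ * Q ^ D₁, fun R _ _ x hx => ?_⟩
    rw [map_add, map_mul, map_mul, map_pow, map_pow, h₁ R x hx, h₂ R x hx, map_add, pow_add]
    ring
  | mul_X H t h =>
    obtain ⟨D, G, h⟩ := h
    refine ⟨D + 1, G * ∏ i, X i ^ α t i, fun R _ _ x hx => ?_⟩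
    rw [map_mul, h R x hx, map_prod, map_mul, aeval_X]
    simp only [map_pow, aeval_X]
    unfold vr
    rw [pow_succ]
    field_simp

end G1aaux

open G1aaux

/-- a form of degree `d` in affine coordinates -/
theorem aeval_vr {q : ℕ} (hq : 1 ≤ q) {ν : ℕ} {α : Fin ν → (Fin (n + 1) →₀ ℕ)} {R : Type} [Field R]
    [Algebra ℂ R] {x : Fin (n + 1) → R} {l : Fin (n + 1)} {c : Fin (n + 1) → Fin ν}
    (hc : ∀ i, α (c i) = Finsupp.single i 1 + Finsupp.single l (q - 1))
    {G : MvPolynomial (Fin (n + 1)) ℂ} {d : ℕ} (hG : G.IsHomogeneous d) :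
    aeval (vr α Q x) (rename c G) = (x l ^ (q - 1) / aeval x Q) ^ d * aeval x G := by
  rw [aeval_rename]
  have e : vr α Q x ∘ c = fun i => x i * (x l ^ (q - 1) / aeval x Q) := by
    funext i
    exact vr_c (hc i)
  rw [e, scale hG]

/-- The affine coordinates of the points over fields satisfy the relations between those of the
complex points. -/
theorem mem_ker_vr (hp : Pool.Agent.W603.PV.IsHomog p) {q : ℕ} (hQ : Q.IsHomogeneous q) {ν : ℕ}
    {α : Fin ν → (Fin (n + 1) →₀ ℕ)} (hα : Enum q α) {R : Type} [Field R] [Algebra ℂ R]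
    {x : Fin (n + 1) → R} (hX : ∀ H ∈ p, aeval x H = 0) (hoff : aeval x Q ≠ 0)
    {H : MvPolynomial (Fin ν) ℂ} (hH : ∀ a ∈ PtsQ p Q, eval (vr α Q a) H = 0) (hx : x ≠ 0) :
    aeval (vr α Q x) H = 0 := by
  obtain ⟨D, G, hG⟩ := clear α Q H
  obtain ⟨i, hi⟩ : ∃ i, x i ≠ 0 := by
    by_contra hcon
    push Not at hcon
    exact hx (funext hcon)
  have h1 : X i * Q * G ∈ p.radical := by
    rw [← vanishingIdeal_zeroLocus_eq_radical (K := ℂ) p, mem_vanishingIdeal_iff]
    intro a ha
    rw [mem_zeroLocus_iff] at ha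
    rw [map_mul, map_mul, aeval_X]
    by_cases ha0 : a i = 0
    · rw [ha0, zero_mul, zero_mul]
    by_cases haQ : aeval a Q = 0
    · rw [haQ, mul_zero, zero_mul]
    have h2 : a ∈ PtsQ p Q := by
      refine ⟨⟨fun h => ha0 (by rw [h]; rfl), fun H' hH' => ?_⟩, ?_⟩
      · rw [← coe_aeval_eq_eval]
        exact ha H' hH'
      · rw [← coe_aeval_eq_eval]
        exact haQ
    have h3 := hH a h2
    rw [← coe_aeval_eq_eval] at h3
    rw [hG ℂ a haQ]
    have h4 : aeval (vr α Q a) H = 0 := h3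
    rw [h4, mul_zero, mul_zero]
  obtain ⟨N, hN⟩ := h1
  have h5 := hX _ hN
  rw [map_pow] at h5
  have h6 : aeval x (X i * Q * G) = 0 := eq_zero_of_pow_eq_zero h5
  rw [map_mul, map_mul, aeval_X, hG R x hoff] at h6
  rcases mul_eq_zero.1 h6 with h | h
  · exact absurd h (mul_ne_zero hi hoff)
  · exact (mul_eq_zero.1 h).resolve_left (pow_ne_zero _ hoff)

namespace G1aaux

theorem ev_vr_c {q : ℕ} {ν : ℕ} {α : Fin ν → (Fin (n + 1) →₀ ℕ)}
    {x : Fin (n + 1) → ℂ} {l : Fin (n + 1)} {t : Fin ν} {i : Fin (n + 1)}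
    (hc : α t = Finsupp.single i 1 + Finsupp.single l (q - 1)) :
    vr α Q x t = x i * (x l ^ (q - 1) / eval x Q) := vr_c hc

theorem vr_eval {ν : ℕ} (α : Fin ν → (Fin (n + 1) →₀ ℕ)) (x : Fin (n + 1) → ℂ) (t : Fin ν) :
    vr α Q x t = (∏ i, x i ^ α t i) / eval x Q := rfl

theorem single_self (l : Fin (n + 1)) {q : ℕ} (hq : 1 ≤ q) :
    (Finsupp.single l 1 + Finsupp.single l (q - 1) : Fin (n + 1) →₀ ℕ) = Finsupp.single l q := by
  rw [← Finsupp.single_add]
  congr 1
  omega

theorem sum_single (l : Fin (n + 1)) (q : ℕ) :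
    ∑ i, (Finsupp.single l q : Fin (n + 1) →₀ ℕ) i = q := by
  rw [Finset.sum_eq_single l]
  · simp
  · intro b _ hb
    exact Finsupp.single_eq_of_ne hb
  · intro h
    exact absurd (Finset.mem_univ _) h

theorem sum_hom {q : ℕ} (hQ : Q.IsHomogeneous q) {m : Fin (n + 1) →₀ ℕ} (hm : coeff m Q ≠ 0) :
    ∑ i, m i = q := by
  have h3 := hQ hm
  rw [← h3, Finsupp.weight_apply, Finsupp.sum_fintype _ _ (by simp)]
  simp

end G1aaux

/-- The relations between the affine coordinates of the points define the image. -/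
theorem exists_vr (hp : Pool.Agent.W603.PV.IsHomog p) {q : ℕ} (hq : 1 ≤ q)
    (hQ : Q.IsHomogeneous q) {ν : ℕ}
    {α : Fin ν → (Fin (n + 1) →₀ ℕ)} (hα : Enum q α) {a : Fin ν → ℂ}
    (ha : ∀ H : MvPolynomial (Fin ν) ℂ, (∀ x ∈ PtsQ p Q, eval (vr α Q x) H = 0) → eval a H = 0) :
    ∃ (l : Fin (n + 1)) (c : Fin (n + 1) → Fin ν),
      (∀ i, α (c i) = Finsupp.single i 1 + Finsupp.single l (q - 1)) ∧ a (c l) ≠ 0 ∧
      (fun i => a (c i)) ∈ PtsQ p Q ∧ vr α Q (fun i => a (c i)) = a := by
  classical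
  obtain ⟨t0, -⟩ := hα.2 (Finsupp.single 0 q) (sum_single 0 q)
  have hidx : ∀ β : Fin (n + 1) →₀ ℕ, ∃ t : Fin ν, ∑ i, β i = q → α t = β := by
    intro β
    by_cases h : ∑ i, β i = q
    · obtain ⟨t, ht⟩ := hα.2 β h
      exact ⟨t, fun _ => ht⟩
    · exact ⟨t0, fun h' => absurd h' h⟩
  choose idx hidx using hidx
  -- relation 1
  have r1 : ∑ m ∈ Q.support, coeff m Q * a (idx m) = 1 := by
    have h := ha (∑ m ∈ Q.support, C (coeff m Q) * X (idx m) - 1) (fun x hx => by
      rw [map_sub, map_one, map_sum]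
      have e1 : ∀ m ∈ Q.support, eval (vr α Q x) (C (coeff m Q) * X (idx m)) =
          (coeff m Q * ∏ i, x i ^ m i) / eval x Q := by
        intro m hm
        rw [map_mul, eval_C, eval_X, vr_eval, hidx m (sum_hom hQ (mem_support_iff.1 hm))]
        ring
      rw [Finset.sum_congr rfl e1, ← Finset.sum_div, ← eval_eq', div_self hx.2, sub_self])
    rw [map_sub, map_one, map_sum, sub_eq_zero] at h
    simpa only [map_mul, eval_C, eval_X] using h
  obtain ⟨m, hm, hma⟩ : ∃ m ∈ Q.support, a (idx m) ≠ 0 := by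
    by_contra hcon
    push Not at hcon
    rw [Finset.sum_eq_zero fun m hm => by rw [hcon m hm, mul_zero]] at r1
    exact zero_ne_one r1
  have hms : ∑ i, m i = q := sum_hom hQ (mem_support_iff.1 hm)
  -- relation 2
  have r2 : a (idx m) ^ q = ∏ i, a (idx (Finsupp.single i q)) ^ m i := by
    have h := ha (X (idx m) ^ q - ∏ i, X (idx (Finsupp.single i q)) ^ m i) (fun x hx => by
      rw [map_sub, map_pow, map_prod, eval_X, sub_eq_zero]
      have e1 : ∀ i, eval (vr α Q x) (X (idx (Finsupp.single i q)) ^ m i) =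
          (x i ^ m i) ^ q / eval x Q ^ m i := by
        intro i
        rw [map_pow, eval_X, vr_eval, hidx _ (sum_single i q)]
        have e2 : ∏ j, x j ^ (Finsupp.single i q : Fin (n + 1) →₀ ℕ) j = x i ^ q := by
          rw [Finset.prod_eq_single i]
          · simp
          · intro b _ hb
            rw [Finsupp.single_eq_of_ne hb, pow_zero]
          · intro h
            exact absurd (Finset.mem_univ _) h
        rw [e2, div_pow, ← pow_mul, ← pow_mul, mul_comm q]
      rw [Finset.prod_congr rfl fun i _ => e1 i, Finset.prod_div_distrib, Finset.prod_pow,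
        Finset.prod_pow_eq_pow_sum, hms, vr_eval, hidx m hms, div_pow])
    rw [map_sub, map_pow, map_prod, sub_eq_zero] at h
    simpa only [map_pow, eval_X] using h
  obtain ⟨l, hl⟩ : ∃ l, m l ≠ 0 := by
    by_contra hcon
    push Not at hcon
    rw [Finset.sum_eq_zero fun i _ => hcon i] at hms
    omega
  have hal : a (idx (Finsupp.single l q)) ≠ 0 := by
    intro h0
    have h1 : ∏ i, a (idx (Finsupp.single i q)) ^ m i = 0 :=
      Finset.prod_eq_zero (Finset.mem_univ l) (by rw [h0, zero_pow hl])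
    rw [h1] at r2
    exact hma (eq_zero_of_pow_eq_zero r2)
  have hsum : ∀ i, ∑ j, (Finsupp.single i 1 + Finsupp.single l (q - 1) : Fin (n + 1) →₀ ℕ) j = q := by
    intro i
    simp only [Finsupp.add_apply, Finset.sum_add_distrib]
    rw [sum_single, sum_single]
    omega
  set c : Fin (n + 1) → Fin ν := fun i => idx (Finsupp.single i 1 + Finsupp.single l (q - 1)) with hc
  have hcα : ∀ i, α (c i) = Finsupp.single i 1 + Finsupp.single l (q - 1) := fun i =>
    hidx _ (hsum i)
  have hcl : c l = idx (Finsupp.single l q) := by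
    simp only [hc]
    rw [single_self l hq]
  have he : a (c l) ≠ 0 := by rwa [hcl]
  -- the forms
  have hforms : ∀ (G : MvPolynomial (Fin (n + 1)) ℂ) (d : ℕ) (x : Fin (n + 1) → ℂ),
      G.IsHomogeneous d → eval (vr α Q x) (rename c G) =
        (x l ^ (q - 1) / eval x Q) ^ d * eval x G := fun G d x hG =>
    aeval_vr hq hcα hG
  have hren : ∀ G : MvPolynomial (Fin (n + 1)) ℂ, eval a (rename c G) =
      eval (fun i => a (c i)) G := fun G => eval_rename c a G
  -- relation 3
  have r3 : eval (fun i => a (c i)) Q = a (c l) ^ (q - 1) := by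
    have h := ha (rename c Q - X (c l) ^ (q - 1)) (fun x hx => by
      rw [map_sub, map_pow, eval_X, hforms Q q x hQ, ev_vr_c (hcα l), sub_eq_zero]
      obtain ⟨r, rfl⟩ : ∃ r, q = r + 1 := ⟨q - 1, by omega⟩
      rw [Nat.add_sub_cancel]
      have hxQ : eval x Q ≠ 0 := hx.2
      have e1 : x l ^ r / eval x Q * eval x Q = x l ^ r := div_mul_cancel₀ _ hxQ
      rw [pow_succ, mul_assoc, e1, mul_pow]
      ring)
    rw [map_sub, map_pow, eval_X, hren, sub_eq_zero] at h
    exact h
  have hQc : eval (fun i => a (c i)) Q ≠ 0 := by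
    rw [r3]
    exact pow_ne_zero _ he
  -- relation 4
  have r4 : ∀ H ∈ p, eval (fun i => a (c i)) H = 0 := by
    intro H hH
    have h1 : ∀ d, eval (fun i => a (c i)) (homogeneousComponent d H) = 0 := by
      intro d
      rw [← hren]
      apply ha
      intro x hx
      rw [hforms _ d x (homogeneousComponent_isHomogeneous d H), hx.1.2 _ (hp H hH d), mul_zero]
    rw [← sum_homogeneousComponent H, map_sum]
    exact Finset.sum_eq_zero fun d _ => h1 d
  -- relation 5
  have r5 : ∀ t, ∏ i, a (c i) ^ α t i = a (c l) ^ (q - 1) * a t := by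
    intro t
    have h := ha (∏ i, X (c i) ^ α t i - X (c l) ^ (q - 1) * X t) (fun x hx => by
      rw [map_sub, map_mul, map_pow, map_prod, eval_X, eval_X, sub_eq_zero]
      have e1 : ∀ i, eval (vr α Q x) (X (c i) ^ α t i) =
          x i ^ α t i * (x l ^ (q - 1) / eval x Q) ^ α t i := by
        intro i
        rw [map_pow, eval_X, ev_vr_c (hcα i), mul_pow]
      rw [Finset.prod_congr rfl fun i _ => e1 i, Finset.prod_mul_distrib,
        Finset.prod_pow_eq_pow_sum, hα.1 t, ev_vr_c (hcα l), vr_eval]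
      obtain ⟨r, rfl⟩ : ∃ r, q = r + 1 := ⟨q - 1, by omega⟩
      rw [Nat.add_sub_cancel, mul_pow, pow_succ]
      ring)
    rw [map_sub, map_mul, map_pow, map_prod, eval_X, eval_X, sub_eq_zero] at h
    simpa only [map_pow, eval_X] using h
  refine ⟨l, c, hcα, he, ⟨⟨fun h => he ?_, r4⟩, hQc⟩, ?_⟩
  · exact congrFun h l
  · funext t
    rw [vr_eval, r5, r3]
    exact mul_div_cancel_left₀ _ (pow_ne_zero _ he)

end Pool.Agent.H917.Lg

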