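import Pool.Agent.H917.D4
import Pool.Agent.H917.E8
import Pool.Agent.H917.L.G1a

/-!
# PROJECT LOG (helper917), task H1 (exists_homog): from affine to homogeneous coordinates

## Paper proof
`exists_homog`: by `exists_vr` for each `z` there are `l`, `c` with `f z (c l) ≠ 0`, and `x z = (f z (c i))_i ∈ PtsQ p Q` has `vr α Q (x z) = f z`. The index `c` depends only on `l` (`α (c i) = e_i + (q-1) e_l`; if `α` is not injective choose
`c` for each `l` once and for all: all indices `t` with the same `α t` give the same component `f z t`, because `X t - X t'` is a relation). Near a point `z0` with this `l`, `f z (c l) ≠ 0`, and `g z = (f z (c i))_i` is analytic, and `Pe (x z) (g z)`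
(`Pe` of E7: if `l'` is used at `z` then `f z (c' i) * f z (c l') = ...`: with `a = vr α Q (x z)`, both vectors are multiples of `x z`). `exists_lift` (E8) gives an entire `F` with `Pe (F z) (x z)`; `F z ∈ PtsQ p Q` and
`vr α Q (F z) = vr α Q (x z) = f z` because `PtsQ` and `vr` are invariant under scaling (`p` homogeneous).
`gm_of_curve`: by `genA_special` (library, `Q139/EG/Curve.lean`) with `S` the set of all `H` with `∀ x ∈ PtsQ p Q, eval (vr α Q x) H = 0` and `(s, r, e) = (1, r, 1)` there is `d` such that, if `LauIn S G d`, then the curve `f` lies in `G = 0` or all `f · u` are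
algebraic over the constants `cst` (`cst_ring` in D4), hence constant (compare `alg_const` in D5 and the end of the proof in `L/V1.lean`). Both are excluded. So `¬ LauIn S G d`: there are `m`, `P : Fin ν → Polynomial ℂ`, nonconstant `t ↦ lpt m P t = P(t)/t^m` in the
zero set of `S`, and `t0 ≠ 0` with `eval (lpt m P t0) G ≠ 0`. By `exists_vr` at `t0` there are `l`, `c` with `P (c l) (t0) ≠ 0`. Exactly as in the proof of `gen_of_lgt` (see `L/G1.lean`; here over the field `ℂ`): `v i = P (c i) / P (c l) ∈ RatFunc ℂ`,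
`w = P (c l) / X^m`, `t_LOGP` gives `P' : Fin (n + 1) → Polynomial ℂ`, `g ≠ 0`, `P' i = g v i`, `aeval P' Q = c X^k`. Then `P'` satisfies the forms in `p`, is not constant, and for `t ≠ 0` the point `P' t` is in `PtsQ p Q` with
`vr α Q (P' t) = lpt m P t` (identity of rational functions `∏ P'_i^{β_i} / Q(P') = P (index of β) / X^m`, evaluated at `t ≠ 0`).
-/

set_option autoImplicit false
set_option linter.overlappingInstances false
set_option linter.unusedSectionVars false

open MvPolynomial Metric Set Filter Topology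

namespace Pool.Agent.H917.Lg

open Pool.Agent.Q139.EG Pool.Agent.Y377.ST

variable {n : ℕ} {p : Ideal (MvPolynomial (Fin (n + 1)) ℂ)} {Q : MvPolynomial (Fin (n + 1)) ℂ}

namespace H1aux

theorem eval_scale {H : MvPolynomial (Fin (n + 1)) ℂ} {d : ℕ} (hH : H.IsHomogeneous d)
    (x : Fin (n + 1) → ℂ) (c : ℂ) : eval (fun j => c * x j) H = c ^ d * eval x H := by
  have h := Pool.Agent.W603.PV.aeval_scale (L := ℂ) hH x c
  rwa [← coe_aeval_eq_eval, ← coe_aeval_eq_eval]

/-- the points are stable under scaling -/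
theorem mem_scale (hp : Pool.Agent.W603.PV.IsHomog p) {q : ℕ} (hQ : Q.IsHomogeneous q)
    {x : Fin (n + 1) → ℂ} (hx : x ∈ PtsQ p Q) {c : ℂ} (hc : c ≠ 0) :
    (fun j => c * x j) ∈ PtsQ p Q := by
  obtain ⟨⟨hx0, hxp⟩, hxQ⟩ := hx
  refine ⟨⟨?_, ?_⟩, ?_⟩
  · obtain ⟨j, hj⟩ := Function.ne_iff.1 hx0
    exact Function.ne_iff.2 ⟨j, mul_ne_zero hc hj⟩
  · intro H hH
    have h1 : H = ∑ d ∈ Finset.range (H.totalDegree + 1), homogeneousComponent d H :=
      (sum_homogeneousComponent H).symm
    rw [h1, map_sum]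
    refine Finset.sum_eq_zero fun d _ => ?_
    rw [eval_scale (homogeneousComponent_isHomogeneous d H), hxp _ (hp H hH d), mul_zero]
  · rw [eval_scale hQ]
    exact mul_ne_zero (pow_ne_zero q hc) hxQ

/-- the affine coordinates are invariant under scaling -/
theorem vr_scale {q : ℕ} (hQ : Q.IsHomogeneous q) {ν : ℕ} {α : Fin ν → (Fin (n + 1) →₀ ℕ)}
    (hα : Enum q α) (x : Fin (n + 1) → ℂ) {c : ℂ} (hc : c ≠ 0) :
    vr α Q (fun j => c * x j) = vr α Q x := by
  funext t
  unfold vr
  have h1 : ∏ i, (c * x i) ^ α t i = c ^ q * ∏ i, x i ^ α t i := by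
    rw [← hα.1 t, ← Finset.prod_pow_eq_pow_sum, ← Finset.prod_mul_distrib]
    exact Finset.prod_congr rfl fun a _ => mul_pow _ _ _
  rw [h1, Pool.Agent.W603.PV.aeval_scale hQ]
  exact mul_div_mul_left _ _ (pow_ne_zero q hc)

end H1aux

theorem exists_homog (hp : Pool.Agent.W603.PV.IsHomog p) {q : ℕ} (hq : 1 ≤ q)
    (hQ : Q.IsHomogeneous q) {ν : ℕ} {α : Fin ν → (Fin (n + 1) →₀ ℕ)} (hα : Enum q α)
    {f : ℂ → Fin ν → ℂ} (hf : ∀ t, Differentiable ℂ fun z => f z t)
    (hrel : ∀ H : MvPolynomial (Fin ν) ℂ, (∀ x ∈ PtsQ p Q, eval (vr α Q x) H = 0) →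
      ∀ z, eval (f z) H = 0) :
    ∃ F : ℂ → Fin (n + 1) → ℂ, Differentiable ℂ F ∧ ∀ z, F z ∈ PtsQ p Q ∧ vr α Q (F z) = f z := by
  have h0 : ∀ z, ∃ (l : Fin (n + 1)) (c : Fin (n + 1) → Fin ν),
      (∀ i, α (c i) = Finsupp.single i 1 + Finsupp.single l (q - 1)) ∧ f z (c l) ≠ 0 ∧
      (fun i => f z (c i)) ∈ PtsQ p Q ∧ vr α Q (fun i => f z (c i)) = f z :=
    fun z => exists_vr hp hq hQ hα fun H hH => hrel H hH z
  choose l c hc hne hmem hvr using h0
  obtain ⟨F, hF, hFx⟩ := exists_lift (f := fun z i => f z (c z i)) (fun z0 => by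
    refine ⟨fun z i => f z (c z0 i), fun i => (hf (c z0 i)).analyticAt z0, ?_, ?_⟩
    · exact Function.ne_iff.2 ⟨l z0, hne z0⟩
    · have hcont : ContinuousAt (fun z => f z (c z0 (l z0))) z0 :=
        (hf (c z0 (l z0))).continuous.continuousAt
      filter_upwards [hcont.eventually_ne (hne z0)] with z hz
      have hQz : eval (fun i => f z (c z i)) Q ≠ 0 := (hmem z).2
      have key : ∀ i, f z (c z0 i) =
          (f z (c z (l z0)) ^ (q - 1) / eval (fun i => f z (c z i)) Q) * f z (c z i) := by
        intro i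
        have h1 := congrFun (hvr z) (c z0 i)
        unfold vr at h1
        have h3 : aeval (fun i => f z (c z i)) Q = eval (fun i => f z (c z i)) Q := by
          rw [← coe_aeval_eq_eval]
          rfl
        rw [← h1, hc z0 i, h3]
        have h2 : ∏ j, f z (c z j) ^ ((Finsupp.single i 1 + Finsupp.single (l z0) (q - 1) :
            Fin (n + 1) →₀ ℕ) j) = f z (c z i) * f z (c z (l z0)) ^ (q - 1) := by
          simp only [Finsupp.add_apply, pow_add]
          rw [Finset.prod_mul_distrib]
          congr 1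
          · rw [Finset.prod_eq_single i]
            · rw [Finsupp.single_eq_same, pow_one]
            · intro j _ hj
              rw [Finsupp.single_eq_of_ne hj, pow_zero]
            · intro h
              exact absurd (Finset.mem_univ i) h
          · rw [Finset.prod_eq_single (l z0)]
            · rw [Finsupp.single_eq_same]
            · intro j _ hj
              rw [Finsupp.single_eq_of_ne hj, pow_zero]
            · intro h
              exact absurd (Finset.mem_univ (l z0)) h
        rw [h2]
        ring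
      have hK : f z (c z (l z0)) ^ (q - 1) / eval (fun i => f z (c z i)) Q ≠ 0 := by
        intro h
        have h1 := key (l z0)
        rw [h, zero_mul] at h1
        exact hz h1
      exact Pe.symm ⟨_, hK, key⟩)
  refine ⟨F, differentiable_pi.2 hF, fun z => ?_⟩
  obtain ⟨a, ha, hFa⟩ := hFx z
  have e : F z = fun j => a * (fun i => f z (c z i)) j := funext hFa
  rw [e]
  exact ⟨H1aux.mem_scale hp hQ (hmem z) ha, (H1aux.vr_scale hQ hα _ ha).trans (hvr z)⟩

end Pool.Agent.H917.Lg
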