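import Pool.Agent.H917.D4
import Pool.Agent.H917.E8
import Pool.Agent.H917.L.G1a
import Pool.Graph.R_seed8.Y988.IL.Logp

/-!
# PROJECT LOG (helper917), task H2 (gm_of_curve): from affine to homogeneous coordinates

## Paper proof
`exists_homog`: by `exists_vr` for each `z` there are `l`, `c` with `f z (c l) ≠ 0`, and `x z = (f z (c i))_i ∈ PtsQ p Q` has `vr α Q (x z) = f z`. The index `c` depends only on `l` (`α (c i) = e_i + (q-1) e_l`; if `α` is not injective choose
`c` for each `l` once and for all: all indices `t` with the same `α t` give the same component `f z t`, because `X t - X t'` is a relation). Near a point `z0` with this `l`, `f z (c l) ≠ 0`, and `g z = (f z (c i))_i` is analytic, and `Pe (x z) (g z)`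
(`Pe` of E7: if `l'` is used at `z` then `f z (c' i) * f z (c l') = ...`: with `a = vr α Q (x z)`, both vectors are multiples of `x z`). `exists_lift` (E8) gives an entire `F` with `Pe (F z) (x z)`; `F z ∈ PtsQ p Q` and
`vr α Q (F z) = vr α Q (x z) = f z` because `PtsQ` and `vr` are invariant under scaling (`p` homogeneous).
`gm_of_curve`: by `genA_special` (library, `Q139/EG/Curve.lean`) with `S` the set of all `H` with `∀ x ∈ PtsQ p Q, eval (vr α Q x) H = 0` and `(s, r, e) = (1, r, 1)` there is `d` such that, if `LauIn S G d`, then the curve `f` lies in `G = 0` or all `f · u` are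
algebraic over the constants `cst` (`cst_ring` in D4), hence constant (compare `alg_const` in D5 and the end of the proof in `L/V1.lean`). Both are excluded. So `¬ LauIn S G d`: there are `m`, `P : Fin ν → Polynomial ℂ`, nonconstant `t ↦ lpt m P t = P(t)/t^m` in the
zero set of `S`, and `t0 ≠ 0` with `eval (lpt m P t0) G ≠ 0`. By `exists_vr` at `t0` there are `l`, `c` with `P (c l) (t0) ≠ 0`. Exactly as in the proof of `gen_of_lgt` (see `L/G1.lean`; here over the field `ℂ`): `v i = P (c i) / P (c l) ∈ RatFunc ℂ`,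
`w = P (c l) / X^m`, `t_LOGP` gives `P' : Fin (n + 1) → Polynomial ℂ`, `g ≠ 0`, `P' i = g v i`, `aeval P' Q = c X^k`. Then `P'` satisfies the forms in `p`, is not constant, and for `t ≠ 0` the point `P' t` is in `PtsQ p Q` with
`vr α Q (P' t) = lpt m P t` (identity of rational functions `∏ P'_i^{β_i} / Q(P') = P (index of β) / X^m`, evaluated at `t ≠ 0`).
-/

set_option autoImplicit false
set_option linter.overlappingInstances false
set_option linter.unusedSectionVars false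

open MvPolynomial Metric Set Filter Topology

namespace Pool.Agent.H917.Lg

open Pool.Agent.Q139.EG Pool.Agent.Y377.ST
open Pool.Agent.Q1.SL (lau lpt homK on_iff aeval_homK LauIn)

variable {n : ℕ} {p : Ideal (MvPolynomial (Fin (n + 1)) ℂ)} {Q : MvPolynomial (Fin (n + 1)) ℂ}

namespace H2aux

/-- entire functions which are algebraic over the constants are constant -/
theorem const_of_alg {g : ℂ → ℂ} (hg : Differentiable ℂ g) {D : ℕ}
    (h : AlgM univ cst D g fun _ => 1) (z w : ℂ) : g z = g w := by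
  classical
  obtain ⟨A, hA, ⟨k0, hk0, z1, -, hz1⟩, hrel⟩ := h
  choose a ha using hA
  let P : Polynomial ℂ := ∑ k ∈ Finset.range (D + 1), Polynomial.monomial k (a k)
  have hP0 : P ≠ 0 := by
    intro h0
    have h1 := congrArg (fun Q : Polynomial ℂ => Q.coeff k0) h0
    simp only [P, Polynomial.finsetSum_coeff, Polynomial.coeff_monomial, Polynomial.coeff_zero]
      at h1
    rw [Finset.sum_ite_eq', if_pos (Finset.mem_range.2 (by omega))] at h1
    apply hz1
    rw [ha k0]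
    exact h1
  have hroot : ∀ z, P.eval (g z) = 0 := by
    intro z
    have h1 := hrel z (mem_univ z)
    rw [Polynomial.eval_finsetSum, ← h1]
    refine Finset.sum_congr rfl fun k _ => ?_
    rw [Polynomial.eval_monomial, ha k, one_pow, mul_one]
  refine hg.apply_eq_apply_of_bounded ?_ z w
  refine (P.roots.toFinset.finite_toSet.isBounded).subset ?_
  rintro _ ⟨z, rfl⟩
  rw [Finset.mem_coe, Multiset.mem_toFinset, Polynomial.mem_roots hP0]
  exact hroot z

theorem av {N : ℕ} (x : Fin N → ℂ) (F : MvPolynomial (Fin N) ℂ) : aeval x F = eval x F :=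
  congrArg (fun g : MvPolynomial (Fin N) ℂ →+* ℂ => g F) (MvPolynomial.coe_aeval_eq_eval x)

/-- relations hold over the rational functions -/
theorem rel_rat {ν m : ℕ} {P : Fin ν → Polynomial ℂ} {F : MvPolynomial (Fin ν) ℂ}
    (h : ∀ t, t ≠ 0 → eval (lpt m P t) F = 0) :
    aeval (fun s => algebraMap (Polynomial ℂ) (RatFunc ℂ) (P s) / RatFunc.X ^ m) F = 0 := by
  have h1 := (on_iff m P F).2 h
  have h0 : algebraMap (Polynomial ℂ) (RatFunc ℂ) (lau m P 0) = RatFunc.X ^ m := by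
    change algebraMap (Polynomial ℂ) (RatFunc ℂ) (Polynomial.X ^ m) = _
    rw [map_pow, RatFunc.algebraMap_X]
  have hX : (RatFunc.X : RatFunc ℂ) ^ m ≠ 0 := pow_ne_zero _ RatFunc.X_ne_zero
  have h2 : aeval (fun j => algebraMap (Polynomial ℂ) (RatFunc ℂ) (lau m P j)) (homK F) = 0 := by
    have h3 := MvPolynomial.aeval_algebraMap_apply (RatFunc ℂ) (lau m P) (homK F)
    rw [h1, map_zero] at h3
    exact h3
  have h4 := aeval_homK F (fun j => algebraMap (Polynomial ℂ) (RatFunc ℂ) (lau m P j)) (by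
    rw [h0]
    exact hX)
  rw [h2, h0] at h4
  exact (mul_eq_zero.1 h4.symm).resolve_left (pow_ne_zero _ hX)

theorem ev_scale (hp : Pool.Agent.W603.PV.IsHomog p) {x : Fin (n + 1) → ℂ} (c : ℂ)
    (hx : ∀ H ∈ p, eval x H = 0) : ∀ H ∈ p, eval (fun i => c * x i) H = 0 := by
  intro H hH
  rw [← av, Pool.Agent.W603.PV.aeval_scale_sum]
  refine Finset.sum_eq_zero fun d _ => ?_
  rw [av, hx _ (hp H hH d), mul_zero]

theorem prod_single {R : Type} [Field R] (x : Fin (n + 1) → R) (i : Fin (n + 1)) (a : ℕ) :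
    ∏ j, x j ^ (Finsupp.single i a : Fin (n + 1) →₀ ℕ) j = x i ^ a := by
  rw [Finset.prod_eq_single i]
  · rw [Finsupp.single_eq_same]
  · intro b _ hb
    rw [Finsupp.single_eq_of_ne hb, pow_zero]
  · intro h
    exact absurd (Finset.mem_univ i) h

theorem vr_c {R : Type} [Field R] [Algebra ℂ R] {q ν : ℕ} {α : Fin ν → (Fin (n + 1) →₀ ℕ)}
    {l : Fin (n + 1)} {c : Fin (n + 1) → Fin ν}
    (hc : ∀ i, α (c i) = Finsupp.single i 1 + Finsupp.single l (q - 1)) (x : Fin (n + 1) → R)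
    (i : Fin (n + 1)) : vr α Q x (c i) = x i * (x l ^ (q - 1) / aeval x Q) := by
  unfold vr
  rw [hc i]
  simp only [Finsupp.add_apply, pow_add, Finset.prod_mul_distrib]
  rw [prod_single, prod_single, pow_one, mul_div_assoc]

theorem vr_scale {R : Type} [Field R] [Algebra ℂ R] {q ν : ℕ} (hQ : Q.IsHomogeneous q)
    {α : Fin ν → (Fin (n + 1) →₀ ℕ)} (hα : Enum q α) (x : Fin (n + 1) → R) {μ : R} (hμ : μ ≠ 0) :
    vr α Q (fun i => μ * x i) = vr α Q x := by
  funext s
  unfold vr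
  rw [Pool.Agent.W603.PV.aeval_scale hQ]
  have h1 : ∏ i, (μ * x i) ^ α s i = μ ^ q * ∏ i, x i ^ α s i := by
    rw [← hα.1 s, ← Finset.prod_pow_eq_pow_sum, ← Finset.prod_mul_distrib]
    exact Finset.prod_congr rfl fun i _ => mul_pow _ _ _
  rw [h1]
  exact mul_div_mul_left _ _ (pow_ne_zero _ hμ)

theorem rel1 {q : ℕ} (hq : 1 ≤ q) (hQ : Q.IsHomogeneous q) {ν : ℕ}
    {α : Fin ν → (Fin (n + 1) →₀ ℕ)} {l : Fin (n + 1)} {c : Fin (n + 1) → Fin ν}
    (hc : ∀ i, α (c i) = Finsupp.single i 1 + Finsupp.single l (q - 1)) :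
    ∀ x ∈ PtsQ p Q, eval (vr α Q x) (rename c Q * X (c l) - X (c l) ^ q) = 0 := by
  intro x hx
  have h0 : aeval x Q ≠ 0 := by
    rw [av]
    exact hx.2
  have h1 := aeval_vr (Q := Q) hq hc (x := x) hQ
  rw [av] at h1
  rw [map_sub, map_mul, map_pow, eval_X, h1, vr_c hc]
  obtain ⟨k, rfl⟩ : ∃ k, q = k + 1 := ⟨q - 1, by omega⟩
  rw [Nat.add_sub_cancel, mul_pow]
  field_simp
  ring

theorem rel2 {q : ℕ} (hq : 1 ≤ q) {ν : ℕ}
    {α : Fin ν → (Fin (n + 1) →₀ ℕ)} (hα : Enum q α) {l : Fin (n + 1)} {c : Fin (n + 1) → Fin ν}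
    (hc : ∀ i, α (c i) = Finsupp.single i 1 + Finsupp.single l (q - 1)) (s : Fin ν) :
    ∀ x ∈ PtsQ p Q, eval (vr α Q x) (∏ i, X (c i) ^ α s i - X (c l) ^ (q - 1) * X s) = 0 := by
  intro x hx
  have h0 : aeval x Q ≠ 0 := by
    rw [av]
    exact hx.2
  rw [map_sub, map_mul, map_pow, map_prod, eval_X, eval_X]
  have h1 : ∏ i, eval (vr α Q x) (X (c i) ^ α s i) =
      (x l ^ (q - 1) / aeval x Q) ^ q * ∏ i, x i ^ α s i := by
    rw [← hα.1 s, ← Finset.prod_pow_eq_pow_sum, ← Finset.prod_mul_distrib, hα.1 s]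
    refine Finset.prod_congr rfl fun i _ => ?_
    rw [map_pow, eval_X, vr_c hc, mul_pow, mul_comm]
  rw [h1, vr_c hc]
  have h2 : vr α Q x s = (∏ i, x i ^ α s i) / aeval x Q := rfl
  rw [h2]
  obtain ⟨k, rfl⟩ : ∃ k, q = k + 1 := ⟨q - 1, by omega⟩
  rw [Nat.add_sub_cancel, mul_pow, pow_succ]
  field_simp
  ring

theorem of_laurent (hp : Pool.Agent.W603.PV.IsHomog p) {q : ℕ} (hq : 1 ≤ q)
    (hQ : Q.IsHomogeneous q) {ν : ℕ} {α : Fin ν → (Fin (n + 1) →₀ ℕ)} (hα : Enum q α) {m : ℕ}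
    {P : Fin ν → Polynomial ℂ}
    (hS : ∀ t, t ≠ 0 → ∀ H : MvPolynomial (Fin ν) ℂ, (∀ x ∈ PtsQ p Q, eval (vr α Q x) H = 0) →
      eval (lpt m P t) H = 0)
    (hnc : ∃ s t, s ≠ 0 ∧ t ≠ 0 ∧ lpt m P s ≠ lpt m P t) :
    ∃ P' : Fin (n + 1) → Polynomial ℂ, GmCurve p Q P' ∧ ∀ t, t ≠ 0 →
      (fun i => (P' i).eval t) ∈ PtsQ p Q ∧ vr α Q (fun i => (P' i).eval t) = lpt m P t := by
  classical
  obtain ⟨l, c, hc, hcl, -, -⟩ := exists_vr hp hq hQ hα (a := lpt m P 1) (hS 1 one_ne_zero)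
  obtain ⟨φ, hφ⟩ : ∃ φ : Fin ν → RatFunc ℂ, φ = fun s =>
    algebraMap (Polynomial ℂ) (RatFunc ℂ) (P s) / RatFunc.X ^ m := ⟨_, rfl⟩
  have hX : (RatFunc.X : RatFunc ℂ) ^ m ≠ 0 := pow_ne_zero _ RatFunc.X_ne_zero
  have hinj := RatFunc.algebraMap_injective ℂ
  have hcl0 : φ (c l) ≠ 0 := by
    rw [hφ]
    refine div_ne_zero ?_ hX
    rw [Ne, map_eq_zero_iff _ hinj]
    intro h
    apply hcl
    unfold lpt
    rw [h, Polynomial.eval_zero, zero_div]
  obtain ⟨v, hv⟩ : ∃ v : Fin (n + 1) → RatFunc ℂ, v = fun i => (φ (c l))⁻¹ * φ (c i) := ⟨_, rfl⟩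
  have hvl : v l = 1 := by
    rw [hv]
    exact inv_mul_cancel₀ hcl0
  have R1 : aeval (fun i => φ (c i)) Q * φ (c l) = φ (c l) ^ q := by
    have h1 := rel_rat (m := m) (P := P) (fun t ht => hS t ht _ (rel1 hq hQ hc))
    rw [← hφ, map_sub, map_mul, map_pow, aeval_X, aeval_rename] at h1
    exact sub_eq_zero.1 h1
  have hw : aeval v Q * φ (c l) = 1 := by
    rw [hv, Pool.Agent.W603.PV.aeval_scale hQ, mul_assoc, R1, ← mul_pow, inv_mul_cancel₀ hcl0,
      one_pow]
  have R2 : ∀ s, (∏ i, v i ^ α s i) * φ (c l) = φ s := by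
    intro s
    have h1 := rel_rat (m := m) (P := P) (fun t ht => hS t ht _ (rel2 hq hα hc s))
    rw [← hφ, map_sub, map_mul, map_pow, map_prod, aeval_X, aeval_X] at h1
    have h2 : ∏ i, φ (c i) ^ α s i = φ (c l) ^ (q - 1) * φ s := by
      rw [← sub_eq_zero, ← h1]
      congr 1
      exact Finset.prod_congr rfl fun i _ => by rw [map_pow, aeval_X]
    have h3 : ∏ i, v i ^ α s i = ((φ (c l))⁻¹) ^ q * ∏ i, φ (c i) ^ α s i := by
      rw [← hα.1 s, ← Finset.prod_pow_eq_pow_sum, ← Finset.prod_mul_distrib, hv]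
      exact Finset.prod_congr rfl fun i _ => mul_pow _ _ _
    rw [h3, h2]
    obtain ⟨k, hk⟩ : ∃ k, q = k + 1 := ⟨q - 1, by omega⟩
    have h4 : (φ (c l))⁻¹ ^ (k + 1) * (φ (c l) ^ k * φ s) * φ (c l) =
        ((φ (c l))⁻¹ * φ (c l)) ^ (k + 1) * φ s := by
      rw [mul_pow, pow_succ (φ (c l)) k]
      ring
    rw [hk, Nat.add_sub_cancel, h4, inv_mul_cancel₀ hcl0, one_pow, one_mul]
  have hφX : ∀ s, φ s * RatFunc.X ^ m = algebraMap (Polynomial ℂ) (RatFunc ℂ) (P s) := by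
    intro s
    rw [hφ]
    exact div_mul_cancel₀ _ hX
  obtain ⟨P', g, hg0, hPg, c0, k, hc0, hQP⟩ := Pool.Agent.Y988.IL.t_LOGP n q Q (by omega) hQ ℂ v
    (φ (c l)) l hvl hw (by
      intro β hβ
      obtain ⟨s, rfl⟩ := hα.2 β hβ
      exact ⟨P s, m, by rw [R2, hφX]⟩)
  -- the identity of polynomials
  have hid : ∀ s, Polynomial.X ^ m * ∏ i, P' i ^ α s i = P s * aeval P' Q := by
    intro s
    apply hinj
    rw [map_mul, map_mul, map_pow, map_prod, RatFunc.algebraMap_X]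
    have h1 : ∏ i, algebraMap (Polynomial ℂ) (RatFunc ℂ) (P' i ^ α s i) =
        g ^ q * ∏ i, v i ^ α s i := by
      rw [← hα.1 s, ← Finset.prod_pow_eq_pow_sum, ← Finset.prod_mul_distrib]
      exact Finset.prod_congr rfl fun i _ => by rw [map_pow, hPg, mul_pow]
    have h2 : algebraMap (Polynomial ℂ) (RatFunc ℂ) (aeval P' Q) = g ^ q * aeval v Q := by
      have h3 := MvPolynomial.aeval_algebraMap_apply (RatFunc ℂ) P' Q
      rw [← h3, ← Pool.Agent.W603.PV.aeval_scale hQ]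
      congr 2
      funext i
      exact hPg i
    rw [h1, h2, ← hφX, ← R2 s]
    linear_combination (-(RatFunc.X ^ m * g ^ q * ∏ i, v i ^ α s i)) * hw
  have hQt : ∀ t, eval (fun i => (P' i).eval t) Q = c0 * t ^ k := by
    intro t
    have h2 := MvPolynomial.comp_aeval_apply (f := P')
      (Polynomial.aeval t : Polynomial ℂ →ₐ[ℂ] ℂ) Q
    rw [hQP, Polynomial.coe_aeval_eq_eval, Polynomial.eval_mul, Polynomial.eval_C,
      Polynomial.eval_pow, Polynomial.eval_X] at h2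
    rw [h2, av]
  have hev : ∀ (H : MvPolynomial (Fin (n + 1)) ℂ) (t : ℂ),
      (aeval P' H).eval t = eval (fun i => (P' i).eval t) H := by
    intro H t
    have h2 := MvPolynomial.comp_aeval_apply (f := P')
      (Polynomial.aeval t : Polynomial ℂ →ₐ[ℂ] ℂ) H
    rw [Polynomial.coe_aeval_eq_eval] at h2
    rw [h2, av]
  have hQ0 : ∀ t, t ≠ 0 → eval (fun i => (P' i).eval t) Q ≠ 0 := by
    intro t ht
    rw [hQt]
    exact mul_ne_zero hc0 (pow_ne_zero _ ht)
  have hvr : ∀ t, t ≠ 0 → vr α Q (fun i => (P' i).eval t) = lpt m P t := by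
    intro t ht
    funext s
    have h1 := congrArg (Polynomial.eval t) (hid s)
    rw [Polynomial.eval_mul, Polynomial.eval_mul, Polynomial.eval_pow, Polynomial.eval_X,
      Polynomial.eval_prod, hev] at h1
    unfold vr lpt
    rw [av, div_eq_div_iff (hQ0 t ht) (pow_ne_zero _ ht), ← h1, mul_comm]
    congr 1
    exact Finset.prod_congr rfl fun i _ => by rw [Polynomial.eval_pow]
  have hpts : ∀ t, t ≠ 0 → (fun i => (P' i).eval t) ∈ PtsQ p Q := by
    intro t ht
    obtain ⟨l', c', hc', hcl', hx', -⟩ := exists_vr hp hq hQ hα (a := lpt m P t) (hS t ht)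
    obtain ⟨μ, hμ⟩ : ∃ μ : ℂ, μ = (P' l').eval t ^ (q - 1) /
      aeval (fun i => (P' i).eval t) Q := ⟨_, rfl⟩
    have h1 : ∀ i, lpt m P t (c' i) = (P' i).eval t * μ := by
      intro i
      rw [← hvr t ht, vr_c hc', hμ]
    have h2 : (P' l').eval t * μ ≠ 0 := by
      rw [← h1]
      exact hcl'
    have hμ0 := right_ne_zero_of_mul h2
    refine ⟨⟨?_, ?_⟩, hQ0 t ht⟩
    · intro h0
      apply left_ne_zero_of_mul h2
      exact congrFun h0 l'
    · have h3 := ev_scale hp μ⁻¹ hx'.1.2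
      have h4 : (fun i => μ⁻¹ * lpt m P t (c' i)) = fun i => (P' i).eval t := by
        funext i
        rw [h1, mul_comm, mul_assoc, mul_inv_cancel₀ hμ0, mul_one]
      rw [h4] at h3
      exact h3
  refine ⟨P', ⟨?_, ⟨c0, k, hc0, hQP⟩, ?_⟩, fun t ht => ⟨hpts t ht, hvr t ht⟩⟩
  · intro H hH
    have h1 : Polynomial.X * aeval P' H = 0 := by
      apply Polynomial.funext
      intro t
      rw [Polynomial.eval_mul, Polynomial.eval_X, Polynomial.eval_zero, hev]
      by_cases ht : t = 0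
      · rw [ht, zero_mul]
      · rw [(hpts t ht).1.2 H hH, mul_zero]
    exact (mul_eq_zero.1 h1).resolve_left Polynomial.X_ne_zero
  · obtain ⟨s, t, hs, ht, hst⟩ := hnc
    refine ⟨s, t, hs, ht, ?_⟩
    by_contra hcon
    push Not at hcon
    apply hst
    obtain ⟨j, hj⟩ : ∃ j, (P' j).eval t ≠ 0 := by
      by_contra h
      push Not at h
      exact (hpts t ht).1.1 (funext h)
    obtain ⟨j', hj'⟩ : ∃ j, (P' j).eval s ≠ 0 := by
      by_contra h
      push Not at h
      exact (hpts s hs).1.1 (funext h)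
    have h1 : (P' j).eval s ≠ 0 := by
      intro h
      have h2 := hcon j' j
      rw [h, zero_mul] at h2
      rcases mul_eq_zero.1 h2 with h3 | h3
      · exact hj' h3
      · exact hj h3
    have h3 : (fun i => (P' i).eval s) = fun i => (P' j).eval s / (P' j).eval t * (P' i).eval t := by
      funext i
      have h4 := hcon i j
      field_simp
      linear_combination h4
    rw [← hvr s hs, ← hvr t ht, h3]
    exact vr_scale hQ hα (fun i => (P' i).eval t) (div_ne_zero h1 hj)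

end H2aux

theorem gm_of_curve (hp : Pool.Agent.W603.PV.IsHomog p) {q : ℕ} (hq : 1 ≤ q)
    (hQ : Q.IsHomogeneous q) {ν : ℕ} {α : Fin ν → (Fin (n + 1) →₀ ℕ)} (hα : Enum q α) {r : ℕ}
    {f : ℂ → Fin ν → ℂ} (hM : MVec univ cst 1 r 1 f) (hf : ∀ t, Differentiable ℂ fun z => f z t)
    (hrel : ∀ H : MvPolynomial (Fin ν) ℂ, (∀ x ∈ PtsQ p Q, eval (vr α Q x) H = 0) →
      ∀ z, eval (f z) H = 0)
    {G : MvPolynomial (Fin ν) ℂ} (hG : eval (f 0) G ≠ 0) (hnc : ∃ z w, f z ≠ f w) :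
    ∃ P : Fin (n + 1) → Polynomial ℂ, GmCurve p Q P ∧ ∃ t : ℂ, t ≠ 0 ∧
      (fun i => (P i).eval t) ∈ PtsQ p Q ∧ eval (vr α Q fun i => (P i).eval t) G ≠ 0 := by
  classical
  obtain ⟨S, hS⟩ : ∃ S : Set (MvPolynomial (Fin ν) ℂ), ∀ H, H ∈ S ↔
    ∀ x ∈ PtsQ p Q, eval (vr α Q x) H = 0 :=
    ⟨{H | ∀ x ∈ PtsQ p Q, eval (vr α Q x) H = 0}, fun _ => Iff.rfl⟩
  obtain ⟨d, hd⟩ := genA_special S 1 r 1
  have h1 : ¬ LauIn S G d := by
    intro h
    rcases hd G h univ isOpen_univ isPreconnected_univ cst cst_ring f hM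
      (fun z _ F hF => hrel F ((hS F).1 hF) z) with h2 | h2
    · exact hG (h2 0 (mem_univ 0))
    · obtain ⟨z, w, hzw⟩ := hnc
      apply hzw
      funext u
      exact H2aux.const_of_alg (hf u) (h2 u) z w
  unfold LauIn at h1
  push Not at h1
  obtain ⟨m, P, -, -, hP, hPnc, t0, ht0, hGt⟩ := h1
  obtain ⟨P', hP', hpt⟩ := H2aux.of_laurent hp hq hQ hα (m := m) (P := P)
    (fun t ht H hH => hP t ht H ((hS H).2 hH)) hPnc
  refine ⟨P', hP', t0, ht0, (hpt t0 ht0).1, ?_⟩
  rw [(hpt t0 ht0).2]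
  exact hGt

end Pool.Agent.H917.Lg
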