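import Pool.Agent.H917.L.V1
import Pool.Agent.H917.L.H1
import Pool.Agent.H917.L.H2
import Pool.Agent.H917.E9

/-!
# PROJECT LOG (helper917), task F2 (spAlgQ_sub_spHQ, spAlgQ_sub_spPQ, spAlgQ_sub_spGmQ): the special sets

## Paper proof (ports of `spP_sub`, `spH_sub` in `Pool/Agent/H917/F1.lean`, of F3.lean and of `spMer_sub_spH` in `G/V2.lean`; copy those proofs)
* `spPQ_sub`, `spHQ_sub`: as in F1.lean, with `pcurve_lext`, `entire_not_lgt`; the generic point `y` of the curve (`GenPt`) has `aeval y Q ≠ 0` because `Q` is not zero on the curve.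
* `spAlgQ_sub_spHQ`: let `x ∈ SpAlgQ`, `G` a form vanishing on all entire curves, suppose `aeval y G ≠ 0` for some `K, w, y` as in the definition. Let `α` be from `exists_enum n q`, choose `l` with `y l ≠ 0` and `c` with
  `α (c i) = e_i + (q-1) e_l`, `G' = rename c G * X (c l)`; by `aeval_vr`, `aeval (vr α Q y) G' ≠ 0`. `curve_of_nlgt` gives `f`, `exists_homog` gives `F` (`hrel`: `mem_ker_vr` for `R = K`, `x = y`), an entire curve in `PtsQ p Q`; it is not constant because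
  `vr α Q (F z) = f z` is not constant; and `eval (F 0) G ≠ 0` by `aeval_vr` (if `F 0 l = 0` then `f 0 (c l) = F_l^q / Q = 0`, which is excluded by the factor `X (c l)`). A contradiction.
* `spAlgQ_sub_spGmQ`: the same with `gm_of_curve`.
* `spAlgQ_sub_spPQ`: with the curve `F` of `spAlgQ_sub_spHQ`: `w ↦ F (exp (1 / w))`, which is not extendable: compare `Sl.puncCurve`, `Sl.not_extends`, `exists_off` in E9.lean. Here the curve `F` is only known to be entire, nonconstant, in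
  `PtsQ p Q`. Not extendable: if `w ↦ F (exp w⁻¹)` extends to `g` on the disc, then along `w_k = 1 / (ζ + 2 π i k)`, `k → ∞`, the points are all the point `F (exp ζ)`, so `g 0` is (proportional to) `F (exp ζ)` for all `ζ`: so `F` is constant on `ℂ \ {0}`, a
  contradiction. `G ≠ 0` at some point of the curve: `eval (F z) G` is not zero near `z = 0`, take `z = exp (1 / w)` with `|w| < 1`, `z` near `0`: `1 / w = log z + 2 π i k`, `|.| > 1` (`exists_off`).
* `spGmQ_sub_spHQ`: for a `GmCurve P` the curve `z ↦ (P i (exp z))_i` is an entire curve in the complement of `Q = 0`, not constant. (`q ≥ 1`: `Q(P(t)) ≠ 0` implies `P(t) ≠ 0`.)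
* `spHQ_sub_spMerQ` (`g = 1`, `Z = ∅`) and `spMerQ_sub_spHQ` (port of `spMer_sub_spH`).
* `tfae_lgt`: port of `tfae_gt` in F3.lean: `LogGeneralType` implies `SpAlgQ ≠ PtsQ` by `exists_formL` and a point of `PtsQ p Q` outside `G = 0` (`exists_pt` in F2 for the form `G * Q`); if not `LogGeneralType` and `1 ≤ w`, then `y` itself shows
  `SpAlgQ = PtsQ`; if `w = 0` then `LogGeneralType` holds (`gt_zero` in F2 and `log_of_gt'` in B4).
-/

set_option autoImplicit false
set_option linter.overlappingInstances false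
set_option linter.unusedSectionVars false

open MvPolynomial Metric Set MeasureTheory

namespace Pool.Agent.H917.Lg

open Pool.Agent.W602.GT (IsForm LogGeneralType coords)
open Pool.Agent.W603.GR (OffQ)
open Pool.Agent.H917.G (HolMap PE)

variable {n : ℕ} {p : Ideal (MvPolynomial (Fin (n + 1)) ℂ)} {Q : MvPolynomial (Fin (n + 1)) ℂ}
  {B : Fin (n + 1) → Finset (Fin (n + 1))}

namespace F2aux

theorem eval_aeval (x : Fin (n + 1) → ℂ) (H : MvPolynomial (Fin (n + 1)) ℂ) :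
    aeval x H = eval x H := by
  rw [aeval_eq_eval]

/-- the indices of the coordinates `x_i x_l ^ (q - 1)` -/
theorem exists_index {q : ℕ} (hq : 1 ≤ q) {ν : ℕ} {α : Fin ν → (Fin (n + 1) →₀ ℕ)} (hα : Enum q α)
    (l : Fin (n + 1)) : ∃ c : Fin (n + 1) → Fin ν,
      ∀ i, α (c i) = Finsupp.single i 1 + Finsupp.single l (q - 1) := by
  have h : ∀ i : Fin (n + 1), ∃ t, α t = Finsupp.single i 1 + Finsupp.single l (q - 1) := by
    intro i
    apply hα.2
    simp only [Finsupp.add_apply, Finset.sum_add_distrib]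
    rw [Finset.sum_eq_single i, Finset.sum_eq_single l]
    · rw [Finsupp.single_eq_same, Finsupp.single_eq_same]
      omega
    · intro b _ hb
      exact Finsupp.single_eq_of_ne hb
    · intro h; exact absurd (Finset.mem_univ _) h
    · intro b _ hb
      exact Finsupp.single_eq_of_ne hb
    · intro h; exact absurd (Finset.mem_univ _) h
  choose c hc using h
  exact ⟨c, hc⟩

/-- the affine coordinates are invariant under scaling -/
theorem vr_smul {q : ℕ} (hQ : Q.IsHomogeneous q) {ν : ℕ} {α : Fin ν → (Fin (n + 1) →₀ ℕ)}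
    (hα : Enum q α) (x : Fin (n + 1) → ℂ) {a : ℂ} (ha : a ≠ 0) :
    vr α Q (a • x) = vr α Q x := by
  funext t
  have h1 : aeval (a • x) Q = a ^ q * aeval x Q := aeval_smul_homog a x hQ
  have h2 : ∏ i, (a • x) i ^ α t i = a ^ q * ∏ i, x i ^ α t i := by
    have h3 : ∀ i, (a • x) i ^ α t i = a ^ α t i * x i ^ α t i := fun i => by
      rw [Pi.smul_apply, smul_eq_mul, mul_pow]
    rw [Finset.prod_congr rfl fun i _ => h3 i, Finset.prod_mul_distrib, Finset.prod_pow_eq_pow_sum,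
      hα.1 t]
  unfold vr
  rw [h1, h2, mul_div_mul_left _ _ (pow_ne_zero _ ha)]

/-- the affine curve -/
theorem curve (hp : Pool.Agent.W603.PV.IsHomog p) {q : ℕ} (hq : 1 ≤ q)
    (hQ : Q.IsHomogeneous q) (hB : Bdry p Q B) {m N : ℕ} {s : Fin N → LSymDiff p Q B m}
    (hs : LGens p Q B m s) (hm : 1 ≤ m) {K : Type} [Field K] [Algebra ℂ K] {w : ℕ}
    {y : Fin (n + 1) → K} (hw : 1 ≤ w) (hy : SubVarQ p Q K w y)
    (hngt : ¬ LogGeneralType ℂ K w (OffQ Q q y)) {G : MvPolynomial (Fin (n + 1)) ℂ} {d : ℕ}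
    (hG : G.IsHomogeneous d) (hGy : aeval y G ≠ 0) :
    ∃ (ν : ℕ) (α : Fin ν → (Fin (n + 1) →₀ ℕ)) (_ : Enum q α) (l : Fin (n + 1))
      (c : Fin (n + 1) → Fin ν) (_ : ∀ i, α (c i) = Finsupp.single i 1 + Finsupp.single l (q - 1))
      (r : ℕ) (f : ℂ → Fin ν → ℂ), Pool.Agent.Q139.EG.MVec univ cst 1 r 1 f ∧
      (∀ t, Differentiable ℂ fun z => f z t) ∧
      (∀ H : MvPolynomial (Fin ν) ℂ, (∀ x ∈ PtsQ p Q, eval (vr α Q x) H = 0) →
        ∀ z, eval (f z) H = 0) ∧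
      eval (f 0) (rename c G) ≠ 0 ∧ ∃ z w, f z ≠ f w := by
  obtain ⟨ν, α, hα⟩ := exists_enum n q
  obtain ⟨l, hl⟩ := Function.ne_iff.1 hy.sub.ne
  have hl' : y l ≠ 0 := hl
  obtain ⟨c, hc⟩ := exists_index hq hα l
  have hG' : aeval (vr α Q y) (rename c G) ≠ 0 := by
    rw [aeval_vr hq hc hG]
    exact mul_ne_zero (pow_ne_zero _ (div_ne_zero (pow_ne_zero _ hl') hy.off)) hGy
  obtain ⟨r, f, h1, h2, h3, h4, h5⟩ := curve_of_nlgt hp hq hQ hB hs hm hα hw hy hngt hG'
  refine ⟨ν, α, hα, l, c, hc, r, f, h1, h2, fun H hH z => ?_, h4, h5⟩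
  exact h3 H (mem_ker_vr hp hQ hα hy.sub.mem hy.off hH hy.sub.ne) z

theorem eval_ne_of_vr {q : ℕ} (hq : 1 ≤ q) {ν : ℕ} {α : Fin ν → (Fin (n + 1) →₀ ℕ)}
    {l : Fin (n + 1)} {c : Fin (n + 1) → Fin ν}
    (hc : ∀ i, α (c i) = Finsupp.single i 1 + Finsupp.single l (q - 1))
    {G : MvPolynomial (Fin (n + 1)) ℂ} {d : ℕ} (hG : G.IsHomogeneous d) {x : Fin (n + 1) → ℂ}
    (h : eval (vr α Q x) (rename c G) ≠ 0) : eval x G ≠ 0 := by
  intro h0
  apply h
  have h1 := aeval_vr (Q := Q) (x := x) hq hc hG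
  rw [eval_aeval x G, h0, mul_zero] at h1
  rw [← h1, aeval_eq_eval]

/-- an entire curve through a general point -/
theorem exists_ent (hp : Pool.Agent.W603.PV.IsHomog p) {q : ℕ} (hq : 1 ≤ q)
    (hQ : Q.IsHomogeneous q) (hB : Bdry p Q B) {m N : ℕ} {s : Fin N → LSymDiff p Q B m}
    (hs : LGens p Q B m s) (hm : 1 ≤ m) {K : Type} [Field K] [Algebra ℂ K] {w : ℕ}
    {y : Fin (n + 1) → K} (hw : 1 ≤ w) (hy : SubVarQ p Q K w y)
    (hngt : ¬ LogGeneralType ℂ K w (OffQ Q q y)) {G : MvPolynomial (Fin (n + 1)) ℂ}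
    (hG : ∃ d, G.IsHomogeneous d) (hGy : aeval y G ≠ 0) :
    ∃ F : ℂ → Fin (n + 1) → ℂ, EntCurve p F ∧ (∀ z, eval (F z) Q ≠ 0) ∧ eval (F 0) G ≠ 0 := by
  obtain ⟨d, hG⟩ := hG
  obtain ⟨ν, α, hα, l, c, hc, r, f, h1, h2, h3, h4, h5⟩ := curve hp hq hQ hB hs hm hw hy hngt hG hGy
  obtain ⟨F, hF, hFf⟩ := exists_homog hp hq hQ hα h2 h3
  refine ⟨F, ⟨hF, fun z => (hFf z).1.1, ?_⟩, fun z => (hFf z).1.2, ?_⟩
  · obtain ⟨z, w', hzw⟩ := h5
    refine ⟨z, w', fun a ha => ?_⟩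
    have ha0 : a ≠ 0 := by
      rintro rfl
      rw [zero_smul] at ha
      exact (hFf z).1.1.1 ha
    apply hzw
    rw [← (hFf z).2, ← (hFf w').2, ha, vr_smul hQ hα _ ha0]
  · apply eval_ne_of_vr (Q := Q) hq hc hG
    rw [(hFf 0).2]
    exact h4

open Filter Topology in
/-- the curve in the punctured disc does not extend -/
theorem not_extends {F : ℂ → Fin (n + 1) → ℂ} (hF : EntCurve p F) :
    ¬ Extends fun w => F (Complex.exp w⁻¹) := by
  rintro ⟨g, hgd, hgne, hg⟩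
  have hg00 : g 0 ≠ 0 := hgne 0 (mem_ball_self one_pos)
  have hFc : ∀ i, Continuous fun z => F z i := fun i =>
    (continuous_apply i).comp hF.1.continuous
  have key : ∀ t : ℂ, t ≠ 0 → ∀ i j, F t i * g 0 j - F t j * g 0 i = 0 := by
    intro t ht i j
    have hw : ∀ k : ℕ, ∃ w : ℂ, w ≠ 0 ∧ ‖w‖ < 1 / ((k : ℝ) + 1) ∧ Complex.exp w⁻¹ = t := by
      intro k
      obtain ⟨w, hw, hwt⟩ := Pool.Agent.TH143.exists_exp_inv ht (ε := 1 / ((k : ℝ) + 1))
        Nat.one_div_pos_of_nat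
      exact ⟨w, hw.1, hw.2, hwt⟩
    choose w hw0 hw1 hwt using hw
    have hwlim : Tendsto w atTop (𝓝 0) := by
      rw [tendsto_zero_iff_norm_tendsto_zero]
      exact squeeze_zero (fun k => norm_nonneg _) (fun k => (hw1 k).le)
        tendsto_one_div_add_atTop_nhds_zero_nat
    have hgc : ∀ i, Tendsto (fun k => g (w k) i) atTop (𝓝 (g 0 i)) := by
      intro i
      have h1 : DifferentiableOn ℂ (fun z => g z i) (ball 0 1) := fun z hz =>
        (differentiableWithinAt_pi.1 (hgd z hz)) i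
      have h2 : ContinuousAt (fun z => g z i) 0 :=
        (h1.differentiableAt (isOpen_ball.mem_nhds (mem_ball_self one_pos))).continuousAt
      exact h2.tendsto.comp hwlim
    have h1 : ∀ k, F t i * g (w k) j - F t j * g (w k) i = 0 := by
      intro k
      have h2 : w k ∈ ball (0 : ℂ) 1 \ {0} := by
        refine ⟨?_, hw0 k⟩
        rw [mem_ball_zero_iff]
        refine (hw1 k).trans_le ?_
        rw [div_le_one (by positivity)]
        have : (0 : ℝ) ≤ k := Nat.cast_nonneg k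
        linarith
      obtain ⟨c, hc⟩ := hg (w k) h2
      simp only [hwt] at hc
      rw [hc, Pi.smul_apply, Pi.smul_apply, smul_eq_mul, smul_eq_mul]
      ring
    have h2 : Tendsto (fun k => F t i * g (w k) j - F t j * g (w k) i) atTop
        (𝓝 (F t i * g 0 j - F t j * g 0 i)) :=
      ((hgc j).const_mul _).sub ((hgc i).const_mul _)
    simp only [h1] at h2
    exact (tendsto_nhds_unique h2 tendsto_const_nhds)
  have key0 : ∀ t : ℂ, ∀ i j, F t i * g 0 j - F t j * g 0 i = 0 := by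
    intro t i j
    by_cases ht : t = 0
    · subst ht
      have h1 : Continuous fun t => F t i * g 0 j - F t j * g 0 i :=
        ((hFc i).mul continuous_const).sub ((hFc j).mul continuous_const)
      have h2 : Tendsto (fun t => F t i * g 0 j - F t j * g 0 i) (𝓝[≠] (0 : ℂ))
          (𝓝 (F 0 i * g 0 j - F 0 j * g 0 i)) := h1.continuousAt.tendsto.mono_left
        nhdsWithin_le_nhds
      have h3 : Tendsto (fun t => F t i * g 0 j - F t j * g 0 i) (𝓝[≠] (0 : ℂ)) (𝓝 0) := by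
        refine tendsto_const_nhds.congr' ?_
        filter_upwards [self_mem_nhdsWithin] with t ht
        exact (key t ht i j).symm
      exact tendsto_nhds_unique h2 h3
    · exact key t ht i j
  have hpe : ∀ t, Pe (F t) (g 0) := fun t => pe_of_minor (hF.2.1 t).1 hg00 (key0 t)
  obtain ⟨z, w, hzw⟩ := hF.2.2
  obtain ⟨a, ha, haz⟩ := (hpe z).trans (hpe w).symm
  apply hzw a
  funext i
  exact haz i

theorem puncCurve {F : ℂ → Fin (n + 1) → ℂ} (hF : EntCurve p F) :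
    PuncCurve p fun w => F (Complex.exp w⁻¹) := by
  refine ⟨fun w hw => ?_, fun w _ => hF.2.1 _⟩
  have hw0 : w ≠ 0 := fun h => hw.2 h
  have h1 : DifferentiableAt ℂ (fun w : ℂ => Complex.exp w⁻¹) w :=
    (differentiableAt_inv hw0).cexp
  exact ((hF.1 _).comp w h1).differentiableWithinAt

end F2aux

theorem spAlgQ_sub_spHQ (hp : Pool.Agent.W603.PV.IsHomog p) {q : ℕ} (hq : 1 ≤ q)
    (hQ : Q.IsHomogeneous q) (hB : Bdry p Q B) {m N : ℕ} {s : Fin N → LSymDiff p Q B m}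
    (hs : LGens p Q B m s) (hm : 1 ≤ m) : SpAlgQ p Q q ⊆ SpHQ p Q := by
  intro x hx
  refine ⟨hx.1, fun G hG hGT => hx.2 G hG fun K _ _ w y hw hy hngt => ?_⟩
  by_contra hGy
  obtain ⟨F, h1, h2, h3⟩ := F2aux.exists_ent hp hq hQ hB hs hm hw hy hngt hG hGy
  exact h3 (hGT F h1 h2 0)

theorem spAlgQ_sub_spPQ (hp : Pool.Agent.W603.PV.IsHomog p) {q : ℕ} (hq : 1 ≤ q)
    (hQ : Q.IsHomogeneous q) (hB : Bdry p Q B) {m N : ℕ} {s : Fin N → LSymDiff p Q B m}
    (hs : LGens p Q B m s) (hm : 1 ≤ m) : SpAlgQ p Q q ⊆ SpPQ p Q := by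
  intro x hx
  refine ⟨hx.1, fun G hG hGT => hx.2 G hG fun K _ _ w y hw hy hngt => ?_⟩
  by_contra hGy
  obtain ⟨F, h1, h2, h3⟩ := F2aux.exists_ent hp hq hQ hB hs hm hw hy hngt hG hGy
  obtain ⟨v, hv, hvG⟩ := exists_off (fun i => (continuous_apply i).comp h1.1.continuous) h3
  exact hvG (hGT _ (F2aux.puncCurve h1) (fun z _ => h2 _) (F2aux.not_extends h1) v hv)

theorem spAlgQ_sub_spGmQ (hp : Pool.Agent.W603.PV.IsHomog p) {q : ℕ} (hq : 1 ≤ q)
    (hQ : Q.IsHomogeneous q) (hB : Bdry p Q B) {m N : ℕ} {s : Fin N → LSymDiff p Q B m}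
    (hs : LGens p Q B m s) (hm : 1 ≤ m) : SpAlgQ p Q q ⊆ SpGmQ p Q := by
  intro x hx
  refine ⟨hx.1, fun G hG hGT => hx.2 G hG fun K _ _ w y hw hy hngt => ?_⟩
  by_contra hGy
  obtain ⟨d, hGd⟩ := hG
  obtain ⟨ν, α, hα, l, c, hc, r, f, h1, h2, h3, h4, h5⟩ :=
    F2aux.curve hp hq hQ hB hs hm hw hy hngt hGd hGy
  obtain ⟨P, hP, t, ht, -, hPG⟩ := gm_of_curve hp hq hQ hα h1 h2 h3 h4 h5
  exact F2aux.eval_ne_of_vr hq hc hGd hPG (hGT P hP t ht)

end Pool.Agent.H917.Lg
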