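import Pool.Agent.H917.G.V2
import Pool.Agent.H917.L.P2

/-!
# PROJECT LOG (helper917), task F3 (spGmQ_sub_spHQ, spHQ_sub_spMerQ, spMerQ_sub_spHQ): the special sets

## Paper proof (ports of `spP_sub`, `spH_sub` in `Pool/Agent/H917/F1.lean`, of F3.lean and of `spMer_sub_spH` in `G/V2.lean`; copy those proofs)
* `spPQ_sub`, `spHQ_sub`: as in F1.lean, with `pcurve_lext`, `entire_not_lgt`; the generic point `y` of the curve (`GenPt`) has `aeval y Q ≠ 0` because `Q` is not zero on the curve.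
* `spAlgQ_sub_spHQ`: let `x ∈ SpAlgQ`, `G` a form vanishing on all entire curves, suppose `aeval y G ≠ 0` for some `K, w, y` as in the definition. Let `α` be from `exists_enum n q`, choose `l` with `y l ≠ 0` and `c` with
  `α (c i) = e_i + (q-1) e_l`, `G' = rename c G * X (c l)`; by `aeval_vr`, `aeval (vr α Q y) G' ≠ 0`. `curve_of_nlgt` gives `f`, `exists_homog` gives `F` (`hrel`: `mem_ker_vr` for `R = K`, `x = y`), an entire curve in `PtsQ p Q`; it is not constant because
  `vr α Q (F z) = f z` is not constant; and `eval (F 0) G ≠ 0` by `aeval_vr` (if `F 0 l = 0` then `f 0 (c l) = F_l^q / Q = 0`, which is excluded by the factor `X (c l)`). A contradiction.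
* `spAlgQ_sub_spGmQ`: the same with `gm_of_curve`.
* `spAlgQ_sub_spPQ`: with the curve `F` of `spAlgQ_sub_spHQ`: `w ↦ F (exp (1 / w))`, which is not extendable: compare `Sl.puncCurve`, `Sl.not_extends`, `exists_off` in E9.lean. Here the curve `F` is only known to be entire, nonconstant, in
  `PtsQ p Q`. Not extendable: if `w ↦ F (exp w⁻¹)` extends to `g` on the disc, then along `w_k = 1 / (ζ + 2 π i k)`, `k → ∞`, the points are all the point `F (exp ζ)`, so `g 0` is (proportional to) `F (exp ζ)` for all `ζ`: so `F` is constant on `ℂ \ {0}`, a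
  contradiction. `G ≠ 0` at some point of the curve: `eval (F z) G` is not zero near `z = 0`, take `z = exp (1 / w)` with `|w| < 1`, `z` near `0`: `1 / w = log z + 2 π i k`, `|.| > 1` (`exists_off`).
* `spGmQ_sub_spHQ`: for a `GmCurve P` the curve `z ↦ (P i (exp z))_i` is an entire curve in the complement of `Q = 0`, not constant. (`q ≥ 1`: `Q(P(t)) ≠ 0` implies `P(t) ≠ 0`.)
* `spHQ_sub_spMerQ` (`g = 1`, `Z = ∅`) and `spMerQ_sub_spHQ` (port of `spMer_sub_spH`).
* `tfae_lgt`: port of `tfae_gt` in F3.lean: `LogGeneralType` implies `SpAlgQ ≠ PtsQ` by `exists_formL` and a point of `PtsQ p Q` outside `G = 0` (`exists_pt` in F2 for the form `G * Q`); if not `LogGeneralType` and `1 ≤ w`, then `y` itself shows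
  `SpAlgQ = PtsQ`; if `w = 0` then `LogGeneralType` holds (`gt_zero` in F2 and `log_of_gt'` in B4).
-/

set_option autoImplicit false
set_option linter.overlappingInstances false
set_option linter.unusedSectionVars false

open MvPolynomial Metric Set MeasureTheory

namespace Pool.Agent.H917.Lg

open Pool.Agent.W602.GT (IsForm LogGeneralType coords)
open Pool.Agent.W603.GR (OffQ)
open Pool.Agent.H917.G (HolMap PE)

variable {n : ℕ} {p : Ideal (MvPolynomial (Fin (n + 1)) ℂ)} {Q : MvPolynomial (Fin (n + 1)) ℂ}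
  {B : Fin (n + 1) → Finset (Fin (n + 1))}

namespace F3aux

theorem eval_poly (P : Fin (n + 1) → Polynomial ℂ) (t : ℂ) (H : MvPolynomial (Fin (n + 1)) ℂ) :
    eval (fun i => (P i).eval t) H = (aeval P H).eval t := by
  have h1 := map_aeval P (Polynomial.evalRingHom t) H
  rw [Polynomial.coe_evalRingHom] at h1
  rw [h1]
  have h2 : (Polynomial.evalRingHom t).comp (algebraMap ℂ (Polynomial ℂ)) = RingHom.id ℂ := by
    ext a
    simp
  rw [h2]
  rfl

theorem eval_ne_of_pe {q : ℕ} (hQ : Q.IsHomogeneous q) {x y : Fin (n + 1) → ℂ} (h : PE x y)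
    (hy : eval y Q ≠ 0) : eval x Q ≠ 0 := by
  obtain ⟨c, hc, h⟩ := h
  have h1 : x = fun i => c * y i := funext h
  rw [h1, ← ae, aeval_smul_homog _ _ hQ, ae]
  exact mul_ne_zero (pow_ne_zero _ hc) hy

end F3aux

theorem spGmQ_sub_spHQ (hp : Pool.Agent.W603.PV.IsHomog p) {q : ℕ} (hq : 1 ≤ q)
    (hQ : Q.IsHomogeneous q) : SpGmQ p Q ⊆ SpHQ p Q := by
  intro x hx
  refine ⟨hx.1, fun G hG hcur => hx.2 G hG fun P hP t ht => ?_⟩
  have hoff : ∀ z : ℂ, eval (fun i => (P i).eval (Complex.exp z)) Q ≠ 0 := by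
    intro z
    obtain ⟨c, k, hc, hck⟩ := hP.off
    rw [F3aux.eval_poly, hck, Polynomial.eval_mul, Polynomial.eval_C, Polynomial.eval_pow,
      Polynomial.eval_X]
    exact mul_ne_zero hc (pow_ne_zero _ (Complex.exp_ne_zero z))
  have hent : EntCurve p (fun z i => (P i).eval (Complex.exp z)) := by
    refine ⟨?_, fun z => ⟨fun h0 => hoff z ?_, fun H hH => ?_⟩, ?_⟩
    · rw [differentiable_pi]
      intro i
      exact (P i).differentiable.comp Complex.differentiable_exp
    · have h1 : (fun i => (P i).eval (Complex.exp z)) = 0 := h0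
      rw [h1]
      have h3 : eval (fun i => (0 : ℂ) * (0 : Fin (n + 1) → ℂ) i) Q = 0 ^ q * eval 0 Q := by
        rw [← ae, aeval_smul_homog _ _ hQ, ae]
      have h4 : (fun i => (0 : ℂ) * (0 : Fin (n + 1) → ℂ) i) = 0 := by
        funext i
        simp
      rw [h4, zero_pow (by omega), zero_mul] at h3
      exact h3
    · rw [F3aux.eval_poly, hP.mem H hH, Polynomial.eval_zero]
    · obtain ⟨a, b, ha, hb, i, j, hij⟩ := hP.nc
      refine ⟨Complex.log a, Complex.log b, fun c hc => hij ?_⟩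
      have h1 := congrFun hc i
      have h2 := congrFun hc j
      simp only [Pi.smul_apply, smul_eq_mul, Complex.exp_log ha, Complex.exp_log hb] at h1 h2
      rw [h1, h2]
      ring
  have h1 := hcur _ hent hoff (Complex.log t)
  simp only [Complex.exp_log ht] at h1
  exact h1

theorem spHQ_sub_spMerQ (p : Ideal (MvPolynomial (Fin (n + 1)) ℂ))
    (Q : MvPolynomial (Fin (n + 1)) ℂ) : SpHQ p Q ⊆ SpMerQ p Q := by
  intro x hx
  refine ⟨hx.1, fun G hG hcur => hx.2 G hG fun f hf hfQ z => ?_⟩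
  obtain ⟨hd, hP, z1, w1, hne⟩ := hf
  have h1 := hcur 1 ∅ (fun v => f (v 0)) isClosed_empty measure_empty ?_
    (fun v _ => ⟨hP (v 0), hfQ (v 0)⟩) ?_ (fun _ => z) (Set.notMem_empty _)
  · exact h1
  · intro v _
    refine ⟨fun v => f (v 0), (hP (v 0)).1, Filter.Eventually.of_forall fun w => ⟨?_, PE.refl _⟩⟩
    exact (hd (w 0)).comp w (differentiableAt_apply 0 w)
  · refine ⟨fun _ => z1, Set.notMem_empty _, fun _ => w1, Set.notMem_empty _, ?_⟩
    rintro ⟨c, -, hc⟩
    exact hne c (funext hc)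

theorem spMerQ_sub_spHQ (hp : Pool.Agent.W603.PV.IsHomog p) {q : ℕ}
    (hQ : Q.IsHomogeneous q) : SpMerQ p Q ⊆ SpHQ p Q := by
  intro x hx
  refine ⟨hx.1, fun G hG hcur => hx.2 G hG fun g Z f hZc hZ hf hP hnc z0 hz0 => ?_⟩
  by_contra hG0
  obtain ⟨h, hd, hne, him, ⟨s, t, hst⟩, t0, ht0⟩ := H917.G.mer_curve hZc hZ hf hnc hG hz0 hG0
  refine ht0 (hcur h ⟨hd, fun t => ?_, s, t, fun c hc => ?_⟩ (fun t => ?_) t0)
  · obtain ⟨w, hw, hw'⟩ := him t
    exact pts_of_pe hp hw' (hP w hw).1
  · rcases eq_or_ne c 0 with hc0 | hc0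
    · rw [hc0, zero_smul] at hc
      exact hne s hc
    · exact hst ⟨c, hc0, fun i => by rw [hc]; rfl⟩
  · obtain ⟨w, hw, hw'⟩ := him t
    exact F3aux.eval_ne_of_pe hQ hw' (hP w hw).2

end Pool.Agent.H917.Lg
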