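import Pool.Agent.H917.L.G1a

/-!
# PROJECT LOG (helper917), task G1 (gen_of_lgt): varieties of log general type are not covered by images of the punctured line

## Paper proof
`aeval_vr`: for a form `G` of degree `d` and `l` with `x l ≠ 0`, `1 ≤ q`: let `a i` be an index with `α (a i) = e_i + (q - 1) e_l`; then `aeval (fun i => vr α Q x (a i)) G = (x l ^ (q - 1) / Q(x))^d * aeval x G`
(`vr α Q x (a i) = x i x l ^ (q - 1) / Q(x)`).
`gen_of_lgt`: by `genA_tfae` (library, `Pool.Agent.Q139.EG`, the file `MainA.lean`) it is enough to show `¬ GmUniruled I`, `I = ker (aeval (vr α Q y))` (a prime ideal). Let `L, m, P` be as in `GmUniruled I` (library,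
`Q1/SL/GmUni.lean`): `lpt m P t` (`t ≠ 0`) are zeros of `I`, no `G ∉ I` vanishes at `lpt m P 1`, and `lpt m P` is not constant. Choose `l` with `y l ≠ 0`, `a i` as above, `a l` is the index of `q e_l`.
`vr α Q y (a l) = y l ^ q / Q(y) ≠ 0`, so the variable `X (a l)` is not in `I` and `φ t = P t / X^m ∈ RatFunc L` (`t : Fin ν`) satisfies `φ (a l) ≠ 0`. All polynomials in `I` vanish at `φ` (they vanish at
all `t ≠ 0`, `L` is infinite). Let `v i = φ (a i) / φ (a l)`, `w = φ (a l)`. Then `v l = 1`; `aeval v Q * w = 1` and `(∏ v i ^ β i) * w = φ (index of β)` for `∑ β i = q` follow from the corresponding polynomial relations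
for `vr α Q y`: `Q (X (a i)) * X (a l) = X (a l)^q` (both sides are equal to `(y l^(q-1)/Q(y))^q Q(y) * y l^q/Q(y)`), `∏ X (a i)^β i = X (a l)^(q-1) X (index of β)`, which are in `I`. So the hypotheses
of `Pool.Agent.Y988.IL.t_LOGP` (statement `Pool.Agent.Y377.IL.S_LOGP`; `q ≥ 1`) hold over the field `L`, with `(index of β)`-components `P (..) / X^m`: it gives `P' : Fin (n + 1) → Polynomial L` and `g ≠ 0` with
`P' j = g v j` and `aeval P' Q = c X^k`, `c ≠ 0`. For a form `G` of degree `d`: `aeval y G = 0` iff `G (X (a i)) ∈ I` (`aeval_vr`) iff `aeval P' G = 0` (if `G (X (a i)) ∈ I` it vanishes at `φ`, so `aeval v G = 0`; conversely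
if `aeval P' G = 0` then `G (φ (a i)) = 0`, which vanishes at `t = 1`, so `G (X (a i)) ∈ I` by genericity). The curve `P'` is not constant: otherwise `v` is constant, by the relations above
`w = φ (a l) = 1 / aeval v Q` and all `φ t` are constant, a contradiction; so a Wronskian is not zero (`prop_of_wronskian`, used in `Helper4K9/IP/Log.lean`). By `Pool.Agent.Helper4K9.IP.not_lgt` (or
`Pool.Agent.Y405.IL.t_LGT`) the variety is not of log general type.
`mem_ker_vr`, `exists_vr`: see the statements; `exists_vr` is the surjectivity onto the zeros of the relations: let `a` be a complex vector satisfying all polynomial relations which hold on the affine coordinates of all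
points of `PtsQ p Q`. The relations `∑ Q_β X_β = 1` (`Q_β` the coefficients of `Q`) and `X_β^q = ∏_i X_{q e_i}^{β_i}` show that some `a_{q e_l} ≠ 0`. Let `x i = a_{e_i + (q-1) e_l}`. The relations
`Q (X_{e_i + (q-1) e_l}) = X_{q e_l}^{q-1}`, `∏_i X_{e_i + (q-1) e_l}^{β_i} = X_{q e_l}^{q-1} X_β` and `H (X_{e_i + (q-1) e_l}) = 0` for the forms `H ∈ p` (`p` is homogeneous) show `x ∈ PtsQ p Q` and `vr α Q x = a`.
-/

set_option autoImplicit false
set_option linter.overlappingInstances false
set_option linter.unusedSectionVars false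

open MvPolynomial Metric Set

namespace Pool.Agent.H917.Lg

open Pool.Agent.W602.GT (IsForm LogGeneralType coords)
open Pool.Agent.W603.GR (OffQ)
open Pool.Agent.Q139.EG

variable {n : ℕ} {p : Ideal (MvPolynomial (Fin (n + 1)) ℂ)} {Q : MvPolynomial (Fin (n + 1)) ℂ}

namespace G1aux

open Pool.Agent.Q1.SL (lpt lau homK on_iffL aeval_homK GmUniruled)

/-- the curve over the field of rational functions -/
noncomputable def phi {L : Type} [Field L] {ν : ℕ} (m : ℕ) (P : Fin ν → Polynomial L) :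
    Fin ν → RatFunc L :=
  fun t => algebraMap (Polynomial L) (RatFunc L) (P t) / RatFunc.X ^ m

theorem phi_iff {L : Type} [Field L] [Algebra ℂ L] {ν : ℕ} (m : ℕ) (P : Fin ν → Polynomial L)
    (F : MvPolynomial (Fin ν) ℂ) :
    aeval (phi m P) F = 0 ↔ ∀ t : L, t ≠ 0 → aeval (lpt m P t) F = 0 := by
  have hL : CharZero L := charZero_of_injective_algebraMap (algebraMap ℂ L).injective
  rw [← on_iffL m P F]
  have h1 : algebraMap (Polynomial L) (RatFunc L) (aeval (lau m P) (homK F)) =
      aeval (fun j => algebraMap (Polynomial L) (RatFunc L) (lau m P j)) (homK F) := by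
    have := MvPolynomial.comp_aeval_apply (f := lau m P)
      (IsScalarTower.toAlgHom ℂ (Polynomial L) (RatFunc L)) (homK F)
    exact this
  have h0 : algebraMap (Polynomial L) (RatFunc L) (lau m P 0) = RatFunc.X ^ m := by
    change algebraMap (Polynomial L) (RatFunc L) (Polynomial.X ^ m) = _
    rw [map_pow, RatFunc.algebraMap_X]
  have hX : (RatFunc.X ^ m : RatFunc L) ≠ 0 := pow_ne_zero _ RatFunc.X_ne_zero
  have h2 := aeval_homK F (fun j => algebraMap (Polynomial L) (RatFunc L) (lau m P j)) (by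
    rw [h0]; exact hX)
  rw [h0] at h2
  have h3 : aeval (phi m P) F = 0 ↔
      algebraMap (Polynomial L) (RatFunc L) (aeval (lau m P) (homK F)) = 0 := by
    rw [h1, h2, mul_eq_zero, or_iff_right (pow_ne_zero _ hX)]
    exact Iff.rfl
  rw [h3, map_eq_zero_iff _ (RatFunc.algebraMap_injective L)]

theorem sum_single (i : Fin (n + 1)) (a : ℕ) :
    ∑ j, (Finsupp.single i a : Fin (n + 1) →₀ ℕ) j = a := by
  rw [Finset.sum_eq_single i]
  · simp
  · intro b _ hb
    exact Finsupp.single_eq_of_ne hb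
  · simp

theorem exists_c {q : ℕ} (hq : 1 ≤ q) {ν : ℕ} {α : Fin ν → (Fin (n + 1) →₀ ℕ)} (hα : Enum q α)
    (l : Fin (n + 1)) : ∃ c : Fin (n + 1) → Fin ν,
      ∀ i, α (c i) = Finsupp.single i 1 + Finsupp.single l (q - 1) := by
  have h1 : ∀ i, ∃ t, α t = Finsupp.single i 1 + Finsupp.single l (q - 1) := by
    intro i
    refine hα.2 _ ?_
    simp only [Finsupp.add_apply, Finset.sum_add_distrib]
    rw [sum_single, sum_single]
    omega
  choose c hc using h1
  exact ⟨c, hc⟩

theorem prod_scale {R : Type} [Field R] {q : ℕ} (β : Fin (n + 1) →₀ ℕ) (hβ : ∑ i, β i = q) (g : R)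
    (u : Fin (n + 1) → R) : ∏ i, (g * u i) ^ β i = g ^ q * ∏ i, u i ^ β i := by
  simp only [mul_pow, Finset.prod_mul_distrib, Finset.prod_pow_eq_pow_sum, hβ]

theorem alg {R : Type} [Field R] (a b : R) (hb : b ≠ 0) (r : ℕ) :
    (a ^ r / b) ^ (r + 1) * b = (a ^ r / b * a) ^ r := by
  rw [pow_succ, mul_assoc, div_mul_cancel₀ _ hb, mul_pow]

end G1aux

/-- **Varieties of log general type**: curves given by linear differential equations of bounded
size lie in a fixed hypersurface. -/
theorem gen_of_lgt {q : ℕ} (hq : 1 ≤ q) (hQ : Q.IsHomogeneous q) {ν : ℕ}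
    {α : Fin ν → (Fin (n + 1) →₀ ℕ)} (hα : Enum q α) {K : Type} [Field K] [Algebra ℂ K] {w : ℕ}
    {y : Fin (n + 1) → K} (hy : y ≠ 0) (hoff : aeval y Q ≠ 0) (hgen : coords ℂ y = ⊤)
    (hdim : Algebra.trdeg ℂ K = w) (hL : LogGeneralType ℂ K w (OffQ Q q y)) :
    GenDegA (RingHom.ker (aeval (vr α Q y) : MvPolynomial (Fin ν) ℂ →ₐ[ℂ] K)) := by
  classical
  obtain ⟨l, hl⟩ := Function.ne_iff.1 hy
  have hl : y l ≠ 0 := hl
  obtain ⟨c, hc⟩ := G1aux.exists_c hq hα l
  have hprime : (RingHom.ker (aeval (vr α Q y) : MvPolynomial (Fin ν) ℂ →ₐ[ℂ] K)).IsPrime :=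
    RingHom.ker_isPrime _
  refine ((genA_tfae hprime).out 0 2).1 ?_
  rintro ⟨L, _, _, m, P, h1, h2, h3⟩
  have hL0 : CharZero L := charZero_of_injective_algebraMap (algebraMap ℂ L).injective
  -- the two points satisfy the same relations
  have key : ∀ F : MvPolynomial (Fin ν) ℂ, aeval (vr α Q y) F = 0 ↔ aeval (G1aux.phi m P) F = 0 := by
    intro F
    rw [G1aux.phi_iff]
    constructor
    · intro hF t ht
      exact h1 t ht F hF
    · intro hF
      by_contra hcon
      exact h2 F hcon (hF 1 one_ne_zero)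
  obtain ⟨φ, hφ⟩ : ∃ φ : Fin ν → RatFunc L, φ = G1aux.phi m P := ⟨_, rfl⟩
  rw [← hφ] at key
  have hφP : ∀ t, φ t * RatFunc.X ^ m = algebraMap (Polynomial L) (RatFunc L) (P t) := by
    intro t
    rw [hφ]
    exact div_mul_cancel₀ _ (pow_ne_zero _ RatFunc.X_ne_zero)
  have hD : y l ^ (q - 1) / aeval y Q ≠ 0 := div_ne_zero (pow_ne_zero _ hl) hoff
  -- the values of the coordinates of the generic point
  have hvr : ∀ i, vr α Q y (c i) = y l ^ (q - 1) / aeval y Q * y i := by
    intro i
    have := aeval_vr (Q := Q) hq hc (x := y) (isHomogeneous_X ℂ i)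
    rw [rename_X, aeval_X, aeval_X, pow_one] at this
    exact this
  have hcl : φ (c l) ≠ 0 := by
    intro h0
    have := (key (X (c l))).2 (by rw [aeval_X, h0])
    rw [aeval_X, hvr] at this
    exact mul_ne_zero hD hl this
  -- the relation for `Q`
  have hyq : y l ^ (q - 1) * y l = y l ^ q := by
    rw [← pow_succ]
    congr 1
    omega
  have rQ : aeval (fun i => φ (c i)) Q = φ (c l) ^ (q - 1) := by
    have e1 := (key (rename c Q - X (c l) ^ (q - 1))).1 (by
      rw [map_sub, aeval_vr hq hc hQ, map_pow, aeval_X, hvr, sub_eq_zero]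
      obtain ⟨r, rfl⟩ : ∃ r, q = r + 1 := ⟨q - 1, by omega⟩
      rw [Nat.add_sub_cancel]
      exact G1aux.alg _ _ hoff r)
    rw [map_sub, aeval_rename, map_pow, aeval_X, sub_eq_zero] at e1
    exact e1
  have rM : ∀ t, ∏ i, φ (c i) ^ α t i = φ (c l) ^ (q - 1) * φ t := by
    intro t
    have e1 := (key (∏ i, X (c i) ^ α t i - X (c l) ^ (q - 1) * X t)).1 (by
      rw [map_sub, map_prod, map_mul, map_pow, aeval_X, aeval_X, sub_eq_zero]
      have e2 : ∏ i, aeval (vr α Q y) (X (c i) ^ α t i : MvPolynomial (Fin ν) ℂ) =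
          ∏ i, (y l ^ (q - 1) / aeval y Q * y i) ^ α t i := by
        refine Finset.prod_congr rfl fun i _ => ?_
        rw [map_pow, aeval_X, hvr]
      rw [e2, G1aux.prod_scale (α t) (hα.1 t), hvr]
      change _ = _ * ((∏ i, y i ^ α t i) / aeval y Q)
      obtain ⟨r, rfl⟩ : ∃ r, q = r + 1 := ⟨q - 1, by omega⟩
      rw [Nat.add_sub_cancel, ← G1aux.alg _ _ hoff r, mul_assoc, mul_div_cancel₀ _ hoff])
    rw [map_sub, map_prod, map_mul, map_pow, aeval_X, aeval_X, sub_eq_zero] at e1
    rw [← e1]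
    refine Finset.prod_congr rfl fun i _ => ?_
    rw [map_pow, aeval_X]
  obtain ⟨v, hv⟩ : ∃ v : Fin (n + 1) → RatFunc L, v = fun i => (φ (c l))⁻¹ * φ (c i) := ⟨_, rfl⟩
  have hvl : v l = 1 := by rw [hv]; exact inv_mul_cancel₀ hcl
  have hpq : φ (c l) ^ q = φ (c l) ^ (q - 1) * φ (c l) := by
    rw [← pow_succ]
    congr 1
    omega
  have hvQ : aeval v Q * φ (c l) = 1 := by
    rw [hv, Pool.Agent.Y988.IL.hom_smul hQ, rQ, inv_pow, mul_assoc, ← hpq]
    exact inv_mul_cancel₀ (pow_ne_zero _ hcl)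
  have hvM : ∀ t, (∏ i, v i ^ α t i) * φ (c l) = φ t := by
    intro t
    rw [hv, G1aux.prod_scale (α t) (hα.1 t), rM t, inv_pow, mul_assoc, mul_comm (_ * φ t), ← mul_assoc,
      ← mul_assoc]
    rw [mul_assoc ((φ (c l) ^ q)⁻¹), mul_comm (φ (c l)), ← hpq,
      inv_mul_cancel₀ (pow_ne_zero _ hcl), one_mul]
  obtain ⟨P', g, hg, hP', hbd⟩ := Pool.Agent.Y988.IL.t_LOGP n q Q hq hQ L v (φ (c l)) l hvl hvQ
    (fun β hβ => by
      obtain ⟨t, rfl⟩ := hα.2 β hβ
      exact ⟨P t, m, by rw [hvM t, hφP]⟩)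
  -- forms
  have hform : ∀ (d : ℕ) (G : MvPolynomial (Fin (n + 1)) ℂ), G.IsHomogeneous d →
      (aeval y G = 0 ↔ aeval P' G = 0) := by
    intro d G hG
    have e1 : algebraMap (Polynomial L) (RatFunc L) (aeval P' G) =
        g ^ d * ((φ (c l))⁻¹ ^ d * aeval (fun i => φ (c i)) G) := by
      have e2 : algebraMap (Polynomial L) (RatFunc L) (aeval P' G) =
          aeval (fun j => algebraMap (Polynomial L) (RatFunc L) (P' j)) G :=
        MvPolynomial.comp_aeval_apply (f := P')
          (IsScalarTower.toAlgHom ℂ (Polynomial L) (RatFunc L)) G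
      rw [e2, funext hP', Pool.Agent.Y988.IL.hom_smul hG, hv, Pool.Agent.Y988.IL.hom_smul hG]
    have e3 := key (rename c G)
    rw [aeval_vr hq hc hG, aeval_rename, mul_eq_zero, or_iff_right (pow_ne_zero _ hD)] at e3
    rw [e3, ← map_eq_zero_iff _ (RatFunc.algebraMap_injective L), e1, mul_eq_zero,
      or_iff_right (pow_ne_zero _ hg), mul_eq_zero,
      or_iff_right (pow_ne_zero _ (inv_ne_zero hcl))]
    exact Iff.rfl
  -- the Wronskian
  have hw : ∃ j k, Polynomial.derivative (P' j) * P' k ≠ P' j * Polynomial.derivative (P' k) := by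
    by_contra hcon
    push Not at hcon
    have hPl : algebraMap (Polynomial L) (RatFunc L) (P' l) = g := by rw [hP', hvl, mul_one]
    have hPl0 : P' l ≠ 0 := by
      intro h0
      rw [h0, map_zero] at hPl
      exact hg hPl.symm
    choose κ hκ using fun j => Pool.Agent.Y377.IL.prop_of_wronskian hPl0 (hcon j l)
    have hvκ : v = fun j => algebraMap L (RatFunc L) (κ j) := by
      funext j
      have e1 := hP' j
      rw [hκ j, map_mul, hPl] at e1
      have e2 : algebraMap (Polynomial L) (RatFunc L) (Polynomial.C (κ j)) =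
          algebraMap L (RatFunc L) (κ j) := rfl
      rw [e2, mul_comm] at e1
      exact (mul_left_cancel₀ hg e1).symm
    have hQκ : aeval v Q = algebraMap L (RatFunc L) (aeval κ Q) := by
      rw [hvκ]
      exact (MvPolynomial.comp_aeval_apply (f := κ)
        (IsScalarTower.toAlgHom ℂ L (RatFunc L)) Q).symm
    have hQ0 : aeval κ Q ≠ 0 := by
      intro h0
      rw [hQκ, h0, map_zero, zero_mul] at hvQ
      exact zero_ne_one hvQ
    have hwκ : φ (c l) = algebraMap L (RatFunc L) (aeval κ Q)⁻¹ := by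
      rw [map_inv₀, ← hQκ]
      exact eq_inv_of_mul_eq_one_right hvQ
    have hφκ : ∀ t, ∃ a : L, φ t = algebraMap L (RatFunc L) a := by
      intro t
      refine ⟨(∏ i, κ i ^ α t i) * (aeval κ Q)⁻¹, ?_⟩
      rw [← hvM t, map_mul, ← hwκ, map_prod, hvκ]
      simp only [map_pow]
    choose a ha using hφκ
    have hPa : ∀ t, P t = Polynomial.C (a t) * Polynomial.X ^ m := by
      intro t
      apply RatFunc.algebraMap_injective L
      rw [← hφP, ha, map_mul, map_pow, RatFunc.algebraMap_X]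
      rfl
    obtain ⟨s, t, hs, ht, hst⟩ := h3
    apply hst
    have hlp : ∀ u : L, u ≠ 0 → Pool.Agent.Q1.SL.lpt m P u = a := by
      intro u hu
      funext j
      change (P j).eval u / u ^ m = a j
      rw [hPa, Polynomial.eval_mul, Polynomial.eval_C, Polynomial.eval_pow, Polynomial.eval_X]
      exact mul_div_cancel_right₀ _ (pow_ne_zero _ hu)
    rw [hlp s hs, hlp t ht]
  refine Pool.Agent.Helper4K9.IP.not_lgt hQ hy hgen hdim P' (fun G hG => ?_) hbd hw hL
  obtain ⟨d, hd⟩ := hG
  exact hform d G hd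

end Pool.Agent.H917.Lg
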