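import Pool.Agent.H917.D4

/-!
# PROJECT LOG (helper917), task S1: specialization of linear systems in affine coordinates

Proof by helper686, adapted from `exists_spec` in `Pool/Agent/H917/D3.lean` and `curve_of_spec` in `D4.lean`.
-/

set_option autoImplicit false
set_option linter.overlappingInstances false
set_option linter.unusedSectionVars false

open MvPolynomial Set Filter Topology

namespace Pool.Agent.H917.Lg

open Pool.Agent.Q139.EG Pool.Agent.Y377.ST

namespace S1aux

/-- the variables: the matrix, the coefficients and the solution of a linear system -/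
abbrev Va (ν r : ℕ) : Type := (Fin r × Fin r) ⊕ ((Fin ν × Fin r) ⊕ Fin r)

/-- the linear vector field -/
noncomputable def lva (ν r : ℕ) :
    Derivation ℂ (MvPolynomial (Va ν r) ℂ) (MvPolynomial (Va ν r) ℂ) :=
  mkDerivation ℂ (Sum.elim (fun _ => 0) (Sum.elim (fun _ => 0)
    fun i => ∑ j, X (Sum.inl (i, j)) * X (Sum.inr (Sum.inr j))))

/-- the coordinates of the curve given by a linear system -/
noncomputable def gca (ν r : ℕ) (i : Fin ν) : MvPolynomial (Va ν r) ℂ :=
  ∑ j, X (Sum.inr (Sum.inl (i, j))) * X (Sum.inr (Sum.inr j))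

theorem spec {M : Type} [Field M] [Algebra ℂ M] (D : Derivation ℂ M M) {r ν : ℕ}
    {h : Fin r → M} {A : Fin r → Fin r → M} {b : Fin ν → Fin r → M} (hA : ∀ i j, D (A i j) = 0)
    (hb : ∀ t j, D (b t j) = 0) (hh : ∀ i, D (h i) = ∑ j, A i j * h j) {β : Fin ν → M}
    (hβ : ∀ t, β t = ∑ j, b t j * h j) {G : MvPolynomial (Fin ν) ℂ} (hG : aeval β G ≠ 0)
    {t0 : Fin ν} (ht : D (β t0) ≠ 0) :
    ∃ ζ : Va ν r → ℂ, (∀ H : MvPolynomial (Fin ν) ℂ, aeval β H = 0 →
        ∀ k, eval ζ ((lva ν r)^[k] (aeval (gca ν r) H)) = 0) ∧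
      eval ζ (aeval (gca ν r) G) ≠ 0 ∧ eval ζ (lva ν r (gca ν r t0)) ≠ 0 := by
  classical
  obtain ⟨ev, hev⟩ : ∃ ev : MvPolynomial (Va ν r) ℂ →ₐ[ℂ] M, ev = aeval
      (Sum.elim (fun ij => A ij.1 ij.2) (Sum.elim (fun ij => b ij.1 ij.2) h)) := ⟨_, rfl⟩
  have hevA : ∀ i j, ev (X (Sum.inl (i, j))) = A i j := by
    intro i j
    rw [hev, aeval_X]
    rfl
  have hevb : ∀ i j, ev (X (Sum.inr (Sum.inl (i, j)))) = b i j := by
    intro i j
    rw [hev, aeval_X]
    rfl
  have hevh : ∀ i, ev (X (Sum.inr (Sum.inr i))) = h i := by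
    intro i
    rw [hev, aeval_X]
    rfl
  have hlv : ∀ i, lva ν r (X (Sum.inr (Sum.inr i))) =
      ∑ j, X (Sum.inl (i, j)) * X (Sum.inr (Sum.inr j)) := by
    intro i
    rw [lva, mkDerivation_X]
    rfl
  have hcomm : ∀ P, D (ev P) = ev (lva ν r P) := by
    intro P
    induction P using MvPolynomial.induction_on with
    | C a =>
      rw [← algebraMap_eq, AlgHom.commutes, Derivation.map_algebraMap, Derivation.map_algebraMap,
        map_zero]
    | add p q hp hq => rw [map_add, map_add, hp, hq, map_add, map_add]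
    | mul_X p v hp =>
      have hgen : D (ev (X v)) = ev (lva ν r (X v)) := by
        rcases v with ⟨i, j⟩ | ⟨i, j⟩ | i
        · rw [hevA, hA, lva, mkDerivation_X, Sum.elim_inl, map_zero]
        · rw [hevb, hb, lva, mkDerivation_X, Sum.elim_inr, Sum.elim_inl, map_zero]
        · rw [hevh, hlv, hh, map_sum]
          simp only [map_mul, hevA, hevh]
      rw [map_mul, D.leibniz, Derivation.leibniz, map_add, hp, hgen]
      simp only [smul_eq_mul, map_mul]
  have hgca : ∀ i, ev (gca ν r i) = β i := by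
    intro i
    rw [gca, map_sum, hβ]
    refine Finset.sum_congr rfl fun j _ => ?_
    rw [map_mul, hevb, hevh]
  have hform : ∀ (H : MvPolynomial (Fin ν) ℂ), ev (aeval (gca ν r) H) = aeval β H := by
    intro H
    rw [comp_aeval_apply]
    have h1 : (fun i => ev (gca ν r i)) = β := funext hgca
    rw [h1]
  have hPk : ∀ H : MvPolynomial (Fin ν) ℂ, aeval β H = 0 →
      ∀ k, ev ((lva ν r)^[k] (aeval (gca ν r) H)) = 0 := by
    intro H hH k
    induction k with
    | zero =>
      rw [Function.iterate_zero, id, hform]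
      exact hH
    | succ k ih => rw [Function.iterate_succ_apply', ← hcomm, ih, map_zero]
  have hGe : ev (aeval (gca ν r) G) ≠ 0 := by
    rw [hform]
    exact hG
  have hWe : ev (lva ν r (gca ν r t0)) ≠ 0 := by
    rw [← hcomm, hgca]
    exact ht
  obtain ⟨P, hPd⟩ : ∃ P : Ideal (MvPolynomial (Va ν r) ℂ), P = RingHom.ker ev := ⟨_, rfl⟩
  have hPp : P.IsPrime := by
    rw [hPd]
    exact RingHom.ker_isPrime _
  obtain ⟨g, hg⟩ : ∃ g, g = aeval (gca ν r) G * lva ν r (gca ν r t0) := ⟨_, rfl⟩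
  have hgP : g ∉ P := by
    rw [hPd, RingHom.mem_ker, hg, map_mul]
    exact mul_ne_zero hGe hWe
  obtain ⟨ζ, hζ, hζg⟩ : ∃ ζ : Va ν r → ℂ, (∀ Q ∈ P, aeval ζ Q = 0) ∧ aeval ζ g ≠ 0 := by
    by_contra hcon
    push Not at hcon
    apply hgP
    rw [← hPp.radical, ← vanishingIdeal_zeroLocus_eq_radical (K := ℂ), mem_vanishingIdeal_iff]
    intro ζ hζ
    rw [mem_zeroLocus_iff] at hζ
    exact hcon ζ hζ
  rw [ae, hg, map_mul] at hζg
  refine ⟨ζ, fun H hH k => ?_, left_ne_zero_of_mul hζg, right_ne_zero_of_mul hζg⟩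
  rw [← ae]
  refine hζ _ ?_
  rw [hPd, RingHom.mem_ker]
  exact hPk H hH k

/-- the curve given by a linear system with constant coefficients -/
theorem curve {r ν : ℕ} {S : Set (MvPolynomial (Fin ν) ℂ)} {ζ : Va ν r → ℂ}
    (hζ : ∀ H ∈ S, ∀ k, eval ζ ((lva ν r)^[k] (aeval (gca ν r) H)) = 0) :
    ∃ f : ℂ → Fin ν → ℂ, MVec univ cst 1 r 1 f ∧ (∀ t, Differentiable ℂ fun z => f z t) ∧
      (∀ H ∈ S, ∀ z, eval (f z) H = 0) ∧
      (∀ i, f 0 i = eval ζ (gca ν r i)) ∧
      ∀ i, HasDerivAt (fun z => f z i) (eval ζ (lva ν r (gca ν r i))) 0 := by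
  classical
  obtain ⟨A, hA⟩ : ∃ A : Matrix (Fin r) (Fin r) ℂ, A = Matrix.of fun i j => ζ (Sum.inl (i, j)) :=
    ⟨_, rfl⟩
  obtain ⟨X', Y', hX0, hXY, hX, hY⟩ := exists_exp A
  let F : ℂ → Fin r → ℂ := fun z i => ∑ k, X' z i k * ζ (Sum.inr (Sum.inr k))
  let Z : ℂ → Va ν r → ℂ := fun z => Sum.elim (fun v => ζ (Sum.inl v))
    (Sum.elim (fun v => ζ (Sum.inr (Sum.inl v))) (F z))
  have hF0 : ∀ i, F 0 i = ζ (Sum.inr (Sum.inr i)) := by
    intro i
    change ∑ k, X' 0 i k * ζ (Sum.inr (Sum.inr k)) = _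
    rw [hX0, Finset.sum_eq_single i]
    · rw [Matrix.one_apply_eq, one_mul]
    · intro b _ hb
      rw [Matrix.one_apply_ne hb.symm, zero_mul]
    · intro h
      exact absurd (Finset.mem_univ _) h
  have hZ0 : Z 0 = ζ := by
    funext v
    rcases v with v | v | v
    · rfl
    · rfl
    · exact hF0 v
  have hF : ∀ z i, HasDerivAt (fun w => F w i) (∑ j, ζ (Sum.inl (i, j)) * F z j) z := by
    intro z i
    have h1 : HasDerivAt (fun w => F w i)
        (∑ k, (∑ j, A i j * X' z j k) * ζ (Sum.inr (Sum.inr k))) z := by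
      change HasDerivAt (fun w => ∑ k, X' w i k * ζ (Sum.inr (Sum.inr k))) _ z
      exact HasDerivAt.fun_sum fun k _ => (hX z i k).mul_const _
    have h2 : ∑ k, (∑ j, A i j * X' z j k) * ζ (Sum.inr (Sum.inr k)) =
        ∑ j, ζ (Sum.inl (i, j)) * F z j := by
      change _ = ∑ j, ζ (Sum.inl (i, j)) * (∑ k, X' z j k * ζ (Sum.inr (Sum.inr k)))
      simp only [Finset.sum_mul, Finset.mul_sum]
      rw [Finset.sum_comm]
      refine Finset.sum_congr rfl fun k _ => Finset.sum_congr rfl fun j _ => ?_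
      rw [hA, Matrix.of_apply]
      ring
    rw [← h2]
    exact h1
  have hZ : ∀ (P : MvPolynomial (Va ν r) ℂ) (z : ℂ),
      HasDerivAt (fun w => eval (Z w) P) (eval (Z z) (lva ν r P)) z := by
    intro P z
    induction P using MvPolynomial.induction_on with
    | C a =>
      have h1 : lva ν r (C a) = 0 := by
        rw [← algebraMap_eq, Derivation.map_algebraMap]
      rw [h1, map_zero]
      simp only [eval_C]
      exact hasDerivAt_const z a
    | add p q hp hq =>
      simp only [map_add]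
      exact hp.add hq
    | mul_X p v hp =>
      have hgen : HasDerivAt (fun w => Z w v) (eval (Z z) (lva ν r (X v))) z := by
        rw [lva, mkDerivation_X]
        rcases v with v | v | i
        · rw [Sum.elim_inl, map_zero]
          exact hasDerivAt_const z _
        · rw [Sum.elim_inr, Sum.elim_inl, map_zero]
          exact hasDerivAt_const z _
        · rw [Sum.elim_inr, Sum.elim_inr, map_sum]
          simp only [map_mul, eval_X]
          exact hF z i
      have h1 := hp.mul hgen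
      simp only [map_mul, eval_X]
      rw [Derivation.leibniz, map_add]
      simp only [smul_eq_mul, map_mul, eval_X]
      refine h1.congr_deriv ?_
      ring
  let f : ℂ → Fin ν → ℂ := fun z i => eval (Z z) (gca ν r i)
  have hfd : ∀ P : MvPolynomial (Va ν r) ℂ, Differentiable ℂ fun z => eval (Z z) P :=
    fun P z => (hZ P z).differentiableAt
  refine ⟨f, ?_, fun t => hfd (gca ν r t), fun H hH z => ?_, fun i => ?_, fun i => ?_⟩
  · refine ⟨fun _ => X', fun _ => Y', ⟨fun _ i j z _ => ?_, fun _ i j z _ => ?_,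
      fun _ z _ => hXY z, fun l i j => ?_⟩, fun j => ?_⟩
    · exact Differentiable.analyticAt (fun w => (hX w i j).differentiableAt) z
    · exact Differentiable.analyticAt (hY i j) z
    · refine ⟨fun m _ => if m = 0 then A i j else 0, fun m => ⟨_, rfl⟩, fun z _ => ?_⟩
      rw [pev_const']
      have h1 : ∀ k, deriv (fun w => X' w i k) z = (A * X' z) i k := by
        intro k
        rw [(hX z i k).deriv, Matrix.mul_apply]
      change ∑ k, deriv (fun w => X' w i k) z * Y' z k j = _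
      rw [Finset.sum_congr rfl fun k _ => by rw [h1 k], ← Matrix.mul_apply, Matrix.mul_assoc, hXY,
        Matrix.mul_one]
    · obtain ⟨c, hc⟩ := pev_lin' (L := ℂ) (ι := Ix 1 r) (κ := Fin r × Fin r)
        (fun t => ζ (Sum.inr (Sum.inl (j, t.1))) * ζ (Sum.inr (Sum.inr t.2)))
        (fun t => (0, true, t.1, t.2))
      refine ⟨fun m _ => c m, fun m => ⟨_, rfl⟩, fun z _ => ?_⟩
      have h1 := hc (entries (fun _ => X') (fun _ => Y') z)
      rw [← h1]
      change eval (Z z) (gca ν r j) = _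
      rw [gca, map_sum, Fintype.sum_prod_type]
      refine Finset.sum_congr rfl fun k _ => ?_
      rw [map_mul, eval_X, eval_X]
      change ζ (Sum.inr (Sum.inl (j, k))) * (∑ l, X' z k l * ζ (Sum.inr (Sum.inr l))) = _
      rw [Finset.mul_sum]
      refine Finset.sum_congr rfl fun l _ => ?_
      change _ = ζ (Sum.inr (Sum.inl (j, k))) * ζ (Sum.inr (Sum.inr l)) * X' z k l
      ring
  · have h1 : ∀ k, iteratedDeriv k (fun w => eval (Z w) (aeval (gca ν r) H)) =
        fun w => eval (Z w) ((lva ν r)^[k] (aeval (gca ν r) H)) := by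
      intro k
      induction k with
      | zero => rw [iteratedDeriv_zero]; rfl
      | succ k ih =>
        rw [iteratedDeriv_succ, ih]
        funext w
        rw [Function.iterate_succ_apply']
        exact (hZ _ w).deriv
    have h2 := Complex.taylorSeries_eq_of_entire' 0 z (hfd (aeval (gca ν r) H))
    have h3 : (fun k : ℕ => ((k.factorial : ℂ))⁻¹ *
        iteratedDeriv k (fun w => eval (Z w) (aeval (gca ν r) H)) 0 * (z - 0) ^ k) = fun _ => 0 := by
      funext k
      rw [h1 k]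
      change _ * eval (Z 0) _ * _ = 0
      rw [hZ0, hζ H hH k, mul_zero, zero_mul]
    rw [h3, tsum_zero] at h2
    have h4 : eval (Z z) (aeval (gca ν r) H) = eval (f z) H := by
      have h5 : ∀ P : MvPolynomial (Va ν r) ℂ, (aeval (Z z) : MvPolynomial (Va ν r) ℂ →ₐ[ℂ] ℂ) P =
        eval (Z z) P := fun P => ae (Z z) P
      have h6 : (fun i => (aeval (Z z) : MvPolynomial (Va ν r) ℂ →ₐ[ℂ] ℂ) (gca ν r i)) = f z :=
        funext fun i => h5 _
      rw [← h5, comp_aeval_apply, h6, ae]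
    rw [← h4]
    exact h2.symm
  · change eval (Z 0) (gca ν r i) = _
    rw [hZ0]
  · have h1 := hZ (gca ν r i) 0
    rw [hZ0] at h1
    exact h1

end S1aux

theorem exists_specA {M : Type} [Field M] [Algebra ℂ M] (D : Derivation ℂ M M) {r ν : ℕ}
    {h : Fin r → M} {A : Fin r → Fin r → M} {b : Fin ν → Fin r → M} (hA : ∀ i j, D (A i j) = 0)
    (hb : ∀ t j, D (b t j) = 0) (hh : ∀ i, D (h i) = ∑ j, A i j * h j) {β : Fin ν → M}
    (hβ : ∀ t, β t = ∑ j, b t j * h j) {G : MvPolynomial (Fin ν) ℂ} (hG : aeval β G ≠ 0)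
    {t0 : Fin ν} (ht : D (β t0) ≠ 0) :
    ∃ f : ℂ → Fin ν → ℂ, MVec univ cst 1 r 1 f ∧ (∀ t, Differentiable ℂ fun z => f z t) ∧
      (∀ H : MvPolynomial (Fin ν) ℂ, aeval β H = 0 → ∀ z, eval (f z) H = 0) ∧
      eval (f 0) G ≠ 0 ∧ ∃ z w, f z t0 ≠ f w t0 := by
  obtain ⟨ζ, h1, h2, h3⟩ := S1aux.spec D hA hb hh hβ hG ht
  obtain ⟨f, f1, f2, f3, f4, f5⟩ := S1aux.curve
    (S := {H : MvPolynomial (Fin ν) ℂ | aeval β H = 0}) (ζ := ζ) h1
  refine ⟨f, f1, f2, f3, ?_, ?_⟩
  · have h5 : ∀ P : MvPolynomial (S1aux.Va ν r) ℂ,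
      (aeval ζ : MvPolynomial (S1aux.Va ν r) ℂ →ₐ[ℂ] ℂ) P = eval ζ P := fun P => ae ζ P
    have h6 : (fun i => (aeval ζ : MvPolynomial (S1aux.Va ν r) ℂ →ₐ[ℂ] ℂ) (S1aux.gca ν r i)) = f 0 :=
      funext fun i => (h5 _).trans (f4 i).symm
    rw [← h5, comp_aeval_apply, h6, ae] at h2
    exact h2
  · by_contra hcon
    push Not at hcon
    have h4 : (fun z => f z t0) = fun _ => f 0 t0 := funext fun z => hcon z 0
    have h5 := f5 t0
    rw [h4] at h5
    exact h3 (h5.unique (hasDerivAt_const (0 : ℂ) (f 0 t0)))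

end Pool.Agent.H917.Lg
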