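import Pool.Agent.H917.L.K1
import Pool.Agent.H917.L.L5
import Pool.Agent.H917.L.S1
import Pool.Agent.H917.L.U1
import Pool.Agent.H917.L.G1

/-!
# PROJECT LOG (helper917), task V2 (exists_formL): curves through general points of subvarieties which are not of log general type; hypersurfaces containing them

## Paper proof
`curve_of_nlgt`: let `M = AlgebraicClosure K`, `x = algebraMap y`. `key_NL` gives a derivation `D` of `M` with `D (value) = 0` for all values of the `s l` at `(x, D x)`, not all zero. So `D (x i / x j) ≠ 0` for some `i, j` (`val_constL`).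
Apply `linSysA_amb` with `C = consts D` (`mem_consts`, as in the proof of `exists_form` in `Pool/Agent/H917/D5.lean`): `h`, `A`, and for each `t : Fin ν` (choice) `b t` with `vr α Q x t = ∑ j b t j h j`. Some
`D (vr α Q x t0) ≠ 0`: otherwise all ratios `x i / x j = vr(..) / vr(..)` (with exponents `e_i + (q-1) e_j` and `q e_j`) would be constants. Apply `exists_specA` with `β = vr α Q x`.
(`aeval (vr α Q x) H = algebraMap (aeval (vr α Q y) H)`.)
`exists_formL` (port of `exists_form` in D5): suppose not. Then for all forms `G ∉ p` there are `F, x` as in the statement with `aeval x G ≠ 0`, and `key_NL` for `AlgebraicClosure F` gives the hypothesis of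
`exists_ultraL`. So there are `M, D, x` with `x` generic for `p`. As above (`val_constL`, `linSysA_amb` with `C = consts D`) one gets `h, A, b` and `t0` with `β = vr α Q x`, `D (β t0) ≠ 0`. Let `r` be the size of `h`.
`gen_of_lgt` for the generic point `y` of `p` and `(s, r, e) = (1, r, 1)` gives `G ∉ ker (aeval (vr α Q y))` and `d`. As `x` is a generic point as well, `aeval β G ≠ 0` (`ker (aeval (vr α Q x)) = ker (aeval (vr α Q y))`: a
polynomial in `x ^ α / Q(x)`, multiplied by a power of `Q(x)`, is the value at `x` of a form, after making the summands homogeneous of the same degree with further factors `Q`; forms vanish at `x` iff they are in `p` iff they vanish at `y`).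
`exists_specA` gives `f : ℂ → Fin ν → ℂ` in `MVec univ cst 1 r 1`, satisfying the relations `ker (aeval (vr α Q y))`, with `eval (f 0) G ≠ 0` and `f · t0` not constant. By `GenDegA` (with `Ω = univ`, `M = cst`, `cst_ring`)
all `f · u` are algebraic over the constants (`AlgM univ cst d (f · u) 1`), so continuous functions with values in a finite set, constant (compare `alg_const` in D5); a contradiction.
-/

set_option autoImplicit false
set_option linter.overlappingInstances false
set_option linter.unusedSectionVars false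

open MvPolynomial Metric Set Filter Topology

namespace Pool.Agent.H917.Lg

open Pool.Agent.W602.GT (IsForm LogGeneralType coords consts mem_consts)
open Pool.Agent.W603.GR (OffQ)
open Pool.Agent.Q139.EG Pool.Agent.Y377.ST
open Pool.Agent.TH143.GT (FunField)

variable {n : ℕ} {p : Ideal (MvPolynomial (Fin (n + 1)) ℂ)} {Q : MvPolynomial (Fin (n + 1)) ℂ}
  {B : Fin (n + 1) → Finset (Fin (n + 1))}

namespace V2aux

/-- clearing the denominators of a polynomial in the affine coordinates -/
theorem clear {q : ℕ} (hQ : Q.IsHomogeneous q) {ν : ℕ} {α : Fin ν → (Fin (n + 1) →₀ ℕ)}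
    (hα : ∀ t, ∑ i, α t i = q) (H : MvPolynomial (Fin ν) ℂ) :
    ∃ (d : ℕ) (H' : MvPolynomial (Fin (n + 1)) ℂ), H'.IsHomogeneous (d * q) ∧
      ∀ (R : Type) [Field R] [Algebra ℂ R] (z : Fin (n + 1) → R), aeval z Q ≠ 0 →
        aeval z H' = aeval z Q ^ d * aeval (vr α Q z) H := by
  induction H using MvPolynomial.induction_on with
  | C a =>
    refine ⟨0, C a, ?_, fun R _ _ z _ => ?_⟩
    · rw [zero_mul]
      exact isHomogeneous_C _ a
    · rw [pow_zero, one_mul, aeval_C, aeval_C]
  | add H₁ H₂ h₁ h₂ =>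
    obtain ⟨d₁, H₁', hd₁, hz₁⟩ := h₁
    obtain ⟨d₂, H₂', hd₂, hz₂⟩ := h₂
    refine ⟨d₁ + d₂, Q ^ d₂ * H₁' + Q ^ d₁ * H₂', ?_, fun R _ _ z hz => ?_⟩
    · have e1 : (d₁ + d₂) * q = q * d₂ + d₁ * q := by ring
      have e2 : (d₁ + d₂) * q = q * d₁ + d₂ * q := by ring
      refine IsHomogeneous.add ?_ ?_
      · rw [e1]
        exact (hQ.pow d₂).mul hd₁
      · rw [e2]
        exact (hQ.pow d₁).mul hd₂
    · rw [map_add, map_mul, map_mul, map_pow, map_pow, hz₁ R z hz, hz₂ R z hz, map_add, pow_add]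
      ring
  | mul_X H₁ t h₁ =>
    obtain ⟨d₁, H₁', hd₁, hz₁⟩ := h₁
    refine ⟨d₁ + 1, H₁' * monomial (α t) 1, ?_, fun R _ _ z hz => ?_⟩
    · rw [add_mul, one_mul]
      refine hd₁.mul (isHomogeneous_monomial 1 ?_)
      rw [Finsupp.degree_eq_sum]
      exact hα t
    · rw [map_mul, hz₁ R z hz, map_mul, aeval_X, aeval_monomial, map_one, one_mul]
      have h3 : (α t).prod (fun i k => z i ^ k) = ∏ i, z i ^ α t i :=
        Finsupp.prod_fintype _ _ fun i => pow_zero _
      have h4 : vr α Q z t = (∏ i, z i ^ α t i) / aeval z Q := rfl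
      rw [h3, h4]
      field_simp
      ring

/-- the affine coordinates of two generic points satisfy the same relations -/
theorem ker_eq {q : ℕ} (hQ : Q.IsHomogeneous q) {ν : ℕ} {α : Fin ν → (Fin (n + 1) →₀ ℕ)}
    (hα : ∀ t, ∑ i, α t i = q) {K M : Type} [Field K] [Algebra ℂ K] [Field M] [Algebra ℂ M]
    {y : Fin (n + 1) → K} {x : Fin (n + 1) → M} (hyQ : aeval y Q ≠ 0) (hxQ : aeval x Q ≠ 0)
    (h : ∀ H' : MvPolynomial (Fin (n + 1)) ℂ, (∃ k, H'.IsHomogeneous k) →
      (aeval y H' = 0 ↔ aeval x H' = 0)) (H : MvPolynomial (Fin ν) ℂ) :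
    aeval (vr α Q y) H = 0 ↔ aeval (vr α Q x) H = 0 := by
  obtain ⟨d, H', hd, hz⟩ := clear hQ hα H
  have h1 := h H' ⟨_, hd⟩
  rw [hz K y hyQ, hz M x hxQ, mul_eq_zero, mul_eq_zero] at h1
  have h2 := pow_ne_zero d hyQ
  have h3 := pow_ne_zero d hxQ
  tauto

/-- affine coordinates with the exponents `e_i + (q - 1) e_l` -/
theorem vr_single {R : Type} [Field R] [Algebra ℂ R] {ν q : ℕ} {α : Fin ν → (Fin (n + 1) →₀ ℕ)}
    {t : Fin ν} {i l : Fin (n + 1)} (ht : α t = Finsupp.single i 1 + Finsupp.single l (q - 1))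
    (x : Fin (n + 1) → R) : vr α Q x t = x i * x l ^ (q - 1) / aeval x Q := by
  unfold vr
  rw [ht]
  congr 1
  simp only [Finsupp.add_apply, pow_add, Finset.prod_mul_distrib]
  congr 1
  · rw [Finset.prod_eq_single i]
    · rw [Finsupp.single_eq_same, pow_one]
    · intro j _ hj
      rw [Finsupp.single_eq_of_ne hj, pow_zero]
    · intro h
      exact absurd (Finset.mem_univ _) h
  · rw [Finset.prod_eq_single l]
    · rw [Finsupp.single_eq_same]
    · intro j _ hj
      rw [Finsupp.single_eq_of_ne hj, pow_zero]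
    · intro h
      exact absurd (Finset.mem_univ _) h

theorem exists_index {q : ℕ} (hq : 1 ≤ q) {ν : ℕ} {α : Fin ν → (Fin (n + 1) →₀ ℕ)}
    (hα : Enum q α) (i l : Fin (n + 1)) :
    ∃ t, α t = Finsupp.single i 1 + Finsupp.single l (q - 1) := by
  refine hα.2 _ ?_
  simp only [Finsupp.add_apply, Finset.sum_add_distrib]
  have h1 : ∀ (j : Fin (n + 1)) (k : ℕ), ∑ i', (Finsupp.single j k : Fin (n + 1) →₀ ℕ) i' = k := by
    intro j k
    rw [Finset.sum_eq_single j]
    · rw [Finsupp.single_eq_same]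
    · intro b _ hb
      exact Finsupp.single_eq_of_ne hb
    · intro h
      exact absurd (Finset.mem_univ _) h
  rw [h1, h1]
  omega

/-- a point with constant affine coordinates is constant -/
theorem exists_nonconst {q : ℕ} (hq : 1 ≤ q) {ν : ℕ} {α : Fin ν → (Fin (n + 1) →₀ ℕ)}
    (hα : Enum q α) {M : Type} [Field M] [Algebra ℂ M] (D : Derivation ℂ M M)
    {x : Fin (n + 1) → M} (hoff : aeval x Q ≠ 0) (hnc : ∃ i j, D (x i / x j) ≠ 0) :
    ∃ t, D (vr α Q x t) ≠ 0 := by
  by_contra hcon
  push Not at hcon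
  obtain ⟨i, j, hij⟩ := hnc
  have hj : x j ≠ 0 := by
    intro h0
    apply hij
    rw [h0, div_zero, map_zero]
  obtain ⟨a, ha⟩ := exists_index hq hα i j
  obtain ⟨b, hb⟩ := exists_index hq hα j j
  have h1 := hcon a
  have h2 := hcon b
  have e1 := vr_single (Q := Q) ha x
  have e2 := vr_single (Q := Q) hb x
  have hb0 : vr α Q x b ≠ 0 := by
    rw [e2]
    exact div_ne_zero (mul_ne_zero hj (pow_ne_zero _ hj)) hoff
  apply hij
  have e3 : x i / x j = vr α Q x a * (vr α Q x b)⁻¹ := by
    rw [e1, e2]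
    have h4 : x j ^ (q - 1) ≠ 0 := pow_ne_zero _ hj
    field_simp
  rw [e3, D.leibniz, D.leibniz_inv, h1, h2]
  simp

/-- entire functions which are algebraic over the constants are constant -/
theorem alg_const_entire {d : ℕ} {g : ℂ → ℂ} (hg : Differentiable ℂ g)
    (h : AlgM univ cst d g fun _ => 1) (z w : ℂ) : g z = g w := by
  classical
  obtain ⟨A, hA, ⟨k0, hk0, z1, -, hz1⟩, hrel⟩ := h
  choose a ha using hA
  obtain ⟨P, hP⟩ : ∃ P : Polynomial ℂ, P = ∑ k ∈ Finset.range (d + 1),
    Polynomial.monomial k (a k) := ⟨_, rfl⟩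
  have hP0 : P ≠ 0 := by
    intro h0
    have h1 := congrArg (fun Q : Polynomial ℂ => Q.coeff k0) h0
    simp only [hP, Polynomial.finsetSum_coeff, Polynomial.coeff_monomial, Polynomial.coeff_zero]
      at h1
    rw [Finset.sum_ite_eq', if_pos (Finset.mem_range.2 (by omega))] at h1
    apply hz1
    rw [ha k0]
    exact h1
  have hroot : ∀ z, g z ∈ P.roots.toFinset := by
    intro z
    rw [Multiset.mem_toFinset, Polynomial.mem_roots hP0, Polynomial.IsRoot, hP,
      Polynomial.eval_finsetSum, ← hrel z (mem_univ z)]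
    refine Finset.sum_congr rfl fun k _ => ?_
    rw [Polynomial.eval_monomial, ha k, one_pow, mul_one]
  refine hg.apply_eq_apply_of_bounded ?_ z w
  refine (P.roots.toFinset.finite_toSet.subset ?_).isBounded
  rintro _ ⟨z, rfl⟩
  exact hroot z

end V2aux

theorem exists_formL (hpp : p.IsPrime) (hp : Pool.Agent.W603.PV.IsHomog p) {q : ℕ} (hq : 1 ≤ q)
    (hQ : Q.IsHomogeneous q) (hB : Bdry p Q B) {m N : ℕ} {s : Fin N → LSymDiff p Q B m}
    (hs : LGens p Q B m s) (hm : 1 ≤ m) {K : Type} [Field K] [Algebra ℂ K] {w : ℕ}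
    {y : Fin (n + 1) → K} (hy : SubVarQ p Q K w y)
    (hf : ∀ H : MvPolynomial (Fin (n + 1)) ℂ, (∃ d, H.IsHomogeneous d) → aeval y H = 0 → H ∈ p)
    (hLG : LogGeneralType ℂ K w (OffQ Q q y)) :
    ∃ G : MvPolynomial (Fin (n + 1)) ℂ, (∃ k, G.IsHomogeneous k) ∧ G ∉ p ∧
      ∀ (F : Type) [Field F] [Algebra ℂ F] (d : ℕ) (x : Fin (n + 1) → F), 1 ≤ d →
        SubVarQ p Q F d x → ¬ LogGeneralType ℂ F d (OffQ Q q x) → aeval x G = 0 := by
  classical
  by_contra hcon
  push Not at hcon
  obtain ⟨M, i1, i2, D, x, hXp, hXG, hx0, hoff, hD, hval⟩ :=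
    exists_ultraL hpp hp hQ hB s fun G hG hGp => by
    obtain ⟨F, j1, j2, d, x, hd, hx, hngt, hxG⟩ := hcon G hG hGp
    obtain ⟨D, h1, l, h2⟩ := key_NL (M := AlgebraicClosure F) hp hQ hB hs hm hd hx.sub.ne
      hx.sub.mem hx.off hx.sub.gen hx.sub.dim hngt
    have hmemM : ∀ H : MvPolynomial (Fin (n + 1)) ℂ,
        aeval (fun i => algebraMap F (AlgebraicClosure F) (x i)) H =
        algebraMap F (AlgebraicClosure F) (aeval x H) := by
      intro H
      have h1 := aeval_algebraMap_apply (A := F) (AlgebraicClosure F) x H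
      have h2 : (algebraMap F (AlgebraicClosure F) ∘ x) =
        fun i => algebraMap F (AlgebraicClosure F) (x i) := rfl
      rw [← h2, h1]
    refine ⟨AlgebraicClosure F, inferInstance, inferInstance, D,
      fun i => algebraMap F (AlgebraicClosure F) (x i), fun H hH => ?_, ?_, ?_, ?_, h1, l, h2⟩
    · rw [hmemM, hx.sub.mem H hH, map_zero]
    · rw [hmemM]
      exact fun h => hxG ((map_eq_zero _).1 h)
    · intro h
      apply hx.sub.ne
      funext i
      exact (map_eq_zero _).1 (congrFun h i)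
    · rw [hmemM]
      exact fun h => hx.off ((map_eq_zero _).1 h)
  -- the point is not constant
  have hnc : ∃ i j, D (x i / x j) ≠ 0 := by
    by_contra hall
    push Not at hall
    obtain ⟨l, hl⟩ := hval
    exact hl (val_constL hp hQ hB hm (s l) D hx0 hXp hoff hall)
  obtain ⟨j1, hj1⟩ := Function.ne_iff.1 hx0
  have hj1 : x j1 ≠ 0 := hj1
  obtain ⟨r, h, A, hA, hh, hb⟩ := linSysA_amb D (consts D)
    (fun c hc => by
      rw [mem_consts] at hc ⊢
      rw [hc, map_zero]) hp hQ hB hs hm hj1 hXp hoff (fun l => mem_consts.2 (hD l)) hnc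
  obtain ⟨ν, α, hα⟩ := exists_enum n q
  choose b hbC hbe using fun t => hb (α t) (hα.1 t)
  obtain ⟨t0, ht0⟩ := V2aux.exists_nonconst hq hα D hoff hnc
  have hker : ∀ H : MvPolynomial (Fin ν) ℂ,
      aeval (vr α Q y) H = 0 ↔ aeval (vr α Q x) H = 0 := by
    refine V2aux.ker_eq hQ hα.1 hy.off hoff fun H' hH' => ?_
    constructor
    · intro h0
      exact hXp H' (hf H' hH' h0)
    · intro h0
      by_contra hne
      exact hXG H' hH' (fun hGp => hne (hy.sub.mem H' hGp)) h0
  obtain ⟨G, d, hG, hG1⟩ := gen_of_lgt hq hQ hα hy.sub.ne hy.off hy.sub.gen hy.sub.dim hLG 1 r 1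
  have hGx : aeval (vr α Q x) G ≠ 0 := by
    intro h0
    apply hG
    rw [RingHom.mem_ker]
    exact (hker G).2 h0
  obtain ⟨f, hfM, hfd, hfr, hf0, z, w', hzw⟩ := exists_specA D (fun i j => mem_consts.1 (hA i j))
    (fun t j => mem_consts.1 (hbC t j)) hh (β := vr α Q x) (fun t => hbe t) hGx ht0
  rcases hG1 univ isOpen_univ isPreconnected_univ cst cst_ring f hfM
    (fun z _ H hH => hfr H ((hker H).1 hH) z) with h1 | h1
  · exact hf0 (h1 0 (mem_univ _))
  · exact hzw (V2aux.alg_const_entire (hfd t0) (h1 t0) z w')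

end Pool.Agent.H917.Lg
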