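import Pool.Agent.H917.F3
import Pool.Agent.H917.L.V2

/-!
# PROJECT LOG (helper917), task F4 (tfae_lgt): the special sets

## Paper proof (ports of `spP_sub`, `spH_sub` in `Pool/Agent/H917/F1.lean`, of F3.lean and of `spMer_sub_spH` in `G/V2.lean`; copy those proofs)
* `spPQ_sub`, `spHQ_sub`: as in F1.lean, with `pcurve_lext`, `entire_not_lgt`; the generic point `y` of the curve (`GenPt`) has `aeval y Q ≠ 0` because `Q` is not zero on the curve.
* `spAlgQ_sub_spHQ`: let `x ∈ SpAlgQ`, `G` a form vanishing on all entire curves, suppose `aeval y G ≠ 0` for some `K, w, y` as in the definition. Let `α` be from `exists_enum n q`, choose `l` with `y l ≠ 0` and `c` with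
  `α (c i) = e_i + (q-1) e_l`, `G' = rename c G * X (c l)`; by `aeval_vr`, `aeval (vr α Q y) G' ≠ 0`. `curve_of_nlgt` gives `f`, `exists_homog` gives `F` (`hrel`: `mem_ker_vr` for `R = K`, `x = y`), an entire curve in `PtsQ p Q`; it is not constant because
  `vr α Q (F z) = f z` is not constant; and `eval (F 0) G ≠ 0` by `aeval_vr` (if `F 0 l = 0` then `f 0 (c l) = F_l^q / Q = 0`, which is excluded by the factor `X (c l)`). A contradiction.
* `spAlgQ_sub_spGmQ`: the same with `gm_of_curve`.
* `spAlgQ_sub_spPQ`: with the curve `F` of `spAlgQ_sub_spHQ`: `w ↦ F (exp (1 / w))`, which is not extendable: compare `Sl.puncCurve`, `Sl.not_extends`, `exists_off` in E9.lean. Here the curve `F` is only known to be entire, nonconstant, in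
  `PtsQ p Q`. Not extendable: if `w ↦ F (exp w⁻¹)` extends to `g` on the disc, then along `w_k = 1 / (ζ + 2 π i k)`, `k → ∞`, the points are all the point `F (exp ζ)`, so `g 0` is (proportional to) `F (exp ζ)` for all `ζ`: so `F` is constant on `ℂ \ {0}`, a
  contradiction. `G ≠ 0` at some point of the curve: `eval (F z) G` is not zero near `z = 0`, take `z = exp (1 / w)` with `|w| < 1`, `z` near `0`: `1 / w = log z + 2 π i k`, `|.| > 1` (`exists_off`).
* `spGmQ_sub_spHQ`: for a `GmCurve P` the curve `z ↦ (P i (exp z))_i` is an entire curve in the complement of `Q = 0`, not constant. (`q ≥ 1`: `Q(P(t)) ≠ 0` implies `P(t) ≠ 0`.)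
* `spHQ_sub_spMerQ` (`g = 1`, `Z = ∅`) and `spMerQ_sub_spHQ` (port of `spMer_sub_spH`).
* `tfae_lgt`: port of `tfae_gt` in F3.lean: `LogGeneralType` implies `SpAlgQ ≠ PtsQ` by `exists_formL` and a point of `PtsQ p Q` outside `G = 0` (`exists_pt` in F2 for the form `G * Q`); if not `LogGeneralType` and `1 ≤ w`, then `y` itself shows
  `SpAlgQ = PtsQ`; if `w = 0` then `LogGeneralType` holds (`gt_zero` in F2 and `log_of_gt'` in B4).
-/

set_option autoImplicit false
set_option linter.overlappingInstances false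
set_option linter.unusedSectionVars false

open MvPolynomial Metric Set MeasureTheory

namespace Pool.Agent.H917.Lg

open Pool.Agent.W602.GT (IsForm LogGeneralType coords)
open Pool.Agent.W603.GR (OffQ)
open Pool.Agent.H917.G (HolMap PE)

variable {n : ℕ} {p : Ideal (MvPolynomial (Fin (n + 1)) ℂ)} {Q : MvPolynomial (Fin (n + 1)) ℂ}
  {B : Fin (n + 1) → Finset (Fin (n + 1))}

theorem tfae_lgt (hpp : p.IsPrime) (hp : Pool.Agent.W603.PV.IsHomog p) {q : ℕ} (hq : 1 ≤ q)
    (hQ : Q.IsHomogeneous q) (hB : Bdry p Q B) {m N : ℕ} {s : Fin N → LSymDiff p Q B m}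
    (hs : LGens p Q B m s) (hm : 1 ≤ m) {K : Type} [Field K] [Algebra ℂ K] {w : ℕ}
    {y : Fin (n + 1) → K} (hy : SubVarQ p Q K w y)
    (hf : ∀ H : MvPolynomial (Fin (n + 1)) ℂ, (∃ d, H.IsHomogeneous d) → aeval y H = 0 → H ∈ p) :
    LogGeneralType ℂ K w (OffQ Q q y) ↔ SpAlgQ p Q q ≠ PtsQ p Q := by
  constructor
  · intro hGT heq
    obtain ⟨G, hG, hGp, hGV⟩ := exists_formL hpp hp hq hQ hB hs hm hy hf hGT
    obtain ⟨j, hj⟩ := X_notMem hy.sub
    have hQp : Q ∉ p := fun h => hy.off (hy.sub.mem Q h)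
    have hGQ : G * Q ∉ p := fun h => (hpp.mem_or_mem h).elim hGp hQp
    obtain ⟨x, hx, hxG⟩ := exists_pt hpp hj hGQ
    rw [map_mul] at hxG
    have hxQ : x ∈ PtsQ p Q := ⟨hx, fun h => hxG (by rw [h, mul_zero])⟩
    rw [← heq] at hxQ
    exact hxG (by rw [hxQ.2 G hG fun F _ _ d x hd hx hngt => hGV F d x hd hx hngt, zero_mul])
  · intro h
    by_contra hngt
    have hw : 1 ≤ w := by
      by_contra hw
      have hw0 : w = 0 := by omega
      subst hw0
      exact hngt (log_of_gt' _ (gt_zero hy.sub.dim))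
    refine h (Subset.antisymm (fun x hx => hx.1) fun x hx => ⟨hx, fun G hG hGV => ?_⟩)
    exact hx.1.2 G (hf G hG (hGV K w y hw hy hngt))

end Pool.Agent.H917.Lg
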