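import Pool.Agent.H917.L.P1

/-!
# PROJECT LOG (helper917), task L1a (first half): transfer of logarithmic symmetric differentials to fields

## Paper proof (all of this is a variant of `Pool/Agent/H917/B1.lean` and of `sd_of_gens`, `loc_der` in `B2.lean`; copy the proofs)
* `lloc_div`: `(x i / x j) / (x k / x j) = x i / x k` and the same computation as in `loc_loc` (B1); for the logarithmic entries the
  factor `1 / x_j` in `(x'_i x_j - x_i x'_j) / x_j^2` drops out. `lloc_der`: `D (y i / y j) = (D y_i y_j - y_i D y_j) / y_j^2`.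
* `lclear_den`: induction on the polynomial `q`, as in `clear_den` (B1); the denominators of the entries of `lloc B i u v` are
  `u_i`, `u_i^2` and `u_b u_i` for `b ∈ B i`, which divide `(u_i ∏_{b ∈ B i} u_b)^2`.
* `ltransfer`: apply `transfer` (B1) to `F * rename Sum.inl Q`: it vanishes at all complex `(u, v)` with `TanVec p u v`, `u_j = 1`, `v_j = 0`
  (if `Q u = 0` because of the second factor). So `F * Q = 0` at the point over `R`, and `Q ≠ 0` there.
* `Bdry.b1`: Nullstellensatz for the ideal `J = p + (X j - 1) + (X b)`: by `Bdry`, `Q` vanishes at all complex zeros of `J` (such a zero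
  `u` has `u_j = 1`, so `u ∈ Pts p`), so `Q^N ∈ J` (`MvPolynomial.vanishingIdeal_zeroLocus_eq_radical`, see the proof of `transfer` in B1), i.e.
  `Q^N = h + (X j - 1) a + X b c` with `h ∈ p`. Evaluate at `u`.
* `Bdry.b2`: the same with `J = p + (X j - 1) + (Q)` and the polynomial `∏_{b ∈ B j} X b`.
* `Bdry.ne`: evaluate `Bdry.b1` at `u = x / x_j`: `Q (x / x_j) = Q x / x_j^q ≠ 0`, so `x_b / x_j ≠ 0`. (`p` is homogeneous, so `x / x_j` is a
  zero of `p` as well; see the proofs in B1, e.g. `TanVec.loc`.)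
* `LSymDiff.compatR`: as `SymDiff.compatR` (B1): let `M_i = u_i ∏_{b ∈ B i} u_b`, `M_j` similarly, `P_i`, `P_j` from `lclear_den` with exponents `K_i`, `K_j`.
  The polynomial `M_i M_j (M_j^{K_j} P_i - M_i^{K_i} P_j)` vanishes at all complex `(u, v)` with `u_j = 1`, `v_j = 0`, `Q u ≠ 0`: if `M_i M_j = 0` trivially,
  otherwise by `compat`. So by `ltransfer` it vanishes at `(x / x_j, (x'_i x_j - x_i x'_j) / x_j^2)`, where `M_i, M_j ≠ 0` by `Bdry.ne`.
* `val_eq`, `genR`, `sdl_of_gens`: as `SymDiff.val_eq`, `Gens.genR` (B1; multiply by powers of `M_j`), `sd_of_gens` (B2). `bdk_of_bdry`: `Bdry.b1`, `Bdry.b2` for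
  `u = ch y j`.
-/

set_option autoImplicit false
set_option linter.overlappingInstances false
set_option linter.unusedSectionVars false

open MvPolynomial Metric Set

namespace Pool.Agent.H917.Lg

variable {n : ℕ} {p : Ideal (MvPolynomial (Fin (n + 1)) ℂ)} {Q : MvPolynomial (Fin (n + 1)) ℂ}
  {B : Fin (n + 1) → Finset (Fin (n + 1))}

namespace L1aaux

/-- the Nullstellensatz in the chart `j` -/
theorem null {j : Fin (n + 1)} {F G : MvPolynomial (Fin (n + 1)) ℂ}
    (h : ∀ u ∈ Pts p, u j = 1 → eval u G = 0 → eval u F = 0) :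
    ∃ (N : ℕ) (c : MvPolynomial (Fin (n + 1)) ℂ), ∀ (R : Type) [Field R] [Algebra ℂ R]
      (u : Fin (n + 1) → R), (∀ H ∈ p, aeval u H = 0) → u j = 1 →
      aeval u F ^ N = aeval u G * aeval u c := by
  have h1 : F ∈ ((p ⊔ Ideal.span {X j - 1}) ⊔ Ideal.span {G}).radical := by
    rw [← vanishingIdeal_zeroLocus_eq_radical (K := ℂ), mem_vanishingIdeal_iff]
    intro z hz
    rw [mem_zeroLocus_iff] at hz
    have e1 : ∀ H ∈ p, eval z H = 0 := fun H hH => by
      rw [← ae]
      exact hz H (Ideal.mem_sup_left (Ideal.mem_sup_left hH))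
    have e2 : z j = 1 := by
      have h2 := hz (X j - 1) (Ideal.mem_sup_left (Ideal.mem_sup_right
        (Ideal.subset_span rfl)))
      rw [map_sub, map_one, aeval_X, sub_eq_zero] at h2
      exact h2
    have e3 : eval z G = 0 := by
      rw [← ae]
      exact hz G (Ideal.mem_sup_right (Ideal.subset_span rfl))
    rw [ae]
    refine h z ⟨fun h0 => ?_, e1⟩ e2 e3
    rw [h0, Pi.zero_apply] at e2
    exact zero_ne_one e2
  obtain ⟨N, hN⟩ := h1
  obtain ⟨y, hy, z, hz, hyz⟩ := Submodule.mem_sup.1 hN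
  obtain ⟨a, ha⟩ := Ideal.mem_span_singleton'.1 hz
  refine ⟨N, a, fun R _ _ u hu huj => ?_⟩
  have h2 : p ⊔ Ideal.span {X j - 1} ≤ RingHom.ker (aeval u :
      MvPolynomial (Fin (n + 1)) ℂ →ₐ[ℂ] R) := by
    refine sup_le (fun H hH => hu H hH) ?_
    rw [Ideal.span_le]
    intro H hH
    rw [Set.mem_singleton_iff] at hH
    rw [hH]
    change aeval u (X j - 1) = 0
    rw [map_sub, map_one, aeval_X, huj, sub_self]
  have h3 : aeval u y = 0 := h2 hy
  rw [← map_pow, ← hyz, map_add, h3, zero_add, ← ha, map_mul, mul_comm]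

end L1aaux

theorem lloc_div {R : Type} [Field R] {i j : Fin (n + 1)} {x x' : Fin (n + 1) → R} (hi : x i ≠ 0)
    (hj : x j ≠ 0) : lloc B i (fun k => x k / x j)
      (fun k => (x' k * x j - x k * x' j) / x j ^ 2) = lloc B i x x' := by
  funext k
  rcases k with k | k
  · change x k / x j / (x i / x j) = x k / x i
    field_simp
  · change (if k ∈ B i then ((x' k * x j - x k * x' j) / x j ^ 2 * (x i / x j) -
      x k / x j * ((x' i * x j - x i * x' j) / x j ^ 2)) / (x k / x j * (x i / x j))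
      else ((x' k * x j - x k * x' j) / x j ^ 2 * (x i / x j) -
      x k / x j * ((x' i * x j - x i * x' j) / x j ^ 2)) / (x i / x j) ^ 2) =
      if k ∈ B i then (x' k * x i - x k * x' i) / (x k * x i)
      else (x' k * x i - x k * x' i) / x i ^ 2
    split_ifs with h
    · rcases eq_or_ne (x k) 0 with h0 | h0
      · rw [h0]
        simp
      · field_simp
        ring
    · field_simp
      ring

theorem lloc_der {L : Type} [Field L] [Algebra ℂ L] (D : Derivation ℂ L L) (y : Fin (n + 1) → L)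
    {j : Fin (n + 1)} (hj : y j ≠ 0) : lloc B j y (fun i => D (y i)) = lch2 D B y j := by
  funext k
  rcases k with k | k
  · rfl
  · have h1 : D (y k / y j) = (D (y k) * y j - y k * D (y j)) / y j ^ 2 := by
      rw [div_eq_mul_inv (y k), D.leibniz, D.leibniz_inv]
      simp only [smul_eq_mul]
      field_simp
      ring
    change (if k ∈ B j then (D (y k) * y j - y k * D (y j)) / (y k * y j)
      else (D (y k) * y j - y k * D (y j)) / y j ^ 2) =
      if k ∈ B j then D (y k / y j) / (y k / y j) else D (y k / y j)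
    split_ifs with h
    · rw [h1]
      rcases eq_or_ne (y k) 0 with h0 | h0
      · rw [h0]
        simp
      · field_simp
    · exact h1.symm

theorem lclear_den (i : Fin (n + 1)) (q : MvPolynomial (Fin (n + 1) ⊕ Fin (n + 1)) ℂ) :
    ∃ (K : ℕ) (P : MvPolynomial (Fin (n + 1) ⊕ Fin (n + 1)) ℂ), ∀ (R : Type) [Field R]
      [Algebra ℂ R] (u v : Fin (n + 1) → R), u i ≠ 0 → (∀ b ∈ B i, u b ≠ 0) →
      aeval (Sum.elim u v) P = (u i * ∏ b ∈ B i, u b) ^ K * aeval (lloc B i u v) q := by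
  have hM : ∀ (R : Type) [Field R] [Algebra ℂ R] (u v : Fin (n + 1) → R),
      aeval (Sum.elim u v) ((X (Sum.inl i) * ∏ b ∈ B i, X (Sum.inl b) :
        MvPolynomial (Fin (n + 1) ⊕ Fin (n + 1)) ℂ)) = u i * ∏ b ∈ B i, u b := by
    intro R _ _ u v
    rw [map_mul, map_prod, aeval_X, Sum.elim_inl]
    congr 1
    refine Finset.prod_congr rfl fun b _ => ?_
    rw [aeval_X, Sum.elim_inl]
  induction q using MvPolynomial.induction_on with
  | C a =>
    refine ⟨0, C a, fun R _ _ u v hu hb => ?_⟩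
    rw [aeval_C, aeval_C, pow_zero, one_mul]
  | add q1 q2 h1 h2 =>
    obtain ⟨K1, P1, h1⟩ := h1
    obtain ⟨K2, P2, h2⟩ := h2
    refine ⟨K1 + K2, (X (Sum.inl i) * ∏ b ∈ B i, X (Sum.inl b)) ^ K2 * P1 +
      (X (Sum.inl i) * ∏ b ∈ B i, X (Sum.inl b)) ^ K1 * P2, fun R _ _ u v hu hb => ?_⟩
    rw [map_add, map_mul, map_mul _ (_ ^ K1), map_pow, map_pow, hM, h1 R u v hu hb,
      h2 R u v hu hb, map_add]
    ring
  | mul_X q a h =>
    obtain ⟨K, P, h⟩ := h
    rcases a with a | a
    · refine ⟨K + 1, P * (X (Sum.inl a) * ∏ b ∈ B i, X (Sum.inl b)), fun R _ _ u v hu hb => ?_⟩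
      rw [map_mul, map_mul, map_prod, aeval_X, Sum.elim_inl, h R u v hu hb, map_mul, aeval_X]
      simp only [aeval_X, Sum.elim_inl]
      change _ = (u i * ∏ b ∈ B i, u b) ^ (K + 1) * (_ * (u a / u i))
      rw [pow_succ]
      field_simp
    · by_cases ha : a ∈ B i
      · refine ⟨K + 1, P * ((X (Sum.inr a) * X (Sum.inl i) - X (Sum.inl a) * X (Sum.inr i)) *
          ∏ b ∈ (B i).erase a, X (Sum.inl b)), fun R _ _ u v hu hb => ?_⟩
        rw [map_mul, map_mul _ (_ - _), map_prod, map_sub, map_mul, map_mul, h R u v hu hb, map_mul]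
        simp only [aeval_X, Sum.elim_inl, Sum.elim_inr]
        change _ = (u i * ∏ b ∈ B i, u b) ^ (K + 1) * (_ * (if a ∈ B i then
          (v a * u i - u a * v i) / (u a * u i) else (v a * u i - u a * v i) / u i ^ 2))
        rw [if_pos ha, pow_succ]
        have h1 : ∏ b ∈ B i, u b = u a * ∏ b ∈ (B i).erase a, u b :=
          (Finset.mul_prod_erase (B i) u ha).symm
        have h2 : u a ≠ 0 := hb a ha
        have h3 : (u i * ∏ b ∈ B i, u b) * ((v a * u i - u a * v i) / (u a * u i)) =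
            (v a * u i - u a * v i) * ∏ b ∈ (B i).erase a, u b := by
          rw [h1]
          field_simp
        rw [← h3]
        ring
      · refine ⟨K + 2, P * ((X (Sum.inr a) * X (Sum.inl i) - X (Sum.inl a) * X (Sum.inr i)) *
          (∏ b ∈ B i, X (Sum.inl b)) ^ 2), fun R _ _ u v hu hb => ?_⟩
        rw [map_mul, map_mul _ (_ - _), map_pow, map_prod, map_sub, map_mul, map_mul,
          h R u v hu hb, map_mul]
        simp only [aeval_X, Sum.elim_inl, Sum.elim_inr]
        change _ = (u i * ∏ b ∈ B i, u b) ^ (K + 2) * (_ * (if a ∈ B i then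
          (v a * u i - u a * v i) / (u a * u i) else (v a * u i - u a * v i) / u i ^ 2))
        rw [if_neg ha, pow_add]
        have h3 : (u i * ∏ b ∈ B i, u b) ^ 2 * ((v a * u i - u a * v i) / u i ^ 2) =
            (v a * u i - u a * v i) * (∏ b ∈ B i, u b) ^ 2 := by
          field_simp
        rw [← h3]
        ring

theorem ltransfer {j : Fin (n + 1)} {F : MvPolynomial (Fin (n + 1) ⊕ Fin (n + 1)) ℂ}
    (hF : ∀ u v : Fin (n + 1) → ℂ, TanVec p u v → u j = 1 → v j = 0 → eval u Q ≠ 0 →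
      eval (Sum.elim u v) F = 0)
    {R : Type} [Field R] [Algebra ℂ R] {u v : Fin (n + 1) → R} (h : TanVec p u v) (hu : u j = 1)
    (hv : v j = 0) (hQ : aeval u Q ≠ 0) : aeval (Sum.elim u v) F = 0 := by
  have h1 := transfer (p := p) (j := j) (F := F * rename Sum.inl Q) (fun u v huv hu hv => by
    rw [map_mul, eval_rename]
    change _ * eval u Q = 0
    by_cases h0 : eval u Q = 0
    · rw [h0, mul_zero]
    · rw [hF u v huv hu hv h0, zero_mul]) h hu hv
  rw [map_mul, aeval_rename] at h1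
  exact (mul_eq_zero.1 h1).resolve_right hQ

theorem Bdry.b1 (hB : Bdry p Q B) (j : Fin (n + 1)) {b : Fin (n + 1)} (hb : b ∈ B j) :
    ∃ (N : ℕ) (c : MvPolynomial (Fin (n + 1)) ℂ), ∀ (R : Type) [Field R] [Algebra ℂ R]
      (u : Fin (n + 1) → R), (∀ H ∈ p, aeval u H = 0) → u j = 1 →
      aeval u Q ^ N = u b * aeval u c := by
  obtain ⟨N, c, h⟩ := L1aaux.null (p := p) (j := j) (F := Q) (G := X b) (fun u hu huj h0 => by
    rw [eval_X] at h0
    exact (hB u hu j (by rw [huj]; exact one_ne_zero)).2 ⟨b, hb, h0⟩)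
  refine ⟨N, c, fun R _ _ u hu huj => ?_⟩
  rw [h R u hu huj, aeval_X]

theorem Bdry.b2 (hB : Bdry p Q B) (j : Fin (n + 1)) :
    ∃ (N : ℕ) (c : MvPolynomial (Fin (n + 1)) ℂ), ∀ (R : Type) [Field R] [Algebra ℂ R]
      (u : Fin (n + 1) → R), (∀ H ∈ p, aeval u H = 0) → u j = 1 →
      (∏ b ∈ B j, u b) ^ N = aeval u Q * aeval u c := by
  obtain ⟨N, c, h⟩ := L1aaux.null (p := p) (j := j) (F := ∏ b ∈ B j, X b) (G := Q)
    (fun u hu huj h0 => by
      obtain ⟨b, hb, hb0⟩ := (hB u hu j (by rw [huj]; exact one_ne_zero)).1 h0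
      rw [map_prod]
      refine Finset.prod_eq_zero hb ?_
      rw [eval_X, hb0])
  refine ⟨N, c, fun R _ _ u hu huj => ?_⟩
  rw [← h R u hu huj, map_prod]
  simp only [aeval_X]

theorem Bdry.ne (hp : Pool.Agent.W603.PV.IsHomog p) {q : ℕ} (hQ : Q.IsHomogeneous q)
    (hB : Bdry p Q B) {R : Type} [Field R] [Algebra ℂ R] {x : Fin (n + 1) → R}
    (hX : ∀ H ∈ p, aeval x H = 0) (hQx : aeval x Q ≠ 0) {j : Fin (n + 1)} (hj : x j ≠ 0)
    {b : Fin (n + 1)} (hb : b ∈ B j) : x b ≠ 0 := by
  obtain ⟨N, c, h⟩ := hB.b1 j hb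
  have h4 : (fun k => x k / x j) = fun k => (x j)⁻¹ * x k := by
    funext k
    rw [div_eq_inv_mul]
  have h1 : ∀ H ∈ p, aeval (fun k => x k / x j) H = 0 := by
    intro H hH
    rw [← sum_homogeneousComponent H, map_sum]
    refine Finset.sum_eq_zero fun d _ => ?_
    have h3 := Pool.Agent.W603.PV.aeval_scale (homogeneousComponent_isHomogeneous d H) x (x j)⁻¹
    rw [h4, h3, hX _ (hp H hH d), mul_zero]
  have h2 := h R (fun k => x k / x j) h1 (div_self hj)
  have h3 := Pool.Agent.W603.PV.aeval_scale hQ x (x j)⁻¹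
  have h5 : aeval (fun k => x k / x j) Q ≠ 0 := by
    rw [h4, h3]
    exact mul_ne_zero (pow_ne_zero _ (inv_ne_zero hj)) hQx
  intro h0
  rw [h0, zero_div, zero_mul] at h2
  exact pow_ne_zero N h5 h2

end Pool.Agent.H917.Lg
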