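import Pool.Agent.H917.L.P0

/-!
# PROJECT LOG (helper917), task L2: the derivation is regular at the prime divisors which are not contracted, logarithmic on the boundary

## Paper proof (a variant of `Pool/Agent/H917/A5.lean`; read `SD.reg`, `SD.unit`, `SD.pres` there and `chart_RC`, `RC`, `RCinf`,
`pres_of_ringC` in `Pool/Graph/R_seed8/Y174/BR...` and `TH143/HE`)
Notation: `u_i = y i / y j`, `v_i = lch D B y j i` (`v_i = D u_i / u_i` for `i ∈ B j`, otherwise `v_i = D u_i`), `Q_j = aeval (ch y j) Q = Q(y) / y_j^q ≠ 0`.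
By `BdK.b1` all `u_b`, `b ∈ B j`, are not zero (`Q_j^N = u_b c`), so `D u_b = u_b v_b`.
* `SDL.reg`: as `SD.reg`.
* `SDL.unit`: as `SD.unit`, with `v_i` in place of `D u_i`: if no `v_i` is a unit, all `t⁻¹ v_i` are regular, then all values `q_l` are zero, so
  `v_i^m = 0` for all `i`, so `D u_i = 0` for all `i`, a contradiction.
* `SDL.pres`: as `SD.pres`. Let `i0` be the index with `v_{i0}` a unit, `m = m' + 1`, `A = Algebra.adjoin C (Set.range u)`. By `rel`,
  `v_a v_{i0}^{m'} ∈ A` for all `a` (the constants `aeval (lch2 ..) (q l)` are in `C`). Claim: all elements of `A`, and all `v_a`, are in `RCinf P D` (all iterated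
  derivatives are regular). By induction on `j` (the level in `RC j`): let the elements of `A`, the `v_a` and `v_{i0}⁻¹` be in `RC j` (the elements with
  `j` regular derivatives, closed under sums, products and inverses of units). For `z ∈ A`, `D z` is a combination of the `D u_a` (`= v_a` or `u_a v_a`) and of
  derivatives of constants (constants again by `hDC`) with coefficients in `A`, so `D z ∈ RC j` and `z ∈ RC (j + 1)`. `g = v_{i0}^m ∈ A`, `D g = m v_{i0}^{m'} D v_{i0}`, so
  `D v_{i0} ∈ RC j` and `v_{i0} ∈ RC (j + 1)`, also its inverse. `v_a = g_a (v_{i0}⁻¹)^{m'}`, `g_a ∈ A`. The level 0: everything is regular.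
  The subfield generated by `RCinf P D` is everything (`GenBy`; `D u_a` is `v_a` or `u_a v_a`), and `pres_of_ringC` applies exactly as in `SD.pres`.
* `SDL.log`: by `BdK.b2`, `(∏_{b ∈ B j} u_b)^N = Q_j c`, `c = aeval (ch y j) c'` regular at `P`; so `0 < P.ord (Q_j)` gives `b ∈ B j` with `ε = P.ord (u_b) > 0` (the product
  is not zero and has positive order). Let `s` be a uniformizer (`P.surj`), `u_b = s^ε w`, `P.ord w = 0`. `v_b = D u_b / u_b = ε D s / s + D w / w` is regular (`SDL.reg`), `D w / w` is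
  regular (`SDL.pres`, `w` is a unit), so `ε D s / s` is regular, and `D s / s` is regular (`ε` is an invertible constant). For `f = s^a w'`, `D f / f = a D s / s + D w' / w'`.
* `WQ_der`: `D (g Q_j) = D g Q_j + g D Q_j`, `g Q_j` is regular, so `D (g Q_j)` is regular by `SDL.pres`; `g D Q_j = (g Q_j) (D Q_j / Q_j)` and `D Q_j / Q_j` is regular: if
  `P.ord Q_j = 0` by `SDL.pres` (`Q_j` is a polynomial in the `u_i`, regular), and if `P.ord Q_j > 0` by `SDL.log`.
* `WQ_mon`: `(∏ y_i^{α_i}) / Q(y) * Q_j = ∏ u_i^{α_i}` because `Q_j = Q(y) / y_j^q` and `∑ α_i = q`.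
-/

set_option autoImplicit false
set_option linter.overlappingInstances false
set_option linter.unusedSectionVars false

open FF MvPolynomial Pool.Agent.W603.LV Pool.Agent.W619.PQ Pool.Agent.Y174.BR
  Pool.Agent.W619.TW Pool.Agent.TH143.HE

namespace Pool.Agent.H917.Lg

variable {k C L : Type} [Field k] [Field C] [Field L] [Algebra k C] [Algebra C L] [Algebra k L]
  [IsScalarTower k C L] {D : Derivation k L L} {n m : ℕ} {y : Fin n → L}
  {B : Fin n → Finset (Fin n)} {Q : MvPolynomial (Fin n) k} {q : ℕ}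

namespace L2aux

/-- sums of regular functions -/
theorem reg_sum {ι : Type} {P : Place C L} (s : Finset ι) (f : ι → L) (h : ∀ i ∈ s, P.Reg (f i)) :
    P.Reg (∑ i ∈ s, f i) :=
  sum_mem (S := P.O.toSubring) h

theorem reg_prod {ι : Type} {P : Place C L} (s : Finset ι) (f : ι → L) (h : ∀ i ∈ s, P.Reg (f i)) :
    P.Reg (∏ i ∈ s, f i) :=
  prod_mem (S := P.O.toSubring) h

theorem reg_pow {P : Place C L} {f : L} (h : P.Reg f) (n : ℕ) : P.Reg (f ^ n) :=
  pow_mem (S := P.O.toSubring) h n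

/-- products of units are units -/
theorem ord_prod_zero {ι : Type} {P : Place C L} (s : Finset ι) (f : ι → L)
    (h : ∀ i ∈ s, f i ≠ 0 ∧ P.ord (f i) = 0) : P.ord (∏ i ∈ s, f i) = 0 := by
  classical
  induction s using Finset.induction_on with
  | empty => rw [Finset.prod_empty, P.ord_one]
  | insert a s ha ih =>
    have h1 := h a (Finset.mem_insert_self a s)
    have h2 : ∀ i ∈ s, f i ≠ 0 ∧ P.ord (f i) = 0 := fun i hi => h i (Finset.mem_insert_of_mem hi)
    rw [Finset.prod_insert ha, P.ord_mul h1.1 (Finset.prod_ne_zero_iff.2 fun i hi => (h2 i hi).1),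
      h1.2, ih h2, add_zero]

/-- the logarithmic derivative of a product -/
theorem ld_mul (D : Derivation k L L) {f g : L} (hf : f ≠ 0) (hg : g ≠ 0) :
    D (f * g) / (f * g) = D f / f + D g / g := by
  rw [D.leibniz, smul_eq_mul, smul_eq_mul]
  field_simp
  ring

theorem ld_inv (D : Derivation k L L) {f : L} (hf : f ≠ 0) : D f⁻¹ / f⁻¹ = -(D f / f) := by
  rw [D.leibniz_inv, smul_eq_mul]
  field_simp

theorem ld_pow (D : Derivation k L L) {f : L} (hf : f ≠ 0) (n : ℕ) :
    D (f ^ n) / f ^ n = (n : L) * (D f / f) := by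
  induction n with
  | zero => rw [pow_zero, D.map_one_eq_zero, zero_div, Nat.cast_zero, zero_mul]
  | succ n ih =>
    rw [pow_succ, ld_mul D (pow_ne_zero n hf) hf, ih, Nat.cast_succ]
    ring

theorem ld_zpow (D : Derivation k L L) {f : L} (hf : f ≠ 0) (a : ℤ) :
    D (f ^ a) / f ^ a = (a : L) * (D f / f) := by
  cases a with
  | ofNat n =>
    rw [Int.ofNat_eq_natCast, zpow_natCast, Int.cast_natCast]
    exact ld_pow D hf n
  | negSucc n =>
    rw [zpow_negSucc, ld_inv D (pow_ne_zero _ hf), ld_pow D hf, Int.cast_negSucc]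
    ring

/-- the logarithmic derivative of a unit is regular -/
theorem reg_ld {P : Place C L} {D : Derivation k L L} (hD : ∀ z, P.Reg z → P.Reg (D z)) {w : L}
    (hw : P.ord w = 0) : P.Reg (D w / w) := by
  rw [div_eq_mul_inv]
  exact P.reg_mul (hD w (Or.inr hw.ge)) (Or.inr (by rw [P.ord_inv, hw]; norm_num))

/-- a unit and a power of a uniformizer -/
theorem ld_dec {P : Place C L} (D : Derivation k L L) {s : L} (hs0 : s ≠ 0) (hs : P.ord s = 1)
    {f : L} (hf : f ≠ 0) : ∃ w : L, P.ord w = 0 ∧ D f / f = (P.ord f : L) * (D s / s) + D w / w := by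
  refine ⟨(s ^ P.ord f)⁻¹ * f, ?_, ?_⟩
  · rw [P.ord_mul (inv_ne_zero (zpow_ne_zero _ hs0)) hf, P.ord_inv, P.ord_zpow, hs]
    ring
  · rw [ld_mul D (inv_ne_zero (zpow_ne_zero _ hs0)) hf, ld_inv D (zpow_ne_zero _ hs0),
      ld_zpow D hs0]
    ring

/-- the derivative of a chart coordinate in terms of the logarithmic derivative -/
theorem der_ch (D : Derivation k L L) (B : Fin n → Finset (Fin n)) (y : Fin n → L) (j i : Fin n) :
    D (y i / y j) = lch D B y j i ∨ D (y i / y j) = y i / y j * lch D B y j i := by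
  unfold lch
  by_cases hi : i ∈ B j
  · right
    rw [if_pos hi]
    by_cases h0 : y i / y j = 0
    · rw [h0, map_zero, zero_mul]
    · rw [mul_div_cancel₀ _ h0]
  · left
    rw [if_neg hi]

theorem aeval_mem (y : Fin n → L) (j : Fin n) (f : MvPolynomial (Fin n) k) :
    aeval (ch y j) f ∈ Algebra.adjoin C (Set.range fun l => y l / y j) := by
  induction f using MvPolynomial.induction_on with
  | C a =>
    rw [aeval_C, IsScalarTower.algebraMap_apply k C L]
    exact Subalgebra.algebraMap_mem _ _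
  | add p q hp hq => rw [map_add]; exact add_mem hp hq
  | mul_X p i hp =>
    rw [map_mul, aeval_X]
    exact mul_mem hp (Algebra.subset_adjoin ⟨i, rfl⟩)

/-- All derivatives of the functions on the chart are regular. -/
theorem chart_RC' [CharZero k] {v : Place C L} {D : Derivation k L L} {m : ℕ} {ι : Type}
    (u w : ι → L)
    (hDC : ∀ c : C, ∃ c' : C, D (algebraMap C L c) = algebraMap C L c')
    (hu : ∀ i, v.Reg (u i)) (hw : ∀ i, v.Reg (w i))
    (hder : ∀ i, D (u i) = w i ∨ D (u i) = u i * w i) {i0 : ι} (h0 : w i0 ≠ 0)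
    (h0' : v.ord (w i0) = 0)
    (hrel : ∀ i, w i * w i0 ^ m ∈ Algebra.adjoin C (Set.range u)) :
    ∀ z ∈ Algebra.adjoin C (Set.range u), z ∈ RCinf v D := by
  have hL0 : CharZero L := charZero_of_injective_algebraMap (algebraMap k L).injective
  have hui : v.Reg (w i0)⁻¹ := Or.inr (by rw [v.ord_inv, h0']; norm_num)
  have hadj : ∀ S : Subring L, (∀ c : C, algebraMap C L c ∈ S) → (∀ i, u i ∈ S) →
      ∀ z ∈ Algebra.adjoin C (Set.range u), z ∈ S := by
    intro S h1 h2 z hz
    induction hz using Algebra.adjoin_induction with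
    | mem x hx =>
      obtain ⟨i, rfl⟩ := hx
      exact h2 i
    | algebraMap r => exact h1 r
    | add x y _ _ hx hy => exact S.add_mem hx hy
    | mul x y _ _ hx hy => exact S.mul_mem hx hy
  have key : ∀ j, (∀ z ∈ Algebra.adjoin C (Set.range u), z ∈ RC v D j) ∧
      ∀ i, w i ∈ RC v D j := by
    intro j
    induction j with
    | zero => exact ⟨hadj _ (RC_const hDC 0) hu, hw⟩
    | succ j ih =>
      obtain ⟨h1, h2⟩ := ih
      have h3 := RC_inv hui j (h2 i0)
      have h4 : ∀ z ∈ Algebra.adjoin C (Set.range u), z ∈ RC v D (j + 1) := by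
        refine hadj _ (RC_const hDC _) fun i => ?_
        have hi : u i ∈ RC v D j := h1 _ (Algebra.subset_adjoin ⟨i, rfl⟩)
        refine ⟨hi, ?_⟩
        rcases hder i with h | h
        · rw [h]
          exact h2 i
        · rw [h]
          exact (RC v D j).mul_mem hi (h2 i)
      have h5 : w i0 ^ (m + 1) ∈ Algebra.adjoin C (Set.range u) := by
        have h6 := hrel i0
        rwa [← pow_succ'] at h6
      have h6 := (h4 _ h5).2
      rw [Derivation.leibniz_pow, Nat.add_sub_cancel, nsmul_eq_mul, smul_eq_mul] at h6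
      have h7 : D (w i0) = algebraMap C L (((m + 1 : ℕ) : C)⁻¹) * ((w i0)⁻¹ ^ m *
          (((m + 1 : ℕ) : L) * (w i0 ^ m * D (w i0)))) := by
        have h8 : ((m + 1 : ℕ) : L) ≠ 0 := by exact_mod_cast Nat.succ_ne_zero m
        have h9 : w i0 ^ m ≠ 0 := pow_ne_zero _ h0
        rw [map_inv₀, map_natCast, inv_pow]
        field_simp
      have h8 : w i0 ∈ RC v D (j + 1) := by
        refine ⟨h2 i0, ?_⟩
        rw [h7]
        exact (RC v D j).mul_mem (RC_const hDC j _) ((RC v D j).mul_mem (pow_mem h3 m) h6)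
      have h9 := RC_inv hui (j + 1) h8
      refine ⟨h4, fun i => ?_⟩
      have h10 : w i = (w i * w i0 ^ m) * (w i0)⁻¹ ^ m := by
        rw [mul_assoc, ← mul_pow, mul_inv_cancel₀ h0, one_pow, mul_one]
      rw [h10]
      exact (RC v D (j + 1)).mul_mem (h4 _ (hrel i)) (pow_mem h9 m)
  exact fun z hz => mem_RCinf.2 fun j => (key j).1 z hz

end L2aux

open L2aux

theorem aeval_ch (hQ : Q.IsHomogeneous q) {j : Fin n} (hj : y j ≠ 0) :
    aeval (ch y j) Q = aeval y Q / y j ^ q := by
  rw [aeval_def, aeval_def, eval₂_eq', eval₂_eq', Finset.sum_div]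
  refine Finset.sum_congr rfl fun d hd => ?_
  have h1 : ∑ i, d i = q := by
    have h2 := hQ (mem_support_iff.1 hd)
    rw [← h2, Finsupp.weight_apply, Finsupp.sum_fintype _ _ (by simp)]
    simp
  rw [mul_div_assoc]
  refine congrArg _ ?_
  rw [← h1, ← Finset.prod_pow_eq_pow_sum, ← Finset.prod_div_distrib]
  refine Finset.prod_congr rfl fun i _ => ?_
  rw [← div_pow]
  rfl

theorem SDL.reg (h : SDL C D B y m) (hm : 1 ≤ m) {P : Place C L} {j : Fin n} (hj : y j ≠ 0)
    (hreg : ∀ i, P.Reg (y i / y j)) (i : Fin n) : P.Reg (lch D B y j i) := by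
  apply reg_of_pow hm
  obtain ⟨N, q, -, hc, hb⟩ := h.rel j hj
  obtain ⟨b, hb⟩ := hb fun _ => i
  rw [Finset.prod_const, Finset.card_univ, Fintype.card_fin] at hb
  rw [hb]
  refine reg_sum _ _ fun l _ => ?_
  obtain ⟨c, hc⟩ := hc l
  rw [hc]
  exact P.reg_mul (reg_aeval (b l) hreg) (P.reg_const c)

theorem SDL.unit (h : SDL C D B y m) (hm : 1 ≤ m) (hB : BdK B Q y) (hQ : Q.IsHomogeneous q)
    {P : Place C L} {j : Fin n} (hj : y j ≠ 0) (hreg : ∀ i, P.Reg (y i / y j))
    (hD : ∃ i, D (y i / y j) ≠ 0) : ∃ i, lch D B y j i ≠ 0 ∧ P.ord (lch D B y j i) = 0 := by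
  by_contra hall
  push Not at hall
  obtain ⟨t, ht0, ht⟩ := P.surj
  have hG' : ∀ i, P.Reg (t⁻¹ * lch D B y j i) := by
    intro i
    by_cases ha : lch D B y j i = 0
    · rw [ha, mul_zero]
      exact P.reg_zero
    · have h1 := (P.reg_iff ha).1 (h.reg hm hj hreg i)
      have h2 := hall i ha
      refine Or.inr ?_
      rw [P.ord_mul (inv_ne_zero ht0) ha, P.ord_inv, ht]
      omega
  obtain ⟨N, q, hq, hc, hb⟩ := h.rel j hj
  have hzero : ∀ l, aeval (lch2 D B y j) (q l) = 0 := by
    intro l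
    by_contra hne
    have h1 : P.Reg (aeval (Sum.elim (ch y j) fun i => t⁻¹ * lch D B y j i) (q l)) := by
      refine reg_aeval (q l) ?_
      rintro (i | i)
      · exact hreg i
      · exact hG' i
    have h2 := hq l (ch y j) (fun i => t⁻¹ * lch D B y j i) t
    have h3 : (fun i => t * (t⁻¹ * lch D B y j i)) = lch D B y j := by
      funext i
      rw [← mul_assoc, mul_inv_cancel₀ ht0, one_mul]
    rw [h3] at h2
    change aeval (lch2 D B y j) (q l) = _ at h2
    obtain ⟨c, hc⟩ := hc l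
    have hc0 : c ≠ 0 := by
      rintro rfl
      rw [map_zero] at hc
      exact hne hc
    have h4 : aeval (Sum.elim (ch y j) fun i => t⁻¹ * lch D B y j i) (q l) ≠ 0 := fun h0 =>
      hne (by rw [h2, h0, mul_zero])
    have h5 := (P.reg_iff h4).1 h1
    have h6 : P.ord (aeval (lch2 D B y j) (q l)) = 0 := by
      rw [hc, P.ord_const hc0]
    rw [h2, P.ord_mul (pow_ne_zero m ht0) h4, P.ord_pow, ht] at h6
    have h7 : (1 : ℤ) ≤ m := by exact_mod_cast hm
    omega
  obtain ⟨i, hi⟩ := hD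
  apply hi
  obtain ⟨b, hb⟩ := hb fun _ => i
  rw [Finset.prod_const, Finset.card_univ, Fintype.card_fin] at hb
  rw [Finset.sum_eq_zero fun l _ => by rw [hzero, mul_zero]] at hb
  have h8 : lch D B y j i = 0 := (pow_eq_zero_iff (by omega)).1 hb
  rcases der_ch D B y j i with h9 | h9
  · rw [h9, h8]
  · rw [h9, h8, mul_zero]

/-- **The derivation is regular at the prime divisors which are not contracted.** -/
theorem SDL.pres [CharZero k] [CharZero C] (h : SDL C D B y m) (hm : 1 ≤ m) (hB : BdK B Q y)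
    (hQ : Q.IsHomogeneous q)
    (hDC : ∀ c : C, ∃ c' : C, D (algebraMap C L c) = algebraMap C L c')
    (hess : Algebra.EssFiniteType C L) {e : ℕ} (he : Algebra.trdeg C L = (e + 1 : ℕ))
    (hD : ∃ i j, D (y i / y j) ≠ 0) (hgen : GenBy C D y) {P : Place C L} (hP : P ∈ VP y (e + 1)) :
    ∀ z, P.Reg z → P.Reg (D z) := by
  obtain ⟨j, hj, hreg, x, hx, hxi⟩ := hP
  have hL0 : CharZero L := charZero_of_injective_algebraMap (algebraMap C L).injective
  have hquot : ∀ i l, y i / y l = (y i / y j) / (y l / y j) := by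
    intro i l
    rw [div_div_div_cancel_right₀ hj]
  have hD' : ∃ i, D (y i / y j) ≠ 0 := by
    by_contra hcon
    push Not at hcon
    obtain ⟨a, b, hab⟩ := hD
    apply hab
    rw [hquot a b, div_eq_mul_inv, D.leibniz, D.leibniz_inv, hcon, hcon]
    simp
  obtain ⟨i0, hi0, hi1⟩ := h.unit hm hB hQ hj hreg hD'
  obtain ⟨m', rfl⟩ : ∃ m', m = m' + 1 := ⟨m - 1, by omega⟩
  have hrel : ∀ a, lch D B y j a * lch D B y j i0 ^ m' ∈
      Algebra.adjoin C (Set.range fun l => y l / y j) := by
    intro a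
    obtain ⟨N, q, -, hc, hb⟩ := h.rel j hj
    obtain ⟨b, hb⟩ := hb (Fin.cons a fun _ => i0)
    rw [Fin.prod_univ_succ] at hb
    simp only [Fin.cons_zero, Fin.cons_succ, Finset.prod_const, Finset.card_univ,
      Fintype.card_fin] at hb
    rw [hb]
    refine sum_mem fun l _ => ?_
    obtain ⟨c, hc'⟩ := hc l
    rw [hc']
    exact mul_mem (aeval_mem y j (b l)) (Subalgebra.algebraMap_mem _ c)
  have hR := chart_RC' (v := P) (D := D) (fun l => y l / y j) (lch D B y j) hDC hreg
    (h.reg hm hj hreg) (der_ch D B y j) hi0 hi1 hrel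
  have hR' : ∀ a, y a / y j ∈ RCinf P D := fun a => hR _ (Algebra.subset_adjoin ⟨a, rfl⟩)
  have hfrac : Subfield.closure (RCinf P D : Set L) = ⊤ := by
    have h1 : ∀ a, y a / y j ∈ Subfield.closure (RCinf P D : Set L) := fun a =>
      Subfield.subset_closure (hR' a)
    have h2 : ∀ a, D (y a / y j) ∈ Subfield.closure (RCinf P D : Set L) := fun a =>
      Subfield.subset_closure (RCinf_der (hR' a))
    refine hgen _ (fun c => Subfield.subset_closure (mem_RCinf.2 fun j => RC_const hDC j c))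
      (fun a b => ?_) fun a b => ?_
    · rw [hquot]
      exact Subfield.div_mem _ (h1 a) (h1 b)
    · rw [hquot, div_eq_mul_inv, D.leibniz, D.leibniz_inv]
      simp only [smul_eq_mul]
      exact Subfield.add_mem _ (Subfield.mul_mem _ (h1 _) (Subfield.mul_mem _
        (Subfield.neg_mem _ (Subfield.pow_mem _ (Subfield.inv_mem _ (h1 _)) 2)) (h2 _)))
        (Subfield.mul_mem _ (Subfield.inv_mem _ (h1 _)) (h2 _))
  refine pres_of_ringC hess he P D hDC (RCinf P D) (fun z hz => RC_reg 0 (mem_RCinf.1 hz 0))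
    (fun z hz => RCinf_der hz) hfrac (x := x) (fun i => ?_) hxi
  obtain ⟨a, ha, b, hb, hb0, hb1, hab⟩ := hx i
  rw [hab, div_eq_mul_inv]
  refine Subring.mul_mem _ (hR a ha) (mem_RCinf.2 fun j => ?_)
  exact RC_inv (Or.inr (by rw [P.ord_inv, hb1]; norm_num)) j (mem_RCinf.1 (hR b hb) j)

theorem BdK.ne (hB : BdK B Q y) (hQ : Q.IsHomogeneous q) {j : Fin n} (hj : y j ≠ 0) :
    aeval (ch y j) Q ≠ 0 := by
  rw [aeval_ch hQ hj]
  exact div_ne_zero hB.off (pow_ne_zero _ hj)

/-- **The derivation is logarithmic at the prime divisors over the boundary.** -/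
theorem SDL.log [CharZero k] [CharZero C] (h : SDL C D B y m) (hm : 1 ≤ m) (hB : BdK B Q y)
    (hQ : Q.IsHomogeneous q)
    (hDC : ∀ c : C, ∃ c' : C, D (algebraMap C L c) = algebraMap C L c')
    (hess : Algebra.EssFiniteType C L) {e : ℕ} (he : Algebra.trdeg C L = (e + 1 : ℕ))
    (hD : ∃ i j, D (y i / y j) ≠ 0) (hgen : GenBy C D y) {P : Place C L} (hP : P ∈ VP y (e + 1))
    {j : Fin n} (hj : y j ≠ 0) (hreg : ∀ i, P.Reg (y i / y j))
    (hoff : 0 < P.ord (aeval (ch y j) Q)) : ∀ f, P.Reg (D f / f) := by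
  have hL0 : CharZero L := charZero_of_injective_algebraMap (algebraMap C L).injective
  have hpres := h.pres hm hB hQ hDC hess he hD hgen hP
  have hQ0 := hB.ne hQ hj
  -- the coordinates in `B j` are not zero
  have hb0 : ∀ b ∈ B j, y b / y j ≠ 0 := by
    intro b hb h0
    obtain ⟨N, c, hc⟩ := hB.b1 j hj b hb
    rw [h0, zero_mul] at hc
    exact pow_ne_zero N hQ0 hc
  -- one of them vanishes at `P`
  obtain ⟨b, hb, hbo⟩ : ∃ b ∈ B j, 0 < P.ord (y b / y j) := by
    by_contra hcon
    push Not at hcon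
    obtain ⟨N, c, hc⟩ := hB.b2 j hj
    have h1 : P.ord (∏ b ∈ B j, y b / y j) = 0 := by
      refine ord_prod_zero _ _ fun b hb => ⟨hb0 b hb, ?_⟩
      exact le_antisymm (hcon b hb) ((P.reg_iff (hb0 b hb)).1 (hreg b))
    have h2 : (∏ b ∈ B j, y b / y j) ≠ 0 := Finset.prod_ne_zero_iff.2 hb0
    have h3 : P.ord ((∏ b ∈ B j, y b / y j) ^ N) = 0 := by rw [P.ord_pow, h1, mul_zero]
    have h4 : aeval (ch y j) c ≠ 0 := by
      intro h0
      rw [h0, mul_zero] at hc
      exact pow_ne_zero N h2 hc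
    have h5 : P.Reg (aeval (ch y j) c) := reg_aeval c hreg
    have h6 := (P.reg_iff h4).1 h5
    rw [hc, P.ord_mul hQ0 h4] at h3
    omega
  obtain ⟨s, hs0, hs⟩ := P.surj
  -- the logarithmic derivative of the uniformizer
  have hls : P.Reg (D s / s) := by
    obtain ⟨w, hw, hdec⟩ := ld_dec (P := P) D hs0 hs (hb0 b hb)
    have h1 : P.Reg (D (y b / y j) / (y b / y j)) := by
      have h2 := h.reg hm hj hreg b
      unfold lch at h2
      rwa [if_pos hb] at h2
    have h3 := reg_ld hpres hw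
    have h4 : P.Reg (((P.ord (y b / y j) : ℤ) : L) * (D s / s)) := by
      have h5 : ((P.ord (y b / y j) : ℤ) : L) * (D s / s) =
          D (y b / y j) / (y b / y j) + -(D w / w) := by
        rw [hdec]
        ring
      rw [h5]
      exact P.reg_add h1 (P.reg_neg h3)
    have h6 : ((P.ord (y b / y j) : ℤ) : L) ≠ 0 := by
      have : P.ord (y b / y j) ≠ 0 := by omega
      exact_mod_cast this
    have h7 : D s / s = algebraMap C L (((P.ord (y b / y j) : ℤ) : C)⁻¹) *
        (((P.ord (y b / y j) : ℤ) : L) * (D s / s)) := by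
      rw [map_inv₀, map_intCast, ← mul_assoc, inv_mul_cancel₀ h6, one_mul]
    rw [h7]
    exact P.reg_mul (P.reg_const _) h4
  intro f
  by_cases hf : f = 0
  · rw [hf, map_zero, zero_div]
    exact P.reg_zero
  obtain ⟨w, hw, hdec⟩ := ld_dec (P := P) D hs0 hs hf
  rw [hdec]
  refine P.reg_add (P.reg_mul ?_ hls) (reg_ld hpres hw)
  have h1 := P.reg_const ((P.ord f : ℤ) : C)
  rwa [map_intCast] at h1

theorem WQ_der [CharZero k] [CharZero C] (h : SDL C D B y m) (hm : 1 ≤ m) (hB : BdK B Q y)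
    (hQ : Q.IsHomogeneous q)
    (hDC : ∀ c : C, ∃ c' : C, D (algebraMap C L c) = algebraMap C L c')
    (hess : Algebra.EssFiniteType C L) {e : ℕ} (he : Algebra.trdeg C L = (e + 1 : ℕ))
    (hD : ∃ i j, D (y i / y j) ≠ 0) (hgen : GenBy C D y) {g : L}
    (hg : g ∈ WQ (C := C) (VP y (e + 1)) Q y) : D g ∈ WQ (C := C) (VP y (e + 1)) Q y := by
  intro P hP j hj hreg
  have hpres := h.pres hm hB hQ hDC hess he hD hgen hP
  have hQ0 := hB.ne hQ hj
  have h1 : P.Reg (g * aeval (ch y j) Q) := hg P hP j hj hreg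
  have h2 : P.Reg (D (aeval (ch y j) Q) / aeval (ch y j) Q) := by
    rcases lt_or_ge 0 (P.ord (aeval (ch y j) Q)) with h3 | h3
    · exact h.log hm hB hQ hDC hess he hD hgen hP hj hreg h3 _
    · have h4 : P.Reg (aeval (ch y j) Q) := reg_aeval Q hreg
      exact reg_ld hpres (le_antisymm h3 ((P.reg_iff hQ0).1 h4))
  have h3 : D g * aeval (ch y j) Q = D (g * aeval (ch y j) Q) +
      -(g * aeval (ch y j) Q * (D (aeval (ch y j) Q) / aeval (ch y j) Q)) := by
    rw [D.leibniz, smul_eq_mul, smul_eq_mul]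
    field_simp
    ring
  rw [h3]
  exact P.reg_add (hpres _ h1) (P.reg_neg (P.reg_mul h1 h2))

theorem WQ_mon (hQ : Q.IsHomogeneous q) (hoff : aeval y Q ≠ 0) (V : Set (Place C L))
    (α : Fin n →₀ ℕ) (hα : ∑ i, α i = q) :
    (∏ i, y i ^ α i) / aeval y Q ∈ WQ (C := C) V Q y := by
  intro P hP j hj hreg
  have h1 : (∏ i, y i ^ α i) / aeval y Q * aeval (ch y j) Q = ∏ i, (y i / y j) ^ α i := by
    rw [aeval_ch hQ hj, ← hα, ← Finset.prod_pow_eq_pow_sum, div_mul_div_cancel₀ hoff,
      ← Finset.prod_div_distrib]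
    refine Finset.prod_congr rfl fun i _ => ?_
    rw [div_pow]
  rw [h1]
  exact reg_prod _ _ fun i _ => reg_pow (hreg i) _

end Pool.Agent.H917.Lg
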