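import Pool.Agent.H917.F2
import Pool.Agent.H917.L.P0

/-!
# PROJECT LOG: logarithmic symmetric differentials on projective varieties, in coordinates
-/

set_option autoImplicit false
set_option linter.overlappingInstances false
set_option linter.unusedSectionVars false

open MvPolynomial Metric Set

namespace Pool.Agent.H917.Lg

open Pool.Agent.W602.GT (IsForm LogGeneralType coords)
open Pool.Agent.W603.GR (OffQ)

variable {n : ℕ}

/-- The coordinates of the tangent vector `x'` at the point `x` in the chart where the `j`-th
coordinate is one: `x i / x j` and its derivative, the logarithmic derivative if `i ∈ B j`. -/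
noncomputable def lloc {R : Type} [Field R] (B : Fin (n + 1) → Finset (Fin (n + 1)))
    (j : Fin (n + 1)) (x x' : Fin (n + 1) → R) : Fin (n + 1) ⊕ Fin (n + 1) → R :=
  Sum.elim (fun i => x i / x j) fun i =>
    if i ∈ B j then (x' i * x j - x i * x' j) / (x i * x j)
    else (x' i * x j - x i * x' j) / x j ^ 2

/-- `B` gives the boundary coordinates: in the chart where the `j`-th coordinate is not zero, the
hypersurface `Q = 0` and the union of the hyperplanes given by the coordinates in `B j` have the
same intersection with the projective variety with the ideal `p`. -/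
def Bdry (p : Ideal (MvPolynomial (Fin (n + 1)) ℂ)) (Q : MvPolynomial (Fin (n + 1)) ℂ)
    (B : Fin (n + 1) → Finset (Fin (n + 1))) : Prop :=
  ∀ x ∈ Pts p, ∀ j, x j ≠ 0 → (eval x Q = 0 ↔ ∃ b ∈ B j, x b = 0)

/-- A logarithmic symmetric differential of degree `m` on the projective variety with the
homogeneous ideal `p`, with the boundary `Q = 0` and the boundary coordinates `B`: a function on
the tangent vectors at the points outside the boundary which, in each standard chart, is given by a
polynomial which is homogeneous of degree `m` in the derivatives of the coordinates, logarithmic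
derivatives for the boundary coordinates. -/
structure LSymDiff (p : Ideal (MvPolynomial (Fin (n + 1)) ℂ)) (Q : MvPolynomial (Fin (n + 1)) ℂ)
    (B : Fin (n + 1) → Finset (Fin (n + 1))) (m : ℕ) where
  pol : Fin (n + 1) → MvPolynomial (Fin (n + 1) ⊕ Fin (n + 1)) ℂ
  hom : ∀ j, (pol j).IsWeightedHomogeneous (Sum.elim (fun _ => 0) fun _ => 1) m
  compat : ∀ i j, ∀ x x' : Fin (n + 1) → ℂ, TanVec p x x' → eval x Q ≠ 0 → x i ≠ 0 → x j ≠ 0 →
    eval (lloc B i x x') (pol i) = eval (lloc B j x x') (pol j)

variable {p : Ideal (MvPolynomial (Fin (n + 1)) ℂ)} {Q : MvPolynomial (Fin (n + 1)) ℂ}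
  {B : Fin (n + 1) → Finset (Fin (n + 1))}

/-- The logarithmic symmetric differentials `s l` generate the `m`-th symmetric power of the
logarithmic cotangent sheaf: in each standard chart, the products of `m` (logarithmic) differentials
of coordinates are combinations of the `s l` with polynomial coefficients. -/
def LGens (p : Ideal (MvPolynomial (Fin (n + 1)) ℂ)) (Q : MvPolynomial (Fin (n + 1)) ℂ)
    (B : Fin (n + 1) → Finset (Fin (n + 1))) (m : ℕ) {N : ℕ} (s : Fin N → LSymDiff p Q B m) :
    Prop :=
  ∀ (j : Fin (n + 1)) (I : Fin m → Fin (n + 1)),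
    ∃ b : Fin N → MvPolynomial (Fin (n + 1)) ℂ, ∀ x x' : Fin (n + 1) → ℂ, TanVec p x x' →
      eval x Q ≠ 0 → x j ≠ 0 →
      ∏ k, lloc B j x x' (Sum.inr (I k)) =
        ∑ l, eval (fun i => x i / x j) (b l) * eval (lloc B j x x') ((s l).pol j)

/-- the value of a logarithmic symmetric differential at a tangent vector -/
noncomputable def LSymDiff.val {m : ℕ} (s : LSymDiff p Q B m) {R : Type} [Field R] [Algebra ℂ R]
    (x x' : Fin (n + 1) → R) : R := by
  classical
  exact if h : ∃ j, x j ≠ 0 then aeval (lloc B h.choose x x') (s.pol h.choose) else 0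

/-- the value along a curve -/
noncomputable def LSymDiff.along {m : ℕ} (s : LSymDiff p Q B m) (f : ℂ → Fin (n + 1) → ℂ) (z : ℂ) :
    ℂ := s.val (f z) (dv f z)

end Pool.Agent.H917.Lg
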