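import Pool.Agent.H917.L.F1
import Pool.Agent.H917.L.F2
import Pool.Agent.H917.L.F3
import Pool.Agent.H917.L.F4

/-!
PROJECT LOG: restriction to subvarieties, the special subsets, the finite union of the subvarieties
which are not of log general type.
-/

set_option autoImplicit false
set_option linter.overlappingInstances false
set_option linter.unusedSectionVars false

open MvPolynomial Metric Set MeasureTheory

namespace Pool.Agent.H917.Lg

open Pool.Agent.W602.GT (IsForm LogGeneralType GeneralType coords)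
open Pool.Agent.W603.GR (OffQ)
open Pool.Agent.H917.G (HolMap PE)

variable {n : ℕ} {p p' : Ideal (MvPolynomial (Fin (n + 1)) ℂ)} {Q : MvPolynomial (Fin (n + 1)) ℂ}
  {B : Fin (n + 1) → Finset (Fin (n + 1))}

/-- The `m`-th symmetric power of the logarithmic cotangent sheaf of the projective variety with the
ideal `p`, with the boundary `Q = 0` and the boundary coordinates `B`, is generated by global
sections. -/
def LGenerated (p : Ideal (MvPolynomial (Fin (n + 1)) ℂ)) (Q : MvPolynomial (Fin (n + 1)) ℂ)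
    (B : Fin (n + 1) → Finset (Fin (n + 1))) (m : ℕ) : Prop :=
  ∃ (N : ℕ) (s : Fin N → LSymDiff p Q B m), LGens p Q B m s

/-- `p` is the ideal of a projective variety such that the complement of `Q = 0` in it has positive
dimension and is not of log general type. -/
def NotLGT (p : Ideal (MvPolynomial (Fin (n + 1)) ℂ)) (Q : MvPolynomial (Fin (n + 1)) ℂ)
    (q : ℕ) : Prop :=
  ∃ (K : Type) (_ : Field K) (_ : Algebra ℂ K) (w : ℕ) (y : Fin (n + 1) → K), 1 ≤ w ∧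
    SubVarQ p Q K w y ∧ (∀ H : MvPolynomial (Fin (n + 1)) ℂ, (∃ d, H.IsHomogeneous d) →
      aeval y H = 0 → H ∈ p) ∧ ¬ LogGeneralType ℂ K w (OffQ Q q y)

theorem Bdry.res (h : p ≤ p') (hB : Bdry p Q B) : Bdry p' Q B :=
  fun x hx j hj => hB x ⟨hx.1, fun H hH => hx.2 H (h hH)⟩ j hj

/-- the restriction of a logarithmic symmetric differential to a closed subvariety -/
def LSymDiff.res {m : ℕ} (h : p ≤ p') (s : LSymDiff p Q B m) : LSymDiff p' Q B m :=
  ⟨s.pol, s.hom, fun i j x x' hx => s.compat i j x x' (hx.le h)⟩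

theorem LGens.res {m N : ℕ} {s : Fin N → LSymDiff p Q B m} (hs : LGens p Q B m s) (h : p ≤ p') :
    LGens p' Q B m fun l => (s l).res h := by
  intro j I
  obtain ⟨b, hb⟩ := hs j I
  exact ⟨b, fun x x' hx => hb x x' (hx.le h)⟩

theorem LGenerated.res {m : ℕ} (hs : LGenerated p Q B m) (h : p ≤ p') : LGenerated p' Q B m := by
  obtain ⟨N, s, hs⟩ := hs
  exact ⟨N, _, hs.res h⟩

/-- **The special subsets are equal.** -/
theorem lsp_eq (hp : Pool.Agent.W603.PV.IsHomog p) {q : ℕ} (hq : 1 ≤ q)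
    (hQ : Q.IsHomogeneous q) (hB : Bdry p Q B) {m : ℕ} (hm : 1 ≤ m) (hg : LGenerated p Q B m) :
    SpPQ p Q = SpAlgQ p Q q ∧ SpHQ p Q = SpAlgQ p Q q ∧ SpGmQ p Q = SpAlgQ p Q q ∧
      SpMerQ p Q = SpAlgQ p Q q := by
  obtain ⟨N, s, hs⟩ := hg
  have h1 := spPQ_sub hp hq hQ hB hs hm
  have h2 := spHQ_sub hp hq hQ hB hs hm
  have h3 := spAlgQ_sub_spHQ hp hq hQ hB hs hm
  have h4 := spAlgQ_sub_spPQ hp hq hQ hB hs hm
  have h5 := spAlgQ_sub_spGmQ hp hq hQ hB hs hm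
  have h6 := spGmQ_sub_spHQ hp hq hQ
  have h7 := spHQ_sub_spMerQ p Q
  have h8 := spMerQ_sub_spHQ hp hQ
  exact ⟨h1.antisymm h4, h2.antisymm h3, (h6.trans h2).antisymm h5,
    (h8.trans h2).antisymm (h3.trans h7)⟩

theorem not_mem_spAlgQ {q : ℕ}
    (hp : Pool.Agent.W603.PV.IsHomog p) {x : Fin (n + 1) → ℂ} (hx : x ≠ 0)
    (hxQ : eval x Q ≠ 0) (h : x ∉ SpAlgQ p Q q) :
    ∃ G : MvPolynomial (Fin (n + 1)) ℂ, (∃ d, G.IsHomogeneous d) ∧
      (∀ (K : Type) [Field K] [Algebra ℂ K] (w : ℕ) (y : Fin (n + 1) → K), 1 ≤ w →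
        SubVarQ p Q K w y → ¬ LogGeneralType ℂ K w (OffQ Q q y) → aeval y G = 0) ∧
      eval x G ≠ 0 := by
  by_cases hxq : x ∈ Pts p
  · by_contra hcon
    push Not at hcon
    exact h ⟨⟨hxq, hxQ⟩, hcon⟩
  · have h1 : ∃ H ∈ p, eval x H ≠ 0 := by
      by_contra hcon
      push Not at hcon
      exact hxq ⟨hx, hcon⟩
    obtain ⟨H, hH, hHx⟩ := h1
    have h2 : ∃ d, eval x (homogeneousComponent d H) ≠ 0 := by
      by_contra hcon
      push Not at hcon
      apply hHx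
      rw [← sum_homogeneousComponent H, map_sum]
      exact Finset.sum_eq_zero fun d _ => hcon d
    obtain ⟨d, hd⟩ := h2
    exact ⟨homogeneousComponent d H, ⟨d, homogeneousComponent_isHomogeneous d H⟩,
      fun K _ _ w y _ hy _ => hy.sub.mem _ (hp H hH d), hd⟩

theorem spAlgQ_mono {q : ℕ} (h : p ≤ p') : SpAlgQ p' Q q ⊆ SpAlgQ p Q q := by
  rintro x ⟨⟨hx1, hx2⟩, hx⟩
  refine ⟨⟨⟨hx1.1, fun H hH => hx1.2 H (h hH)⟩, hx2⟩, fun G hG hV => hx G hG ?_⟩
  intro K _ _ w y hw hy hngt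
  exact hV K w y hw ⟨⟨hy.sub.ne, fun H hH => hy.sub.mem H (h hH), hy.sub.gen, hy.sub.dim⟩,
    hy.off⟩ hngt

theorem pts_sub_spAlgQ {q : ℕ} (hp : NotLGT p Q q) : PtsQ p Q ⊆ SpAlgQ p Q q := by
  obtain ⟨K, _, _, w, y, hw, hy, hf, hngt⟩ := hp
  intro x hx
  refine ⟨hx, fun G hG hV => ?_⟩
  exact hx.1.2 G (hf G hG (hV K w y hw hy hngt))

theorem subVarQ_sup {K : Type} [Field K] [Algebra ℂ K]
    {w : ℕ} {y : Fin (n + 1) → K} (hy : SubVarQ p Q K w y) {A : MvPolynomial (Fin (n + 1)) ℂ}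
    (hA : aeval y A = 0) : SubVarQ (p ⊔ Ideal.span {A}) Q K w y :=
  ⟨subVar_sup hy.sub hA, hy.off⟩

/-- **The union of the subvarieties which are not of log general type.** -/
theorem finite_unionQ {q : ℕ} (hq : 1 ≤ q) (hQ : Q.IsHomogeneous q) (hB : Bdry p Q B) {m : ℕ}
    (hm : 1 ≤ m) (hg : LGenerated p Q B m) :
    ∀ I : Ideal (MvPolynomial (Fin (n + 1)) ℂ), p ≤ I → Pool.Agent.W603.PV.IsHomog I →
      ∃ S : Finset (Ideal (MvPolynomial (Fin (n + 1)) ℂ)),
        (∀ r ∈ S, I ≤ r ∧ r.IsPrime ∧ Pool.Agent.W603.PV.IsHomog r ∧ NotLGT r Q q) ∧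
          ∀ x ∈ SpAlgQ I Q q, ∃ r ∈ S, x ∈ PtsQ r Q := by
  classical
  intro I
  induction I using WellFoundedGT.induction with
  | ind I ih =>
  intro hpI hI
  by_cases hX : ∀ j, X j ∈ I
  · refine ⟨∅, fun q hq => absurd hq (Finset.notMem_empty q), fun x hx => ?_⟩
    exfalso
    apply hx.1.1.1
    funext j
    have h1 := hx.1.1.2 _ (hX j)
    rwa [eval_X] at h1
  · push Not at hX
    obtain ⟨j, hj⟩ := hX
    by_cases hQI : Q ∈ I
    · refine ⟨∅, fun q hq => absurd hq (Finset.notMem_empty q), fun x hx => ?_⟩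
      exact absurd (hx.1.1.2 _ hQI) hx.1.2
    have hltsup : ∀ A, A ∉ I → I < I ⊔ Ideal.span {A} := by
      intro A hA
      refine lt_of_le_of_ne le_sup_left fun h => hA ?_
      rw [h]
      exact Ideal.mem_sup_right (Ideal.mem_span_singleton_self A)
    by_cases hAB : ∀ A B : MvPolynomial (Fin (n + 1)) ℂ, (∃ d, A.IsHomogeneous d) →
        (∃ d, B.IsHomogeneous d) → A * B ∈ I → A ∈ I ∨ B ∈ I
    · have hIp : I.IsPrime := isPrime_of_forms hI (fun h => hj (h ▸ Submodule.mem_top)) hAB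
      obtain ⟨K, i1, i2, w, y, hy0, hyg, hyd, hyf⟩ := exists_funField hIp hj
      have hy1 : SubVar I K w y := by
        refine ⟨hy0, fun H hH => ?_, hyg, hyd⟩
        rw [← sum_homogeneousComponent H, map_sum]
        exact Finset.sum_eq_zero fun d _ =>
          (hyf _ ⟨d, homogeneousComponent_isHomogeneous d H⟩).2 (hI H hH d)
      have hy : SubVarQ I Q K w y := ⟨hy1, fun h => hQI ((hyf Q ⟨q, hQ⟩).1 h)⟩
      have hyf' : ∀ H : MvPolynomial (Fin (n + 1)) ℂ, (∃ d, H.IsHomogeneous d) →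
          aeval y H = 0 → H ∈ I := fun H hH => (hyf H hH).1
      obtain ⟨N, s, hs⟩ := hg.res hpI
      by_cases hGT : LogGeneralType ℂ K w (OffQ Q q y)
      · obtain ⟨G, hG, hGI, hGV⟩ := exists_formL hIp hI hq hQ (hB.res hpI) hs hm hy hyf' hGT
        obtain ⟨S, hS1, hS2⟩ := ih _ (hltsup G hGI) (hpI.trans le_sup_left) (isHomog_sup hI hG)
        refine ⟨S, fun q hq => ⟨le_sup_left.trans (hS1 q hq).1, (hS1 q hq).2⟩, fun x hx => ?_⟩
        refine hS2 x ?_
        by_contra hxS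
        obtain ⟨G1, hG1, hG1V, hG1x⟩ := not_mem_spAlgQ (isHomog_sup hI hG) hx.1.1.1 hx.1.2 hxS
        refine hG1x (hx.2 G1 hG1 fun F _ _ d x' hd hx' hngt => ?_)
        exact hG1V F d x' hd (subVarQ_sup hx' (hGV F d x' hd hx' hngt)) hngt
      · have hw : 1 ≤ w := by
          by_contra hw
          have hw0 : w = 0 := by omega
          subst hw0
          exact hGT (log_of_gt' _ (gt_zero hy1.dim))
        refine ⟨{I}, fun q hq => ?_, fun x hx => ⟨I, Finset.mem_singleton_self I, hx.1⟩⟩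
        rw [Finset.mem_singleton] at hq
        subst hq
        exact ⟨le_rfl, hIp, hI, K, i1, i2, w, y, hw, hy, hyf', hGT⟩
    · push Not at hAB
      obtain ⟨A, B', hA, hB', hAB, hAI, hBI⟩ := hAB
      obtain ⟨S1, h1, h2⟩ := ih _ (hltsup A hAI) (hpI.trans le_sup_left) (isHomog_sup hI hA)
      obtain ⟨S2, h3, h4⟩ := ih _ (hltsup B' hBI) (hpI.trans le_sup_left) (isHomog_sup hI hB')
      refine ⟨S1 ∪ S2, fun q hq => ?_, fun x hx => ?_⟩
      · rcases Finset.mem_union.1 hq with hq | hq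
        · exact ⟨le_sup_left.trans (h1 q hq).1, (h1 q hq).2⟩
        · exact ⟨le_sup_left.trans (h3 q hq).1, (h3 q hq).2⟩
      · have h5 : x ∈ SpAlgQ (I ⊔ Ideal.span {A}) Q q ∨ x ∈ SpAlgQ (I ⊔ Ideal.span {B'}) Q q := by
          by_contra hcon
          push Not at hcon
          obtain ⟨G1, ⟨d1, hG1⟩, hG1V, hG1x⟩ :=
            not_mem_spAlgQ (isHomog_sup hI hA) hx.1.1.1 hx.1.2 hcon.1
          obtain ⟨G2, ⟨d2, hG2⟩, hG2V, hG2x⟩ :=
            not_mem_spAlgQ (isHomog_sup hI hB') hx.1.1.1 hx.1.2 hcon.2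
          have h6 := hx.2 (G1 * G2) ⟨d1 + d2, hG1.mul hG2⟩ fun F _ _ d x' hd hx' hngt => by
            rw [map_mul]
            have h7 := hx'.sub.mem _ hAB
            rw [map_mul, mul_eq_zero] at h7
            rcases h7 with h7 | h7
            · rw [hG1V F d x' hd (subVarQ_sup hx' h7) hngt, zero_mul]
            · rw [hG2V F d x' hd (subVarQ_sup hx' h7) hngt, mul_zero]
          rw [map_mul, mul_eq_zero] at h6
          exact h6.elim hG1x hG2x
        rcases h5 with h5 | h5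
        · obtain ⟨q, hq, hxq⟩ := h2 x h5
          exact ⟨q, Finset.mem_union_left _ hq, hxq⟩
        · obtain ⟨q, hq, hxq⟩ := h4 x h5
          exact ⟨q, Finset.mem_union_right _ hq, hxq⟩

theorem spAlgQ_eq (hp : Pool.Agent.W603.PV.IsHomog p) {q : ℕ} (hq : 1 ≤ q)
    (hQ : Q.IsHomogeneous q) (hB : Bdry p Q B) {m : ℕ} (hm : 1 ≤ m) (hg : LGenerated p Q B m) :
    ∃ S : Finset (Ideal (MvPolynomial (Fin (n + 1)) ℂ)),
      (∀ r ∈ S, p ≤ r ∧ r.IsPrime ∧ Pool.Agent.W603.PV.IsHomog r ∧ NotLGT r Q q) ∧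
        SpAlgQ p Q q = {x | ∃ r ∈ S, x ∈ PtsQ r Q} := by
  obtain ⟨S, h1, h2⟩ := finite_unionQ hq hQ hB hm hg p le_rfl hp
  refine ⟨S, h1, Subset.antisymm h2 ?_⟩
  rintro x ⟨r, hr, hx⟩
  exact spAlgQ_mono (h1 r hr).1 (pts_sub_spAlgQ (h1 r hr).2.2.2 hx)

end Pool.Agent.H917.Lg
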