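import Pool.Agent.H917.G.W2
import Pool.Agent.H917.L.R0

/-!
PROJECT LOG: the exceptional set of a variety of log general type.
-/

set_option autoImplicit false
set_option linter.overlappingInstances false
set_option linter.unusedSectionVars false

open MvPolynomial Metric Set MeasureTheory

namespace Pool.Agent.H917.Lg

open Pool.Agent.W602.GT (IsForm LogGeneralType GeneralType coords)
open Pool.Agent.W603.GR (OffQ)
open Pool.Agent.H917.G (HolMap PE)

variable {n : ℕ} {p p' : Ideal (MvPolynomial (Fin (n + 1)) ℂ)} {Q : MvPolynomial (Fin (n + 1)) ℂ}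
  {B : Fin (n + 1) → Finset (Fin (n + 1))}

/-- **The characterisation of log general type.** -/
theorem lgt_iff (hpp : p.IsPrime) (hp : Pool.Agent.W603.PV.IsHomog p) {q : ℕ} (hq : 1 ≤ q)
    (hQ : Q.IsHomogeneous q) (hB : Bdry p Q B) {m : ℕ} (hm : 1 ≤ m) (hg : LGenerated p Q B m)
    {K : Type} [Field K] [Algebra ℂ K] {w : ℕ} {y : Fin (n + 1) → K} (hy : SubVarQ p Q K w y)
    (hf : ∀ H : MvPolynomial (Fin (n + 1)) ℂ, (∃ d, H.IsHomogeneous d) → aeval y H = 0 → H ∈ p) :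
    LogGeneralType ℂ K w (OffQ Q q y) ↔ SpAlgQ p Q q ≠ PtsQ p Q := by
  obtain ⟨N, s, hs⟩ := hg
  exact tfae_lgt hpp hp hq hQ hB hs hm hy hf

/-- **The exceptional set of a variety of log general type.** -/
theorem lstrongly (hpp : p.IsPrime) (hp : Pool.Agent.W603.PV.IsHomog p) {q : ℕ} (hq : 1 ≤ q)
    (hQ : Q.IsHomogeneous q) (hB : Bdry p Q B) {m : ℕ} (hm : 1 ≤ m) (hg : LGenerated p Q B m)
    {K : Type} [Field K] [Algebra ℂ K] {w : ℕ} {y : Fin (n + 1) → K} (hy : SubVarQ p Q K w y)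
    (hf : ∀ H : MvPolynomial (Fin (n + 1)) ℂ, (∃ d, H.IsHomogeneous d) → aeval y H = 0 → H ∈ p)
    (hLG : LogGeneralType ℂ K w (OffQ Q q y)) :
    ∃ S : Finset (Ideal (MvPolynomial (Fin (n + 1)) ℂ)),
      (∀ r ∈ S, p < r ∧ r.IsPrime ∧ Pool.Agent.W603.PV.IsHomog r ∧ NotLGT r Q q) ∧
      (∀ (F : Type) [Field F] [Algebra ℂ F] (d : ℕ) (x : Fin (n + 1) → F), 1 ≤ d →
        SubVarQ p Q F d x → ¬ LogGeneralType ℂ F d (OffQ Q q x) →
          ∃ r ∈ S, ∀ H ∈ r, aeval x H = 0) ∧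
      SpAlgQ p Q q = {x | ∃ r ∈ S, x ∈ PtsQ r Q} := by
  classical
  obtain ⟨S, h3, h4⟩ := spAlgQ_eq hp hq hQ hB hm hg
  have hne : SpAlgQ p Q q ≠ PtsQ p Q := (lgt_iff hpp hp hq hQ hB hm hg hy hf).1 hLG
  refine ⟨S, fun r hr => ?_, fun F _ _ d x hd hx hngt => ?_, h4⟩
  · obtain ⟨h5, h6, h7, h8⟩ := h3 r hr
    refine ⟨lt_of_le_of_ne h5 fun h9 => hne ?_, h6, h7, h8⟩
    subst h9
    exact Subset.antisymm (fun x hx => hx.1) (pts_sub_spAlgQ h8)
  · obtain ⟨q', hpq, hq', hxq, hqf⟩ := exists_ideal hp hx.sub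
    have h6 : ∃ r ∈ insert (q' ⊔ Ideal.span {Q}) S, ∀ H ∈ r, aeval x H = 0 := by
      refine sub_of_union (fun r hr => ?_) hq' hxq hqf fun z hz => ?_
      · rcases Finset.mem_insert.1 hr with rfl | hr
        · exact isHomog_sup hq' ⟨q, hQ⟩
        · exact (h3 r hr).2.2.1
      · by_cases hzQ : eval z Q = 0
        · refine ⟨_, Finset.mem_insert_self _ _, hz.1, fun H hH => ?_⟩
          obtain ⟨a, ha, b, hb, rfl⟩ := Submodule.mem_sup.1 hH
          obtain ⟨c, rfl⟩ := Ideal.mem_span_singleton.1 hb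
          rw [map_add, hz.2 a ha, map_mul, hzQ, zero_mul, add_zero]
        · have h5 := spAlgQ_mono (q := q) hpq (pts_sub_spAlgQ ⟨F, inferInstance, inferInstance,
            d, x, hd, ⟨hxq, hx.off⟩, hqf, hngt⟩ ⟨hz, hzQ⟩)
          rw [h4] at h5
          obtain ⟨r, hr, hzr⟩ := h5
          exact ⟨r, Finset.mem_insert_of_mem hr, hzr.1⟩
    obtain ⟨r, hr, hrx⟩ := h6
    rcases Finset.mem_insert.1 hr with rfl | hr
    · exact absurd (hrx Q (Ideal.mem_sup_right (Ideal.mem_span_singleton_self Q))) hx.off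
    · exact ⟨r, hr, hrx⟩

end Pool.Agent.H917.Lg
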