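import Pool.Agent.H917.L.K1
import Pool.Agent.H917.L.L5
import Pool.Agent.H917.L.S1
import Pool.Agent.H917.L.U1
import Pool.Agent.H917.L.G1a

/-!
# PROJECT LOG (helper917), task V1 (curve_of_nlgt): curves through general points of subvarieties which are not of log general type; hypersurfaces containing them

## Paper proof
`curve_of_nlgt`: let `M = AlgebraicClosure K`, `x = algebraMap y`. `key_NL` gives a derivation `D` of `M` with `D (value) = 0` for all values of the `s l` at `(x, D x)`, not all zero. So `D (x i / x j) ≠ 0` for some `i, j` (`val_constL`).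
Apply `linSysA_amb` with `C = consts D` (`mem_consts`, as in the proof of `exists_form` in `Pool/Agent/H917/D5.lean`): `h`, `A`, and for each `t : Fin ν` (choice) `b t` with `vr α Q x t = ∑ j b t j h j`. Some
`D (vr α Q x t0) ≠ 0`: otherwise all ratios `x i / x j = vr(..) / vr(..)` (with exponents `e_i + (q-1) e_j` and `q e_j`) would be constants. Apply `exists_specA` with `β = vr α Q x`.
(`aeval (vr α Q x) H = algebraMap (aeval (vr α Q y) H)`.)
`exists_formL` (port of `exists_form` in D5): suppose not. Then for all forms `G ∉ p` there are `F, x` as in the statement with `aeval x G ≠ 0`, and `key_NL` for `AlgebraicClosure F` gives the hypothesis of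
`exists_ultraL`. So there are `M, D, x` with `x` generic for `p`. As above (`val_constL`, `linSysA_amb` with `C = consts D`) one gets `h, A, b` and `t0` with `β = vr α Q x`, `D (β t0) ≠ 0`. Let `r` be the size of `h`.
`gen_of_lgt` for the generic point `y` of `p` and `(s, r, e) = (1, r, 1)` gives `G ∉ ker (aeval (vr α Q y))` and `d`. As `x` is a generic point as well, `aeval β G ≠ 0` (`ker (aeval (vr α Q x)) = ker (aeval (vr α Q y))`: a
polynomial in `x ^ α / Q(x)`, multiplied by a power of `Q(x)`, is the value at `x` of a form, after making the summands homogeneous of the same degree with further factors `Q`; forms vanish at `x` iff they are in `p` iff they vanish at `y`).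
`exists_specA` gives `f : ℂ → Fin ν → ℂ` in `MVec univ cst 1 r 1`, satisfying the relations `ker (aeval (vr α Q y))`, with `eval (f 0) G ≠ 0` and `f · t0` not constant. By `GenDegA` (with `Ω = univ`, `M = cst`, `cst_ring`)
all `f · u` are algebraic over the constants (`AlgM univ cst d (f · u) 1`), so continuous functions with values in a finite set, constant (compare `alg_const` in D5); a contradiction.
-/

set_option autoImplicit false
set_option linter.overlappingInstances false
set_option linter.unusedSectionVars false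

open MvPolynomial Metric Set Filter Topology

namespace Pool.Agent.H917.Lg

open Pool.Agent.W602.GT (IsForm LogGeneralType coords consts mem_consts)
open Pool.Agent.W603.GR (OffQ)
open Pool.Agent.Q139.EG Pool.Agent.Y377.ST
open Pool.Agent.TH143.GT (FunField)

variable {n : ℕ} {p : Ideal (MvPolynomial (Fin (n + 1)) ℂ)} {Q : MvPolynomial (Fin (n + 1)) ℂ}
  {B : Fin (n + 1) → Finset (Fin (n + 1))}

namespace V1aux

theorem prod_single {R : Type} [Field R] (x : Fin (n + 1) → R) (i : Fin (n + 1)) (a : ℕ) :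
    ∏ k, x k ^ (Finsupp.single i a : Fin (n + 1) →₀ ℕ) k = x i ^ a := by
  classical
  rw [Finset.prod_eq_single i]
  · rw [Finsupp.single_eq_same]
  · intro k _ hk
    rw [Finsupp.single_apply, if_neg (fun h => hk h.symm), pow_zero]
  · intro h
    exact absurd (Finset.mem_univ _) h

theorem sum_single (i : Fin (n + 1)) (a : ℕ) :
    ∑ k, (Finsupp.single i a : Fin (n + 1) →₀ ℕ) k = a := by
  classical
  rw [Finset.sum_eq_single i]
  · rw [Finsupp.single_eq_same]
  · intro k _ hk
    rw [Finsupp.single_apply, if_neg (fun h => hk h.symm)]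
  · intro h
    exact absurd (Finset.mem_univ _) h

theorem exists_nonconst {M : Type} [Field M] [Algebra ℂ M] (D : Derivation ℂ M M)
    {q : ℕ} (hq : 1 ≤ q) {ν : ℕ} {α : Fin ν → (Fin (n + 1) →₀ ℕ)} (hα : Enum q α)
    {x : Fin (n + 1) → M} (hQx : aeval x Q ≠ 0) (hnc : ∃ i j, D (x i / x j) ≠ 0) :
    ∃ t0, D (vr α Q x t0) ≠ 0 := by
  by_contra hall
  push Not at hall
  obtain ⟨i, j, hij⟩ := hnc
  have hxj : x j ≠ 0 := by
    intro h0
    apply hij
    rw [h0, div_zero, map_zero]
  obtain ⟨t1, ht1⟩ := hα.2 (Finsupp.single i 1 + Finsupp.single j (q - 1)) (by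
    simp only [Finsupp.add_apply]
    rw [Finset.sum_add_distrib, sum_single, sum_single]
    omega)
  obtain ⟨t2, ht2⟩ := hα.2 (Finsupp.single j q) (sum_single j q)
  have e1 : vr α Q x t1 = x i * x j ^ (q - 1) / aeval x Q := by
    unfold vr
    rw [ht1]
    simp only [Finsupp.add_apply, pow_add]
    rw [Finset.prod_mul_distrib, prod_single, prod_single, pow_one]
  have e2 : vr α Q x t2 = x j ^ q / aeval x Q := by
    unfold vr
    rw [ht2, prod_single]
  have e3 : x i / x j = vr α Q x t1 / vr α Q x t2 := by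
    rw [e1, e2]
    obtain ⟨a, rfl⟩ : ∃ a, q = a + 1 := ⟨q - 1, by omega⟩
    rw [Nat.add_sub_cancel, pow_succ]
    have h1 : x j ^ a ≠ 0 := pow_ne_zero _ hxj
    field_simp
  apply hij
  rw [e3]
  exact mem_consts.1 (div_mem (mem_consts.2 (hall t1)) (mem_consts.2 (hall t2)))

end V1aux

theorem curve_of_nlgt (hp : Pool.Agent.W603.PV.IsHomog p) {q : ℕ} (hq : 1 ≤ q)
    (hQ : Q.IsHomogeneous q) (hB : Bdry p Q B) {m N : ℕ} {s : Fin N → LSymDiff p Q B m}
    (hs : LGens p Q B m s) (hm : 1 ≤ m) {ν : ℕ} {α : Fin ν → (Fin (n + 1) →₀ ℕ)} (hα : Enum q α)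
    {K : Type} [Field K] [Algebra ℂ K] {w : ℕ} {y : Fin (n + 1) → K} (hw : 1 ≤ w)
    (hy : SubVarQ p Q K w y) (hngt : ¬ LogGeneralType ℂ K w (OffQ Q q y))
    {G : MvPolynomial (Fin ν) ℂ} (hG : aeval (vr α Q y) G ≠ 0) :
    ∃ (r : ℕ) (f : ℂ → Fin ν → ℂ), MVec univ cst 1 r 1 f ∧
      (∀ t, Differentiable ℂ fun z => f z t) ∧
      (∀ H : MvPolynomial (Fin ν) ℂ, aeval (vr α Q y) H = 0 → ∀ z, eval (f z) H = 0) ∧
      eval (f 0) G ≠ 0 ∧ ∃ z w, f z ≠ f w := by
  classical
  obtain ⟨D, h1, l, h2⟩ := key_NL (M := AlgebraicClosure K) hp hQ hB hs hm hw hy.sub.ne hy.sub.mem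
    hy.off hy.sub.gen hy.sub.dim hngt
  obtain ⟨x, hx⟩ : ∃ x : Fin (n + 1) → AlgebraicClosure K,
      x = fun i => algebraMap K (AlgebraicClosure K) (y i) := ⟨_, rfl⟩
  rw [← hx] at h2
  have h1' : ∀ l, D ((s l).val x fun i => D (x i)) = 0 := by
    intro l
    have := h1 l
    rw [← hx] at this
    have e : (fun i => D (algebraMap K (AlgebraicClosure K) (y i))) = fun i => D (x i) := by
      rw [hx]
    rwa [e] at this
  have h2' : (s l).val x (fun i => D (x i)) ≠ 0 := by
    have e : (fun i => D (algebraMap K (AlgebraicClosure K) (y i))) = fun i => D (x i) := by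
      rw [hx]
    rwa [e] at h2
  have hmemM : ∀ H : MvPolynomial (Fin (n + 1)) ℂ, aeval x H =
      algebraMap K (AlgebraicClosure K) (aeval y H) := by
    intro H
    have h3 := aeval_algebraMap_apply (A := K) (AlgebraicClosure K) y H
    have h4 : (algebraMap K (AlgebraicClosure K) ∘ y) = x := by
      rw [hx]
      rfl
    rw [← h4, h3]
  have hX : ∀ H ∈ p, aeval x H = 0 := by
    intro H hH
    rw [hmemM, hy.sub.mem H hH, map_zero]
  have hQx : aeval x Q ≠ 0 := by
    rw [hmemM]
    exact fun h => hy.off ((map_eq_zero _).1 h)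
  obtain ⟨j0, hj0⟩ := Function.ne_iff.1 hy.sub.ne
  have hxj0 : x j0 ≠ 0 := by
    rw [hx]
    exact fun h => hj0 ((map_eq_zero _).1 h)
  have hx0 : x ≠ 0 := by
    intro h
    exact hxj0 (congrFun h j0)
  -- the point is not constant
  have hnc : ∃ i j, D (x i / x j) ≠ 0 := by
    by_contra hall
    push Not at hall
    exact h2' (val_constL hp hQ hB hm (s l) D hx0 hX hQx hall)
  obtain ⟨r, h, A, hA, hh, hb⟩ := linSysA_amb D (consts D)
    (fun c hc => by
      rw [mem_consts] at hc ⊢
      rw [hc, map_zero]) hp hQ hB hs hm hxj0 hX hQx (fun l => mem_consts.2 (h1' l)) hnc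
  choose b hbC hbx using fun t => hb (α t) (hα.1 t)
  obtain ⟨t0, ht0⟩ := V1aux.exists_nonconst D hq hα hQx hnc
  have hvr : vr α Q x = fun t => algebraMap K (AlgebraicClosure K) (vr α Q y t) := by
    funext t
    unfold vr
    rw [map_div₀, map_prod, hmemM, hx]
    congr 1
    refine Finset.prod_congr rfl fun k _ => ?_
    rw [map_pow]
  have hvrM : ∀ H : MvPolynomial (Fin ν) ℂ, aeval (vr α Q x) H =
      algebraMap K (AlgebraicClosure K) (aeval (vr α Q y) H) := by
    intro H
    have h3 := aeval_algebraMap_apply (A := K) (AlgebraicClosure K) (vr α Q y) H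
    have h4 : (algebraMap K (AlgebraicClosure K) ∘ vr α Q y) = vr α Q x := by
      rw [hvr]
      rfl
    rw [← h4, h3]
  have hGx : aeval (vr α Q x) G ≠ 0 := by
    rw [hvrM]
    exact fun h => hG ((map_eq_zero _).1 h)
  obtain ⟨f, hf, hfd, hfr, hf0, z, w', hzw⟩ := exists_specA D (fun i j => mem_consts.1 (hA i j))
    (fun t j => mem_consts.1 (hbC t j)) hh (β := vr α Q x) (fun t => hbx t) hGx ht0
  refine ⟨r, f, hf, hfd, fun H hH z => hfr H ?_ z, hf0, z, w', fun h => hzw (congrFun h t0)⟩
  rw [hvrM, hH, map_zero]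

end Pool.Agent.H917.Lg
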